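import Pool.Agent.VS.Defs
import Pool.Agent.VN.NFBasic
import Pool.Agent.VNP.AsLab
/-!
# Finite asymptotic dimension: from coverings to maps
-/
namespace Pool.Agent.VS
open Pool.Agent.SLX Pool.Agent.VN

theorem asd_of_asdim {A G : Type} [Group G] {π : A → G} [Finite A] (F : NF A G π) {D : ℕ}
    (h : VNP.AsdimLE G D) : Asd F D := by
  classical
  intro R
  -- a finite symmetric set of steps
  let S : Set G := {g | F.l g ≤ R} ∪ {g | F.l g ≤ R}⁻¹
  have hS : S.Finite := (F.finite_ball R).union (F.finite_ball R).inv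
  obtain ⟨K, hK, c, hc⟩ := h S hS
  let r : G → G → Prop := fun u v => c u = c v ∧ u⁻¹ * v ∈ S
  have hsymm : ∀ u v, r u v → r v u := by
    rintro u v ⟨h1, h2⟩
    refine ⟨h1.symm, ?_⟩
    have e : v⁻¹ * u = (u⁻¹ * v)⁻¹ := by group
    rw [e]
    rcases h2 with h2 | h2
    · exact Or.inr (by rw [Set.mem_inv, inv_inv]; exact h2)
    · exact Or.inl (by rw [Set.mem_inv] at h2; exact h2)
  have hsymm' : ∀ u v, Relation.ReflTransGen r u v → Relation.ReflTransGen r v u := by
    intro u v huv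
    induction huv with
    | refl => exact Relation.ReflTransGen.refl
    | tail _ h2 ih => exact Relation.ReflTransGen.head (hsymm _ _ h2) ih
  let s : Setoid G := ⟨Relation.ReflTransGen r, fun _ => Relation.ReflTransGen.refl,
    fun {u v} huv => hsymm' u v huv, fun h1 h2 => h1.trans h2⟩
  let φ : G → G := fun x => (Quotient.mk s x).out
  have hφ : ∀ x, Relation.ReflTransGen r x (φ x) := by
    intro x
    have h1 : s (φ x) x := Quotient.exact (Quotient.out_eq (Quotient.mk s x))
    exact hsymm' _ _ h1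
  have hφc : ∀ u v, r u v → φ u = φ v := by
    intro u v huv
    have h1 : Quotient.mk s u = Quotient.mk s v :=
      Quotient.sound (show Relation.ReflTransGen r u v from Relation.ReflTransGen.single huv)
    show (Quotient.mk s u).out = (Quotient.mk s v).out
    rw [h1]
  -- the displacement
  obtain ⟨B, hB⟩ : ∃ B : ℕ, ∀ k ∈ K, F.l k ≤ B ∧ F.l k⁻¹ ≤ B := by
    obtain ⟨B1, hB1⟩ := (hK.image F.l).bddAbove
    obtain ⟨B2, hB2⟩ := (hK.image (fun k => F.l k⁻¹)).bddAbove
    refine ⟨max B1 B2, fun k hk => ⟨?_, ?_⟩⟩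
    · exact (hB1 ⟨k, hk, rfl⟩).trans (le_max_left _ _)
    · exact (hB2 ⟨k, hk, rfl⟩).trans (le_max_right _ _)
  refine ⟨B, φ, ?_, ?_⟩
  · intro x
    have h1 := hB _ (hc x (φ x) (hφ x))
    refine ⟨h1.1, ?_⟩
    have e : (φ x)⁻¹ * x = (x⁻¹ * φ x)⁻¹ := by group
    rw [e]
    exact h1.2
  · intro σ hσ
    -- points of the same colour have the same image
    have hcol : ∀ x ∈ σ, ∀ y ∈ σ, c x = c y → φ x = φ y := by
      intro x hx y hy hxy
      exact hφc x y ⟨hxy, Or.inl (hσ x hx y hy)⟩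
    have h1 : ((φ '' (σ : Set G))).ncard ≤ (c '' (σ : Set G)).ncard := by
      have hfin : (c '' (σ : Set G)).Finite := Set.toFinite _
      choose! g hg1 hg2 using (fun (i : Fin (D + 1)) (hi : i ∈ c '' (σ : Set G)) => hi)
      have hsub : φ '' (σ : Set G) ⊆ (fun i => φ (g i)) '' (c '' (σ : Set G)) := by
        rintro _ ⟨x, hx, rfl⟩
        refine ⟨c x, ⟨x, hx, rfl⟩, ?_⟩
        have h2 : c x ∈ c '' (σ : Set G) := ⟨x, hx, rfl⟩
        exact hcol _ (by exact_mod_cast hg1 _ h2) _ (by exact_mod_cast hx) (hg2 _ h2)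
      exact (Set.ncard_le_ncard hsub (hfin.image _)).trans (Set.ncard_image_le hfin)
    have h2 : (c '' (σ : Set G)).ncard ≤ D + 1 := by
      have h3 := Set.ncard_le_ncard (Set.subset_univ (c '' (σ : Set G))) Set.finite_univ
      rw [Set.ncard_univ, Nat.card_eq_fintype_card, Fintype.card_fin] at h3
      exact h3
    exact h1.trans h2

end Pool.Agent.VS
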