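import Pool.Agent.VN.PolyEnd
/-!
# Virtually polycyclic groups: the algebraic end
-/
namespace Pool.Agent.VS

theorem poly_vab (G : Type) [Group G]
    (h1 : ∀ a b z : G, z = a⁻¹ * b⁻¹ * a * b → a * z = z * a → b * z = z * b →
      (Set.range (fun g : G => g⁻¹ * z * g)).Finite → ∃ k : ℕ, 0 < k ∧ z ^ k = 1)
    (h2 : ∀ B : Subgroup G, B.Normal → B.FG → (∀ a ∈ B, ∀ b ∈ B, a * b = b * a) →
      (Subgroup.centralizer (B : Set G)).FiniteIndex)
    (hfg : ∀ K : Subgroup G, K.FG) (H : Subgroup G) [H.FiniteIndex] [Group.IsSolvable H] :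
    ∃ H : Subgroup G, H.FiniteIndex ∧ ∀ a ∈ H, ∀ b ∈ H, a * b = b * a := by
  refine VN.poly_vab_comm G hfg H (fun A hA hA' => h2 A hA (hfg A) hA') ?_
  intro x y z hz hx hy hfc
  refine isOfFinOrder_iff_pow_eq_one.2 (h1 x⁻¹ y⁻¹ z ?_ ?_ ?_ hfc)
  · rw [hz, inv_inv, inv_inv]
  · exact ((show Commute x z from hx).inv_left).eq
  · exact ((show Commute y z from hy).inv_left).eq

end Pool.Agent.VS
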