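import Pool.Agent.VS.Main
import Pool.Agent.VS.Asd
import Pool.Agent.VS.Q1
import Pool.Agent.VS.Q2
import Pool.Agent.VS.Poly
import Pool.Agent.VNP.AsExt
/-!
# Conjugates of length close to the translation number
-/
namespace Pool.Agent.VS
open Pool.Agent.SLX Pool.Agent.VN

variable {A G : Type} [Group G] {π : A → G}

theorem short_iff (F : NF A G π) (n : ℕ) (g : G) : IsShort (Set.range π) n g ↔ F.l g ≤ n := by
  constructor
  · rintro ⟨v, hv, rfl, hn⟩
    have h1 : ∃ u : List A, u.map π = v := by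
      clear hn
      induction v with
      | nil => exact ⟨[], rfl⟩
      | cons x v ih =>
        obtain ⟨a, ha⟩ := hv x (by simp)
        obtain ⟨u, hu⟩ := ih (fun y hy => hv y (by simp [hy]))
        exact ⟨a :: u, by simp [ha, hu]⟩
    obtain ⟨u, rfl⟩ := h1
    have h2 := F.l_val u
    unfold val at h2
    rw [List.length_map] at hn
    omega
  · intro h
    refine ⟨(F.nf g).map π, ?_, ?_, ?_⟩
    · intro x hx
      rw [List.mem_map] at hx
      obtain ⟨a, _, rfl⟩ := hx
      exact ⟨a, rfl⟩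
    · exact F.val_nf g
    · rw [List.length_map]
      exact h

theorem closure_eq_top (F : NF A G π) : Submonoid.closure (Set.range π) = ⊤ := by
  rw [eq_top_iff]
  intro g _
  rw [← F.val_nf g]
  unfold val
  apply Submonoid.list_prod_mem
  intro x hx
  rw [List.mem_map] at hx
  obtain ⟨a, _, rfl⟩ := hx
  exact Submonoid.subset_closure ⟨a, rfl⟩

theorem l_pow_le (F : NF A G π) (g : G) (n : ℕ) : F.l (g ^ n) ≤ n * F.l g := by
  induction n with
  | zero => simp [F.l_one]
  | succ n ih =>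
    rw [pow_succ]
    have := F.l_mul (g ^ n) g
    rw [Nat.succ_mul]
    omega

theorem tau_of_pow (F : NF A G π) {w : G} {n T : ℕ} (hn : 0 < n) (h : F.l (w ^ n) ≤ n * T) :
    Tau F w (T + 1) := by
  intro B
  refine ⟨n * F.l w + B, ?_⟩
  set k := n * F.l w + B with hk
  have h1 : F.l (w ^ (2 ^ k)) ≤ 2 ^ k * T + n * F.l w := by
    have e : 2 ^ k = n * (2 ^ k / n) + 2 ^ k % n := (Nat.div_add_mod _ _).symm
    have h2 : F.l (w ^ (2 ^ k)) ≤ F.l ((w ^ n) ^ (2 ^ k / n)) + F.l (w ^ (2 ^ k % n)) := by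
      conv_lhs => rw [e, pow_add, pow_mul]
      exact F.l_mul _ _
    have h3 : F.l ((w ^ n) ^ (2 ^ k / n)) ≤ (2 ^ k / n) * (n * T) :=
      (l_pow_le F _ _).trans (Nat.mul_le_mul_left _ h)
    have h4 : F.l (w ^ (2 ^ k % n)) ≤ n * F.l w :=
      (l_pow_le F _ _).trans (Nat.mul_le_mul_right _ (Nat.mod_lt _ hn).le)
    have h5 : (2 ^ k / n) * (n * T) ≤ 2 ^ k * T := by
      rw [← mul_assoc]
      exact Nat.mul_le_mul_right _ (Nat.div_mul_le_self _ _)
    omega
  have h6 : k < 2 ^ k := Nat.lt_two_pow_self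
  have h7 : 2 ^ k * (T + 1) = 2 ^ k * T + 2 ^ k := by ring
  omega

/-- Main theorem: conjugates of length close to the translation number. -/
theorem conj_length (G : Type) [Group G] {D : ℕ} (hD : VNP.AsdimLE G D) (h : HasSystem G) :
    ∃ S : Set G, S.Finite ∧ Submonoid.closure S = ⊤ ∧ ∃ C : ℕ, ∀ (w : G) (n T : ℕ), 0 < n →
      IsShort S (n * T) (w ^ n) → ∃ x : G, IsShort S (T + C) (x⁻¹ * w * x) := by
  obtain ⟨A, hA, hlo, π, E, hE⟩ := h
  obtain ⟨F⟩ := exists_NF hE
  obtain ⟨C, hC⟩ := conj_short F (asd_of_asdim F hD)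
  refine ⟨Set.range π, Set.finite_range π, closure_eq_top F, C + 1, ?_⟩
  intro w n T hn hw
  rw [short_iff F] at hw
  obtain ⟨x, hx⟩ := hC w (T + 1) (tau_of_pow F hn hw)
  refine ⟨x, ?_⟩
  rw [short_iff F]
  omega

/-- A virtually polycyclic group with a finite complete ShortLex system is virtually abelian. -/
theorem vpc {G : Type} [Group G] (H : Subgroup G) [H.FiniteIndex] [Group.IsSolvable H]
    (hfg : ∀ K : Subgroup G, K.FG) (h : HasSystem G) :
    ∃ H : Subgroup G, H.FiniteIndex ∧ ∀ a ∈ H, ∀ b ∈ H, a * b = b * a := by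
  obtain ⟨D, hD⟩ := VNP.asdimLE_virt H hfg
  obtain ⟨A, hA, hlo, π, E, hE⟩ := h
  obtain ⟨F⟩ := exists_NF hE
  have hB := conj_short F (asd_of_asdim F hD)
  refine poly_vab G ?_ ?_ hfg H
  · intro a b z hz ha hb hfc
    exact fc_torsion F hB a b z hz ha hb hfc
  · intro B hBn hBfg hc
    exact abel_normal F hB B hBfg hc

end Pool.Agent.VS
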