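import Mathlib
/-!
# Construction of linear maps by recursion on the size of the basis elements
-/
namespace Pool.Agent.VS

theorem exists_rec {B T : Type} (dB : (B →₀ ZMod 2) →ₗ[ZMod 2] (B →₀ ZMod 2)) (size : B → ℕ)
    (hs : ∀ b, ∀ b' ∈ (dB (Finsupp.single b 1)).support, size b' < size b)
    (Q : B → (T →₀ ZMod 2) → (T →₀ ZMod 2) → Prop)
    (step : ∀ (b : B) (H : (B →₀ ZMod 2) →ₗ[ZMod 2] (T →₀ ZMod 2)),
      (∀ b', size b' < size b →
        Q b' (H (dB (Finsupp.single b' 1))) (H (Finsupp.single b' 1))) →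
      ∃ y, Q b (H (dB (Finsupp.single b 1))) y) :
    ∃ H : (B →₀ ZMod 2) →ₗ[ZMod 2] (T →₀ ZMod 2), ∀ b,
      Q b (H (dB (Finsupp.single b 1))) (H (Finsupp.single b 1)) := by
  classical
  let r : B → B → Prop := fun b' b => size b' < size b
  have wf : WellFounded r := InvImage.wf size Nat.lt_wfRel.wf
  let Fr : ∀ b : B, (∀ b', r b' b → (T →₀ ZMod 2)) → (T →₀ ZMod 2) := fun b rec =>
    if h : ∃ y, Q b ((dB (Finsupp.single b 1)).sum
        (fun b' a => a • (if h : size b' < size b then rec b' h else 0))) y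
      then h.choose else 0
  let H0 : B → (T →₀ ZMod 2) := wf.fix Fr
  have hH0 : ∀ b, H0 b = Fr b (fun b' _ => H0 b') := fun b => wf.fix_eq Fr b
  let H : (B →₀ ZMod 2) →ₗ[ZMod 2] (T →₀ ZMod 2) := Finsupp.linearCombination (ZMod 2) H0
  have hu : ∀ b, (dB (Finsupp.single b 1)).sum
      (fun b' a => a • (if _h : size b' < size b then H0 b' else 0)) =
      H (dB (Finsupp.single b 1)) := by
    intro b
    show _ = Finsupp.linearCombination (ZMod 2) H0 (dB (Finsupp.single b 1))
    rw [Finsupp.linearCombination_apply]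
    apply Finsupp.sum_congr
    intro b' hb'
    rw [dif_pos (hs b b' hb')]
  have hH : ∀ b, H (Finsupp.single b 1) = H0 b := by
    intro b
    show Finsupp.linearCombination (ZMod 2) H0 (Finsupp.single b 1) = H0 b
    rw [Finsupp.linearCombination_single, one_smul]
  refine ⟨H, ?_⟩
  have key : ∀ n : ℕ, ∀ b, size b < n →
      Q b (H (dB (Finsupp.single b 1))) (H (Finsupp.single b 1)) := by
    intro n
    induction n with
    | zero =>
      intro b hb
      omega
    | succ n ih =>
      intro b hb
      have h1 := step b H (fun b' hb' => ih b' (by omega))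
      rw [hH, hH0]
      show Q b (H (dB (Finsupp.single b 1))) (if h : ∃ y, Q b ((dB (Finsupp.single b 1)).sum
        (fun b' a => a • (if h : size b' < size b then H0 b' else 0))) y
        then h.choose else 0)
      rw [← hu] at h1 ⊢
      rw [dif_pos h1]
      exact h1.choose_spec
  intro b
  exact key (size b + 1) b (Nat.lt_succ_self _)

end Pool.Agent.VS
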