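import Pool.Agent.VS.Fin
import Pool.Agent.VS.Rec
import Pool.Agent.VN.Micro
/-!
# Comparison of chains on finite sets with chains on nondegenerate lists of small mesh
-/
namespace Pool.Agent.VS
open Pool.Agent.SLX Pool.Agent.VN

variable {A G : Type} [Group G] {π : A → G}

/-- Total length of the broken path `b, l₀, l₁, ...` followed by the cost `ψ` of the end point. -/
private def ct (F : NF A G π) (ψ : G → ℕ) : G → List G → ℕ
  | b, [] => ψ b
  | b, x :: l => F.l (b⁻¹ * x) + ct F ψ x l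

private theorem ct_eq (F : NF A G π) (ψ : G → ℕ) (l : List G) (b x y : G)
    (hx : l.head? = some x) (hy : l.getLast? = some y) :
    ct F ψ b l = F.l (b⁻¹ * x) + F.inn l + ψ y := by
  induction l generalizing b x with
  | nil => simp at hx
  | cons a l ih =>
    obtain rfl : a = x := by simpa using hx
    cases l with
    | nil =>
      obtain rfl : a = y := by simpa using hy
      simp [ct, NF.inn]
    | cons c l =>
      have h1 := ih a c rfl (by simpa using hy)
      rw [ct, h1, NF.inn]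
      omega

private theorem ct_start (F : NF A G π) (ψ : G → ℕ) (hψ : ∀ x y, ψ x ≤ F.l (x⁻¹ * y) + ψ y)
    (l : List G) (b : G) : ψ b ≤ ct F ψ b l := by
  induction l generalizing b with
  | nil => exact le_rfl
  | cons x l ih =>
    rw [ct]
    have h1 := hψ b x
    have h2 := ih x
    omega

private theorem ct_mem (F : NF A G π) (ψ : G → ℕ) (hψ : ∀ x y, ψ x ≤ F.l (x⁻¹ * y) + ψ y)
    (l : List G) (b p : G) (hp : p ∈ l) : F.l (b⁻¹ * p) + ψ p ≤ ct F ψ b l := by
  induction l generalizing b with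
  | nil => simp at hp
  | cons x l ih =>
    rw [ct]
    rcases List.mem_cons.1 hp with rfl | hp
    · have := ct_start F ψ hψ l p
      omega
    · have h1 := ih x hp
      have h2 := F.l_mul (b⁻¹ * x) (x⁻¹ * p)
      have e : b⁻¹ * x * (x⁻¹ * p) = b⁻¹ * p := by group
      rw [e] at h2
      omega

private theorem cell_mem (F : NF A G π) (b : G) (ψ : G → ℕ)
    (hψ : ∀ x y, ψ x ≤ F.l (x⁻¹ * y) + ψ y) (m d k : ℕ) (l : List G)
    (hl : Cell F b ψ m d k l) (p : G) (hp : p ∈ l) : F.l (b⁻¹ * p) + ψ p ≤ m := by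
  obtain ⟨-, -, -, x, y, hx, hy, h⟩ := hl
  rw [← ct_eq F ψ l b x y hx hy] at h
  exact (ct_mem F ψ hψ l b p hp).trans h

/-- A linear map sends `On P` to a submodule if it sends the simplices there. -/
private theorem map_mem {V E : Type} [AddCommGroup E] [Module (ZMod 2) E]
    {P : Finset V → Prop} (H : FCh V →ₗ[ZMod 2] E) (S : Submodule (ZMod 2) E)
    (hH : ∀ σ, P σ → H (Finsupp.single σ 1) ∈ S) {c : FCh V} (hc : c ∈ On P) : H c ∈ S := by
  have h1 : c = c.sum (fun σ a => a • Finsupp.single σ (1 : ZMod 2)) := by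
    conv_lhs => rw [← Finsupp.sum_single c]
    refine Finsupp.sum_congr fun σ _ => ?_
    rw [Finsupp.smul_single, smul_eq_mul, mul_one]
  rw [h1, Finsupp.sum, map_sum]
  refine Submodule.sum_mem _ fun σ hσ => ?_
  rw [map_smul]
  exact Submodule.smul_mem _ _ (hH σ (on_iff.1 hc σ hσ))

/-- The radius function for `f`. -/
private def bf (d : ℕ) : ℕ → ℕ → ℕ
  | 0, _ => 0
  | k + 1, R => R + (2 * (R + bf d k R) + d)

private theorem bf_mono (d k : ℕ) {R R' : ℕ} (h : R ≤ R') : bf d k R ≤ bf d k R' := by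
  induction k with
  | zero => exact le_rfl
  | succ k ih => simp only [bf]; omega

private theorem bf_le (d R : ℕ) {k M : ℕ} (h : k ≤ M) : bf d k R ≤ bf d M R := by
  induction h with
  | refl => exact le_rfl
  | step _ ih =>
    refine ih.trans ?_
    simp only [bf]
    omega

/-- The radius function for `h`. -/
private def bh (d M : ℕ) : ℕ → ℕ → ℕ
  | 0, _ => 0
  | k + 1, R => R + bf d M R + bh d M k R

private theorem bh_mono (d M k : ℕ) {R R' : ℕ} (h : R ≤ R') : bh d M k R ≤ bh d M k R' := by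
  induction k with
  | zero => exact le_rfl
  | succ k ih =>
    have := bf_mono d M h
    simp only [bh]
    omega

private theorem bh_le (d M R : ℕ) {k K : ℕ} (h : k ≤ K) : bh d M k R ≤ bh d M K R := by
  induction h with
  | refl => exact le_rfl
  | step _ ih =>
    refine ih.trans ?_
    simp only [bh]
    omega

private theorem sm_exists (F : NF A G π) (σ : Finset G) :
    ∃ R0, Sm F R0 σ ∧ ∀ R, Sm F R σ → R0 ≤ R := by
  classical
  have hex : ∃ R, Sm F R σ := by
    refine ⟨σ.sup (fun x => σ.sup (fun y => F.l (x⁻¹ * y))), fun x hx y hy => ?_⟩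
    exact (Finset.le_sup (f := fun y => F.l (x⁻¹ * y)) hy).trans
      (Finset.le_sup (f := fun x => σ.sup (fun y => F.l (x⁻¹ * y))) hx)
  exact ⟨Nat.find hex, Nat.find_spec hex, fun R hR => Nat.find_min' hex hR⟩

private theorem sm_sub (F : NF A G π) {R : ℕ} {σ τ : Finset G} (h : Sm F R σ) (ht : τ ⊆ σ) :
    Sm F R τ := fun x hx y hy => h x (ht hx) y (ht hy)

private theorem fbd_single_on {V : Type} (σ : Finset V) :
    fbd (Finsupp.single σ (1 : ZMod 2)) ∈ On (fun τ => τ ⊆ σ ∧ τ.card + 1 = σ.card) :=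
  fbd_on (P := fun τ => τ = σ) (fun _ _ h1 h2 h3 => by subst h1; exact ⟨h2, h3⟩)
    (single_on rfl)

private theorem tri (F : NF A G π) (x y z : G) : F.l (x⁻¹ * z) ≤ F.l (x⁻¹ * y) + F.l (y⁻¹ * z) := by
  have h := F.l_mul (x⁻¹ * y) (y⁻¹ * z)
  have e : x⁻¹ * y * (y⁻¹ * z) = x⁻¹ * z := by group
  rwa [e] at h

/-- Good values of `f` on `σ`. -/
private def Qf (F : NF A G π) (M d : ℕ) (σ : Finset G) (u y : Ch G) : Prop :=
  σ.card ≤ M → VN.D y = u ∧ (σ = ∅ → y = Finsupp.single [] 1) ∧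
    ∀ R, Sm F R σ → ∀ t ∈ y.support, nd t ∧ t.length = σ.card ∧ F.inn t ≤ d ∧
      ∀ x ∈ σ, ∀ p ∈ t, F.l (x⁻¹ * p) ≤ bf d σ.card R ∧
        F.l (p⁻¹ * x) ≤ bf d σ.card R

private theorem D_nil {V : Type} : VN.D (Finsupp.single ([] : List V) (1 : ZMod 2)) = 0 := by
  rw [VN.D, LinearMap.comp_apply, bd_single]
  simp

private theorem D_one {V : Type} (x : V) :
    VN.D (Finsupp.single [x] (1 : ZMod 2)) = Finsupp.single [] 1 := by
  rw [VN.D, LinearMap.comp_apply, bd_single]
  simp only [List.length_singleton, Finset.range_one, Finset.sum_singleton,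
    List.eraseIdx_cons_zero]
  exact fil_single nd [] List.isChain_nil

private theorem exists_f (F : NF A G π) (M d : ℕ) (hd : M * F.N + 1 ≤ d) :
    ∃ f : FCh G →ₗ[ZMod 2] Ch G,
    ∀ σ : Finset G, Qf F M d σ (f (fbd (Finsupp.single σ 1))) (f (Finsupp.single σ 1)) := by
  classical
  refine exists_rec (fbd (V := G)) Finset.card ?_ (Qf F M d) ?_
  · intro σ τ hτ
    have := (on_iff.1 (fbd_single_on σ) τ hτ).2
    omega
  intro σ H hH
  set u := H (fbd (Finsupp.single σ 1)) with hu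
  by_cases hM : σ.card ≤ M
  swap
  · exact ⟨0, fun h => absurd h hM⟩
  rcases Nat.lt_trichotomy σ.card 1 with h0 | h1 | h2
  · -- the empty set
    obtain rfl : σ = ∅ := Finset.card_eq_zero.1 (by omega)
    refine ⟨Finsupp.single [] 1, fun _ => ⟨?_, fun _ => rfl, fun R _ t ht => ?_⟩⟩
    · rw [D_nil, hu, fbd_empty, map_zero]
    · obtain rfl : t = [] := by
        by_contra hne
        rw [Finsupp.mem_support_iff, Finsupp.single_apply, if_neg (Ne.symm hne)] at ht
        exact ht rfl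
      refine ⟨List.isChain_nil, rfl, ?_, fun x hx => ?_⟩
      · simp [NF.inn]
      · simp at hx
  · -- one point
    obtain ⟨x, rfl⟩ := Finset.card_eq_one.1 h1
    refine ⟨Finsupp.single [x] 1, fun _ => ⟨?_, fun h => absurd h (by simp), fun R _ t ht => ?_⟩⟩
    · have h3 := (hH ∅ (by simp) (by simp)).2.1 rfl
      have e : fbd (Finsupp.single ({x} : Finset G) (1 : ZMod 2)) = Finsupp.single ∅ 1 := by
        classical
        rw [fbd_single, Finset.sum_singleton]
        congr 1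
        ext y
        simp
      rw [D_one, hu, e, h3]
    · obtain rfl : t = [x] := by
        by_contra hne
        rw [Finsupp.mem_support_iff, Finsupp.single_apply, if_neg (Ne.symm hne)] at ht
        exact ht rfl
      refine ⟨List.isChain_singleton _, by simp, by simp [NF.inn], ?_⟩
      intro y hy p hp
      obtain rfl : y = x := by simpa using hy
      obtain rfl : p = y := by simpa using hp
      rw [inv_mul_cancel, F.l_one]
      exact ⟨Nat.zero_le _, Nat.zero_le _⟩
  · -- at least two points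
    obtain ⟨n, hn⟩ : ∃ n, σ.card = n + 2 := ⟨σ.card - 2, by omega⟩
    obtain ⟨x0, hx0⟩ : σ.Nonempty := Finset.card_pos.1 (by omega)
    obtain ⟨R0, hR0, hR0min⟩ := sm_exists F σ
    -- the lists of `u`
    have husup : ∀ t ∈ u.support, nd t ∧ t.length = n + 1 ∧ F.inn t ≤ d ∧
        ∀ p ∈ t, F.l (x0⁻¹ * p) ≤ R0 + bf d (n + 1) R0 ∧
          F.l (p⁻¹ * x0) ≤ R0 + bf d (n + 1) R0 := by
      have h3 : u ∈ Finsupp.supported (ZMod 2) (ZMod 2) {t : List G | nd t ∧ t.length = n + 1 ∧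
          F.inn t ≤ d ∧ ∀ p ∈ t, F.l (x0⁻¹ * p) ≤ R0 + bf d (n + 1) R0 ∧
            F.l (p⁻¹ * x0) ≤ R0 + bf d (n + 1) R0} := by
        rw [hu]
        refine map_mem H _ ?_ (fbd_single_on σ)
        rintro τ ⟨hτ1, hτ2⟩
        rw [Finsupp.mem_supported]
        intro t ht
        have hcard : τ.card = n + 1 := by omega
        obtain ⟨a1, a2, a3, a4⟩ := (hH τ (by omega) (by omega)).2.2 R0 (sm_sub F hR0 hτ1) t ht
        refine ⟨a1, a2.trans hcard, a3, fun p hp => ?_⟩
        obtain ⟨x', hx'⟩ : τ.Nonempty := Finset.card_pos.1 (by omega)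
        obtain ⟨b1, b2⟩ := a4 x' hx' p hp
        rw [hcard] at b1 b2
        have c1 := tri F x0 x' p
        have c2 := tri F p x' x0
        have c3 := hR0 x0 hx0 x' (hτ1 hx')
        have c4 := hR0 x' (hτ1 hx') x0 hx0
        constructor <;> omega
      intro t ht
      exact (Finsupp.mem_supported (ZMod 2) u).1 h3 ht
    -- `u` is a cycle
    have hDu : VN.D u = 0 := by
      have h3 : (VN.D.comp H) (fbd (Finsupp.single σ 1)) =
          (H.comp fbd) (fbd (Finsupp.single σ 1)) := by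
        refine eq_on (VN.D.comp H) (H.comp fbd) ?_ (fbd_single_on σ)
        rintro τ ⟨hτ1, hτ2⟩
        exact (hH τ (by omega) (by omega)).1
      rw [LinearMap.comp_apply, LinearMap.comp_apply, fbd_fbd, map_zero] at h3
      exact h3
    have hψ : ∀ x y : G, F.l (x⁻¹ * x0) ≤ F.l (x⁻¹ * y) + F.l (y⁻¹ * x0) :=
      fun x y => tri F x y x0
    obtain ⟨y, hy, hDy⟩ := micro F x0 (fun y => F.l (y⁻¹ * x0)) hψ
      (2 * (R0 + bf d (n + 1) R0) + d) n d (by
        have : n * F.N ≤ M * F.N := Nat.mul_le_mul_right _ (by omega)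
        omega) u (by
        intro t ht
        obtain ⟨a1, a2, a3, a4⟩ := husup t ht
        have hne : t ≠ [] := by
          rintro rfl
          simp at a2
        refine ⟨a1, a2, a3, t.head hne, t.getLast hne, List.head?_eq_some_head hne,
          List.getLast?_eq_some_getLast hne, ?_⟩
        have b1 := (a4 _ (List.head_mem hne)).1
        have b2 := (a4 _ (List.getLast_mem hne)).2
        show F.l (x0⁻¹ * t.head hne) + F.inn t + F.l ((t.getLast hne)⁻¹ * x0) ≤ _
        omega) hDu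
    refine ⟨y, fun _ => ⟨hDy, fun h => ?_, fun R hR t ht => ?_⟩⟩
    · subst h
      simp at hn
    · have hc := hy t ht
      refine ⟨hc.1, hc.2.1.trans hn.symm, hc.2.2.1, fun x hx p hp => ?_⟩
      have h4 := cell_mem F x0 _ hψ _ _ _ t hc p hp
      have hRR := hR0min R hR
      have h5 : bf d σ.card R0 ≤ bf d σ.card R := bf_mono d _ hRR
      have h6 : bf d σ.card R0 = R0 + (2 * (R0 + bf d (n + 1) R0) + d) := by
        rw [hn, bf]
      have c1 := tri F x x0 p
      have c2 := tri F p x0 x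
      have c3 := hR0 x hx x0 hx0
      have c4 := hR0 x0 hx0 x hx
      constructor <;> omega

/-- Good values of `h` on `σ`. -/
private def Qh (F : NF A G π) (M d : ℕ) (f : FCh G →ₗ[ZMod 2] Ch G) (σ : Finset G)
    (u y : FCh G) : Prop :=
  σ.card ≤ M → fbd y = Finsupp.single σ 1 + toF (f (Finsupp.single σ 1)) + u ∧
    (σ = ∅ → y = 0) ∧
    ∀ R, Sm F R σ → y ∈ On (fun τ => τ.card = σ.card + 1 ∧
      ∀ x ∈ σ, ∀ p ∈ τ, F.l (x⁻¹ * p) ≤ bh d M σ.card R ∧
        F.l (p⁻¹ * x) ≤ bh d M σ.card R)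

private theorem exists_h (F : NF A G π) (M d : ℕ) (f : FCh G →ₗ[ZMod 2] Ch G)
    (hf : ∀ σ : Finset G, Qf F M d σ (f (fbd (Finsupp.single σ 1))) (f (Finsupp.single σ 1))) :
    ∃ h : FCh G →ₗ[ZMod 2] FCh G,
    ∀ σ : Finset G, Qh F M d f σ (h (fbd (Finsupp.single σ 1))) (h (Finsupp.single σ 1)) := by
  classical
  refine exists_rec (fbd (V := G)) Finset.card ?_ (Qh F M d f) ?_
  · intro σ τ hτ
    have := (on_iff.1 (fbd_single_on σ) τ hτ).2
    omega
  intro σ H hH
  set u := H (fbd (Finsupp.single σ 1)) with hu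
  by_cases hM : σ.card ≤ M
  swap
  · exact ⟨0, fun h => absurd h hM⟩
  rcases Finset.eq_empty_or_nonempty σ with rfl | ⟨x0, hx0⟩
  · refine ⟨0, fun _ => ⟨?_, fun _ => rfl, fun R _ => Submodule.zero_mem _⟩⟩
    have h1 := (hf ∅ hM).2.1 rfl
    rw [h1, hu, fbd_empty, map_zero, map_zero, toF_single, if_pos List.nodup_nil, add_zero,
      List.toFinset_nil, fadd_self]
  -- nonempty
  set z : FCh G := Finsupp.single σ 1 + toF (f (Finsupp.single σ 1)) + u with hz
  have hDz : fbd z = 0 := by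
    have h3 : (fbd.comp H) (fbd (Finsupp.single σ 1)) =
        ((LinearMap.id : FCh G →ₗ[ZMod 2] FCh G) + toF.comp f + H.comp fbd)
          (fbd (Finsupp.single σ 1)) := by
      refine eq_on (fbd.comp H)
        ((LinearMap.id : FCh G →ₗ[ZMod 2] FCh G) + toF.comp f + H.comp fbd) ?_ (fbd_single_on σ)
      rintro τ ⟨hτ1, hτ2⟩
      exact (hH τ (by omega) (by omega)).1
    simp only [LinearMap.comp_apply, LinearMap.add_apply, LinearMap.id_apply, fbd_fbd,
      map_zero, add_zero] at h3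
    rw [hz, map_add, map_add, fbd_toF, (hf σ hM).1, hu, h3, fadd_self]
  have hzon : ∀ R, Sm F R σ → z ∈ On (fun τ => τ.card = σ.card ∧
      ∀ x ∈ σ, ∀ p ∈ τ, F.l (x⁻¹ * p) ≤ bh d M σ.card R ∧ F.l (p⁻¹ * x) ≤ bh d M σ.card R) := by
    intro R hR
    obtain ⟨n, hn⟩ : ∃ n, σ.card = n + 1 := ⟨σ.card - 1, by
      have := Finset.card_pos.2 ⟨x0, hx0⟩
      omega⟩
    have hb : bh d M σ.card R = R + bf d M R + bh d M n R := by rw [hn, bh]
    refine Submodule.add_mem _ (Submodule.add_mem _ ?_ ?_) ?_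
    · refine single_on ⟨rfl, fun x hx p hp => ?_⟩
      have c1 := hR x hx p hp
      have c2 := hR p hp x hx
      constructor <;> omega
    · refine toF_on (P := fun t => nd t ∧ t.length = σ.card ∧ F.inn t ≤ d ∧
        ∀ x ∈ σ, ∀ p ∈ t, F.l (x⁻¹ * p) ≤ bf d σ.card R ∧ F.l (p⁻¹ * x) ≤ bf d σ.card R) ?_
        (fun t ht => (hf σ hM).2.2 R hR t ht)
      rintro t τ ⟨-, h2, -, h4⟩ _ h5 h6
      refine ⟨h5.trans h2, fun x hx p hp => ?_⟩
      have c1 := h4 x hx p ((h6 p).1 hp)
      have c2 := bf_le d R hM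
      constructor <;> omega
    · rw [hu]
      refine map_on H ?_ (fbd_single_on σ)
      rintro τ ⟨hτ1, hτ2⟩
      have hcard : τ.card = n := by omega
      rcases Finset.eq_empty_or_nonempty τ with rfl | ⟨x', hx'⟩
      · rw [(hH ∅ (by omega) (by simp)).2.1 rfl]
        exact Submodule.zero_mem _
      · refine on_mono ?_ ((hH τ (by omega) (by omega)).2.2 R (sm_sub F hR hτ1))
        rintro υ ⟨h1, h2⟩
        refine ⟨by omega, fun x hx p hp => ?_⟩
        obtain ⟨b1, b2⟩ := h2 x' hx' p hp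
        rw [hcard] at b1 b2
        have c1 := tri F x x' p
        have c2 := tri F p x' x
        have c3 := hR x hx x' (hτ1 hx')
        have c4 := hR x' (hτ1 hx') x hx
        constructor <;> omega
  refine ⟨fcone x0 z, fun _ => ⟨?_, fun h => ?_, fun R hR => ?_⟩⟩
  · rw [fbd_fcone, hDz, map_zero, add_zero]
  · subst h
    simp at hx0
  · refine fcone_on x0 ?_ (hzon R hR)
    rintro τ υ ⟨h1, h2⟩ h3 h4
    refine ⟨by omega, fun x hx p hp => ?_⟩
    rcases (h4 p).1 hp with rfl | hp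
    · have c1 := hR x hx p hx0
      have c2 := hR p hx0 x hx
      have hb : R ≤ bh d M σ.card R := by
        obtain ⟨n, hn⟩ : ∃ n, σ.card = n + 1 := ⟨σ.card - 1, by
          have := Finset.card_pos.2 ⟨p, hx0⟩
          omega⟩
        rw [hn, bh]
        omega
      constructor <;> omega
    · exact h2 x hx p hp

theorem exists_cmp [Finite A] (F : NF A G π) (M : ℕ) : ∃ (β : ℕ → ℕ)
    (f : FCh G →ₗ[ZMod 2] Ch G) (h : FCh G →ₗ[ZMod 2] FCh G),
    f (Finsupp.single ∅ 1) = Finsupp.single [] 1 ∧ h (Finsupp.single ∅ 1) = 0 ∧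
    ∀ σ : Finset G, σ.card ≤ M →
      VN.D (f (Finsupp.single σ 1)) = f (fbd (Finsupp.single σ 1)) ∧
      fbd (h (Finsupp.single σ 1)) =
        Finsupp.single σ 1 + toF (f (Finsupp.single σ 1)) + h (fbd (Finsupp.single σ 1)) ∧
      ∀ R, Sm F R σ →
        (∀ t ∈ (f (Finsupp.single σ 1)).support, nd t ∧ t.length = σ.card ∧
          F.inn t ≤ M * F.N + 1 ∧
          ∀ x ∈ σ, ∀ y ∈ t, F.l (x⁻¹ * y) ≤ β R ∧ F.l (y⁻¹ * x) ≤ β R) ∧
        h (Finsupp.single σ 1) ∈ On (fun τ => τ.card = σ.card + 1 ∧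
          ∀ x ∈ σ, ∀ y ∈ τ, F.l (x⁻¹ * y) ≤ β R ∧ F.l (y⁻¹ * x) ≤ β R) := by
  obtain ⟨f, hf⟩ := exists_f F M (M * F.N + 1) le_rfl
  obtain ⟨h, hh⟩ := exists_h F M (M * F.N + 1) f hf
  refine ⟨fun R => bf (M * F.N + 1) M R + bh (M * F.N + 1) M M R, f, h,
    (hf ∅ (by simp)).2.1 rfl, (hh ∅ (by simp)).2.1 rfl, fun σ hσ => ?_⟩
  refine ⟨(hf σ hσ).1, (hh σ hσ).1, fun R hR => ⟨fun t ht => ?_, ?_⟩⟩
  · obtain ⟨a1, a2, a3, a4⟩ := (hf σ hσ).2.2 R hR t ht
    refine ⟨a1, a2, a3, fun x hx y hy => ?_⟩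
    have c1 := a4 x hx y hy
    have c2 := bf_le (M * F.N + 1) R hσ
    simp only
    constructor <;> omega
  · refine on_mono ?_ ((hh σ hσ).2.2 R hR)
    rintro τ ⟨h1, h2⟩
    refine ⟨h1, fun x hx y hy => ?_⟩
    have c1 := h2 x hx y hy
    have c2 := bh_le (M * F.N + 1) M R hσ
    simp only
    constructor <;> omega

end Pool.Agent.VS
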