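import Pool.Agent.VS.Fin
import Pool.Agent.VS.Cmp
import Pool.Agent.VN.Micro
import Pool.Agent.VN.NFBasic
/-!
# Coarse acyclicity of intervals
-/
namespace Pool.Agent.VS
open Pool.Agent.SLX Pool.Agent.VN

section Fill
variable {A G : Type} [Group G] {π : A → G}

theorem fl_mem_support_map {α β : Type} (h : (α →₀ ZMod 2) →ₗ[ZMod 2] (β →₀ ZMod 2))
    (c : α →₀ ZMod 2) (t : β) (ht : t ∈ (h c).support) :
    ∃ σ ∈ c.support, t ∈ (h (Finsupp.single σ 1)).support := by
  classical
  have h1 : c = ∑ σ ∈ c.support, c σ • Finsupp.single σ (1 : ZMod 2) := by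
    conv_lhs => rw [← Finsupp.sum_single c]
    rw [Finsupp.sum]
    apply Finset.sum_congr rfl
    intro σ _
    rw [Finsupp.smul_single, smul_eq_mul, mul_one]
  rw [h1, map_sum, Finsupp.mem_support_iff, Finsupp.finsetSum_apply] at ht
  obtain ⟨σ, hσ, hne⟩ := Finset.exists_ne_zero_of_sum_ne_zero ht
  refine ⟨σ, hσ, ?_⟩
  rw [Finsupp.mem_support_iff]
  intro h0
  apply hne
  rw [map_smul, Finsupp.smul_apply, h0, smul_zero]

theorem fl_tri (F : NF A G π) (x y z : G) : F.l (x⁻¹ * z) ≤ F.l (x⁻¹ * y) + F.l (y⁻¹ * z) := by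
  have h := F.l_mul (x⁻¹ * y) (y⁻¹ * z)
  have e : x⁻¹ * y * (y⁻¹ * z) = x⁻¹ * z := by group
  rw [e] at h
  exact h

theorem fl_self (F : NF A G π) (x : G) : F.l (x⁻¹ * x) = 0 := by
  rw [inv_mul_cancel]
  exact F.l_one

theorem fl_head (F : NF A G π) : ∀ (l : List G) (x p : G), l.head? = some x → p ∈ l →
    F.l (x⁻¹ * p) ≤ F.inn l := by
  intro l
  induction l with
  | nil => intro x p h; simp at h
  | cons a l ih =>
    intro x p h hp
    simp only [List.head?_cons, Option.some.injEq] at h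
    subst h
    rcases List.mem_cons.1 hp with rfl | hp
    · rw [fl_self]
      exact Nat.zero_le _
    · cases l with
      | nil => simp at hp
      | cons y l' =>
        have h1 := ih y p (by simp) hp
        have h2 := fl_tri F a y p
        simp only [NF.inn]
        omega

theorem fl_last (F : NF A G π) : ∀ (l : List G) (y p : G), l.getLast? = some y → p ∈ l →
    F.l (p⁻¹ * y) ≤ F.inn l := by
  intro l
  induction l with
  | nil => intro x p h; simp at h
  | cons a l ih =>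
    intro y p h hp
    cases l with
    | nil =>
      simp only [List.getLast?_singleton, Option.some.injEq] at h
      subst h
      simp only [List.mem_singleton] at hp
      subst hp
      rw [fl_self]
      exact Nat.zero_le _
    | cons b l' =>
      rw [List.getLast?_cons_cons] at h
      rcases List.mem_cons.1 hp with rfl | hp
      · have h1 := ih y b h (by simp)
        have h2 := fl_tri F p b y
        simp only [NF.inn]
        omega
      · have h1 := ih y p h hp
        simp only [NF.inn]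
        omega

theorem fl_pair (F : NF A G π) : ∀ (l : List G) (p q : G), p ∈ l → q ∈ l →
    F.l (p⁻¹ * q) ≤ F.inn l ∨ F.l (q⁻¹ * p) ≤ F.inn l := by
  intro l
  induction l with
  | nil => intro p q h; simp at h
  | cons a l ih =>
    intro p q hp hq
    rcases List.mem_cons.1 hp with rfl | hp'
    · left
      exact fl_head F _ p q (by simp) hq
    · rcases List.mem_cons.1 hq with rfl | hq'
      · right
        exact fl_head F _ q p (by simp) hp
      · cases l with
        | nil => simp at hp'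
        | cons b l' =>
          have h1 := ih p q hp' hq'
          simp only [NF.inn]
          omega

theorem fl_mesh (F : NF A G π) {κ : ℕ} (hκ : ∀ g, F.l g⁻¹ ≤ κ * F.l g) {d : ℕ} (l : List G)
    (hl : F.inn l ≤ d) (p q : G) (hp : p ∈ l) (hq : q ∈ l) : F.l (p⁻¹ * q) ≤ (1 + κ) * d := by
  rcases fl_pair F l p q hp hq with h | h
  · nlinarith
  · have h1 := hκ (q⁻¹ * p)
    have e : (q⁻¹ * p)⁻¹ = p⁻¹ * q := by group
    rw [e] at h1
    have h2 : κ * F.l (q⁻¹ * p) ≤ κ * d := Nat.mul_le_mul_left _ (h.trans hl)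
    nlinarith

omit [Group G] in
/-- `f` commutes with the boundaries on chains of small cardinality. -/
theorem fl_comm_f {f : FCh G →ₗ[ZMod 2] Ch G} {M : ℕ}
    (hf : ∀ σ : Finset G, σ.card ≤ M →
      VN.D (f (Finsupp.single σ 1)) = f (fbd (Finsupp.single σ 1)))
    {c : FCh G} (hc : c ∈ On (fun σ : Finset G => σ.card ≤ M)) : VN.D (f c) = f (fbd c) := by
  have := eq_on (P := fun σ : Finset G => σ.card ≤ M) (VN.D.comp f) (f.comp fbd) (by
    intro σ hσ
    exact hf σ hσ) hc
  exact this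

omit [Group G] in
theorem fl_comm_h {f : FCh G →ₗ[ZMod 2] Ch G} {h : FCh G →ₗ[ZMod 2] FCh G} {M : ℕ}
    (hh : ∀ σ : Finset G, σ.card ≤ M → fbd (h (Finsupp.single σ 1)) =
        Finsupp.single σ 1 + toF (f (Finsupp.single σ 1)) + h (fbd (Finsupp.single σ 1)))
    {c : FCh G} (hc : c ∈ On (fun σ : Finset G => σ.card ≤ M)) :
    fbd (h c) = c + toF (f c) + h (fbd c) := by
  have := eq_on (P := fun σ : Finset G => σ.card ≤ M) (fbd.comp h)
    (LinearMap.id + toF.comp f + h.comp fbd) (by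
    intro σ hσ
    exact hh σ hσ) hc
  exact this

theorem int_fill [Finite A] (F : NF A G π) (M R : ℕ) : ∃ R' C : ℕ, ∀ (a b : G) (L : ℕ),
    F.l (a⁻¹ * b) ≤ L → ∀ k ≤ M,
    ∀ c ∈ On (fun σ : Finset G => σ.card = k ∧ Sm F R σ ∧ ∀ y ∈ σ, InI F a b L y), fbd c = 0 →
      ∃ e ∈ On (fun σ : Finset G => σ.card = k + 1 ∧ Sm F R' σ ∧ ∀ y ∈ σ, InI F a b (L + C) y),
        fbd e = c := by
  obtain ⟨κ, hκ⟩ := F.exists_inv
  obtain ⟨β, f, h, hf0, hh0, hfh⟩ := exists_cmp F M
  set d := M * F.N + 1 with hd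
  refine ⟨(1 + κ) * d + 2 * β R, 2 * β R + 2 * d, ?_⟩
  intro a b L hab k hk c hc hz
  rcases k with _ | n
  · -- the empty simplex
    refine ⟨fcone a c, ?_, ?_⟩
    · refine fcone_on a ?_ hc
      rintro σ τ ⟨h1, h2, h3⟩ h4 h5
      have hσ : σ = ∅ := Finset.card_eq_zero.1 h1
      subst hσ
      have h6 : ∀ y ∈ τ, y = a := by
        intro y hy
        rcases (h5 y).1 hy with h | h
        · exact h
        · simp at h
      refine ⟨h4, ?_, ?_⟩
      · intro x hx y hy
        rw [h6 x hx, h6 y hy, fl_self]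
        exact Nat.zero_le _
      · intro y hy
        rw [h6 y hy]
        unfold InI
        rw [fl_self]
        omega
    · rw [fbd_fcone, hz, map_zero, add_zero]
  · -- the general case
    have hcM : c ∈ On (fun σ : Finset G => σ.card ≤ M) :=
      on_mono (fun σ hσ => by omega) hc
    have hDf : VN.D (f c) = 0 := by
      rw [fl_comm_f (fun σ hσ => (hfh σ hσ).1) hcM, hz, map_zero]
    have hbh : fbd (h c) = c + toF (f c) := by
      rw [fl_comm_h (fun σ hσ => (hfh σ hσ).2.1) hcM, hz, map_zero, add_zero]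
    obtain ⟨η, hη, hηD⟩ := micro F a (fun y => F.l (y⁻¹ * b)) (fun x y => fl_tri F x y b)
      (L + 2 * β R + d) n d (by
        have : n * F.N ≤ M * F.N := Nat.mul_le_mul_right _ (by omega)
        omega) (f c) (by
        intro t ht
        obtain ⟨σ, hσ, ht'⟩ := fl_mem_support_map f c t ht
        obtain ⟨h1, h2, h3⟩ := on_iff.1 hc σ hσ
        obtain ⟨h4, h5, h6, h7⟩ := ((hfh σ (by omega)).2.2 R h2).1 t ht'
        obtain ⟨x, hx⟩ : σ.Nonempty := by
          rw [← Finset.card_pos]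
          omega
        have htn : t ≠ [] := by
          rintro rfl
          simp only [List.length_nil] at h5
          omega
        refine ⟨h4, by omega, h6, t.head htn, t.getLast htn, List.head?_eq_some_head htn,
          List.getLast?_eq_some_getLast htn, ?_⟩
        have h8 := (h7 x hx (t.head htn) (List.head_mem htn)).1
        have h9 := (h7 x hx (t.getLast htn) (List.getLast_mem htn)).2
        have h10 := fl_tri F a x (t.head htn)
        have h11 := fl_tri F (t.getLast htn) x b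
        have h12 : F.l (a⁻¹ * x) + F.l (x⁻¹ * b) ≤ L := h3 x hx
        show F.l (a⁻¹ * t.head htn) + F.inn t + F.l ((t.getLast htn)⁻¹ * b) ≤ _
        omega) hDf
    refine ⟨toF η + h c, ?_, ?_⟩
    · refine Submodule.add_mem _ ?_ ?_
      · refine toF_on (P := fun l => Cell F a (fun y => F.l (y⁻¹ * b)) (L + 2 * β R + d) d
          (n + 2) l) ?_ hη
        rintro l τ ⟨h1, h2, h3, x, y, h4, h5, h6⟩ h7 h8 h9
        refine ⟨by omega, ?_, ?_⟩
        · intro p hp q hq
          have := fl_mesh F hκ l h3 p q ((h9 p).1 hp) ((h9 q).1 hq)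
          omega
        · intro p hp
          have hp' := (h9 p).1 hp
          have h10 := fl_head F l x p h4 hp'
          have h11 := fl_last F l y p h5 hp'
          have h12 := fl_tri F a x p
          have h13 := fl_tri F p y b
          have h6' : F.l (a⁻¹ * x) + F.inn l + F.l (y⁻¹ * b) ≤ L + 2 * β R + d := h6
          show F.l (a⁻¹ * p) + F.l (p⁻¹ * b) ≤ _
          omega
      · refine map_on h ?_ hc
        rintro σ ⟨h1, h2, h3⟩
        obtain ⟨x, hx⟩ : σ.Nonempty := by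
          rw [← Finset.card_pos]
          omega
        refine on_mono ?_ (((hfh σ (by omega)).2.2 R h2).2)
        rintro τ ⟨h4, h5⟩
        refine ⟨by omega, ?_, ?_⟩
        · intro p hp q hq
          have h6 := (h5 x hx p hp).2
          have h7 := (h5 x hx q hq).1
          have h8 := fl_tri F p x q
          omega
        · intro p hp
          have h6 := (h5 x hx p hp)
          have h7 := fl_tri F a x p
          have h8 := fl_tri F p x b
          have h12 : F.l (a⁻¹ * x) + F.l (x⁻¹ * b) ≤ L := h3 x hx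
          show F.l (a⁻¹ * p) + F.l (p⁻¹ * b) ≤ _
          omega
    · rw [map_add, fbd_toF, hηD, hbh, add_comm c, ← add_assoc, fadd_self, zero_add]

/-- Refinement to a fixed mesh `R'`. -/
theorem ref_fill [Finite A] (F : NF A G π) (M R : ℕ) : ∃ R' : ℕ, ∀ R'' : ℕ, ∃ B : ℕ,
    ∀ (P : G → Prop), ∀ k ≤ M,
    ∀ e ∈ On (fun σ : Finset G => σ.card = k + 1 ∧ Sm F R'' σ ∧ ∀ x ∈ σ, P x),
      fbd e ∈ On (Sm F R) →
      ∃ e' ∈ On (fun σ : Finset G => σ.card = k + 1 ∧ Sm F R' σ ∧
        ∀ y ∈ σ, ∃ x, P x ∧ F.l (x⁻¹ * y) ≤ B ∧ F.l (y⁻¹ * x) ≤ B), fbd e' = fbd e := by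
  obtain ⟨κ, hκ⟩ := F.exists_inv
  obtain ⟨β, f, h, hf0, hh0, hfh⟩ := exists_cmp F (M + 1)
  set d := (M + 1) * F.N + 1 with hd
  refine ⟨(1 + κ) * d + 2 * β R, fun R'' => ⟨β R'' + β R, ?_⟩⟩
  intro P k hk e he heR
  have heM : e ∈ On (fun σ : Finset G => σ.card ≤ M + 1) :=
    on_mono (fun σ hσ => by omega) he
  have hfe : fbd e ∈ On (fun σ : Finset G => (σ.card = k ∧ ∀ x ∈ σ, P x) ∧ Sm F R σ) := by
    refine on_and (fbd_on ?_ he) heR
    rintro σ τ ⟨h1, h2, h3⟩ h4 h5
    exact ⟨by omega, fun x hx => h3 x (h4 hx)⟩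
  have hfeM : fbd e ∈ On (fun σ : Finset G => σ.card ≤ M + 1) :=
    on_mono (fun σ hσ => by omega) hfe
  have hDf : VN.D (f e) = f (fbd e) := fl_comm_f (fun σ hσ => (hfh σ hσ).1) heM
  have hbh : fbd (h (fbd e)) = fbd e + toF (f (fbd e)) := by
    rw [fl_comm_h (fun σ hσ => (hfh σ hσ).2.1) hfeM, fbd_fbd, map_zero, add_zero]
  refine ⟨toF (f e) + h (fbd e), ?_, ?_⟩
  · refine Submodule.add_mem _ ?_ ?_
    · refine toF_on (P := fun t => t.length = k + 1 ∧ F.inn t ≤ d ∧
          ∀ y ∈ t, ∃ x, P x ∧ F.l (x⁻¹ * y) ≤ β R'' ∧ F.l (y⁻¹ * x) ≤ β R'') ?_ ?_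
      · rintro l τ ⟨h1, h2, h3⟩ h7 h8 h9
        refine ⟨by omega, ?_, ?_⟩
        · intro p hp q hq
          have := fl_mesh F hκ l h2 p q ((h9 p).1 hp) ((h9 q).1 hq)
          omega
        · intro p hp
          obtain ⟨x, h4, h5, h6⟩ := h3 p ((h9 p).1 hp)
          exact ⟨x, h4, by omega, by omega⟩
      · intro t ht
        obtain ⟨σ, hσ, ht'⟩ := fl_mem_support_map f e t ht
        obtain ⟨h1, h2, h3⟩ := on_iff.1 he σ hσ
        obtain ⟨h4, h5, h6, h7⟩ := ((hfh σ (by omega)).2.2 R'' h2).1 t ht'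
        obtain ⟨x, hx⟩ : σ.Nonempty := by
          rw [← Finset.card_pos]
          omega
        exact ⟨by omega, h6, fun y hy => ⟨x, h3 x hx, h7 x hx y hy⟩⟩
    · refine map_on h ?_ hfe
      rintro σ ⟨⟨h1, h3⟩, h2⟩
      rcases σ.eq_empty_or_nonempty with rfl | ⟨x, hx⟩
      · rw [hh0]
        exact Submodule.zero_mem _
      · refine on_mono ?_ (((hfh σ (by omega)).2.2 R h2).2)
        rintro τ ⟨h4, h5⟩
        refine ⟨by omega, ?_, ?_⟩
        · intro p hp q hq
          have h6 := (h5 x hx p hp).2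
          have h7 := (h5 x hx q hq).1
          have h8 := fl_tri F p x q
          omega
        · intro p hp
          have h6 := (h5 x hx p hp)
          exact ⟨x, h3 x hx, by omega, by omega⟩
  · rw [map_add, fbd_toF, hDf, hbh, add_comm (fbd e), ← add_assoc, fadd_self, zero_add]

theorem tot_fill [Finite A] (F : NF A G π) (M R : ℕ) : ∃ R' : ℕ, ∀ k ≤ M,
    ∀ c ∈ On (fun σ : Finset G => σ.card = k ∧ Sm F R σ), fbd c = 0 →
      ∃ e ∈ On (fun σ : Finset G => σ.card = k + 1 ∧ Sm F R' σ), fbd e = c := by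
  obtain ⟨R', C, hRC⟩ := int_fill F M R
  refine ⟨R', ?_⟩
  intro k hk c hc hz
  set L := ∑ σ ∈ c.support, ∑ y ∈ σ, (F.l (1⁻¹ * y) + F.l (y⁻¹ * 1)) with hL
  obtain ⟨e, he, hee⟩ := hRC 1 1 L (by
    rw [fl_self]
    exact Nat.zero_le _) k hk c (by
    rw [on_iff] at hc ⊢
    intro σ hσ
    obtain ⟨h1, h2⟩ := hc σ hσ
    refine ⟨h1, h2, ?_⟩
    intro y hy
    show F.l (1⁻¹ * y) + F.l (y⁻¹ * 1) ≤ L
    have h3 : F.l (1⁻¹ * y) + F.l (y⁻¹ * 1) ≤ ∑ y ∈ σ, (F.l (1⁻¹ * y) + F.l (y⁻¹ * 1)) :=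
      Finset.single_le_sum (f := fun y => F.l (1⁻¹ * y) + F.l (y⁻¹ * 1))
        (fun _ _ => Nat.zero_le _) hy
    have h4 : ∑ y ∈ σ, (F.l (1⁻¹ * y) + F.l (y⁻¹ * 1)) ≤ L :=
      Finset.single_le_sum (f := fun σ : Finset G => ∑ y ∈ σ, (F.l (1⁻¹ * y) + F.l (y⁻¹ * 1)))
        (fun _ _ => Nat.zero_le _) hσ
    exact h3.trans h4) hz
  exact ⟨e, on_mono (fun σ hσ => ⟨hσ.1, hσ.2.1⟩) he, hee⟩

end Fill

end Pool.Agent.VS
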