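import Pool.Agent.VS.Fin
import Pool.Agent.VS.Rec
/-!
# The prism homotopy
-/
namespace Pool.Agent.VS
open Pool.Agent.SLX Pool.Agent.VN

theorem hty_cycle {V W : Type} (f g : V → W) (H : FCh V →ₗ[ZMod 2] FCh W) (σ : Finset V)
    (hH : ∀ τ : Finset V, τ.card < σ.card → fbd (H (Finsupp.single τ 1)) =
      fmap f (Finsupp.single τ 1) + fmap g (Finsupp.single τ 1) +
        H (fbd (Finsupp.single τ 1))) :
    fbd (fmap f (Finsupp.single σ 1) + fmap g (Finsupp.single σ 1) +
      H (fbd (Finsupp.single σ 1))) = 0 := by
  have h1 : fbd (Finsupp.single σ 1) ∈ On (fun τ : Finset V => τ.card < σ.card) := by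
    apply fbd_on (P := fun τ => τ = σ) _ (single_on rfl)
    intro τ υ hτ _ hc
    rw [hτ] at hc
    omega
  have h2 := eq_on (P := fun τ : Finset V => τ.card < σ.card) (fbd.comp H)
    (fmap f + fmap g + H.comp fbd) (fun τ hτ => hH τ hτ) h1
  have h3 : fbd (H (fbd (Finsupp.single σ 1))) = fmap f (fbd (Finsupp.single σ 1)) +
      fmap g (fbd (Finsupp.single σ 1)) + H (fbd (fbd (Finsupp.single σ 1))) := h2
  rw [map_add, map_add, fbd_fmap, fbd_fmap, h3, fbd_fbd, map_zero, add_zero]
  exact fadd_self _

theorem exists_hty {V W : Type} (f g : V → W) : ∃ H : FCh V →ₗ[ZMod 2] FCh W,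
    (∀ c, fbd (H c) = fmap f c + fmap g c + H (fbd c)) ∧
    ∀ σ, H (Finsupp.single σ 1) ∈ On (fun τ => τ.card = σ.card + 1 ∧
      ∀ y ∈ τ, ∃ x ∈ σ, y = f x ∨ y = g x) := by
  classical
  obtain ⟨H, hH⟩ := exists_rec (B := Finset V) (T := Finset W) fbd Finset.card (by
      intro σ τ hτ
      have h1 : fbd (Finsupp.single σ 1) ∈ On (fun τ : Finset V => τ.card < σ.card) := by
        apply fbd_on (P := fun τ => τ = σ) _ (single_on rfl)
        intro τ υ hτ _ hc
        rw [hτ] at hc
        omega
      exact (on_iff.1 h1) τ hτ)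
    (fun σ u y => (fbd y = fmap f (Finsupp.single σ 1) + fmap g (Finsupp.single σ 1) + u) ∧
      y ∈ On (fun τ => τ.card = σ.card + 1 ∧ ∀ y ∈ τ, ∃ x ∈ σ, y = f x ∨ y = g x)) (by
      intro σ H hH
      rcases σ.eq_empty_or_nonempty with rfl | ⟨x0, hx0⟩
      · refine ⟨0, ?_, Submodule.zero_mem _⟩
        rw [fbd_empty, map_zero, map_zero, add_zero, fmap_single, fmap_single]
        simp only [Finset.image_empty]
        exact (fadd_self _).symm
      · set z := fmap f (Finsupp.single σ 1) + fmap g (Finsupp.single σ 1) +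
          H (fbd (Finsupp.single σ 1)) with hz
        have hcyc : fbd z = 0 := hty_cycle f g H σ (fun τ hτ => (hH τ hτ).1)
        refine ⟨fcone (f x0) z, ?_, ?_⟩
        · rw [fbd_fcone, hcyc, map_zero, add_zero]
        · have hon : z ∈ On (fun τ => τ.card = σ.card ∧
              ∀ y ∈ τ, ∃ x ∈ σ, y = f x ∨ y = g x) := by
            rw [hz]
            apply Submodule.add_mem
            apply Submodule.add_mem
            · apply fmap_on (P := fun τ => τ = σ) f _ (single_on rfl)
              intro τ υ hτ hc hm
              subst hτ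
              refine ⟨hc, ?_⟩
              intro y hy
              obtain ⟨x, hx, hxy⟩ := (hm y).1 hy
              exact ⟨x, hx, Or.inl hxy.symm⟩
            · apply fmap_on (P := fun τ => τ = σ) g _ (single_on rfl)
              intro τ υ hτ hc hm
              subst hτ
              refine ⟨hc, ?_⟩
              intro y hy
              obtain ⟨x, hx, hxy⟩ := (hm y).1 hy
              exact ⟨x, hx, Or.inr hxy.symm⟩
            · have h1 : fbd (Finsupp.single σ 1) ∈
                  On (fun τ : Finset V => τ ⊆ σ ∧ τ.card + 1 = σ.card) := by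
                apply fbd_on (P := fun τ => τ = σ) _ (single_on rfl)
                intro τ υ hτ hsub hc
                subst hτ
                exact ⟨hsub, hc⟩
              apply map_on H _ h1
              intro τ hτ
              have h2 := (hH τ (by have := hτ.2; omega)).2
              apply on_mono _ h2
              intro υ hυ
              refine ⟨by rw [hυ.1]; exact hτ.2, ?_⟩
              intro y hy
              obtain ⟨x, hx, hxy⟩ := hυ.2 y hy
              exact ⟨x, hτ.1 hx, hxy⟩
          apply fcone_on (f x0) _ hon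
          intro τ υ hτ hc hm
          refine ⟨by rw [hc, hτ.1], ?_⟩
          intro y hy
          rcases (hm y).1 hy with h2 | h2
          · exact ⟨x0, hx0, Or.inl h2⟩
          · exact hτ.2 y h2)
  refine ⟨H, ?_, fun σ => (hH σ).2⟩
  intro c
  have h1 : c ∈ On (fun _ : Finset V => True) := on_iff.2 (fun _ _ => trivial)
  have h2 := eq_on (P := fun _ : Finset V => True) (fbd.comp H)
    (fmap f + fmap g + H.comp fbd) (fun τ _ => (hH τ).1) h1
  exact h2

end Pool.Agent.VS
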