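import Pool.Agent.VS.Fin
import Pool.Agent.VS.Rec
import Pool.Agent.VS.Hty
import Pool.Agent.VS.Fill
import Pool.Agent.VN.NFBasic
/-!
# The first projection from pairs to points
-/
namespace Pool.Agent.VS
open Pool.Agent.SLX Pool.Agent.VN

variable {A G : Type} [Group G] {π : A → G}

/-- The section over a point. -/
private def fb_s (w : G) (x : G) : G × G := (x, w⁻¹ * x)

private theorem fb_hty_zero {V : Type} {z : FCh V} (f g : V → V)
    (H : FCh V →ₗ[ZMod 2] FCh V) (h : ∀ c, fbd (H c) = fmap f c + fmap g c + H (fbd c))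
    (hz : fbd z = 0) : fbd (H z) = fmap f z + fmap g z := by
  rw [h, hz, map_zero, add_zero]

/-- The carrier: `a` is the bound on the number of points, `ρ` the mesh, `δ` the slack. -/
private def Car (F : NF A G π) (w : G) (L : ℕ) (τ : Finset (G × G)) (k ρ δ : ℕ)
    (υ : Finset (G × G)) : Prop :=
  υ.card = k ∧ Sm2 F ρ υ ∧ (∀ p ∈ υ, InX F w (L + δ) p) ∧ ∀ p ∈ υ, ∃ q ∈ τ, p.1 = q.1

private theorem Car.mono {F : NF A G π} {w : G} {L : ℕ} {τ τ' : Finset (G × G)}
    {k ρ ρ' δ δ' : ℕ} {υ : Finset (G × G)} (hτ : τ ⊆ τ') (hρ : ρ ≤ ρ') (hδ : δ ≤ δ')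
    (h : Car F w L τ k ρ δ υ) : Car F w L τ' k ρ' δ' υ := by
  obtain ⟨h1, h2, h3, h4⟩ := h
  refine ⟨h1, fun p hp q hq => ⟨(h2 p hp q hq).1.trans hρ, (h2 p hp q hq).2.trans hρ⟩,
    fun p hp => (h3 p hp).trans (by omega), fun p hp => ?_⟩
  obtain ⟨q, hq, hpq⟩ := h4 p hp
  exact ⟨q, hτ hq, hpq⟩

/-- The key step: a cycle carried by the fibres over a small set bounds there. -/
private theorem fb_step [Finite A] (F : NF A G π) (M R ρ Rf Cf : ℕ) (hR : R ≤ ρ)
    (hf : ∀ (a b : G) (L : ℕ), F.l (a⁻¹ * b) ≤ L → ∀ k ≤ M,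
      ∀ c ∈ On (fun σ : Finset G => σ.card = k ∧ Sm F ρ σ ∧ ∀ y ∈ σ, InI F a b L y), fbd c = 0 →
      ∃ e ∈ On (fun σ : Finset G => σ.card = k + 1 ∧ Sm F Rf σ ∧
        ∀ y ∈ σ, InI F a b (L + Cf) y), fbd e = c)
    (w : G) (L δ : ℕ) (τ : Finset (G × G)) (hne : τ.Nonempty) (k : ℕ) (hk : k ≤ M)
    (hτ : Sm2 F R τ) (hX : ∀ p ∈ τ, InX F w L p) (z : FCh (G × G))
    (hz : z ∈ On (Car F w L τ k ρ δ)) (hc : fbd z = 0) :
    ∃ y ∈ On (Car F w L τ (k + 1) (max ρ Rf) (δ + 2 * R + Cf)), fbd y = z := by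
  classical
  obtain ⟨p0, hp0⟩ := hne
  set x0 := p0.1 with hx0
  -- estimates
  have hd : ∀ p : G × G, (∃ q ∈ τ, p.1 = q.1) → F.l (x0⁻¹ * p.1) ≤ R ∧ F.l (p.1⁻¹ * x0) ≤ R := by
    rintro p ⟨q, hq, hpq⟩
    rw [hpq]
    exact ⟨(hτ p0 hp0 q hq).1, (hτ q hq p0 hp0).1⟩
  have hX0 : ∀ p : G × G, (∃ q ∈ τ, p.1 = q.1) → InX F w (L + δ) p →
      InX F w (L + δ + 2 * R) (x0, p.2) := by
    intro p hp h
    obtain ⟨h1, h2⟩ := hd p hp
    unfold InX at h ⊢
    have e1 : x0⁻¹ * w * p.2 = (x0⁻¹ * p.1) * (p.1⁻¹ * w * p.2) := by group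
    have e2 : p.2⁻¹ * w * x0 = (p.2⁻¹ * w * p.1) * (p.1⁻¹ * x0) := by group
    have h3 := F.l_mul (x0⁻¹ * p.1) (p.1⁻¹ * w * p.2)
    have h4 := F.l_mul (p.2⁻¹ * w * p.1) (p.1⁻¹ * x0)
    simp only
    rw [e1, e2]
    omega
  have hI : ∀ y L', InX F w L' (x0, y) ↔ InI F (w⁻¹ * x0) (w * x0) L' y := by
    intro y L'
    unfold InX InI
    simp only
    have e1 : (w⁻¹ * x0)⁻¹ * y = x0⁻¹ * w * y := by group
    have e2 : y⁻¹ * (w * x0) = y⁻¹ * w * x0 := by group
    rw [e1, e2]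
  -- the projection to the fibre over `x0`
  have hz2 : fmap Prod.snd z ∈ On (fun σ : Finset G => σ.card = k ∧ Sm F ρ σ ∧
      ∀ y ∈ σ, InI F (w⁻¹ * x0) (w * x0) (L + δ + 2 * R) y) := by
    refine fmap_on (P := Car F w L τ k ρ δ) Prod.snd ?_ hz
    rintro σ υ ⟨h1, h2, h3, h4⟩ hcard hmem
    refine ⟨hcard.trans h1, ?_, ?_⟩
    · intro x hx y hy
      obtain ⟨p, hp, rfl⟩ := (hmem x).1 hx
      obtain ⟨q, hq, rfl⟩ := (hmem y).1 hy
      exact (h2 p hp q hq).2
    · intro y hy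
      obtain ⟨p, hp, rfl⟩ := (hmem y).1 hy
      rw [← hI]
      exact hX0 p (h4 p hp) (h3 p hp)
  have hz3 : fbd (fmap Prod.snd z) = 0 := by rw [fbd_fmap, hc, map_zero]
  have hab : F.l ((w⁻¹ * x0)⁻¹ * (w * x0)) ≤ L + δ + 2 * R := by
    have h := hX p0 hp0
    unfold InX at h
    have e1 : (w⁻¹ * x0)⁻¹ * (w * x0) = (p0.1⁻¹ * w * p0.2) * (p0.2⁻¹ * w * p0.1) := by
      rw [hx0]; group
    rw [e1]
    have := F.l_mul (p0.1⁻¹ * w * p0.2) (p0.2⁻¹ * w * p0.1)
    omega
  obtain ⟨e1, he1, he2⟩ := hf _ _ _ hab k hk _ hz2 hz3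
  obtain ⟨H, hH1, hH2⟩ := exists_hty (fun p : G × G => p) (fun p : G × G => (x0, p.2))
  refine ⟨fmap (fun y => (x0, y)) e1 + H z, ?_, ?_⟩
  · refine Submodule.add_mem _ ?_ ?_
    · refine fmap_on _ ?_ he1
      rintro σ υ ⟨h1, h2, h3⟩ hcard hmem
      refine ⟨hcard.trans h1, ?_, ?_, ?_⟩
      · intro p hp q hq
        obtain ⟨x, hx, rfl⟩ := (hmem p).1 hp
        obtain ⟨y, hy, rfl⟩ := (hmem q).1 hq
        have := h2 x hx y hy
        simp only [inv_mul_cancel, F.l_one]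
        exact ⟨Nat.zero_le _, this.trans (le_max_right _ _)⟩
      · intro p hp
        obtain ⟨x, hx, rfl⟩ := (hmem p).1 hp
        rw [hI]
        have := h3 x hx
        unfold InI at this ⊢
        omega
      · intro p hp
        obtain ⟨x, hx, rfl⟩ := (hmem p).1 hp
        exact ⟨p0, hp0, rfl⟩
    · refine map_on H (P := Car F w L τ k ρ δ) ?_ hz
      rintro σ ⟨h1, h2, h3, h4⟩
      refine on_mono ?_ (hH2 σ)
      rintro υ ⟨g1, g2⟩
      have hfst : ∀ p ∈ υ, ∃ q ∈ τ, p.1 = q.1 := by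
        intro p hp
        obtain ⟨q, hq, h | h⟩ := g2 p hp
        · rw [h]; exact h4 q hq
        · rw [h]; exact ⟨p0, hp0, rfl⟩
      have hsnd : ∀ p ∈ υ, ∃ q ∈ σ, p.2 = q.2 := by
        intro p hp
        obtain ⟨q, hq, h | h⟩ := g2 p hp
        · exact ⟨q, hq, by rw [h]⟩
        · exact ⟨q, hq, by rw [h]⟩
      refine ⟨by rw [g1, h1], ?_, ?_, hfst⟩
      · intro p hp q hq
        constructor
        · obtain ⟨a, ha, hpa⟩ := hfst p hp
          obtain ⟨b, hb, hqb⟩ := hfst q hq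
          rw [hpa, hqb]
          exact ((hτ a ha b hb).1.trans hR).trans (le_max_left _ _)
        · obtain ⟨a, ha, hpa⟩ := hsnd p hp
          obtain ⟨b, hb, hqb⟩ := hsnd q hq
          rw [hpa, hqb]
          exact (h2 a ha b hb).2.trans (le_max_left _ _)
      · intro p hp
        obtain ⟨q, hq, h | h⟩ := g2 p hp
        · rw [h]
          exact (h3 q hq).trans (by omega)
        · rw [h]
          exact (hX0 q (h4 q hq) (h3 q hq)).trans (by omega)
  · rw [map_add, fbd_fmap, he2, fmap_fmap, fb_hty_zero _ _ H hH1 hc, fmap_id, add_comm z,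
      ← add_assoc, fadd_self, zero_add]

/-- Meshes and slacks. -/
private def fb_seq (R : ℕ) (Rf Cf : ℕ → ℕ) : ℕ → ℕ × ℕ
  | 0 => (R, 0)
  | k + 1 => (max (fb_seq R Rf Cf k).1 (Rf (fb_seq R Rf Cf k).1),
      (fb_seq R Rf Cf k).2 + 2 * R + Cf (fb_seq R Rf Cf k).1)

private theorem fb_seq_mono (R : ℕ) (Rf Cf : ℕ → ℕ) {i j : ℕ} (h : i ≤ j) :
    (fb_seq R Rf Cf i).1 ≤ (fb_seq R Rf Cf j).1 ∧ (fb_seq R Rf Cf i).2 ≤ (fb_seq R Rf Cf j).2 := by
  induction h with
  | refl => exact ⟨le_rfl, le_rfl⟩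
  | step h ih =>
    refine ⟨ih.1.trans (le_max_left _ _), ih.2.trans ?_⟩
    simp only [fb_seq]
    omega

theorem fib_hty [Finite A] (F : NF A G π) (M R : ℕ) : ∃ R' C : ℕ, ∀ (w : G) (L : ℕ),
    ∃ H : FCh (G × G) →ₗ[ZMod 2] FCh (G × G), ∀ τ : Finset (G × G), τ.card ≤ M → Sm2 F R τ →
      (∀ p ∈ τ, InX F w L p) →
      fbd (H (Finsupp.single τ 1)) = Finsupp.single τ 1 +
        fmap (fun p : G × G => (p.1, w⁻¹ * p.1)) (Finsupp.single τ 1) +
          H (fbd (Finsupp.single τ 1)) ∧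
      H (Finsupp.single τ 1) ∈ On (fun υ => υ.card = τ.card + 1 ∧ Sm2 F R' υ ∧
        ∀ p ∈ υ, InX F w (L + C) p) := by
  classical
  choose Rf Cf hf using (fun ρ => int_fill F M ρ)
  refine ⟨(fb_seq R Rf Cf M).1, (fb_seq R Rf Cf M).2, fun w L => ?_⟩
  obtain ⟨H, hH⟩ := exists_rec (B := Finset (G × G)) (T := Finset (G × G)) fbd Finset.card
    (fun b b' hb' => by
      have h1 : fbd (Finsupp.single b (1 : ZMod 2)) ∈ On (fun τ' => τ'.card + 1 = b.card) :=
        fbd_on (P := fun σ => σ = b) (fun σ τ' hσ _ hc => by rw [← hσ]; exact hc)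
          (single_on rfl)
      have := on_iff.1 h1 b' hb'
      omega)
    (fun τ u y => τ.card ≤ M → Sm2 F R τ → (∀ p ∈ τ, InX F w L p) →
      fbd y = Finsupp.single τ 1 +
        fmap (fun p : G × G => (p.1, w⁻¹ * p.1)) (Finsupp.single τ 1) + u ∧
      y ∈ On (Car F w L τ (τ.card + 1) (fb_seq R Rf Cf τ.card).1 (fb_seq R Rf Cf τ.card).2))
    (fun τ H ih => by
      rcases τ.eq_empty_or_nonempty with rfl | hne
      · refine ⟨0, fun _ _ _ => ⟨?_, Submodule.zero_mem _⟩⟩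
        have h1 : fmap (fun p : G × G => (p.1, w⁻¹ * p.1))
            (Finsupp.single (∅ : Finset (G × G)) (1 : ZMod 2)) = Finsupp.single ∅ 1 := by
          rw [fmap_single]; simp
        rw [h1, fbd_empty, map_zero, map_zero, fadd_self, add_zero]
      · by_cases hM : τ.card ≤ M
        swap
        · exact ⟨0, fun h => absurd h hM⟩
        by_cases hS : Sm2 F R τ
        swap
        · exact ⟨0, fun _ h => absurd h hS⟩
        by_cases hX : ∀ p ∈ τ, InX F w L p
        swap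
        · exact ⟨0, fun _ _ h => absurd h hX⟩
        set s : G × G → G × G := fun p => (p.1, w⁻¹ * p.1) with hs
        have hface : fbd (Finsupp.single τ (1 : ZMod 2)) ∈
            On (fun τ' => τ' ⊆ τ ∧ τ'.card + 1 = τ.card) :=
          fbd_on (P := fun σ => σ = τ) (fun σ τ' hσ hsub hc => by subst hσ; exact ⟨hsub, hc⟩)
            (single_on rfl)
        have hQ : ∀ τ' : Finset (G × G), τ' ⊆ τ ∧ τ'.card + 1 = τ.card →
            fbd (H (Finsupp.single τ' 1)) = Finsupp.single τ' 1 + fmap s (Finsupp.single τ' 1) +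
              H (fbd (Finsupp.single τ' 1)) ∧
            H (Finsupp.single τ' 1) ∈ On (Car F w L τ' (τ'.card + 1)
              (fb_seq R Rf Cf τ'.card).1 (fb_seq R Rf Cf τ'.card).2) := by
          rintro τ' ⟨hsub, hc⟩
          exact ih τ' (by omega) (by omega) (fun p hp q hq => hS p (hsub hp) q (hsub hq))
            (fun p hp => hX p (hsub hp))
        obtain ⟨k, hk⟩ : ∃ k, τ.card = k + 1 := ⟨τ.card - 1, by have := hne.card_pos; omega⟩
        -- the cycle
        set z := Finsupp.single τ (1 : ZMod 2) + fmap s (Finsupp.single τ 1) +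
          H (fbd (Finsupp.single τ 1)) with hz
        have hcyc : fbd z = 0 := by
          have h1 : fbd (H (fbd (Finsupp.single τ 1))) = fbd (Finsupp.single τ 1) +
              fmap s (fbd (Finsupp.single τ 1)) := by
            have := eq_on (P := fun τ' => τ' ⊆ τ ∧ τ'.card + 1 = τ.card) (fbd.comp H)
              (LinearMap.id + fmap s + H.comp fbd) (fun τ' h => by
                simpa using (hQ τ' h).1) hface
            simp only [LinearMap.comp_apply, LinearMap.add_apply, LinearMap.id_apply,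
              fbd_fbd, map_zero, add_zero] at this
            exact this
          rw [hz, map_add, map_add, h1, fbd_fmap, fadd_self]
        have hρ : R ≤ (fb_seq R Rf Cf k).1 := (fb_seq_mono R Rf Cf (Nat.zero_le k)).1
        have hzon : z ∈ On (Car F w L τ (k + 1) (fb_seq R Rf Cf k).1 (fb_seq R Rf Cf k).2) := by
          refine Submodule.add_mem _ (Submodule.add_mem _ ?_ ?_) ?_
          · refine single_on ⟨hk, fun p hp q hq => ⟨(hS p hp q hq).1.trans hρ,
              (hS p hp q hq).2.trans hρ⟩, fun p hp => (hX p hp).trans (by omega),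
              fun p hp => ⟨p, hp, rfl⟩⟩
          · refine fmap_on (P := fun σ => σ = τ) s ?_ (single_on rfl)
            rintro σ υ rfl hcard hmem
            refine ⟨hcard.trans hk, ?_, ?_, ?_⟩
            · intro p hp q hq
              obtain ⟨a, ha, rfl⟩ := (hmem p).1 hp
              obtain ⟨b, hb, rfl⟩ := (hmem q).1 hq
              have h1 := (hS a ha b hb).1.trans hρ
              refine ⟨h1, ?_⟩
              have e1 : (s a).2⁻¹ * (s b).2 = a.1⁻¹ * b.1 := by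
                simp only [hs]; group
              rw [e1]
              exact h1
            · intro p hp
              obtain ⟨a, ha, rfl⟩ := (hmem p).1 hp
              have h1 := hX a ha
              unfold InX at h1 ⊢
              have e1 : (s a).1⁻¹ * w * (s a).2 = 1 := by simp only [hs]; group
              have e2 : (s a).2⁻¹ * w * (s a).1 = (a.1⁻¹ * w * a.2) * (a.2⁻¹ * w * a.1) := by
                simp only [hs]; group
              rw [e1, e2, F.l_one]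
              have := F.l_mul (a.1⁻¹ * w * a.2) (a.2⁻¹ * w * a.1)
              omega
            · intro p hp
              obtain ⟨a, ha, rfl⟩ := (hmem p).1 hp
              exact ⟨a, ha, rfl⟩
          · refine map_on H ?_ hface
            rintro τ' ⟨hsub, hc⟩
            have hk' : τ'.card = k := by omega
            have := (hQ τ' ⟨hsub, hc⟩).2
            rw [hk'] at this
            exact on_mono (fun υ h => h.mono hsub le_rfl le_rfl) this
        obtain ⟨y, hy1, hy2⟩ := fb_step F M R _ _ _ hρ (hf (fb_seq R Rf Cf k).1) w L _ τ hne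
          (k + 1) (by omega) hS hX z hzon hcyc
        refine ⟨y, fun _ _ _ => ⟨hy2, ?_⟩⟩
        rw [hk]
        exact hy1)
  refine ⟨H, fun τ hM hS hX => ?_⟩
  obtain ⟨h1, h2⟩ := hH τ hM hS hX
  refine ⟨h1, on_mono ?_ h2⟩
  rintro υ ⟨g1, g2, g3, -⟩
  have hm := fb_seq_mono R Rf Cf hM
  exact ⟨g1, fun p hp q hq => ⟨(g2 p hp q hq).1.trans hm.1, (g2 p hp q hq).2.trans hm.1⟩,
    fun p hp => (g3 p hp).trans (by have := hm.2; omega)⟩

theorem fib_fill [Finite A] (F : NF A G π) (M R R1 : ℕ) : ∃ R' C : ℕ, ∀ (w : G) (L L' : ℕ),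
    L ≤ L' → ∀ k ≤ M,
    ∀ b ∈ On (fun τ : Finset (G × G) => τ.card = k ∧ Sm2 F R τ ∧ ∀ p ∈ τ, InX F w L p),
      fbd b = 0 →
    ∀ e ∈ On (fun σ : Finset G => σ.card = k + 1 ∧ Sm F R1 σ ∧ ∀ x ∈ σ, InY F (w * w) L' x),
      fbd e = fmap Prod.fst b →
      ∃ b' ∈ On (fun τ : Finset (G × G) => τ.card = k + 1 ∧ Sm2 F R' τ ∧
        ∀ p ∈ τ, InX F w (L' + C) p), fbd b' = b := by
  obtain ⟨R2, C, hH⟩ := fib_hty F M R
  refine ⟨max R1 R2, C, fun w L L' hL k hk b hb hbc e he hbe => ?_⟩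
  obtain ⟨H, hH⟩ := hH w L
  have h1 : fbd (H b) = b + fmap (fun p : G × G => (p.1, w⁻¹ * p.1)) b := by
    have := eq_on (P := fun τ : Finset (G × G) => τ.card = k ∧ Sm2 F R τ ∧ ∀ p ∈ τ, InX F w L p)
      (fbd.comp H) (LinearMap.id + fmap (fun p : G × G => (p.1, w⁻¹ * p.1)) + H.comp fbd)
      (fun τ h => by
        obtain ⟨g1, g2, g3⟩ := h
        simpa using (hH τ (by omega) g2 g3).1) hb
    simp only [LinearMap.comp_apply, LinearMap.add_apply, LinearMap.id_apply, hbc, map_zero,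
      add_zero] at this
    exact this
  refine ⟨fmap (fun x => (x, w⁻¹ * x)) e + H b, Submodule.add_mem _ ?_ ?_, ?_⟩
  · refine fmap_on _ ?_ he
    rintro σ υ ⟨g1, g2, g3⟩ hcard hmem
    refine ⟨hcard.trans g1, ?_, ?_⟩
    · intro p hp q hq
      obtain ⟨x, hx, rfl⟩ := (hmem p).1 hp
      obtain ⟨y, hy, rfl⟩ := (hmem q).1 hq
      have h2 := (g2 x hx y hy).trans (le_max_left R1 R2)
      refine ⟨h2, ?_⟩
      have e1 : (w⁻¹ * x)⁻¹ * (w⁻¹ * y) = x⁻¹ * y := by group
      simp only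
      rw [e1]
      exact h2
    · intro p hp
      obtain ⟨x, hx, rfl⟩ := (hmem p).1 hp
      have h2 := g3 x hx
      unfold InY at h2
      unfold InX
      have e1 : x⁻¹ * w * (w⁻¹ * x) = 1 := by group
      have e2 : (w⁻¹ * x)⁻¹ * w * x = x⁻¹ * (w * w) * x := by group
      simp only
      rw [e1, e2, F.l_one]
      omega
  · refine map_on H ?_ hb
    rintro τ ⟨g1, g2, g3⟩
    refine on_mono ?_ (hH τ (by omega) g2 g3).2
    rintro υ ⟨k1, k2, k3⟩
    exact ⟨by omega, fun p hp q hq => ⟨(k2 p hp q hq).1.trans (le_max_right _ _),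
      (k2 p hp q hq).2.trans (le_max_right _ _)⟩, fun p hp => (k3 p hp).trans (by omega)⟩
  · rw [map_add, fbd_fmap, hbe, fmap_fmap, h1, add_comm b, ← add_assoc, fadd_self, zero_add]

end Pool.Agent.VS
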