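import Pool.Agent.VS.Fin
/-!
# The algebra of the Smith argument
-/
namespace Pool.Agent.VS
open Pool.Agent.SLX Pool.Agent.VN

section ALG
variable {V : Type}

private theorem sa_on {P : Finset V → Prop} {c : FCh V} : c ∈ On P ↔ ∀ σ, c σ ≠ 0 → P σ := by
  rw [on_iff]
  simp only [Finsupp.mem_support_iff]

open Classical in
/-- Restriction of a chain to the simplices with `P`. -/
private noncomputable def sa_pi (P : Finset V → Prop) : FCh V →ₗ[ZMod 2] FCh V :=
  Finsupp.linearCombination (ZMod 2)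
    (fun σ : Finset V => if P σ then Finsupp.single σ (1 : ZMod 2) else 0)

open Classical in
private theorem sa_pi_apply (P : Finset V → Prop) (c : FCh V) (σ : Finset V) :
    sa_pi P c σ = if P σ then c σ else 0 := by
  induction c using Finsupp.induction_linear with
  | zero => simp
  | add c c' h h' =>
    rw [map_add, Finsupp.add_apply, Finsupp.add_apply, h, h']
    split_ifs <;> simp
  | single τ a =>
    unfold sa_pi
    rw [Finsupp.linearCombination_single, Finsupp.smul_apply]
    by_cases h' : P τ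
    · rw [if_pos h']
      by_cases hl : τ = σ
      · subst hl; simp [h']
      · simp [hl]
    · rw [if_neg h']
      by_cases hl : τ = σ
      · subst hl; simp [h']
      · simp [hl]

open Classical in
/-- The image of a simplex. -/
private noncomputable def sa_im (T : V → V) (σ : Finset V) : Finset V := σ.image T

private theorem sa_mem_im {T : V → V} (hT : ∀ v, T (T v) = v) (σ : Finset V) (y : V) :
    y ∈ sa_im T σ ↔ T y ∈ σ := by
  classical
  unfold sa_im
  rw [Finset.mem_image]
  constructor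
  · rintro ⟨x, hx, rfl⟩
    rwa [hT]
  · intro h
    exact ⟨T y, h, hT y⟩

private theorem sa_im_im {T : V → V} (hT : ∀ v, T (T v) = v) (σ : Finset V) :
    sa_im T (sa_im T σ) = σ := by
  ext y
  rw [sa_mem_im hT, sa_mem_im hT, hT]

private theorem sa_card_im {T : V → V} (hT : ∀ v, T (T v) = v) (σ : Finset V) :
    (sa_im T σ).card = σ.card := by
  classical
  unfold sa_im
  apply Finset.card_image_of_injective
  intro a b hab
  have := congrArg T hab
  rwa [hT, hT] at this

private theorem sa_map_apply {T : V → V} (hT : ∀ v, T (T v) = v) (c : FCh V) (σ : Finset V) :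
    fmap T c σ = c (sa_im T σ) := by
  classical
  induction c using Finsupp.induction_linear with
  | zero => simp
  | add c c' h h' =>
    rw [map_add, Finsupp.add_apply, Finsupp.add_apply, h, h']
  | single τ a =>
    have e : Finsupp.single τ a = a • Finsupp.single τ (1 : ZMod 2) := by simp
    rw [e, map_smul, Finsupp.smul_apply, Finsupp.smul_apply, fmap_single]
    have h1 : (τ.image T).card = τ.card := by
      have := sa_card_im hT τ
      unfold sa_im at this
      convert this
    rw [if_pos h1]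
    congr 1
    have h2 : (τ.image T = σ) ↔ (τ = sa_im T σ) := by
      have h3 : τ.image T = sa_im T τ := by
        unfold sa_im
        congr
      rw [h3]
      constructor
      · intro h; rw [← h, sa_im_im hT]
      · intro h; rw [h, sa_im_im hT]
    rw [Finsupp.single_apply, Finsupp.single_apply]
    by_cases h4 : τ = sa_im T σ
    · rw [if_pos (h2.2 h4), if_pos h4]
    · rw [if_neg (fun h => h4 (h2.1 h)), if_neg h4]

private theorem sa_pi_map {T : V → V} (hT : ∀ v, T (T v) = v) (P : Finset V → Prop)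
    (hP : ∀ σ, P (sa_im T σ) ↔ P σ) (c : FCh V) : sa_pi P (fmap T c) = fmap T (sa_pi P c) := by
  classical
  ext σ
  rw [sa_pi_apply, sa_map_apply hT, sa_map_apply hT, sa_pi_apply]
  by_cases h : P σ
  · rw [if_pos h, if_pos ((hP σ).2 h)]
  · rw [if_neg h, if_neg (fun h' => h ((hP σ).1 h'))]

private theorem sa_z2 (x : ZMod 2) : x + x = 0 := by
  revert x; decide

/-- Free part: an invariant chain without invariant simplices. -/
private theorem sa_free {T : V → V} (hT : ∀ v, T (T v) = v) (Q : Finset V → Prop) (u : FCh V)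
    (hu : u ∈ On Q) (hfree : ∀ σ, Q σ → sa_im T σ ≠ σ) (h0 : u + fmap T u = 0) :
    ∃ g ∈ On Q, u = g + fmap T g := by
  classical
  have hinv : ∀ σ, u (sa_im T σ) = u σ := by
    intro σ
    have h1 := DFunLike.congr_fun h0 σ
    rw [Finsupp.add_apply, sa_map_apply hT, Finsupp.zero_apply] at h1
    have h2 : u (sa_im T σ) = u σ + (u σ + u (sa_im T σ)) := by
      rw [← add_assoc, sa_z2, zero_add]
    rw [h2, h1, add_zero]
  refine ⟨sa_pi (fun σ => WellOrderingRel σ (sa_im T σ)) u, ?_, ?_⟩
  · rw [sa_on]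
    intro σ hσ
    rw [sa_pi_apply] at hσ
    split_ifs at hσ with h
    · exact sa_on.1 hu σ hσ
    · exact absurd rfl hσ
  · ext σ
    rw [Finsupp.add_apply, sa_map_apply hT, sa_pi_apply, sa_pi_apply, sa_im_im hT, hinv]
    by_cases hσ : u σ = 0
    · rw [hσ]; simp
    · have hne := hfree σ (sa_on.1 hu σ hσ)
      rcases trichotomous_of WellOrderingRel σ (sa_im T σ) with h | h | h
      · rw [if_pos h, if_neg (asymm_of WellOrderingRel h), add_zero]
      · exact absurd h.symm hne
      · rw [if_pos h, if_neg (asymm_of WellOrderingRel h), zero_add]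

theorem smith_alg {V : Type} (T : V → V) (hT : ∀ v, T (T v) = v) (Good N : Finset V → Prop)
    (hG : ∀ σ τ, Good σ → τ ⊆ σ → Good τ) (hN : ∀ σ τ, N σ → τ ⊆ σ → N τ)
    (hGT : ∀ σ τ, Good σ → (∀ y, y ∈ τ ↔ T y ∈ σ) → Good τ)
    (hNT : ∀ σ τ, N σ → (∀ y, y ∈ τ ↔ T y ∈ σ) → N τ)
    (hfree : ∀ σ, Good σ → ¬ N σ → ¬ ∀ y, y ∈ σ ↔ T y ∈ σ)
    (k K : ℕ) (hkK : k < K) (b : ℕ → FCh V)
    (hb : ∀ j, k < j → j ≤ K → b j ∈ On (fun σ => σ.card = j ∧ Good σ))
    (hbd : ∀ j, k < j → j < K → fbd (b (j + 1)) = b j + fmap T (b j))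
    (hK : b K = 0) (hz : fbd (b (k + 1)) ∈ On N) :
    ∃ ν h : FCh V, ν ∈ On (fun σ => σ.card = k + 1 ∧ Good σ ∧ N σ) ∧
      h ∈ On (fun σ => σ.card = k ∧ Good σ ∧ N σ) ∧
      fbd (b (k + 1)) = fbd ν + (h + fmap T h) := by
  classical
  have hGi : ∀ σ, Good (sa_im T σ) ↔ Good σ := by
    intro σ
    constructor
    · intro h
      refine hGT _ σ h fun y => ?_
      rw [sa_mem_im hT, hT]
    · intro h
      exact hGT σ _ h (sa_mem_im hT σ)
  have hNi : ∀ σ, N (sa_im T σ) ↔ N σ := by
    intro σ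
    constructor
    · intro h
      refine hNT _ σ h fun y => ?_
      rw [sa_mem_im hT, hT]
    · intro h
      exact hNT σ _ h (sa_mem_im hT σ)
  have hNi' : ∀ σ, ¬ N (sa_im T σ) ↔ ¬ N σ := fun σ => not_congr (hNi σ)
  have hfr : ∀ σ, Good σ → ¬ N σ → sa_im T σ ≠ σ := by
    intro σ h1 h2 h3
    refine hfree σ h1 h2 fun y => ?_
    have := sa_mem_im hT σ y
    rwa [h3] at this
  -- push forward by `T`
  have hTon : ∀ (j : ℕ) (c : FCh V), c ∈ On (fun σ => σ.card = j ∧ Good σ) →
      fmap T c ∈ On (fun σ => σ.card = j ∧ Good σ) := by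
    intro j c hc
    rw [sa_on] at hc ⊢
    intro σ hσ
    rw [sa_map_apply hT] at hσ
    obtain ⟨h1, h2⟩ := hc _ hσ
    rw [sa_card_im hT] at h1
    exact ⟨h1, (hGi σ).1 h2⟩
  have hfon : ∀ (j : ℕ) (c : FCh V), c ∈ On (fun σ => σ.card = j + 1 ∧ Good σ) →
      fbd c ∈ On (fun σ => σ.card = j ∧ Good σ) := by
    intro j c hc
    refine fbd_on (P := fun σ => σ.card = j + 1 ∧ Good σ) ?_ hc
    intro σ τ h1 h2 h3
    exact ⟨by have := h1.1; omega, hG σ τ h1.2 h2⟩
  have hfN : ∀ c : FCh V, c ∈ On N → fbd c ∈ On N := by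
    intro c hc
    exact fbd_on (fun σ τ h1 h2 _ => hN σ τ h1 h2) hc
  -- the decomposition
  have hdec : ∀ c : FCh V, c = sa_pi N c + sa_pi (fun σ => ¬ N σ) c := by
    intro c
    ext σ
    rw [Finsupp.add_apply, sa_pi_apply, sa_pi_apply]
    by_cases h : N σ
    · rw [if_pos h, if_neg (not_not.2 h), add_zero]
    · rw [if_neg h, if_pos h, zero_add]
  have hpiN : ∀ c : FCh V, sa_pi N c ∈ On N := by
    intro c
    rw [sa_on]
    intro σ hσ
    rw [sa_pi_apply] at hσ
    by_contra h
    rw [if_neg h] at hσ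
    exact hσ rfl
  have hpiN0 : ∀ c : FCh V, c ∈ On N → sa_pi (fun σ => ¬ N σ) c = 0 := by
    intro c hc
    ext σ
    rw [sa_pi_apply, Finsupp.zero_apply]
    by_cases h : N σ
    · rw [if_neg (not_not.2 h)]
    · rw [if_pos h]
      by_contra hne
      exact h (sa_on.1 hc σ hne)
  have hpiN1 : ∀ c : FCh V, c ∈ On N → sa_pi N c = c := by
    intro c hc
    have h1 := hdec c
    rw [hpiN0 c hc, add_zero] at h1
    exact h1.symm
  have hpion : ∀ (j : ℕ) (P : Finset V → Prop) (c : FCh V),
      c ∈ On (fun σ => σ.card = j ∧ Good σ) →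
      sa_pi P c ∈ On (fun σ => (σ.card = j ∧ Good σ) ∧ P σ) := by
    intro j P c hc
    rw [sa_on] at hc ⊢
    intro σ hσ
    rw [sa_pi_apply] at hσ
    by_cases h : P σ
    · rw [if_pos h] at hσ
      exact ⟨hc σ hσ, h⟩
    · rw [if_neg h] at hσ
      exact absurd rfl hσ
  have hself := fun c : FCh V => fadd_self c
  -- the downward induction
  have key : ∀ i j, j + i = K → k < j → ∃ g ∈ On (fun σ : Finset V => σ.card = j + 1 ∧ Good σ),
      ∃ g' ∈ On (fun σ : Finset V => σ.card = j ∧ Good σ),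
        b j + fbd g + (g' + fmap T g') ∈ On N := by
    intro i
    induction i with
    | zero =>
      intro j hj hkj
      have : j = K := by omega
      subst this
      refine ⟨0, Submodule.zero_mem _, 0, Submodule.zero_mem _, ?_⟩
      rw [hK, map_zero, map_zero, add_zero, add_zero]
      exact Submodule.zero_mem _
    | succ i ih =>
      intro j hj hkj
      obtain ⟨g, hg, g', hg', hν⟩ := ih (j + 1) (by omega) (by omega)
      set v := b j + fbd g' with hv
      have hvon : v ∈ On (fun σ : Finset V => σ.card = j ∧ Good σ) :=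
        Submodule.add_mem _ (hb j hkj (by omega)) (hfon j g' hg')
      have e1 : fbd (b (j + 1) + fbd g + (g' + fmap T g')) = v + fmap T v := by
        rw [map_add, map_add, map_add, fbd_fbd, fbd_fmap, hbd j hkj (by omega), hv, map_add]
        abel
      have h2 : v + fmap T v ∈ On N := by
        rw [← e1]
        exact hfN _ hν
      have h3 : sa_pi (fun σ => ¬ N σ) v + fmap T (sa_pi (fun σ => ¬ N σ) v) = 0 := by
        rw [← sa_pi_map hT _ hNi', ← map_add, hpiN0 _ h2]
      obtain ⟨g'', hg'', e2⟩ := sa_free hT (fun σ => (σ.card = j ∧ Good σ) ∧ ¬ N σ)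
        (sa_pi (fun σ => ¬ N σ) v) (hpion j _ v hvon) (fun σ hσ => hfr σ hσ.1.2 hσ.2) h3
      refine ⟨g', hg', g'', on_mono (fun σ hσ => hσ.1) hg'', ?_⟩
      rw [← hv, ← e2]
      have e3 : v + sa_pi (fun σ => ¬ N σ) v = sa_pi N v := by
        ext σ
        rw [Finsupp.add_apply, sa_pi_apply, sa_pi_apply]
        by_cases h : N σ
        · rw [if_neg (not_not.2 h), if_pos h, add_zero]
        · rw [if_pos h, if_neg h, sa_z2]
      rw [e3]
      exact hpiN v
  obtain ⟨g, hg, g', hg', hν⟩ := key (K - (k + 1)) (k + 1) (by omega) (by omega)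
  set ν := b (k + 1) + fbd g + (g' + fmap T g') with hνd
  have hνon : ν ∈ On (fun σ : Finset V => σ.card = k + 1 ∧ Good σ) :=
    Submodule.add_mem _ (Submodule.add_mem _ (hb (k + 1) (by omega) (by omega))
      (hfon (k + 1) g hg)) (Submodule.add_mem _ hg' (hTon (k + 1) g' hg'))
  set w := fbd g' with hw
  have hwon : w ∈ On (fun σ : Finset V => σ.card = k ∧ Good σ) := hfon k g' hg'
  have e5 : fbd ν = fbd (b (k + 1)) + (w + fmap T w) := by
    rw [hνd, map_add, map_add, map_add, fbd_fbd, fbd_fmap, add_zero]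
  have e6 : fbd (b (k + 1)) = fbd ν + (w + fmap T w) := by
    rw [e5, add_assoc, hself, add_zero]
  have h7 : w + fmap T w ∈ On N := by
    have e7 : w + fmap T w = fbd ν + fbd (b (k + 1)) := by
      rw [e5, add_comm (fbd (b (k + 1))) (w + fmap T w), add_assoc, hself, add_zero]
    rw [e7]
    exact Submodule.add_mem _ (hfN _ hν) hz
  have e8 : sa_pi N w + fmap T (sa_pi N w) = w + fmap T w := by
    rw [← sa_pi_map hT _ hNi, ← map_add, hpiN1 _ h7]
  refine ⟨ν, sa_pi N w, ?_, ?_, ?_⟩
  · refine on_mono (fun σ hσ => ?_) (on_and hνon hν)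
    exact ⟨hσ.1.1, hσ.1.2, hσ.2⟩
  · refine on_mono (fun σ hσ => ?_) (hpion k N w hwon)
    exact ⟨hσ.1.1, hσ.1.2, hσ.2⟩
  · rw [e8]
    exact e6

end ALG

end Pool.Agent.VS
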