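import Pool.Agent.VS.Defs
import Pool.Agent.VN.NFBasic
/-!
# Translation numbers
-/
namespace Pool.Agent.VS
open Pool.Agent.SLX Pool.Agent.VN

variable {A G : Type} [Group G] {π : A → G}

theorem tau_aux_pow (F : NF A G π) (w : G) (n : ℕ) : F.l (w ^ n) ≤ n * F.l w := by
  induction n with
  | zero => rw [pow_zero, F.l_one]; exact Nat.zero_le _
  | succ n ih =>
    rw [pow_succ]
    have h := F.l_mul (w ^ n) w
    have h2 : (n + 1) * F.l w = n * F.l w + F.l w := by ring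
    omega

theorem tau_mono (F : NF A G π) {w : G} {L L' : ℕ} (h : L ≤ L') (ht : Tau F w L) :
    Tau F w L' := by
  intro B
  obtain ⟨k, hk⟩ := ht B
  exact ⟨k, hk.trans (Nat.mul_le_mul_left _ h)⟩

theorem tau_sq (F : NF A G π) {w : G} {L : ℕ} (ht : Tau F w L) : Tau F (w * w) (2 * L) := by
  intro B
  obtain ⟨k, hk⟩ := ht B
  refine ⟨k, ?_⟩
  have h1 : (w * w) ^ (2 ^ k) = w ^ (2 ^ k) * w ^ (2 ^ k) := by
    rw [(Commute.refl w).mul_pow]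
  have h2 := F.l_mul (w ^ (2 ^ k)) (w ^ (2 ^ k))
  have h3 : 2 ^ k * (2 * L) = 2 ^ k * L + 2 ^ k * L := by ring
  rw [h1]
  omega

theorem tau_pow (F : NF A G π) {w : G} {L : ℕ} (ht : Tau F w L) (j : ℕ) :
    Tau F (w ^ (2 ^ j)) (2 ^ j * L) := by
  induction j with
  | zero => simpa using ht
  | succ j ih =>
    have h := tau_sq F ih
    have h1 : w ^ 2 ^ j * w ^ 2 ^ j = w ^ 2 ^ (j + 1) := by
      rw [← pow_add]; congr 1; ring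
    have h2 : 2 * (2 ^ j * L) = 2 ^ (j + 1) * L := by ring
    rwa [h1, h2] at h

/-- if `B` works for `k` it works for all larger `k` -/
theorem tau_large (F : NF A G π) {w : G} {L : ℕ} (ht : Tau F w L) (B : ℕ) :
    ∃ k0, ∀ k ≥ k0, F.l (w ^ (2 ^ k)) + B ≤ 2 ^ k * L := by
  obtain ⟨k0, hk0⟩ := ht B
  refine ⟨k0, fun k hk => ?_⟩
  obtain ⟨j, rfl⟩ := Nat.exists_eq_add_of_le hk
  have h1 : w ^ 2 ^ (k0 + j) = (w ^ 2 ^ k0) ^ 2 ^ j := by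
    rw [← pow_mul, pow_add]
  have h2 := tau_aux_pow F (w ^ 2 ^ k0) (2 ^ j)
  have h3 : 2 ^ j * (F.l (w ^ 2 ^ k0) + B) ≤ 2 ^ j * (2 ^ k0 * L) := Nat.mul_le_mul_left _ hk0
  have h4 : 2 ^ j * (2 ^ k0 * L) = 2 ^ (k0 + j) * L := by ring
  have h5 : 1 * B ≤ 2 ^ j * B := Nat.mul_le_mul_right _ Nat.one_le_two_pow
  have h6 : 2 ^ j * (F.l (w ^ 2 ^ k0) + B) = 2 ^ j * F.l (w ^ 2 ^ k0) + 2 ^ j * B := by ring
  rw [h1]
  omega

/-- every finite set lies in a displacement set of the sequence -/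
theorem tau_fin (F : NF A G π) {w : G} {L : ℕ} (ht : Tau F w L) (S : Finset G) :
    ∃ k, ∀ x ∈ S, InY F (w ^ (2 ^ k)) (2 ^ k * L) x := by
  obtain ⟨k, hk⟩ := ht (S.sup (fun x => F.l x⁻¹ + F.l x))
  refine ⟨k, fun x hx => ?_⟩
  have h1 : F.l x⁻¹ + F.l x ≤ S.sup (fun x => F.l x⁻¹ + F.l x) :=
    Finset.le_sup (f := fun x => F.l x⁻¹ + F.l x) hx
  have h2 := F.l_mul (x⁻¹ * w ^ 2 ^ k) x
  have h3 := F.l_mul x⁻¹ (w ^ 2 ^ k)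
  unfold InY
  omega

theorem tau_of_lt (F : NF A G π) {w : G} {L : ℕ} (h : F.l w < L) : Tau F w L := by
  intro B
  refine ⟨B, ?_⟩
  have h1 := tau_aux_pow F w (2 ^ B)
  have h2 : B < 2 ^ B := Nat.lt_two_pow_self
  have h3 : 2 ^ B * (F.l w + 1) ≤ 2 ^ B * L := Nat.mul_le_mul_left _ h
  have h4 : 2 ^ B * (F.l w + 1) = 2 ^ B * F.l w + 2 ^ B := by ring
  omega

theorem tau_conj (F : NF A G π) {w : G} {L : ℕ} (x : G) (ht : Tau F w L) :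
    Tau F (x⁻¹ * w * x) L := by
  intro B
  obtain ⟨k, hk⟩ := ht (B + (F.l x⁻¹ + F.l x))
  refine ⟨k, ?_⟩
  have h1 : (x⁻¹ * w * x) ^ 2 ^ k = x⁻¹ * w ^ 2 ^ k * x := by
    have := conj_pow (i := 2 ^ k) (a := x⁻¹) (b := w)
    rwa [inv_inv] at this
  have h2 := F.l_mul (x⁻¹ * w ^ 2 ^ k) x
  have h3 := F.l_mul x⁻¹ (w ^ 2 ^ k)
  rw [h1]
  omega

theorem tau_mul (F : NF A G π) {v w : G} {L L' : ℕ} (hc : v * w = w * v) (hv : Tau F v L)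
    (hw : Tau F w L') : Tau F (v * w) (L + L') := by
  intro B
  obtain ⟨k1, hk1⟩ := tau_large F hv B
  obtain ⟨k2, hk2⟩ := tau_large F hw B
  refine ⟨k1 + k2, ?_⟩
  have h1 := hk1 (k1 + k2) (Nat.le_add_right _ _)
  have h2 := hk2 (k1 + k2) (Nat.le_add_left _ _)
  have h3 : (v * w) ^ 2 ^ (k1 + k2) = v ^ 2 ^ (k1 + k2) * w ^ 2 ^ (k1 + k2) :=
    (show Commute v w from hc).mul_pow _
  have h4 := F.l_mul (v ^ 2 ^ (k1 + k2)) (w ^ 2 ^ (k1 + k2))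
  have h5 : 2 ^ (k1 + k2) * (L + L') = 2 ^ (k1 + k2) * L + 2 ^ (k1 + k2) * L' := by ring
  rw [h3]
  omega

theorem tau_inv (F : NF A G π) {w : G} {L κ : ℕ} (hκ : ∀ g, F.l g⁻¹ ≤ κ * F.l g)
    (ht : Tau F w L) : Tau F w⁻¹ ((κ + 1) * L) := by
  intro B
  obtain ⟨k, hk⟩ := ht B
  refine ⟨k, ?_⟩
  have h1 : w⁻¹ ^ 2 ^ k = (w ^ 2 ^ k)⁻¹ := inv_pow _ _
  have h2 := hκ (w ^ 2 ^ k)
  have h3 : (κ + 1) * (F.l (w ^ 2 ^ k) + B) ≤ (κ + 1) * (2 ^ k * L) := Nat.mul_le_mul_left _ hk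
  have h4 : (κ + 1) * (F.l (w ^ 2 ^ k) + B) =
      κ * F.l (w ^ 2 ^ k) + F.l (w ^ 2 ^ k) + (κ * B + B) := by ring
  have h5 : (κ + 1) * (2 ^ k * L) = 2 ^ k * ((κ + 1) * L) := by ring
  have h6 : 0 ≤ κ * B := Nat.zero_le _
  rw [h1]
  omega

theorem tau_root (F : NF A G π) {u : G} {q i L : ℕ} (hL : L ≤ 2 ^ i)
    (ht : Tau F (u ^ (q * 2 ^ i)) L) : Tau F (u ^ q) 1 := by
  intro B
  obtain ⟨k, hk⟩ := ht B
  refine ⟨i + k, ?_⟩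
  have h1 : (u ^ (q * 2 ^ i)) ^ 2 ^ k = (u ^ q) ^ 2 ^ (i + k) := by
    rw [← pow_mul, ← pow_mul, pow_add]; congr 1; ring
  have h2 : 2 ^ k * L ≤ 2 ^ k * 2 ^ i := Nat.mul_le_mul_left _ hL
  have h3 : 2 ^ (i + k) * 1 = 2 ^ k * 2 ^ i := by rw [pow_add]; ring
  rw [← h1]
  omega

end Pool.Agent.VS
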