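import Pool.Agent.VN.ResAb
import Pool.Agent.VN.Rank
import Pool.Agent.VS.Asd
import Pool.Agent.VS.Q2
import Pool.Agent.VS.Main
/-!
# Residually finite groups of finite asymptotic dimension with a finite complete ShortLex system
-/
namespace Pool.Agent.VS
open Pool.Agent.SLX Pool.Agent.VN

section
variable {G : Type} [Group G]

/-- The length function of a system, with all the properties used here. -/
theorem rfinal_length (hG : HasSystem G) {D : ℕ} (hD : VNP.AsdimLE G D) :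
    ∃ (l : G → ℕ) (κ : ℕ), l 1 = 0 ∧ (∀ g h, l (g * h) ≤ l g + l h) ∧
      (∀ g, l g⁻¹ ≤ κ * l g) ∧ (∀ T : ℕ, ∃ S : Set G, S.Finite ∧ ∀ w, TauLe l T w →
        ∃ x, x⁻¹ * w * x ∈ S) := by
  obtain ⟨A, hA, hA', π, E, hE⟩ := hG
  obtain ⟨F⟩ := exists_NF hE
  obtain ⟨κ, hκ⟩ := F.exists_inv
  have h1 : Asd F D := asd_of_asdim F hD
  exact ⟨F.l, κ, F.l_one, F.l_mul, hκ, fun T => classes_finite F (conj_short F h1) T⟩

/-- Translation numbers. -/
theorem rfinal_trans (hG : HasSystem G) {D : ℕ} (hD : VNP.AsdimLE G D) (hr : ResFin G)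
    (X : Set G) (hX : X.Finite) : ∃ e : ℕ, 0 < e ∧ ∀ w : G, w ^ e = 1 ∨
      ∀ n m : ℕ, IsShort X m (w ^ n) → n ≤ e * m := by
  obtain ⟨l, κ, hone, hmul, hinv, hcl⟩ := rfinal_length hG hD
  obtain ⟨e, he, htr⟩ := rf_trans l hone hmul hcl hr
  obtain ⟨B, hB⟩ : ∃ B : ℕ, ∀ x ∈ X, l x ≤ B := by
    obtain ⟨B, hB⟩ := (hX.image l).bddAbove
    exact ⟨B, fun x hx => hB ⟨x, hx, rfl⟩⟩
  refine ⟨e * (B + 1), Nat.mul_pos he (Nat.succ_pos _), ?_⟩
  intro w
  by_cases hw : w ^ e = 1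
  · left
    rw [pow_mul, hw, one_pow]
  · right
    rintro n m ⟨v, h1, h2, h3⟩
    have h4 : l (w ^ n) ≤ B * m := by
      rw [← h2]
      exact (len_prod_le l hone hmul B v (fun x hx => hB x (h1 x hx))).trans
        (Nat.mul_le_mul_left _ h3)
    have h5 := htr w hw n
    have h6 : e * l (w ^ n) ≤ e * (B * m) := Nat.mul_le_mul_left _ h4
    have h7 : e * (B + 1) * m = e * (B * m) + e * m := by ring
    omega

/-- Commutation. -/
theorem rfinal_comm (hG : HasSystem G) {D : ℕ} (hD : VNP.AsdimLE G D) (hr : ResFin G) (v : G) :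
    ∃ K : Subgroup G, K.Normal ∧ K.FiniteIndex ∧
      ∀ y ∈ K, v * (y * v * y⁻¹) = (y * v * y⁻¹) * v → v * y = y * v := by
  obtain ⟨l, κ, hone, hmul, hinv, hcl⟩ := rfinal_length hG hD
  exact rf_comm l hone hmul hcl hr v

/-- Abelian subgroups are finitely generated. -/
theorem rfinal_ab (hG : HasSystem G) {D : ℕ} (hD : VNP.AsdimLE G D) (hr : ResFin G)
    (A : Subgroup G) (hab : ∀ a ∈ A, ∀ b ∈ A, a * b = b * a) : A.FG := by
  obtain ⟨l, κ, hone, hmul, hinv, hcl⟩ := rfinal_length hG hD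
  exact ab_fg l hone hmul hinv hcl hr (D := D) (fun n φ hφ => rank_le_of_injective hD φ hφ) A hab

/-- Normalizers of abelian subgroups. -/
theorem rfinal_normalizer (hG : HasSystem G) {D : ℕ} (hD : VNP.AsdimLE G D) (hr : ResFin G)
    (A : Subgroup G) (hab : ∀ a ∈ A, ∀ b ∈ A, a * b = b * a) :
    ∃ K : Subgroup G, K.Normal ∧ K.FiniteIndex ∧
      ∀ y ∈ K, (∀ a ∈ A, y * a * y⁻¹ ∈ A) → ∀ a ∈ A, a * y = y * a := by
  obtain ⟨l, κ, hone, hmul, hinv, hcl⟩ := rfinal_length hG hD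
  exact rf_normalizer l hone hmul hcl hr A (rfinal_ab hG hD hr A hab) hab

/-- Virtually solvable subgroups are finitely generated, virtually abelian and undistorted. -/
theorem rfinal_solvable (hG : HasSystem G) {D : ℕ} (hD : VNP.AsdimLE G D) (hr : ResFin G)
    (P P0 : Subgroup G) (h0 : P0 ≤ P) (h0i : P0.relIndex P ≠ 0) (h0s : Group.IsSolvable P0) :
    (∃ H : Subgroup G, H ≤ P ∧ H.relIndex P ≠ 0 ∧ (∀ a ∈ H, ∀ b ∈ H, a * b = b * a)) ∧
      P.FG ∧ Undistorted P := by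
  obtain ⟨l, κ, hone, hmul, hinv, hcl⟩ := rfinal_length hG hD
  exact rf_vsolvable l hone hmul hinv hcl hr (D := D)
    (fun n φ hφ => rank_le_of_injective hD φ hφ) P P0 h0 h0i h0s

end

end Pool.Agent.VS
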