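import Pool.Agent.VN.ICab
import Pool.Agent.VS.RFinal
/-!
# Solvable subgroups of groups of finite asymptotic dimension with a finite complete ShortLex system
-/
namespace Pool.Agent.VS
open Pool.Agent.SLX Pool.Agent.VN

section
variable {G : Type} [Group G]

/-- Virtually solvable subgroups are finitely generated, virtually abelian and undistorted. -/
theorem icfinal_solvable (hG : HasSystem G) {D : ℕ} (hD : VNP.AsdimLE G D) (hm : ManyClasses G)
    (P P0 : Subgroup G) (h0 : P0 ≤ P) (h0i : P0.relIndex P ≠ 0) (h0s : Group.IsSolvable P0) :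
    Undistorted P ∧
      ∃ H : Subgroup G, H ≤ P ∧ H.relIndex P ≠ 0 ∧ ∀ a ∈ H, ∀ b ∈ H, a * b = b * a := by
  obtain ⟨l, κ, hone, hmul, hinv, hcl⟩ := rfinal_length hG hD
  exact ic_vsolvable l hone hmul hinv hcl hm (D := D)
    (fun n φ hφ => rank_le_of_injective hD φ hφ) P P0 h0 h0i h0s

/-- Abelian subgroups are finitely generated. -/
theorem icfinal_ab (hG : HasSystem G) {D : ℕ} (hD : VNP.AsdimLE G D) (hm : ManyClasses G)
    (A : Subgroup G) (hab : ∀ a ∈ A, ∀ b ∈ A, a * b = b * a) : A.FG := by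
  obtain ⟨l, κ, hone, hmul, hinv, hcl⟩ := rfinal_length hG hD
  exact (ic_ab l hone hmul hinv hcl hm (D := D)
    (fun n φ hφ => rank_le_of_injective hD φ hφ) A hab).1

/-- Normalizers of abelian subgroups. -/
theorem icfinal_norm (hG : HasSystem G) {D : ℕ} (hD : VNP.AsdimLE G D) (hm : ManyClasses G)
    (A : Subgroup G) (hab : ∀ a ∈ A, ∀ b ∈ A, a * b = b * a) (Q : Subgroup G)
    (hQ : ∀ q ∈ Q, ∀ a ∈ A, q * a * q⁻¹ ∈ A) :
    (Subgroup.centralizer (A : Set G)).relIndex Q ≠ 0 := by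
  obtain ⟨l, κ, hone, hmul, hinv, hcl⟩ := rfinal_length hG hD
  exact ic_norm l hone hmul hinv hcl hm (D := D)
    (fun n φ hφ => rank_le_of_injective hD φ hφ) A hab Q hQ

end

end Pool.Agent.VS
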