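import Pool.Agent.VS.LinAll
import Pool.Agent.VS.ICFinal
/-!
# Solvable subgroups: groups of finite asymptotic dimension with many classes, discrete linear
groups, linear groups over number fields
-/
namespace Pool.Agent.VS
open Pool.Agent.SLX Pool.Agent.VN Pool.Agent.VNP Matrix

theorem linall2 {G : Type} [Group G] (h : HasSystem G)
    (hG : (ManyClasses G ∧ ∃ D : ℕ, AsdimLE G D) ∨
      (∃ (n : ℕ) (ρ : G →* GL (Fin n) ℝ), Function.Injective ρ ∧ DiscreteTopology ρ.range) ∨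
      (∃ (K : Type) (_ : Field K) (_ : NumberField K) (n : ℕ) (ρ : G →* GL (Fin n) K),
        Function.Injective ρ))
    (P P₀ : Subgroup G) (h₀ : P₀ ≤ P) (hi : P₀.relIndex P ≠ 0) (hs : Group.IsSolvable P₀) :
    Undistorted P ∧
      ∃ H : Subgroup G, H ≤ P ∧ H.relIndex P ≠ 0 ∧ ∀ a ∈ H, ∀ b ∈ H, a * b = b * a := by
  rcases hG with ⟨hm, D, hD⟩ | hG
  · exact icfinal_solvable h hD hm P P₀ h₀ hi hs
  · have h1 := linall_solvable h (Or.inr hG) P P₀ h₀ hi hs
    exact ⟨h1.2.2, h1.1⟩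

end Pool.Agent.VS
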