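import Pool.Agent.VNP.AsRank
import Pool.Agent.VN.NormalAb
/-!
# Abelian normal subgroups of finite Pruefer rank are finitely generated

if for every `T` the group has only finitely many conjugacy classes of elements of translation
number at most `T`.
-/
namespace Pool.Agent.VS
open Pool.Agent.VNP Pool.Agent.VN

section comm
variable {X : Type} [CommGroup X]

theorem mem_closure_prod (T : Finset X) (x : X) (hx : x ∈ Subgroup.closure (T : Set X)) :
    ∃ f : X → ℤ, x = ∏ s ∈ T, s ^ (f s) := by
  classical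
  induction hx using Subgroup.closure_induction with
  | mem x hx =>
    refine ⟨fun s => if s = x then 1 else 0, ?_⟩
    rw [Finset.prod_eq_single x]
    · simp
    · intro b _ hb
      simp [hb]
    · intro h
      exact absurd hx h
  | one => exact ⟨0, by simp⟩
  | mul x y _ _ hx hy =>
    obtain ⟨f, hf⟩ := hx
    obtain ⟨g, hg⟩ := hy
    refine ⟨fun s => f s + g s, ?_⟩
    rw [hf, hg, ← Finset.prod_mul_distrib]
    exact Finset.prod_congr rfl fun s _ => (zpow_add s _ _).symm
  | inv x _ hx =>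
    obtain ⟨f, hf⟩ := hx
    refine ⟨fun s => - f s, ?_⟩
    rw [hf, ← Finset.prod_inv_distrib]
    exact Finset.prod_congr rfl fun s _ => (zpow_neg s _).symm

/-- A commutative group of finite exponent and finite Pruefer rank is finite. -/
theorem finite_of_exp_rank (n r : ℕ) (hn : 0 < n) (h : ∀ x : X, x ^ n = 1)
    (hr : ∀ K : Subgroup X, K.FG → ∃ T : Finset X, T.card ≤ r ∧
      Subgroup.closure (T : Set X) = K) : Finite X := by
  classical
  by_contra hinf
  have hinf : Infinite X := not_finite_iff_infinite.1 hinf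
  obtain ⟨t, ht⟩ := Infinite.exists_subset_card_eq X (n ^ r + 1)
  obtain ⟨T, hT, hT'⟩ := hr (Subgroup.closure (t : Set X)) ⟨t, rfl⟩
  have hsub : t ⊆ (Finset.univ : Finset (T → Fin n)).image
      (fun f => ∏ s : T, (s : X) ^ ((f s : Fin n) : ℕ)) := by
    intro x hx
    have hx' : x ∈ Subgroup.closure (T : Set X) := by
      rw [hT']
      exact Subgroup.subset_closure hx
    obtain ⟨f, hf⟩ := mem_closure_prod T x hx'
    rw [Finset.mem_image]
    have hn' : (0 : ℤ) < n := by exact_mod_cast hn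
    refine ⟨fun s => ⟨(f s % n).toNat, ?_⟩, Finset.mem_univ _, ?_⟩
    · have := Int.emod_lt_of_pos (f s) hn'
      have := Int.emod_nonneg (f s) hn'.ne'
      omega
    · rw [hf, ← Finset.prod_coe_sort T]
      refine Finset.prod_congr rfl fun s _ => ?_
      show (s : X) ^ (f s % n).toNat = (s : X) ^ (f s)
      have h1 : (((f s % n).toNat : ℕ) : ℤ) = f s % n :=
        Int.toNat_of_nonneg (Int.emod_nonneg (f s) hn'.ne')
      rw [← zpow_natCast, h1]
      have h2 : (s : X) ^ (f s) = (s : X) ^ (f s % n) * ((s : X) ^ (n : ℤ)) ^ (f s / n) := by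
        rw [← zpow_mul, ← zpow_add, Int.emod_add_mul_ediv]
      rw [h2, zpow_natCast, h, one_zpow, mul_one]
  have h1 := Finset.card_le_card hsub
  have h2 : ((Finset.univ : Finset (T → Fin n)).image
      (fun f => ∏ s : T, (s : X) ^ ((f s : Fin n) : ℕ))).card ≤ n ^ T.card := by
    refine Finset.card_image_le.trans ?_
    rw [Finset.card_univ, Fintype.card_fun, Fintype.card_fin, Fintype.card_coe]
  have h3 : n ^ T.card ≤ n ^ r := Nat.pow_le_pow_right hn hT
  omega

/-- A commutative group of finite Pruefer rank is a torsion group modulo a finitely generated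
subgroup. -/
theorem exists_torsion_quot (r : ℕ)
    (hr : ∀ K : Subgroup X, K.FG → ∃ T : Finset X, T.card ≤ r ∧
      Subgroup.closure (T : Set X) = K) (v : X) :
    ∃ T : Finset X, v ∈ T ∧ ∀ x : X, ∃ n : ℕ, 0 < n ∧
      x ^ n ∈ Subgroup.closure (T : Set X) := by
  classical
  by_contra hno
  push Not at hno
  have key : ∀ k : ℕ, ∃ u : Fin k → Additive X, LinearIndependent ℤ u := by
    intro k
    induction k with
    | zero => exact ⟨Fin.elim0, linearIndependent_empty_type⟩
    | succ k ih =>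
      obtain ⟨u, hu⟩ := ih
      obtain ⟨x, hx⟩ := hno (insert v (Finset.univ.image fun i => (u i).toMul))
        (Finset.mem_insert_self _ _)
      refine ⟨Fin.cons (Additive.ofMul x) u, ?_⟩
      refine LinearIndependent.finCons' (Additive.ofMul x) u hu ?_
      intro c y hy hcy
      by_contra hc
      have hspan : ∀ z ∈ Submodule.span ℤ (Set.range u), (Additive.toMul z) ∈
          Subgroup.closure ((insert v (Finset.univ.image fun i => (u i).toMul) : Finset X) :
            Set X) := by
        intro z hz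
        induction hz using Submodule.span_induction with
        | mem z hz =>
          obtain ⟨i, rfl⟩ := hz
          apply Subgroup.subset_closure
          simp
        | zero => exact Subgroup.one_mem _
        | add a b _ _ ha hb => exact Subgroup.mul_mem _ ha hb
        | smul c a _ ha => exact Subgroup.zpow_mem _ ha c
      have h1 : c • Additive.ofMul x = - y := by
        exact eq_neg_of_add_eq_zero_left hcy
      have h2 : Additive.toMul (c • Additive.ofMul x) ∈ Subgroup.closure
          ((insert v (Finset.univ.image fun i => (u i).toMul) : Finset X) : Set X) := by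
        rw [h1]
        exact Subgroup.inv_mem _ (hspan y hy)
      have h3 : x ^ c ∈ Subgroup.closure
          ((insert v (Finset.univ.image fun i => (u i).toMul) : Finset X) : Set X) := h2
      refine hx c.natAbs (Int.natAbs_pos.2 hc) ?_
      rcases Int.natAbs_eq c with h | h
      · rw [h, zpow_natCast] at h3
        exact h3
      · rw [h, zpow_neg, zpow_natCast] at h3
        exact (Subgroup.inv_mem_iff _).1 h3
  obtain ⟨u, hu⟩ := key (r + 1)
  obtain ⟨T, hT, hT'⟩ := hr (Subgroup.closure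
    ((Finset.univ.image fun i => (u i).toMul : Finset X) : Set X)) ⟨_, rfl⟩
  have h1 : Module.finrank ℤ (Submodule.span ℤ (Set.range u)) = r + 1 := by
    rw [finrank_span_eq_card hu, Fintype.card_fin]
  have h2 : Submodule.span ℤ (Set.range u) =
      Submodule.span ℤ ((T.image Additive.ofMul : Finset (Additive X)) : Set (Additive X)) := by
    apply le_antisymm
    · rw [Submodule.span_le]
      rintro _ ⟨i, rfl⟩
      have hi : (u i).toMul ∈ Subgroup.closure (T : Set X) := by
        rw [hT']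
        apply Subgroup.subset_closure
        simp
      have : ∀ z ∈ Subgroup.closure (T : Set X), Additive.ofMul z ∈
          Submodule.span ℤ ((T.image Additive.ofMul : Finset (Additive X)) :
            Set (Additive X)) := by
        intro z hz
        induction hz using Subgroup.closure_induction with
        | mem z hz =>
          apply Submodule.subset_span
          simpa using hz
        | one => exact Submodule.zero_mem _
        | mul a b _ _ ha hb => exact Submodule.add_mem _ ha hb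
        | inv a _ ha => exact Submodule.neg_mem _ ha
      exact this _ hi
    · rw [Submodule.span_le]
      intro z hz
      simp only [Finset.coe_image, Set.mem_image] at hz
      obtain ⟨t, ht, rfl⟩ := hz
      have hi : t ∈ Subgroup.closure
          ((Finset.univ.image fun i => (u i).toMul : Finset X) : Set X) := by
        rw [← hT']
        exact Subgroup.subset_closure ht
      have : ∀ z ∈ Subgroup.closure
          ((Finset.univ.image fun i => (u i).toMul : Finset X) : Set X), Additive.ofMul z ∈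
          Submodule.span ℤ (Set.range u) := by
        intro z hz
        induction hz using Subgroup.closure_induction with
        | mem z hz =>
          simp only [Finset.coe_image, Finset.coe_univ, Set.image_univ, Set.mem_range] at hz
          obtain ⟨i, rfl⟩ := hz
          exact Submodule.subset_span ⟨i, rfl⟩
        | one => exact Submodule.zero_mem _
        | mul a b _ _ ha hb => exact Submodule.add_mem _ ha hb
        | inv a _ ha => exact Submodule.neg_mem _ ha
      exact this _ hi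
  rw [h2] at h1
  have h3 := finrank_span_finset_le_card (R := ℤ)
    (T.image Additive.ofMul : Finset (Additive X))
  rw [Set.finrank, h1] at h3
  have h4 : (T.image Additive.ofMul : Finset (Additive X)).card ≤ T.card := Finset.card_image_le
  omega

end comm

variable {G : Type} [Group G]

/-! ## Translation numbers -/

/-- The powers of `w` have length at most `T n + c`. -/
def TL (l : G → ℕ) (T : ℕ) (w : G) : Prop := ∃ c : ℕ, ∀ n : ℕ, l (w ^ n) ≤ T * n + c

section len
variable (l : G → ℕ) (hone : l 1 = 0) (hmul : ∀ g h, l (g * h) ≤ l g + l h)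

include hone hmul in
theorem l_pow_le (g : G) (k : ℕ) : l (g ^ k) ≤ k * l g := by
  induction k with
  | zero => simp [hone]
  | succ k ih =>
    rw [pow_succ]
    have := hmul (g ^ k) g
    have h : (k + 1) * l g = k * l g + l g := by ring
    omega

include hone hmul in
theorem tl_of_pow {T j : ℕ} (hj : 0 < j) {w : G} (h : TL l (T * j) (w ^ j)) : TL l T w := by
  obtain ⟨c, hc⟩ := h
  refine ⟨c + j * l w, fun n => ?_⟩
  have h1 := hc (n / j)
  have h2 := l_pow_le l hone hmul w (n % j)
  have h3 : w ^ n = (w ^ j) ^ (n / j) * w ^ (n % j) := by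
    rw [← pow_mul, ← pow_add, Nat.div_add_mod]
  rw [h3]
  have h4 := hmul ((w ^ j) ^ (n / j)) (w ^ (n % j))
  have h5 : (n % j) * l w ≤ j * l w := Nat.mul_le_mul_right _ (Nat.mod_lt n hj).le
  have h6 : T * j * (n / j) ≤ T * n := by
    rw [mul_assoc]
    exact Nat.mul_le_mul_left _ (Nat.mul_div_le n j)
  omega

theorem tl_mono {T T' : ℕ} (hT : T ≤ T') {w : G} (h : TL l T w) : TL l T' w := by
  obtain ⟨c, hc⟩ := h
  exact ⟨c, fun n => (hc n).trans (Nat.add_le_add_right (Nat.mul_le_mul_right _ hT) _)⟩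

include hmul in
theorem tl_conj {T : ℕ} {w : G} (x : G) (h : TL l T w) : TL l T (x⁻¹ * w * x) := by
  obtain ⟨c, hc⟩ := h
  refine ⟨c + l x⁻¹ + l x, fun n => ?_⟩
  have h1 : (x⁻¹ * w * x) ^ n = x⁻¹ * w ^ n * x := by
    have := conj_pow (i := n) (a := x⁻¹) (b := w)
    simpa using this
  rw [h1]
  have h2 := hmul (x⁻¹ * w ^ n) x
  have h3 := hmul x⁻¹ (w ^ n)
  have h4 := hc n
  omega

include hmul in
theorem tl_mul {T T' : ℕ} {v w : G} (hvw : v * w = w * v) (hv : TL l T v) (hw : TL l T' w) :
    TL l (T + T') (v * w) := by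
  obtain ⟨c, hc⟩ := hv
  obtain ⟨c', hc'⟩ := hw
  refine ⟨c + c', fun n => ?_⟩
  rw [(show Commute v w from hvw).mul_pow]
  have h1 := hmul (v ^ n) (w ^ n)
  have h2 := hc n
  have h3 := hc' n
  have h4 : (T + T') * n = T * n + T' * n := by ring
  omega

include hone hmul in
theorem tl_of_finOrder {w : G} (hw : IsOfFinOrder w) : TL l 0 w := by
  obtain ⟨k, hk, hk'⟩ := isOfFinOrder_iff_pow_eq_one.1 hw
  apply tl_of_pow l hone hmul hk
  refine ⟨0, fun n => ?_⟩
  rw [hk', one_pow, hone]
  exact Nat.zero_le _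

include hone hmul in
/-- Products of powers. -/
theorem l_prod_le {ι : Type} (T : List ι) (a : ι → G) (h : ι → ℕ) (n : ℕ) (hh : ∀ s, h s ≤ n) :
    l ((T.map fun s => a s ^ h s).prod) ≤ n * (T.map fun s => l (a s)).sum := by
  induction T with
  | nil => simp [hone]
  | cons s T ih =>
    simp only [List.map_cons, List.prod_cons, List.sum_cons]
    have h1 := hmul (a s ^ h s) ((T.map fun s => a s ^ h s).prod)
    have h2 := l_pow_le l hone hmul (a s) (h s)
    have h3 := Nat.mul_le_mul_right (l (a s)) (hh s)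
    rw [Nat.mul_add]
    omega

end len

/-! ## Torsion-free abelian normal subgroups -/

/-- An element of infinite order of a torsion-free abelian normal subgroup of finite rank of a
finitely generated group lies in a normal subgroup without elements that are infinitely
`p`-divisible. -/
theorem exists_reduced [Group.FG G] (A : Subgroup G) [hAn : A.Normal]
    (hc : ∀ a ∈ A, ∀ b ∈ A, a * b = b * a) (htf : ∀ a ∈ A, IsOfFinOrder a → a = 1) (r : ℕ)
    (hr : ∀ K : Subgroup G, K ≤ A → K.FG → ∃ T : Finset G, T.card ≤ r ∧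
      Subgroup.closure (T : Set G) = K) (v : G) (hv : v ∈ A) :
    ∃ (V : Subgroup G) (p : ℕ), V.Normal ∧ V ≤ A ∧ v ∈ V ∧ 1 < p ∧
      ∀ x ∈ V, x ≠ 1 → ∃ K : ℕ, ∀ k, K < k → ∀ u ∈ V, u ^ (p ^ k) ≠ x := by
  classical
  let _ : CommGroup A := { (inferInstance : Group A) with
    mul_comm := fun a b => Subtype.ext (hc a a.2 b b.2) }
  obtain ⟨T, hvT, hT⟩ := exists_torsion_quot r (rank_subgroup A r hr) (⟨v, hv⟩ : A)
  set N : Subgroup G := (Subgroup.closure (T : Set A)).map A.subtype with hN
  have hNA : N ≤ A := Subgroup.map_subtype_le _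
  have hNfg : N.FG := ⟨T.image A.subtype, by
    rw [Finset.coe_image, ← MonoidHom.map_closure]⟩
  have hvN : v ∈ N := ⟨⟨v, hv⟩, Subgroup.subset_closure hvT, rfl⟩
  have hNt : ∀ x ∈ A, ∃ n : ℕ, 0 < n ∧ x ^ n ∈ N := by
    intro x hx
    obtain ⟨n, hn, hn'⟩ := hT ⟨x, hx⟩
    exact ⟨n, hn, ⟨_, hn', by simp⟩⟩
  -- a common exponent for the conjugates of the elements of `N`
  have hm : ∀ g : G, ∃ m : ℕ, 0 < m ∧ ∀ b ∈ N, (g * b * g⁻¹) ^ m ∈ N := by
    intro g
    choose! e he0 he using hNt
    obtain ⟨S, hS⟩ := hNfg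
    have hSN : ∀ b ∈ S, b ∈ N := by
      intro b hb
      rw [← hS]
      exact Subgroup.subset_closure hb
    refine ⟨∏ b ∈ S, e (g * b * g⁻¹), Finset.prod_pos fun b hb =>
      he0 _ (hAn.conj_mem b (hNA (hSN b hb)) g), ?_⟩
    intro b hb
    rw [← hS] at hb
    have key : b ∈ A ∧ (g * b * g⁻¹) ^ (∏ b ∈ S, e (g * b * g⁻¹)) ∈ N := by
      induction hb using Subgroup.closure_induction with
      | mem x hx =>
        have hxA := hNA (hSN x hx)
        refine ⟨hxA, ?_⟩
        rw [← Finset.mul_prod_erase S (fun b => e (g * b * g⁻¹)) hx, pow_mul]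
        exact N.pow_mem (he _ (hAn.conj_mem x hxA g)) _
      | one =>
        refine ⟨A.one_mem, ?_⟩
        rw [mul_one, mul_inv_cancel, one_pow]
        exact N.one_mem
      | mul x y _ _ hx hy =>
        refine ⟨A.mul_mem hx.1 hy.1, ?_⟩
        have h1 : g * (x * y) * g⁻¹ = (g * x * g⁻¹) * (g * y * g⁻¹) := by group
        have h2 : Commute (g * x * g⁻¹) (g * y * g⁻¹) :=
          hc _ (hAn.conj_mem x hx.1 g) _ (hAn.conj_mem y hy.1 g)
        rw [h1, h2.mul_pow]
        exact N.mul_mem hx.2 hy.2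
      | inv x _ hx =>
        refine ⟨A.inv_mem hx.1, ?_⟩
        have h1 : g * x⁻¹ * g⁻¹ = (g * x * g⁻¹)⁻¹ := by group
        rw [h1, inv_pow]
        exact N.inv_mem hx.2
    exact key.2
  choose m hm0 hm using hm
  obtain ⟨Y, hY⟩ := Group.fg_def.1 (inferInstance : Group.FG G)
  set M : ℕ := (∏ g ∈ Y, m g) * (∏ g ∈ Y, m g⁻¹) with hM
  have hM0 : 0 < M := Nat.mul_pos (Finset.prod_pos fun g _ => hm0 g)
    (Finset.prod_pos fun g _ => hm0 g⁻¹)
  have hMY : ∀ g ∈ Y, ∀ b ∈ N, (g * b * g⁻¹) ^ M ∈ N ∧ (g⁻¹ * b * g) ^ M ∈ N := by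
    intro g hg b hb
    constructor
    · have h1 : m g ∣ M := (Finset.dvd_prod_of_mem m hg).mul_right _
      obtain ⟨t, ht⟩ := h1
      rw [ht, pow_mul]
      exact N.pow_mem (hm g b hb) _
    · have h1 : m g⁻¹ ∣ M := (Finset.dvd_prod_of_mem (fun g => m g⁻¹) hg).mul_left _
      obtain ⟨t, ht⟩ := h1
      rw [ht, pow_mul]
      have h2 := hm g⁻¹ b hb
      rw [inv_inv] at h2
      exact N.pow_mem h2 _
  have hmono : ∀ (x : G) (j k : ℕ), j ≤ k → x ^ (M ^ j) ∈ N → x ^ (M ^ k) ∈ N := by
    intro x j k hjk hx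
    obtain ⟨i, rfl⟩ := Nat.exists_eq_add_of_le hjk
    rw [pow_add, pow_mul]
    exact N.pow_mem hx _
  -- the normal subgroup
  let V : Subgroup G :=
    { carrier := {x | x ∈ A ∧ ∃ k : ℕ, x ^ (M ^ k) ∈ N}
      one_mem' := ⟨A.one_mem, 0, by rw [one_pow]; exact N.one_mem⟩
      mul_mem' := by
        rintro x y ⟨hx, k, hk⟩ ⟨hy, j, hj⟩
        refine ⟨A.mul_mem hx hy, max k j, ?_⟩
        rw [(show Commute x y from hc x hx y hy).mul_pow]
        exact N.mul_mem (hmono x _ _ (le_max_left _ _) hk) (hmono y _ _ (le_max_right _ _) hj)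
      inv_mem' := by
        rintro x ⟨hx, k, hk⟩
        refine ⟨A.inv_mem hx, k, ?_⟩
        rw [inv_pow]
        exact N.inv_mem hk }
  have hVA : V ≤ A := fun x hx => hx.1
  have hcj : ∀ g : G, (∀ b ∈ N, (g * b * g⁻¹) ^ M ∈ N) → ∀ x ∈ V, g * x * g⁻¹ ∈ V := by
    rintro g hg x ⟨hx, k, hk⟩
    refine ⟨hAn.conj_mem x hx g, k + 1, ?_⟩
    rw [pow_succ, pow_mul, conj_pow]
    exact hg _ hk
  have hVn : ∀ g : G, (∀ x ∈ V, g * x * g⁻¹ ∈ V) ∧ ∀ x ∈ V, g⁻¹ * x * g ∈ V := by
    intro g
    have hg : g ∈ Subgroup.closure (Y : Set G) := by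
      rw [hY]
      trivial
    induction hg using Subgroup.closure_induction with
    | mem g hg =>
      refine ⟨hcj g fun b hb => (hMY g hg b hb).1, ?_⟩
      have h1 := hcj g⁻¹ fun b hb => by
        rw [inv_inv]
        exact (hMY g hg b hb).2
      simpa using h1
    | one => exact ⟨fun x hx => by simpa using hx, fun x hx => by simpa using hx⟩
    | mul g h _ _ hg hh =>
      constructor
      · intro x hx
        have h1 : g * h * x * (g * h)⁻¹ = g * (h * x * h⁻¹) * g⁻¹ := by group
        rw [h1]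
        exact hg.1 _ (hh.1 _ hx)
      · intro x hx
        have h1 : (g * h)⁻¹ * x * (g * h) = h⁻¹ * (g⁻¹ * x * g) * h := by group
        rw [h1]
        exact hh.2 _ (hg.2 _ hx)
    | inv g _ hg =>
      refine ⟨?_, ?_⟩
      · intro x hx
        rw [inv_inv]
        exact hg.2 x hx
      · intro x hx
        rw [inv_inv]
        exact hg.1 x hx
  obtain ⟨p, hpM, hp⟩ := Nat.exists_infinite_primes (M + 1)
  have hcop : Nat.Coprime M p := by
    have h1 : ¬ p ∣ M := fun h => by
      have := Nat.le_of_dvd hM0 h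
      omega
    exact ((Nat.Prime.coprime_iff_not_dvd hp).2 h1).symm
  refine ⟨V, p, ⟨fun x hx g => (hVn g).1 x hx⟩, hVA, ⟨hv, 0, ?_⟩, hp.one_lt, ?_⟩
  · rw [pow_zero, pow_one]
    exact hvN
  rintro x ⟨hxA, a, ha⟩ hx1
  -- a root bound in `N`
  have hNfg' : Group.FG N := (Group.fg_iff_subgroup_fg N).2 hNfg
  let _ : CommGroup N := { (inferInstance : Group N) with
    mul_comm := fun a b => Subtype.ext (hc a (hNA a.2) b (hNA b.2)) }
  have hs : ¬ IsOfFinOrder (⟨x ^ (M ^ a), ha⟩ : N) := by
    intro h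
    have h1 := (finOrder_coe N ⟨x ^ (M ^ a), ha⟩).2 h
    obtain ⟨k, hk, hk'⟩ := isOfFinOrder_iff_pow_eq_one.1 h1
    apply hx1
    apply htf x hxA
    rw [isOfFinOrder_iff_pow_eq_one]
    refine ⟨M ^ a * k, Nat.mul_pos (pow_pos hM0 a) hk, ?_⟩
    rw [pow_mul]
    exact hk'
  obtain ⟨K, hK⟩ := fg_ab_root_bound N ⟨x ^ (M ^ a), ha⟩ hs
  refine ⟨K, ?_⟩
  rintro k hk u ⟨huA, b, hb⟩ hux
  have h1 : K < p ^ k := hk.trans (Nat.lt_pow_self hp.one_lt)
  -- Bezout
  have h2 : IsCoprime ((M ^ b : ℕ) : ℤ) ((p ^ k : ℕ) : ℤ) :=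
    Nat.isCoprime_iff_coprime.2 (Nat.Coprime.pow b k hcop)
  obtain ⟨α, β, hαβ⟩ := h2
  have hu' : u ^ (M ^ (a + b)) ∈ N := hmono u b (a + b) (by omega) hb
  set s : G := x ^ (M ^ a) with hs'
  have h3 : (u ^ (M ^ (a + b))) ^ (p ^ k) = s ^ (M ^ b) := by
    rw [← pow_mul, mul_comm (M ^ (a + b)) (p ^ k), pow_mul, hux, hs', ← pow_mul, ← pow_add]
  have h4 : ((u ^ (M ^ (a + b))) ^ α * s ^ β) ^ (p ^ k) = s := by
    have hcm : Commute ((u ^ (M ^ (a + b))) ^ α) (s ^ β) :=
      hc _ (A.zpow_mem (A.pow_mem huA _) _) _ (A.zpow_mem (hNA ha) _)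
    rw [hcm.mul_pow]
    have h5 : ((u ^ (M ^ (a + b))) ^ α) ^ (p ^ k) = s ^ (α * ((M ^ b : ℕ) : ℤ)) := by
      rw [← zpow_natCast, ← zpow_mul, mul_comm α ((p ^ k : ℕ) : ℤ), zpow_mul, zpow_natCast, h3,
        ← zpow_natCast s, ← zpow_mul, mul_comm α]
    have h6 : (s ^ β) ^ (p ^ k) = s ^ (β * ((p ^ k : ℕ) : ℤ)) := by
      rw [← zpow_natCast, ← zpow_mul]
    rw [h5, h6, ← zpow_add, hαβ, zpow_one]
  refine hK (p ^ k) h1 ⟨(u ^ (M ^ (a + b))) ^ α * s ^ β,
    N.mul_mem (N.zpow_mem hu' _) (N.zpow_mem ha _)⟩ ?_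
  apply Subtype.ext
  simpa using h4

section main
variable (l : G → ℕ) (hone : l 1 = 0) (hmul : ∀ g h, l (g * h) ≤ l g + l h)
  (hcl : ∀ T : ℕ, ∃ S : Set G, S.Finite ∧ ∀ w : G, TL l T w → ∃ x : G, x⁻¹ * w * x ∈ S)

include hcl in
/-- There are no distorted elements in `A`. -/
theorem no_zero_tau [Group.FG G] (A : Subgroup G) [hAn : A.Normal]
    (hc : ∀ a ∈ A, ∀ b ∈ A, a * b = b * a) (htf : ∀ a ∈ A, IsOfFinOrder a → a = 1) (r : ℕ)
    (hr : ∀ K : Subgroup G, K ≤ A → K.FG → ∃ T : Finset G, T.card ≤ r ∧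
      Subgroup.closure (T : Set G) = K) (v : G) (hv : v ∈ A)
    (h : ∀ k : ℕ, TL l 1 (v ^ k)) : v = 1 := by
  classical
  by_contra hv1
  obtain ⟨V, p, hVn, hVA, hvV, hp, hV⟩ := exists_reduced A hc htf r hr v hv
  obtain ⟨S, hS, hS'⟩ := hcl 1
  choose x hx using fun k => hS' _ (h (p ^ k))
  have : Finite S := hS
  obtain ⟨s, hs⟩ := Finite.exists_infinite_fiber
    (fun k : ℕ => (⟨(x k)⁻¹ * v ^ (p ^ k) * x k, hx k⟩ : S))
  have hs' := Set.infinite_coe_iff.1 hs
  have hpow : ∀ k, ((x k)⁻¹ * v * x k) ^ (p ^ k) = (x k)⁻¹ * v ^ (p ^ k) * x k := by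
    intro k
    have := conj_pow (i := p ^ k) (a := (x k)⁻¹) (b := v)
    simpa using this
  have hin : ∀ k, (x k)⁻¹ * v * x k ∈ V := by
    intro k
    have := hVn.conj_mem v hvV (x k)⁻¹
    simpa using this
  have hval : ∀ k, k ∈ ((fun k : ℕ => (⟨(x k)⁻¹ * v ^ (p ^ k) * x k, hx k⟩ : S)) ⁻¹' {s}) →
      ((x k)⁻¹ * v * x k) ^ (p ^ k) = s := by
    intro k hk
    rw [hpow]
    exact congrArg Subtype.val hk
  obtain ⟨k0, hk0⟩ := hs'.nonempty
  have hsV : (s : G) ∈ V := by
    rw [← hval k0 hk0]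
    exact V.pow_mem (hin k0) _
  have hs1 : (s : G) ≠ 1 := by
    intro h1
    apply hv1
    apply htf v hv
    rw [isOfFinOrder_iff_pow_eq_one]
    refine ⟨p ^ k0, pow_pos (by omega) _, ?_⟩
    have h2 := hval k0 hk0
    rw [hpow, h1] at h2
    calc v ^ (p ^ k0) = x k0 * ((x k0)⁻¹ * v ^ (p ^ k0) * x k0) * (x k0)⁻¹ := by group
      _ = 1 := by rw [h2]; group
  obtain ⟨K, hK⟩ := hV s hsV hs1
  obtain ⟨k, hk, hkK⟩ := hs'.exists_gt K
  exact hK k hkK _ (hin k) (hval k hk)

include hone hmul hcl in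
/-- The translation numbers of the elements of `A` are bounded away from zero. -/
theorem exists_gap [Group.FG G] (A : Subgroup G) [hAn : A.Normal]
    (hc : ∀ a ∈ A, ∀ b ∈ A, a * b = b * a) (htf : ∀ a ∈ A, IsOfFinOrder a → a = 1) (r : ℕ)
    (hr : ∀ K : Subgroup G, K ≤ A → K.FG → ∃ T : Finset G, T.card ≤ r ∧
      Subgroup.closure (T : Set G) = K) :
    ∃ Q : ℕ, 0 < Q ∧ ∀ v ∈ A, TL l 1 (v ^ Q) → v = 1 := by
  classical
  by_contra hno
  push Not at hno
  obtain ⟨S, hS, hS'⟩ := hcl 1
  choose v hvA hvT hv1 using fun i : ℕ => hno (i + 1).factorial (Nat.factorial_pos _)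
  have htl : ∀ i, TL l 1 (v i) := by
    intro i
    refine tl_of_pow l hone hmul (Nat.factorial_pos (i + 1)) (tl_mono l ?_ (hvT i))
    rw [one_mul]
    exact Nat.factorial_pos _
  choose x hx using fun i => hS' _ (htl i)
  have : Finite S := hS
  obtain ⟨s, hs⟩ := Finite.exists_infinite_fiber
    (fun k : ℕ => (⟨(x k)⁻¹ * v k * x k, hx k⟩ : S))
  have hs' := Set.infinite_coe_iff.1 hs
  have hval : ∀ k, k ∈ ((fun k : ℕ => (⟨(x k)⁻¹ * v k * x k, hx k⟩ : S)) ⁻¹' {s}) →
      (x k)⁻¹ * v k * x k = s := fun k hk => congrArg Subtype.val hk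
  obtain ⟨k0, hk0⟩ := hs'.nonempty
  have hsA : (s : G) ∈ A := by
    rw [← hval k0 hk0]
    have := hAn.conj_mem _ (hvA k0) (x k0)⁻¹
    simpa using this
  have hs1 : (s : G) = 1 := by
    refine no_zero_tau l hcl A hc htf r hr s hsA ?_
    intro k
    rcases Nat.eq_zero_or_pos k with rfl | hk
    · rw [pow_zero]
      refine ⟨0, fun n => ?_⟩
      rw [one_pow, hone]
      exact Nat.zero_le _
    · obtain ⟨i, hi, hik⟩ := hs'.exists_gt k
      have h1 : k ∣ (i + 1).factorial := Nat.dvd_factorial hk (by omega)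
      obtain ⟨j, hj⟩ := h1
      have hj0 : 0 < j := by
        rcases Nat.eq_zero_or_pos j with rfl | h
        · rw [mul_zero] at hj
          exact absurd hj (Nat.factorial_ne_zero _)
        · exact h
      have h2 : TL l 1 ((s : G) ^ (i + 1).factorial) := by
        rw [← hval i hi]
        have h3 : ((x i)⁻¹ * v i * x i) ^ (i + 1).factorial =
            (x i)⁻¹ * (v i) ^ (i + 1).factorial * x i := by
          have := conj_pow (i := (i + 1).factorial) (a := (x i)⁻¹) (b := v i)
          simpa using this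
        rw [h3]
        exact tl_conj l hmul _ (hvT i)
      rw [hj, pow_mul] at h2
      exact tl_of_pow l hone hmul hj0 (tl_mono l (by omega) h2)
  apply hv1 k0
  have h2 := hval k0 hk0
  rw [hs1] at h2
  calc v k0 = x k0 * ((x k0)⁻¹ * v k0 * x k0) * (x k0)⁻¹ := by group
    _ = 1 := by rw [h2]; group

include hone hmul hcl in
/-- The torsion-free case. -/
theorem fg_of_rank_tf [Group.FG G] (A : Subgroup G) [hAn : A.Normal]
    (hc : ∀ a ∈ A, ∀ b ∈ A, a * b = b * a) (htf : ∀ a ∈ A, IsOfFinOrder a → a = 1) (r : ℕ)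
    (hr : ∀ K : Subgroup G, K ≤ A → K.FG → ∃ T : Finset G, T.card ≤ r ∧
      Subgroup.closure (T : Set G) = K) : A.FG := by
  classical
  obtain ⟨Q, hQ, hgap⟩ := exists_gap l hone hmul hcl A hc htf r hr
  let _ : CommGroup A := { (inferInstance : Group A) with
    mul_comm := fun a b => Subtype.ext (hc a a.2 b b.2) }
  have hrA := rank_subgroup A r hr
  -- finiteness of the balls
  have hball : ∀ L : ℕ, 0 < L → {y : A | TL l L (y : G) ∧ TL l L (y : G)⁻¹}.Finite := by
    intro L hL
    set n : ℕ := Q * (L + L) with hn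
    have hn0 : 0 < n := Nat.mul_pos hQ (by omega)
    set R : Subgroup A := (powMonoidHom n : A →* A).range with hR
    have hfin : Finite (A ⧸ R) := by
      refine finite_of_exp_rank n r hn0 ?_
        (rank_of_surjective (QuotientGroup.mk' R) (QuotientGroup.mk'_surjective R) r hrA)
      intro b
      induction b using QuotientGroup.induction_on with
      | H b =>
        rw [← QuotientGroup.mk_pow, QuotientGroup.eq_one_iff]
        exact ⟨b, rfl⟩
    apply Set.Finite.of_finite_image (f := fun y : A => (QuotientGroup.mk y : A ⧸ R))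
      (Set.toFinite _)
    rintro y ⟨hy, hy'⟩ z ⟨hz, hz'⟩ hyz
    obtain ⟨u, hu⟩ := QuotientGroup.eq.1 hyz
    have hu1 : (u : G) ^ n = (y : G)⁻¹ * z := by
      have := congrArg (fun a : A => (a : G)) hu
      simpa using this
    have h1 : TL l (L + L) (((u : G) ^ Q) ^ (L + L)) := by
      rw [← pow_mul, ← hn, hu1]
      exact tl_mul l hmul (hc _ (A.inv_mem y.2) _ z.2) hy' hz
    have h2 : TL l 1 ((u : G) ^ Q) := by
      refine tl_of_pow l hone hmul (j := L + L) (by omega) ?_
      rw [one_mul]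
      exact h1
    have h3 := hgap u u.2 h2
    rw [h3, one_pow] at hu1
    apply Subtype.ext
    exact inv_mul_eq_one.1 hu1.symm
  obtain ⟨T, _, hT⟩ := exists_torsion_quot r hrA (1 : A)
  set Λ : ℕ := (T.toList.map fun s : A => l (s : G)).sum +
    (T.toList.map fun s : A => l (s : G)⁻¹).sum + 1
    with hΛ
  set D := {y : A | TL l Λ (y : G) ∧ TL l Λ (y : G)⁻¹} with hD
  have hDfin : D.Finite := hball Λ (by omega)
  have hlin : ∀ (a : A → G) (L : ℕ), (∀ s t : A, a s * a t = a t * a s) →
      (T.toList.map fun s => l (a s)).sum ≤ L → ∀ (n : ℕ), 0 < n → ∀ (h : A → ℕ),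
      (∀ s, h s ≤ n) → ∀ w : G, w ^ n = (T.toList.map fun s => a s ^ h s).prod → TL l L w := by
    intro a L hcomm hL n hn h hh w hw
    apply tl_of_pow l hone hmul hn
    refine ⟨0, fun j => ?_⟩
    rw [hw]
    have h1 : ((T.toList.map fun s => a s ^ h s).prod) ^ j =
        (T.toList.map fun s => a s ^ (h s * j)).prod := by
      have h2 : ∀ L : List A, ((L.map fun s => a s ^ h s).prod) ^ j =
          (L.map fun s => a s ^ (h s * j)).prod := by
        intro L
        induction L with
        | nil => simp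
        | cons s L ih =>
          simp only [List.map_cons, List.prod_cons]
          have hcm : Commute (a s ^ h s) ((L.map fun s => a s ^ h s).prod) := by
            apply Commute.list_prod_right
            intro z hz
            obtain ⟨t, _, rfl⟩ := List.mem_map.1 hz
            exact (show Commute (a s) (a t) from hcomm s t).pow_pow _ _
          rw [hcm.mul_pow, ih, ← pow_mul]
      exact h2 _
    rw [h1]
    have h3 := l_prod_le l hone hmul T.toList a (fun s => h s * j) (n * j)
      (fun s => Nat.mul_le_mul_right _ (hh s))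
    refine h3.trans ?_
    rw [Nat.add_zero, mul_comm L n, mul_assoc, mul_assoc]
    refine Nat.mul_le_mul_left _ ?_
    rw [mul_comm]
    exact Nat.mul_le_mul_right _ hL
  have hrep : ∀ x : A, ∃ z ∈ Subgroup.closure (T : Set A), x * z ∈ D := by
    intro x
    obtain ⟨n, hn, hxn⟩ := hT x
    obtain ⟨f, hf⟩ := mem_closure_prod T _ hxn
    have hn' : (0 : ℤ) < n := by exact_mod_cast hn
    refine ⟨∏ s ∈ T, s ^ (- (f s / n)), ?_, ?_⟩
    · apply Subgroup.prod_mem
      intro s hs
      exact Subgroup.zpow_mem _ (Subgroup.subset_closure hs) _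
    · set z : A := ∏ s ∈ T, s ^ (- (f s / n)) with hz
      have h1 : (x * z) ^ n = ∏ s ∈ T, s ^ (f s % n).toNat := by
        rw [mul_pow, hf, hz, ← Finset.prod_pow, ← Finset.prod_mul_distrib]
        refine Finset.prod_congr rfl fun s _ => ?_
        have h2 : (((f s % n).toNat : ℕ) : ℤ) = f s % n :=
          Int.toNat_of_nonneg (Int.emod_nonneg (f s) hn'.ne')
        rw [← zpow_natCast, ← zpow_natCast, ← zpow_mul, ← zpow_add, h2]
        congr 1
        have h3 := Int.emod_add_mul_ediv (f s) n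
        linarith [mul_comm (f s / n) (n : ℤ)]
      have hle : ∀ s : A, (f s % n).toNat ≤ n := by
        intro s
        have := Int.emod_lt_of_pos (f s) hn'
        omega
      have h2 : ((x * z : A) : G) ^ n = (T.toList.map fun s : A => (s : G) ^ (f s % n).toNat).prod := by
        have h3 : (((x * z) ^ n : A) : G) = ((∏ s ∈ T, s ^ (f s % n).toNat : A) : G) := by
          rw [h1]
        rw [SubmonoidClass.coe_pow] at h3
        rw [h3, ← Finset.prod_map_toList]
        have h4 := map_list_prod A.subtype (T.toList.map fun s : A => s ^ (f s % n).toNat)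
        rw [List.map_map] at h4
        exact h4
      constructor
      · refine hlin (fun s => (s : G)) Λ (fun s t => hc s s.2 t t.2) (by omega) n hn
          (fun s => (f s % n).toNat) hle _ h2
      · refine hlin (fun s => (s : G)⁻¹) Λ
          (fun s t => hc _ (A.inv_mem s.2) _ (A.inv_mem t.2)) (by omega) n hn
          (fun s => (f s % n).toNat) hle _ ?_
        rw [inv_pow, h2]
        have h3 : ∀ L : List A, ((L.map fun s : A => (s : G) ^ (f s % n).toNat).prod)⁻¹ =
            (L.map fun s : A => ((s : G)⁻¹) ^ (f s % n).toNat).prod := by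
          intro L
          induction L with
          | nil => simp
          | cons s L ih =>
            simp only [List.map_cons, List.prod_cons]
            have hm : (L.map fun s : A => (s : G) ^ (f s % n).toNat).prod ∈ A := by
              apply Subgroup.list_prod_mem
              intro z hz
              obtain ⟨t, _, rfl⟩ := List.mem_map.1 hz
              exact A.pow_mem t.2 _
            rw [mul_inv_rev, ih, inv_pow, hc _ ?_ _ (A.inv_mem (A.pow_mem s.2 _))]
            rw [← ih]
            exact A.inv_mem hm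
        exact h3 _
  refine ⟨(T ∪ hDfin.toFinset).image (fun a : A => (a : G)), ?_⟩
  have himg : Subgroup.closure ((T ∪ hDfin.toFinset : Finset A) : Set A) = ⊤ := by
    rw [eq_top_iff]
    rintro x -
    obtain ⟨z, hz, hxz⟩ := hrep x
    have h1 : x = (x * z) * z⁻¹ := by group
    rw [h1]
    refine Subgroup.mul_mem _ (Subgroup.subset_closure ?_) (Subgroup.inv_mem _ ?_)
    · rw [Finset.coe_union]
      right
      rw [Set.Finite.coe_toFinset]
      exact hxz
    · refine Subgroup.closure_mono ?_ hz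
      rw [Finset.coe_union]
      exact Set.subset_union_left
  have h2 : ((T ∪ hDfin.toFinset : Finset A).image (fun a : A => (a : G)) : Set G) =
      A.subtype '' ((T ∪ hDfin.toFinset : Finset A) : Set A) := by
    rw [Finset.coe_image]
    rfl
  rw [h2, ← MonoidHom.map_closure, himg, ← MonoidHom.range_eq_map, A.range_subtype]

include hone hmul hcl in
/-- A common exponent for the torsion elements. -/
theorem exists_tors_exp : ∃ E : ℕ, 0 < E ∧ ∀ t : G, IsOfFinOrder t → t ^ E = 1 := by
  classical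
  obtain ⟨S, hS, hS'⟩ := hcl 0
  refine ⟨∏ s ∈ hS.toFinset, max 1 (orderOf s), Finset.prod_pos fun s _ => by omega, ?_⟩
  intro t ht
  obtain ⟨x, hx⟩ := hS' t (tl_of_finOrder l hone hmul ht)
  have h1 : IsOfFinOrder (x⁻¹ * t * x) := by
    obtain ⟨k, hk, hk'⟩ := isOfFinOrder_iff_pow_eq_one.1 ht
    rw [isOfFinOrder_iff_pow_eq_one]
    refine ⟨k, hk, ?_⟩
    have h2 : (x⁻¹ * t * x) ^ k = x⁻¹ * t ^ k * x := by
      have := conj_pow (i := k) (a := x⁻¹) (b := t)
      simpa using this
    rw [h2, hk']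
    group
  have h2 : 0 < orderOf (x⁻¹ * t * x) := h1.orderOf_pos
  have h3 : max 1 (orderOf (x⁻¹ * t * x)) ∣ ∏ s ∈ hS.toFinset, max 1 (orderOf s) :=
    Finset.dvd_prod_of_mem (fun s => max 1 (orderOf s)) (hS.mem_toFinset.2 hx)
  rw [max_eq_right (by omega)] at h3
  have h4 := orderOf_dvd_iff_pow_eq_one.1 h3
  have h5 : (x⁻¹ * t * x) ^ (∏ s ∈ hS.toFinset, max 1 (orderOf s)) =
      x⁻¹ * t ^ (∏ s ∈ hS.toFinset, max 1 (orderOf s)) * x := by
    have := conj_pow (i := ∏ s ∈ hS.toFinset, max 1 (orderOf s)) (a := x⁻¹) (b := t)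
    simpa using this
  rw [h5] at h4
  calc t ^ (∏ s ∈ hS.toFinset, max 1 (orderOf s))
      = x * (x⁻¹ * t ^ (∏ s ∈ hS.toFinset, max 1 (orderOf s)) * x) * x⁻¹ := by group
    _ = 1 := by rw [h4]; group

include hone hmul hcl in
/-- **Abelian normal subgroups of finite Pruefer rank are finitely generated.** -/
theorem fg_of_rank' [Group.FG G] (B : Subgroup G) [hBn : B.Normal]
    (hc : ∀ a ∈ B, ∀ b ∈ B, a * b = b * a) (r : ℕ)
    (hr : ∀ K : Subgroup G, K ≤ B → K.FG → ∃ T : Finset G, T.card ≤ r ∧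
      Subgroup.closure (T : Set G) = K) : B.FG := by
  classical
  obtain ⟨E, hE0, hE⟩ := exists_tors_exp l hone hmul hcl
  let _ : CommGroup B := { (inferInstance : Group B) with
    mul_comm := fun a b => Subtype.ext (hc a a.2 b b.2) }
  set R : Subgroup B := (powMonoidHom E : B →* B).range with hR
  set A : Subgroup G := R.map B.subtype with hA
  have hAB : A ≤ B := Subgroup.map_subtype_le _
  have hmem : ∀ a : G, a ∈ A ↔ ∃ b ∈ B, b ^ E = a := by
    intro a
    constructor
    · rintro ⟨_, ⟨b, rfl⟩, rfl⟩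
      exact ⟨b, b.2, by simp⟩
    · rintro ⟨b, hb, rfl⟩
      exact ⟨⟨b, hb⟩ ^ E, ⟨⟨b, hb⟩, rfl⟩, by simp⟩
  have hAn : A.Normal := by
    constructor
    intro a ha g
    obtain ⟨b, hb, rfl⟩ := (hmem a).1 ha
    refine (hmem _).2 ⟨g * b * g⁻¹, hBn.conj_mem b hb g, conj_pow⟩
  have htf : ∀ a ∈ A, IsOfFinOrder a → a = 1 := by
    intro a ha hfin
    obtain ⟨b, hb, rfl⟩ := (hmem a).1 ha
    apply hE
    obtain ⟨k, hk, hk'⟩ := isOfFinOrder_iff_pow_eq_one.1 hfin
    rw [isOfFinOrder_iff_pow_eq_one]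
    exact ⟨E * k, Nat.mul_pos hE0 hk, by rw [pow_mul]; exact hk'⟩
  have hAfg : A.FG := fg_of_rank_tf l hone hmul hcl A
    (fun a ha b hb => hc a (hAB ha) b (hAB hb)) htf r (fun K hK => hr K (hK.trans hAB))
  have hfin : Finite (B ⧸ R) := by
    refine finite_of_exp_rank E r hE0 ?_
      (rank_of_surjective (QuotientGroup.mk' R) (QuotientGroup.mk'_surjective R) r
        (rank_subgroup B r hr))
    intro b
    induction b using QuotientGroup.induction_on with
    | H b =>
      rw [← QuotientGroup.mk_pow, QuotientGroup.eq_one_iff]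
      exact ⟨b, rfl⟩
  obtain ⟨T, hT⟩ := hAfg
  have hfin' : (Set.range (fun q : B ⧸ R => ((q.out : B) : G))).Finite := Set.finite_range _
  refine ⟨T ∪ hfin'.toFinset, le_antisymm ?_ ?_⟩
  · rw [Subgroup.closure_le, Finset.coe_union, Set.Finite.coe_toFinset]
    apply Set.union_subset
    · intro t ht
      apply hAB
      rw [← hT]
      exact Subgroup.subset_closure ht
    · rintro _ ⟨q, rfl⟩
      exact (q.out : B).2
  · intro b hb
    set q : B ⧸ R := QuotientGroup.mk (⟨b, hb⟩ : B) with hq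
    have h1 : (q.out)⁻¹ * (⟨b, hb⟩ : B) ∈ R := by
      rw [← QuotientGroup.eq, QuotientGroup.out_eq']
    have h2 : ((q.out : B) : G)⁻¹ * b ∈ A := ⟨_, h1, rfl⟩
    have h3 : b = ((q.out : B) : G) * (((q.out : B) : G)⁻¹ * b) := by group
    rw [h3]
    refine Subgroup.mul_mem _ (Subgroup.subset_closure ?_) ?_
    · rw [Finset.coe_union, Set.Finite.coe_toFinset]
      right
      exact ⟨q, rfl⟩
    · rw [← hT] at h2
      refine Subgroup.closure_mono ?_ h2
      rw [Finset.coe_union]
      exact Set.subset_union_left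

end main

/-- **Abelian normal subgroups of finite Pruefer rank are finitely generated**, if for every `T`
there are only finitely many conjugacy classes of elements of translation number at most `T`. -/
theorem fg_of_rank [Group.FG G] (l : G → ℕ) (hone : l 1 = 0)
    (hmul : ∀ g h, l (g * h) ≤ l g + l h)
    (hcl : ∀ T : ℕ, ∃ S : Set G, S.Finite ∧ ∀ w : G,
      (∃ c : ℕ, ∀ n : ℕ, l (w ^ n) ≤ T * n + c) → ∃ x : G, x⁻¹ * w * x ∈ S)
    (B : Subgroup G) [B.Normal] (hc : ∀ a ∈ B, ∀ b ∈ B, a * b = b * a) (r : ℕ)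
    (hr : ∀ K : Subgroup G, K ≤ B → K.FG → ∃ T : Finset G, T.card ≤ r ∧
      Subgroup.closure (T : Set G) = K) : B.FG :=
  fg_of_rank' l hone hmul hcl B hc r hr

end Pool.Agent.VS
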