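import Pool.Agent.VN.PolyEnd
import Pool.Agent.VN.NormalAb
/-!
# Virtually solvable groups of finite rank: the algebraic end
-/
namespace Pool.Agent.VS
open Subgroup
open scoped commutatorElement

/-- Every finitely generated subgroup can be generated by at most `r` elements. -/
def RankLE (M : Type) [Group M] (r : ℕ) : Prop :=
  ∀ K : Subgroup M, K.FG → ∃ T : Finset M, T.card ≤ r ∧ closure (T : Set M) = K

/-- Abelian groups of finite exponent and finite rank are finite. -/
theorem finite_of_exp (X : Type) [CommGroup X] (n r : ℕ) (hn : 0 < n) (h : ∀ x : X, x ^ n = 1)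
    (hr : RankLE X r) : Finite X := by
  classical
  by_contra hinf
  rw [not_finite_iff_infinite] at hinf
  obtain ⟨s, hs⟩ := Infinite.exists_subset_card_eq X (n ^ r + 1)
  obtain ⟨T, hT, hTK⟩ := hr (closure (s : Set X)) ⟨s, rfl⟩
  -- the products of powers of the elements of `T`
  set P : Finset X := (Fintype.piFinset (fun _ : T => Finset.range n)).image
    (fun f => ∏ t : T, (t : X) ^ f t) with hP
  have hPcard : P.card ≤ n ^ r := by
    refine Finset.card_image_le.trans ?_
    rw [Fintype.card_piFinset]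
    simp only [Finset.card_range, Finset.prod_const, Finset.card_univ, Fintype.card_coe]
    exact Nat.pow_le_pow_right hn hT
  have hmemP : ∀ f : T → ℕ, (∏ t : T, (t : X) ^ f t) ∈ P := by
    intro f
    rw [hP, Finset.mem_image]
    refine ⟨fun t => f t % n, ?_, ?_⟩
    · rw [Fintype.mem_piFinset]
      intro t
      rw [Finset.mem_range]
      exact Nat.mod_lt _ hn
    · apply Finset.prod_congr rfl
      intro t _
      have h1 : (t : X) ^ f t = (t : X) ^ (f t % n + n * (f t / n)) := by
        rw [Nat.mod_add_div]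
      rw [h1, pow_add, pow_mul, h, one_pow, mul_one]
  have hcl : ∀ x ∈ closure (T : Set X), ∃ f : T → ℕ, x = ∏ t : T, (t : X) ^ f t := by
    intro x hx
    induction hx using closure_induction with
    | mem x hx =>
      refine ⟨fun t => if (t : X) = x then 1 else 0, ?_⟩
      rw [Finset.prod_eq_single (⟨x, hx⟩ : T)]
      · simp
      · intro b _ hb
        have : (b : X) ≠ x := fun h' => hb (Subtype.ext h')
        simp [this]
      · intro h'
        exact absurd (Finset.mem_univ _) h'
    | one => exact ⟨fun _ => 0, by simp⟩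
    | mul x y _ _ hx hy =>
      obtain ⟨f, hf⟩ := hx
      obtain ⟨g, hg⟩ := hy
      refine ⟨fun t => f t + g t, ?_⟩
      rw [hf, hg, ← Finset.prod_mul_distrib]
      exact Finset.prod_congr rfl (fun t _ => (pow_add _ _ _).symm)
    | inv x _ hx =>
      obtain ⟨f, hf⟩ := hx
      refine ⟨fun t => (n - 1) * f t, ?_⟩
      rw [hf, ← Finset.prod_inv_distrib]
      apply Finset.prod_congr rfl
      intro t _
      rw [pow_mul]
      have h2 : (t : X) ^ (n - 1) = (t : X)⁻¹ := by
        rw [eq_inv_iff_mul_eq_one, ← pow_succ]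
        have h3 : n - 1 + 1 = n := by omega
        rw [h3, h]
      rw [h2, inv_pow]
  have hsub : s ⊆ P := by
    intro x hx
    have h1 : x ∈ closure (T : Set X) := by
      rw [hTK]
      exact subset_closure hx
    obtain ⟨f, hf⟩ := hcl x h1
    rw [hf]
    exact hmemP f
  have := Finset.card_le_card hsub
  omega

/-- A quotient that is abelian of finite exponent is finite, if the rank is finite. -/
theorem finite_quot {M : Type} [Group M] (Z : Subgroup M) [Z.Normal] (n r : ℕ) (hn : 0 < n)
    (hab : ∀ x y : M, ⁅x, y⁆ ∈ Z) (hexp : ∀ x : M, x ^ n ∈ Z) (hr : RankLE M r) :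
    Finite (M ⧸ Z) := by
  classical
  let _ : CommGroup (M ⧸ Z) := { (inferInstance : Group (M ⧸ Z)) with
    mul_comm := by
      intro a b
      induction a using QuotientGroup.induction_on with
      | H a =>
        induction b using QuotientGroup.induction_on with
        | H b =>
          rw [← QuotientGroup.mk_mul, ← QuotientGroup.mk_mul, QuotientGroup.eq]
          have h1 := hab b⁻¹ a⁻¹
          have h2 : (a * b)⁻¹ * (b * a) = ⁅b⁻¹, a⁻¹⁆ := by
            rw [commutatorElement_def]
            group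
          rw [h2]
          exact h1 }
  apply finite_of_exp (M ⧸ Z) n r hn
  · intro x
    induction x using QuotientGroup.induction_on with
    | H x =>
      rw [← QuotientGroup.mk_pow, QuotientGroup.eq_one_iff]
      exact hexp x
  · rintro K ⟨T0, hT0⟩
    obtain ⟨T, hT, hTK⟩ := hr (closure ((T0.image (fun q : M ⧸ Z => q.out) : Finset M) : Set M))
      ⟨_, rfl⟩
    refine ⟨T.image (QuotientGroup.mk' Z), Finset.card_image_le.trans hT, ?_⟩
    rw [Finset.coe_image, ← MonoidHom.map_closure, hTK, MonoidHom.map_closure, Finset.coe_image,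
      Set.image_image]
    have h1 : (fun q : M ⧸ Z => (QuotientGroup.mk' Z) q.out) = id := by
      funext q
      exact QuotientGroup.out_eq' q
    rw [h1, Set.image_id, hT0]

/-- Groups of finite rank in which all commutators are central and of order dividing `n` have
a centre of finite index. -/
theorem centre_fi {M : Type} [Group M] (n r : ℕ) (hn : 0 < n)
    (hc : ∀ x y : M, ⁅x, y⁆ ∈ center M) (hexp : ∀ x y : M, ⁅x, y⁆ ^ n = 1) (hr : RankLE M r) :
    (center M).FiniteIndex := by
  have h1 : ∀ x y : M, ∀ k : ℕ, ⁅x ^ k, y⁆ = ⁅x, y⁆ ^ k := by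
    intro x y k
    have := VNP.comm_pow_pow x y (fun j => hc x (y ^ j)) k 1
    rwa [pow_one, mul_one] at this
  have h2 : Finite (M ⧸ center M) := by
    apply finite_quot (center M) n r hn hc _ hr
    intro x
    rw [mem_center_iff]
    intro y
    have h3 : ⁅x ^ n, y⁆ = 1 := by rw [h1, hexp]
    exact ((commutatorElement_eq_one_iff_mul_comm).1 h3).symm
  exact finiteIndex_of_finite_quotient

theorem rankLE_of_sub {G : Type} [Group G] {S : Subgroup G} {r : ℕ}
    (hr : ∀ K : Subgroup G, K ≤ S → K.FG → ∃ T : Finset G, T.card ≤ r ∧ closure (T : Set G) = K)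
    (M : Subgroup G) (hM : M ≤ S) : RankLE M r := by
  classical
  rintro K ⟨T0, hT0⟩
  have h1 : (K.map M.subtype).FG := ⟨T0.image M.subtype, by
    rw [Finset.coe_image, ← MonoidHom.map_closure, hT0]⟩
  obtain ⟨T, hT, hTK⟩ := hr (K.map M.subtype) ((map_subtype_le K).trans hM) h1
  have hTM : ∀ t ∈ T, t ∈ M := by
    intro t ht
    have h2 : t ∈ K.map M.subtype := by
      rw [← hTK]
      exact subset_closure ht
    exact map_subtype_le K h2
  refine ⟨T.attach.image (fun t => (⟨t.1, hTM t.1 t.2⟩ : M)), ?_, ?_⟩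
  · exact Finset.card_image_le.trans (by rw [Finset.card_attach]; exact hT)
  · apply map_injective M.subtype_injective
    rw [MonoidHom.map_closure, Finset.coe_image, Set.image_image, ← hTK]
    congr 1
    ext x
    simp only [Set.mem_image, Finset.mem_coe]
    constructor
    · rintro ⟨t, _, rfl⟩
      exact t.2
    · intro hx
      exact ⟨⟨x, hx⟩, Finset.mem_attach _ _, rfl⟩

/-- An infinite solvable normal subgroup of finite rank contains an infinite abelian normal
subgroup. -/
theorem exists_inf_ab_rank {Q : Type} [Group Q] (K : Subgroup Q) [K.Normal] [Group.IsSolvable K]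
    (hinf : ¬ (K : Set Q).Finite) (r : ℕ)
    (hr : ∀ L : Subgroup Q, L ≤ K → L.FG → ∃ T : Finset Q, T.card ≤ r ∧
      closure (T : Set Q) = L) :
    ∃ Z : Subgroup Q, Z.Normal ∧ Z ≤ K ∧ (∀ a ∈ Z, ∀ b ∈ Z, a * b = b * a) ∧
      ¬ (Z : Set Q).Finite := by
  classical
  have hex : ∃ n, (VN.dser K n : Set Q).Finite := by
    obtain ⟨n, hn⟩ := (Group.isSolvable_def K).1 inferInstance
    refine ⟨n, ?_⟩
    rw [VN.dser_eq, hn, Subgroup.map_bot]
    simp
  obtain ⟨n, hn, hn'⟩ : ∃ n, ¬ (VN.dser K n : Set Q).Finite ∧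
      (VN.dser K (n + 1) : Set Q).Finite := by
    have h1 := Nat.find_spec hex
    have h2 : Nat.find hex ≠ 0 := by
      intro h
      rw [h] at h1
      exact hinf h1
    obtain ⟨m, hm⟩ := Nat.exists_eq_succ_of_ne_zero h2
    refine ⟨m, Nat.find_min hex (by omega), ?_⟩
    rw [hm] at h1
    exact h1
  set E : Subgroup Q := VN.dser K n with hE
  have hEn : E.Normal := VN.dser_normal K n
  set E' : Subgroup Q := VN.dser K (n + 1) with hE'
  have hE'n : E'.Normal := VN.dser_normal K (n + 1)
  have hE'E : E' ≤ E := commutator_le_left E E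
  -- the centralizer of the finite normal subgroup `E'`
  have hE'fg : E'.FG := by
    refine (fg_iff E').2 ⟨(E' : Set Q), closure_eq E', hn'⟩
  have hCfi : (centralizer (E' : Set Q)).FiniteIndex := by
    apply VN.centralizer_fi_of_fg E' hE'fg
    intro h hh
    apply hn'.subset
    rintro _ ⟨g, rfl⟩
    have := hE'n.conj_mem h hh g⁻¹
    simpa using this
  set E1 : Subgroup Q := E ⊓ centralizer (E' : Set Q) with hE1
  have hE1n : E1.Normal := inferInstance
  have hE1K : E1 ≤ K := inf_le_left.trans (VN.dser_le K n)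
  have hE1inf : ¬ (E1 : Set Q).Finite := by
    intro hfin
    apply hn
    have h1 : (E1.subgroupOf E).FiniteIndex := by
      rw [hE1, inf_subgroupOf_left]
      infer_instance
    have h2 : Finite (E1.subgroupOf E) := by
      have h3 : Finite E1 := hfin.to_subtype
      exact Finite.of_injective (fun x : E1.subgroupOf E => (⟨((x : E) : Q), x.2⟩ : E1))
        (fun a b hab => by
          have h4 : ((a : E) : Q) = ((b : E) : Q) := congrArg (fun t : E1 => (t : Q)) hab
          exact Subtype.ext (Subtype.ext h4))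
    have h3 : Finite (E ⧸ E1.subgroupOf E) := inferInstance
    have h4 : Finite E :=
      Finite.of_equiv _ (groupEquivQuotientProdSubgroup (s := E1.subgroupOf E)).symm
    exact Set.toFinite _
  have hcommE' : ∀ x y : E1, ((⁅x, y⁆ : E1) : Q) ∈ E' := by
    intro x y
    show ((⁅x, y⁆ : E1) : Q) ∈ ⁅VN.dser K n, VN.dser K n⁆
    exact commutator_mem_commutator x.2.1 y.2.1
  have hcen : ∀ x y : E1, ⁅x, y⁆ ∈ center E1 := by
    intro x y
    rw [mem_center_iff]
    intro z
    apply Subtype.ext
    have h1 := mem_centralizer_iff.1 z.2.2 _ (hcommE' x y)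
    exact h1.symm
  have hE'f : Finite E' := hn'.to_subtype
  have hfi : (center E1).FiniteIndex := by
    apply centre_fi (Nat.card E') r Nat.card_pos hcen _ (rankLE_of_sub hr E1 hE1K)
    intro x y
    apply Subtype.ext
    have h1 : (⟨_, hcommE' x y⟩ : E') ^ Nat.card E' = 1 := pow_card_eq_one'
    have h2 : (((⟨_, hcommE' x y⟩ : E') ^ Nat.card E' : E') : Q) = ((1 : E') : Q) :=
      congrArg (fun t : E' => (t : Q)) h1
    exact h2
  refine ⟨(center E1).map E1.subtype, inferInstance, ?_, ?_, ?_⟩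
  · exact (map_subtype_le _).trans hE1K
  · rintro _ ⟨a, ha, rfl⟩ _ ⟨b, hb, rfl⟩
    exact congrArg Subtype.val (mem_center_iff.1 hb a)
  · intro hfin
    apply hE1inf
    have h1 : Finite (center E1) := by
      have h2 : ((fun a : E1 => (a : Q)) '' (center E1 : Set E1)).Finite := hfin
      exact (h2.of_finite_image Subtype.val_injective.injOn).to_subtype
    have h2 : Finite (E1 ⧸ center E1) := inferInstance
    have h3 : Finite E1 := Finite.of_equiv _ (groupEquivQuotientProdSubgroup (s := center E1)).symm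
    exact Set.toFinite _

/-- Maximal abelian normal subgroups inside a given subgroup. -/
theorem exists_max_ab_le {G : Type} [Group G] (S : Subgroup G) : ∃ A : Subgroup G, A.Normal ∧
    A ≤ S ∧ (∀ a ∈ A, ∀ b ∈ A, a * b = b * a) ∧
    ∀ B : Subgroup G, B.Normal → B ≤ S → (∀ a ∈ B, ∀ b ∈ B, a * b = b * a) → A ≤ B → B ≤ A := by
  set s : Set (Subgroup G) := {A | A.Normal ∧ A ≤ S ∧ ∀ a ∈ A, ∀ b ∈ A, a * b = b * a} with hs
  have h0 : (⊥ : Subgroup G) ∈ s := by
    refine ⟨inferInstance, bot_le, ?_⟩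
    intro a ha b hb
    rw [mem_bot] at ha hb
    rw [ha, hb]
  have hz : ∃ A, ⊥ ≤ A ∧ Maximal (fun A => A ∈ s) A := by
    refine zorn_le_nonempty₀ s ?_ ⊥ h0
    intro c hc hch y hy
    have hne : c.Nonempty := ⟨y, hy⟩
    have hdir : DirectedOn (· ≤ ·) c := hch.directedOn
    refine ⟨sSup c, ⟨⟨?_⟩, ?_, ?_⟩, fun z hz => le_sSup hz⟩
    · intro n hn g
      rw [mem_sSup_of_directedOn hne hdir] at hn ⊢
      obtain ⟨B, hB, hnB⟩ := hn
      exact ⟨B, hB, (hc hB).1.conj_mem n hnB g⟩
    · exact sSup_le (fun B hB => (hc hB).2.1)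
    · intro a ha b hb
      rw [mem_sSup_of_directedOn hne hdir] at ha hb
      obtain ⟨B, hB, haB⟩ := ha
      obtain ⟨B', hB', hbB⟩ := hb
      obtain ⟨B'', hB'', h1, h2⟩ := hdir B hB B' hB'
      exact (hc hB'').2.2 a (h1 haB) b (h2 hbB)
  obtain ⟨A, _, hA⟩ := hz
  exact ⟨A, hA.prop.1, hA.prop.2.1, hA.prop.2.2, fun B hB hBS hB' hAB => hA.2 ⟨hB, hBS, hB'⟩ hAB⟩

/-- **The algebraic end for virtually solvable groups of finite rank.** -/
theorem rank_vab (G : Type) [Group G] (S : Subgroup G) [S.FiniteIndex] [Group.IsSolvable S]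
    (r : ℕ)
    (hr : ∀ K : Subgroup G, K ≤ S → K.FG → ∃ T : Finset G, T.card ≤ r ∧
      closure (T : Set G) = K)
    (hab1 : ∀ A : Subgroup G, A.Normal → A ≤ S → (∀ a ∈ A, ∀ b ∈ A, a * b = b * a) → A.FG)
    (hab2 : ∀ A : Subgroup G, A.Normal → A.FG → (∀ a ∈ A, ∀ b ∈ A, a * b = b * a) →
      (centralizer (A : Set G)).FiniteIndex)
    (hcf : ∀ x y z : G, z = x * y * x⁻¹ * y⁻¹ → x * z = z * x → y * z = z * y →
      (Set.range (fun g : G => g⁻¹ * z * g)).Finite → IsOfFinOrder z) : VNP.VAb G := by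
  classical
  by_contra hv
  set S' : Subgroup G := S.normalCore with hS'
  have hS'S : S' ≤ S := S.normalCore_le
  have hS'n : S'.Normal := S.normalCore_normal
  obtain ⟨A, hAn, hAS, hA, hmax⟩ := exists_max_ab_le S'
  have hAfg : A.FG := hab1 A hAn (hAS.trans hS'S) hA
  have hAfi : ¬ A.FiniteIndex := fun h => hv ⟨A, h, hA⟩
  set C : Subgroup G := centralizer (A : Set G) with hC
  have hCfi : C.FiniteIndex := hab2 A hAn hAfg hA
  have hCn : C.Normal := by
    rw [hC]
    infer_instance
  have hCA : ∀ c ∈ C, ∀ a ∈ A, c * a = a * c := by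
    intro c hc a ha
    exact (mem_centralizer_iff.1 hc a ha).symm
  have hAC : A ≤ C := by
    intro a ha
    rw [hC, mem_centralizer_iff]
    exact fun b hb => hA b hb a ha
  set K : Subgroup G := S' ⊓ C with hK
  have hKn : K.Normal := inferInstance
  have hKfi : K.FiniteIndex := by
    have : S'.FiniteIndex := inferInstance
    infer_instance
  have hKS' : K ≤ S' := inf_le_left
  have hKsol : Group.IsSolvable K :=
    Group.isSolvable_of_isSolvable_injective (inclusion_injective (hKS'.trans hS'S))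
  set f : G →* G ⧸ A := QuotientGroup.mk' A with hf
  have hfs : Function.Surjective f := QuotientGroup.mk'_surjective A
  have hker : ∀ g, f g = 1 ↔ g ∈ A := fun g => QuotientGroup.eq_one_iff g
  set Kb : Subgroup (G ⧸ A) := K.map f with hKb
  have hKbn : Kb.Normal := hKn.map f hfs
  have hKbsol : Group.IsSolvable Kb :=
    Group.isSolvable_of_surjective (f := f.subgroupMap K) (f.subgroupMap_surjective K)
  have hKbinf : ¬ (Kb : Set (G ⧸ A)).Finite := by
    intro hfin
    apply hAfi
    have h1 : Kb.index ≠ 0 := by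
      intro h
      have := index_map_dvd K hfs
      rw [← hKb, h, zero_dvd_iff] at this
      exact hKfi.index_ne_zero this
    have h2 : Kb.FiniteIndex := ⟨h1⟩
    have h3 : Finite Kb := hfin.to_subtype
    have h4 : Finite ((G ⧸ A) ⧸ Kb) := inferInstance
    have h5 : Finite (G ⧸ A) := Finite.of_equiv _ (groupEquivQuotientProdSubgroup (s := Kb)).symm
    exact finiteIndex_of_finite_quotient
  have hrQ : ∀ L : Subgroup (G ⧸ A), L ≤ Kb → L.FG → ∃ T : Finset (G ⧸ A), T.card ≤ r ∧
      closure (T : Set (G ⧸ A)) = L := by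
    rintro L hL ⟨T0, hT0⟩
    have hlift : ∀ q ∈ T0, ∃ k ∈ K, f k = q := by
      intro q hq
      have h1 : q ∈ L := by
        rw [← hT0]
        exact subset_closure hq
      exact hL h1
    choose! s hsK hs using hlift
    have h2 : closure ((T0.image s : Finset G) : Set G) ≤ S := by
      rw [closure_le, Finset.coe_image]
      rintro _ ⟨q, hq, rfl⟩
      exact (hKS'.trans hS'S) (hsK q hq)
    obtain ⟨T, hT, hTK⟩ := hr _ h2 ⟨_, rfl⟩
    refine ⟨T.image f, Finset.card_image_le.trans hT, ?_⟩
    rw [Finset.coe_image, ← MonoidHom.map_closure, hTK, MonoidHom.map_closure, Finset.coe_image,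
      Set.image_image, ← hT0]
    congr 1
    ext q
    constructor
    · rintro ⟨q', hq', rfl⟩
      show f (s q') ∈ (T0 : Set (G ⧸ A))
      rw [hs q' hq']
      exact hq'
    · intro hq
      exact ⟨q, hq, hs q hq⟩
  obtain ⟨Z, hZn, hZK, hZab, hZinf⟩ := exists_inf_ab_rank Kb hKbinf r hrQ
  set M : Subgroup G := Z.comap f with hM
  have hMn : M.Normal := hZn.comap f
  have hAM : A ≤ M := by
    intro a ha
    rw [hM, mem_comap, (hker a).2 ha]
    exact Z.one_mem
  have hMKA : ∀ m ∈ M, ∃ k ∈ K, ∃ a ∈ A, m = k * a := by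
    intro m hm
    rw [hM, mem_comap] at hm
    obtain ⟨k, hk, hkm⟩ := hZK hm
    have h1 : k⁻¹ * m ∈ A := by
      rw [← hker, map_mul, map_inv, hkm]
      group
    exact ⟨k, hk, _, h1, by group⟩
  have hMC : M ≤ C := by
    intro m hm
    obtain ⟨k, hk, a, ha, rfl⟩ := hMKA m hm
    exact C.mul_mem hk.2 (hAC ha)
  have hMS' : M ≤ S' := by
    intro m hm
    obtain ⟨k, hk, a, ha, rfl⟩ := hMKA m hm
    exact S'.mul_mem hk.1 (hAS ha)
  have hMcomm : ∀ x y : M, ((⁅x, y⁆ : M) : G) ∈ A := by
    intro x y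
    rw [← hker]
    have h1 := hZab _ x.2 _ y.2
    have h2 : ((⁅x, y⁆ : M) : G) = (x : G) * y * (x : G)⁻¹ * (y : G)⁻¹ := rfl
    rw [h2, map_mul, map_mul, map_mul, map_inv, map_inv, h1]
    group
  have hcen : ∀ x : M, (x : G) ∈ A → x ∈ center M := by
    intro x hx
    rw [mem_center_iff]
    intro y
    exact Subtype.ext (hCA _ (hMC y.2) _ hx)
  have hfo : ∀ x y : M, IsOfFinOrder ((⁅x, y⁆ : M) : G) := by
    intro x y
    refine hcf x y _ rfl ?_ ?_ ?_
    · exact hCA _ (hMC x.2) _ (hMcomm x y)
    · exact hCA _ (hMC y.2) _ (hMcomm x y)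
    · exact VN.conj_finite_of_fi C _ (fun c hc => hCA c hc _ (hMcomm x y))
  -- a common exponent of the torsion of `A`
  obtain ⟨n, hn, hexp⟩ : ∃ n : ℕ, 0 < n ∧ ∀ a ∈ A, IsOfFinOrder a → a ^ n = 1 := by
    have hAfg' : Group.FG A := (Group.fg_iff_subgroup_fg A).2 hAfg
    let _ : CommGroup A := { (inferInstance : Group A) with
      mul_comm := fun a b => Subtype.ext (hA a a.2 b b.2) }
    have hfin : {b : A | IsOfFinOrder b}.Finite := VN.fg_ab_torsion_finite A
    refine ⟨∏ b ∈ hfin.toFinset, orderOf b, ?_, ?_⟩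
    · apply Finset.prod_pos
      intro b hb
      rw [Set.Finite.mem_toFinset] at hb
      exact hb.orderOf_pos
    · intro a ha hfa
      have h1 : IsOfFinOrder (⟨a, ha⟩ : A) := (VN.finOrder_coe A ⟨a, ha⟩).1 hfa
      have h2 : orderOf (⟨a, ha⟩ : A) ∣ ∏ b ∈ hfin.toFinset, orderOf b :=
        Finset.dvd_prod_of_mem _ (by rw [Set.Finite.mem_toFinset]; exact h1)
      have h3 := orderOf_dvd_iff_pow_eq_one.1 h2
      have h4 := congrArg (fun t : A => (t : G)) h3
      simpa using h4
  have hfi : (center M).FiniteIndex := by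
    apply centre_fi n r hn (fun x y => hcen _ (hMcomm x y)) _
      (rankLE_of_sub hr M (hMS'.trans hS'S))
    intro x y
    apply Subtype.ext
    have := hexp _ (hMcomm x y) (hfo x y)
    simpa using this
  have hle : (center M).map M.subtype ≤ A := by
    apply hmax
    · infer_instance
    · exact (map_subtype_le _).trans hMS'
    · rintro _ ⟨a, ha, rfl⟩ _ ⟨b, hb, rfl⟩
      exact congrArg Subtype.val (mem_center_iff.1 hb a)
    · intro a ha
      exact ⟨⟨a, hAM ha⟩, hcen ⟨a, hAM ha⟩ ha, rfl⟩
  apply hZinf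
  have hfq : Finite (M ⧸ center M) := inferInstance
  apply (Set.finite_range (fun q : M ⧸ center M => f ((q.out : M) : G))).subset
  intro z hz
  obtain ⟨g, rfl⟩ := hfs z
  have hg : g ∈ M := hz
  refine ⟨QuotientGroup.mk (⟨g, hg⟩ : M), ?_⟩
  set q : M ⧸ center M := QuotientGroup.mk (⟨g, hg⟩ : M) with hq
  have h1 : (q.out)⁻¹ * (⟨g, hg⟩ : M) ∈ center M := by
    rw [← QuotientGroup.eq, QuotientGroup.out_eq']
  have h2 : ((q.out : M) : G)⁻¹ * g ∈ A := hle ⟨_, h1, rfl⟩
  rw [← hker, map_mul, map_inv] at h2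
  show f ((q.out : M) : G) = f g
  exact (inv_mul_eq_one.1 h2)

end Pool.Agent.VS
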