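import Pool.Agent.VS.Main
import Pool.Agent.VS.Asd
import Pool.Agent.VS.Q1
import Pool.Agent.VS.Q2
import Pool.Agent.VS.Rank
import Pool.Agent.VS.RankVab
import Pool.Agent.VN.End2
/-!
# Virtually solvable groups of finite Pruefer rank with a finite complete ShortLex system

are virtually abelian.
-/
namespace Pool.Agent.VS
open Pool.Agent.SLX Pool.Agent.VN

theorem rank_main {G : Type} [Group G] (h : HasSystem G) (S : Subgroup G) [S.FiniteIndex]
    [Group.IsSolvable S] (r : ℕ)
    (hr : ∀ K : Subgroup G, K ≤ S → K.FG → ∃ T : Finset G, T.card ≤ r ∧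
      Subgroup.closure (T : Set G) = K) :
    ∃ A : Subgroup G, A.FiniteIndex ∧ ∀ a ∈ A, ∀ b ∈ A, a * b = b * a := by
  obtain ⟨D, hD⟩ := VNP.asdimLE_virtRank S r hr
  obtain ⟨A, hA, hlo, π, E, hE⟩ := h
  obtain ⟨F⟩ := exists_NF hE
  have hfg : Group.FG G := fg_of_nf F
  have hB := conj_short F (asd_of_asdim F hD)
  refine rank_vab G S r hr ?_ ?_ ?_
  · intro B hBn hBS hBc
    exact fg_of_rank F.l F.l_one F.l_mul (classes_finite F hB) B hBc r
      (fun K hK => hr K (hK.trans hBS))
  · intro B hBn hBfg hBc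
    exact abel_normal F hB B hBfg hBc
  · intro x y z hz hx hy hfc
    refine isOfFinOrder_iff_pow_eq_one.2 (fc_torsion F hB x⁻¹ y⁻¹ z ?_ ?_ ?_ hfc)
    · rw [hz, inv_inv, inv_inv]
    · exact ((show Commute x z from hx).inv_left).eq
    · exact ((show Commute y z from hy).inv_left).eq

end Pool.Agent.VS
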