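import Pool.Agent.VS.NormalVirt
import Pool.Agent.VNP.AsFree
import Pool.Agent.SLA.Free
import Pool.Agent.SLA.Prod
import Pool.Agent.SLA.FinIndex
import Pool.Agent.SLA.Main
/-!
# Extensions of virtually solvable groups of finite rank by virtually free groups
-/
namespace Pool.Agent.VS
open Subgroup Pool.Agent.SLX Pool.Agent.VN Pool.Agent.SLA

/-- A finitely generated abelian group contains a free abelian group of finite rank with finite
index. -/
theorem free_in_abelian (A : Type) [Group A] (hc : ∀ a b : A, a * b = b * a)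
    (hfg : Group.FG A) :
    ∃ (m : ℕ) (B : Subgroup A), B.FiniteIndex ∧ Nonempty (B ≃* (Fin m → Multiplicative ℤ)) := by
  classical
  letI : CommGroup A := { ‹Group A› with mul_comm := hc }
  obtain ⟨ι, j, _, hj, p, hp, e, ⟨f⟩⟩ := CommGroup.equiv_free_prod_prod_multiplicative_zmod A
  have hne : ∀ i, NeZero (p i ^ e i) := fun i => ⟨pow_ne_zero _ (hp i).ne_zero⟩
  have hfin : ∀ i, Finite (Multiplicative (ZMod (p i ^ e i))) := fun i => by
    have := hne i
    exact (inferInstance : Finite (ZMod (p i ^ e i)))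
  set g : A →* ((i : ι) → Multiplicative (ZMod (p i ^ e i))) :=
    (MonoidHom.snd _ _).comp f.toMonoidHom with hg
  have hfi : g.ker.FiniteIndex := by
    have h1 : Finite g.range := inferInstance
    exact ⟨by rw [index_ker]; exact Nat.card_ne_zero.2 ⟨⟨1⟩, h1⟩⟩
  obtain ⟨k⟩ : Nonempty (j ≃ Fin (Fintype.card j)) := ⟨Fintype.equivFin j⟩
  refine ⟨Fintype.card j, g.ker, hfi, ⟨?_⟩⟩
  have k2 : (j → Multiplicative ℤ) ≃* (Fin (Fintype.card j) → Multiplicative ℤ) :=
    MulEquiv.arrowCongr k (MulEquiv.refl _)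
  refine MulEquiv.trans ?_ k2
  refine MulEquiv.ofBijective
    (((MonoidHom.fst _ _).comp f.toMonoidHom).comp g.ker.subtype) ⟨?_, ?_⟩
  · rw [← MonoidHom.ker_eq_bot_iff, eq_bot_iff]
    intro x hx
    rw [mem_bot]
    have h1 : (f x).1 = 1 := hx
    have h2 : (f x).2 = 1 := x.2
    have h3 : f x = 1 := Prod.ext h1 h2
    have h4 : (x : A) = 1 := by
      apply f.injective
      rw [h3, map_one]
    exact Subtype.ext h4
  · intro y
    refine ⟨⟨f.symm (y, 1), ?_⟩, ?_⟩
    · rw [MonoidHom.mem_ker, hg]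
      simp
    · simp

/-- Replace the first factor of a subgroup of finite index by a subgroup of finite index. -/
theorem prod_fi {G : Type} [Group G] (H : Subgroup G) [H.FiniteIndex] {A F A' : Type}
    [Group A] [Group F] [Group A'] (e : H ≃* A × F) (B : Subgroup A) [hB : B.FiniteIndex]
    (f : B ≃* A') : ∃ H' : Subgroup G, H'.FiniteIndex ∧ Nonempty (H' ≃* A' × F) := by
  set P : Subgroup (A × F) := B.prod ⊤ with hP
  have h1 : P.index ≠ 0 := by
    rw [hP, index_prod, index_top, mul_one]
    exact hB.index_ne_zero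
  set P1 : Subgroup H := P.map (e.symm : (A × F) →* H) with hP1
  have h2 : P1.index ≠ 0 := by
    rw [hP1, index_map_equiv]
    exact h1
  refine ⟨P1.map H.subtype, ⟨?_⟩, ⟨?_⟩⟩
  · rw [index_map_subtype]
    exact mul_ne_zero h2 FiniteIndex.index_ne_zero
  · have e1 : P ≃* P1 := P.equivMapOfInjective _ e.symm.injective
    have e2 : P1 ≃* P1.map H.subtype := P1.equivMapOfInjective _ H.subtype_injective
    have e3 : P ≃* B × (⊤ : Subgroup F) := prodEquiv B ⊤
    exact (e2.symm.trans e1.symm).trans (e3.trans (f.prodCongr topEquiv))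

/-- `ℤ^m × F_n` is automatic. -/
theorem automatic_zf (m n : ℕ) :
    Automatic ((Fin m → Multiplicative ℤ) × FreeGroup (Fin n)) := by
  have hc : ∀ a b : (Fin m → Multiplicative ℤ), a * b = b * a := fun a b => mul_comm a b
  have h1 : ShortLexAutomatic (Fin m → Multiplicative ℤ) :=
    SLA.main (inferInstance) ⊤ inferInstance (fun a _ b _ => hc a b)
  have h2 : Automatic (FreeGroup (Fin n)) := by
    obtain ⟨A, hA, hl, π, hst⟩ := free_sla n
    exact ⟨A, hA, π, _, hst⟩
  exact automatic_prod h1 h2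

theorem automatic_of_zf {G : Type} [Group G] (H : Subgroup G) [H.FiniteIndex] {m n : ℕ}
    (e : H ≃* (Fin m → Multiplicative ℤ) × FreeGroup (Fin n)) : Automatic G :=
  automatic_of_fi H (automatic_of_equiv e.symm (automatic_zf m n))

end Pool.Agent.VS
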