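import Pool.Agent.VS.Defs
/-!
# Chains on finite sets: basic lemmas
-/
namespace Pool.Agent.VS
open Pool.Agent.SLX Pool.Agent.VN

section FC1
variable {V W X : Type}

private theorem f1_sum {α M : Type} [AddCommGroup M] [Module (ZMod 2) M]
    (f : (α →₀ ZMod 2) →ₗ[ZMod 2] M) (c : α →₀ ZMod 2) :
    f c = ∑ l ∈ c.support, c l • f (Finsupp.single l 1) := by
  have e : c = ∑ l ∈ c.support, c l • Finsupp.single l (1 : ZMod 2) := by
    conv_lhs => rw [← Finsupp.sum_single c]
    rw [Finsupp.sum]
    refine Finset.sum_congr rfl fun l _ => ?_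
    simp
  conv_lhs => rw [e]
  rw [map_sum]
  refine Finset.sum_congr rfl fun l _ => ?_
  rw [map_smul]

private theorem f1_congr {α M : Type} [AddCommGroup M] [Module (ZMod 2) M]
    (f g : (α →₀ ZMod 2) →ₗ[ZMod 2] M) (c : α →₀ ZMod 2)
    (h : ∀ l ∈ c.support, f (Finsupp.single l 1) = g (Finsupp.single l 1)) : f c = g c := by
  rw [f1_sum f, f1_sum g]
  exact Finset.sum_congr rfl fun l hl => by rw [h l hl]

private theorem f1_mem {α M : Type} [AddCommGroup M] [Module (ZMod 2) M]
    (f : (α →₀ ZMod 2) →ₗ[ZMod 2] M) (S : Submodule (ZMod 2) M) (c : α →₀ ZMod 2)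
    (h : ∀ l ∈ c.support, f (Finsupp.single l 1) ∈ S) : f c ∈ S := by
  rw [f1_sum f]
  exact Submodule.sum_mem _ fun l hl => Submodule.smul_mem _ _ (h l hl)

open Classical in
theorem fbd_single (σ : Finset V) :
    fbd (Finsupp.single σ (1 : ZMod 2)) = ∑ v ∈ σ, Finsupp.single (σ.erase v) (1 : ZMod 2) := by
  simp [fbd]

open Classical in
theorem fmap_single (f : V → W) (σ : Finset V) : fmap f (Finsupp.single σ (1 : ZMod 2)) =
    if (σ.image f).card = σ.card then Finsupp.single (σ.image f) (1 : ZMod 2) else 0 := by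
  rw [fmap, Finsupp.linearCombination_single, one_smul]

open Classical in
theorem fcone_single (a : V) (σ : Finset V) : fcone a (Finsupp.single σ (1 : ZMod 2)) =
    if a ∈ σ then 0 else Finsupp.single (insert a σ) (1 : ZMod 2) := by
  rw [fcone, Finsupp.linearCombination_single, one_smul]

open Classical in
theorem toF_single (l : List V) : toF (Finsupp.single l (1 : ZMod 2)) =
    if l.Nodup then Finsupp.single l.toFinset (1 : ZMod 2) else 0 := by
  rw [toF, Finsupp.linearCombination_single, one_smul]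

theorem fbd_empty : fbd (Finsupp.single (∅ : Finset V) (1 : ZMod 2)) = 0 := by
  rw [fbd_single, Finset.sum_empty]

theorem on_iff {P : Finset V → Prop} {c : FCh V} : c ∈ On P ↔ ∀ σ ∈ c.support, P σ :=
  Iff.rfl

theorem single_on {P : Finset V → Prop} {σ : Finset V} (h : P σ) :
    Finsupp.single σ (1 : ZMod 2) ∈ On P :=
  Finsupp.single_mem_supported (ZMod 2) _ h

theorem on_mono {P Q : Finset V → Prop} (h : ∀ σ, P σ → Q σ) {c : FCh V} (hc : c ∈ On P) :
    c ∈ On Q :=
  on_iff.2 fun σ hσ => h σ (on_iff.1 hc σ hσ)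

theorem on_and {P Q : Finset V → Prop} {c : FCh V} (hc : c ∈ On P) (hc' : c ∈ On Q) :
    c ∈ On (fun σ => P σ ∧ Q σ) :=
  on_iff.2 fun σ hσ => ⟨on_iff.1 hc σ hσ, on_iff.1 hc' σ hσ⟩

theorem map_on {P : Finset V → Prop} {Q : Finset W → Prop} (h : FCh V →ₗ[ZMod 2] FCh W)
    (hh : ∀ σ, P σ → h (Finsupp.single σ 1) ∈ On Q) {c : FCh V} (hc : c ∈ On P) : h c ∈ On Q :=
  f1_mem h _ c fun σ hσ => hh σ (on_iff.1 hc σ hσ)

theorem eq_on {P : Finset V → Prop} {E : Type} [AddCommGroup E] [Module (ZMod 2) E]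
    (h h' : FCh V →ₗ[ZMod 2] E)
    (hh : ∀ σ, P σ → h (Finsupp.single σ 1) = h' (Finsupp.single σ 1)) {c : FCh V}
    (hc : c ∈ On P) : h c = h' c :=
  f1_congr h h' c fun σ hσ => hh σ (on_iff.1 hc σ hσ)

theorem fadd_self (c : FCh V) : c + c = 0 := by
  ext l
  rw [Finsupp.add_apply, Finsupp.zero_apply]
  exact CharTwo.add_self_eq_zero _

theorem fbd_fbd (c : FCh V) : fbd (fbd c) = 0 := by
  classical
  refine f1_congr ((fbd (V := V)).comp fbd) 0 c fun σ _ => ?_
  rw [LinearMap.comp_apply, LinearMap.zero_apply, fbd_single, map_sum]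
  have e : ∀ v ∈ σ, fbd (Finsupp.single (σ.erase v) (1 : ZMod 2)) =
      ∑ w ∈ σ.erase v, Finsupp.single ((σ.erase v).erase w) (1 : ZMod 2) := by
    intro v _
    rw [fbd_single]
  have e2 : ∑ v ∈ σ, fbd (Finsupp.single (σ.erase v) (1 : ZMod 2)) =
      ∑ p ∈ σ.sigma (fun v => σ.erase v),
        Finsupp.single ((σ.erase p.1).erase p.2) (1 : ZMod 2) := by
    rw [Finset.sum_congr rfl e, Finset.sum_sigma']
  have e3 : ∑ p ∈ σ.sigma (fun v => σ.erase v),
        Finsupp.single ((σ.erase p.1).erase p.2) (1 : ZMod 2) = 0 := by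
    refine Finset.sum_involution (fun p _ => ⟨p.2, p.1⟩) ?_ ?_ ?_ ?_
    · intro p _
      have h : (σ.erase p.1).erase p.2 = (σ.erase p.2).erase p.1 := by
        ext x
        simp only [Finset.mem_erase]
        tauto
      rw [h]
      exact fadd_self _
    · intro p hp _ h
      have h1 := (Finset.mem_sigma.1 hp).2
      have h2 : p.2 = p.1 := congrArg Sigma.fst h
      exact (Finset.mem_erase.1 h1).1 h2
    · intro p hp
      obtain ⟨h0, h1⟩ := Finset.mem_sigma.1 hp
      obtain ⟨h2, h3⟩ := Finset.mem_erase.1 h1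
      exact Finset.mem_sigma.2 ⟨h3, Finset.mem_erase.2 ⟨Ne.symm h2, h0⟩⟩
    · intro p _
      rfl
  have e4 : ∑ v ∈ σ, fbd (Finsupp.single (σ.erase v) (1 : ZMod 2)) = 0 := e2.trans e3
  convert e4

theorem fbd_fmap (f : V → W) (c : FCh V) : fbd (fmap f c) = fmap f (fbd c) := by
  classical
  refine f1_congr ((fbd (V := W)).comp (fmap f)) ((fmap f).comp fbd) c fun σ _ => ?_
  rw [LinearMap.comp_apply, LinearMap.comp_apply]
  have e1 : fbd (Finsupp.single σ (1 : ZMod 2)) =
      ∑ v ∈ σ, Finsupp.single (σ.erase v) (1 : ZMod 2) := by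
    rw [fbd_single]
  have e2 : ∀ τ : Finset V, fmap f (Finsupp.single τ (1 : ZMod 2)) =
      if (τ.image f).card = τ.card then Finsupp.single (τ.image f) (1 : ZMod 2) else 0 := by
    intro τ
    rw [fmap_single]
  rw [e1, map_sum, e2]
  by_cases h : (σ.image f).card = σ.card
  · have hi : Set.InjOn f (σ : Set V) := Finset.card_image_iff.1 h
    rw [if_pos h]
    have e3 : fbd (Finsupp.single (σ.image f) (1 : ZMod 2)) =
        ∑ v ∈ σ.image f, Finsupp.single ((σ.image f).erase v) (1 : ZMod 2) := by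
      rw [fbd_single]
    rw [e3, Finset.sum_image hi]
    refine Finset.sum_congr rfl fun v hv => ?_
    have h1 : (σ.erase v).image f = (σ.image f).erase (f v) := by
      ext y
      simp only [Finset.mem_image, Finset.mem_erase]
      constructor
      · rintro ⟨x, ⟨hx, hx'⟩, rfl⟩
        exact ⟨fun h => hx (hi hx' hv h), x, hx', rfl⟩
      · rintro ⟨hy, x, hx, rfl⟩
        exact ⟨x, ⟨fun h => hy (by rw [h]), hx⟩, rfl⟩
    have h2 : ((σ.erase v).image f).card = (σ.erase v).card := by
      rw [h1, Finset.card_erase_of_mem (Finset.mem_image_of_mem f hv),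
        Finset.card_erase_of_mem hv, h]
    rw [e2, if_pos h2, h1]
  · rw [if_neg h, map_zero]
    have hi : ¬ Set.InjOn f (σ : Set V) := fun h' => h (Finset.card_image_iff.2 h')
    rw [Set.InjOn] at hi
    push Not at hi
    obtain ⟨a, ha, b, hb, hab, hne⟩ := hi
    symm
    rw [Finset.sum_eq_add_of_mem a b ha hb hne]
    · have h1 : (σ.erase a).image f = (σ.erase b).image f := by
        ext y
        simp only [Finset.mem_image, Finset.mem_erase]
        constructor
        · rintro ⟨x, ⟨hx, hx'⟩, rfl⟩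
          by_cases hxb : x = b
          · exact ⟨a, ⟨hne, ha⟩, by rw [hxb, hab]⟩
          · exact ⟨x, ⟨hxb, hx'⟩, rfl⟩
        · rintro ⟨x, ⟨hx, hx'⟩, rfl⟩
          by_cases hxa : x = a
          · exact ⟨b, ⟨Ne.symm hne, hb⟩, by rw [hxa, hab]⟩
          · exact ⟨x, ⟨hxa, hx'⟩, rfl⟩
      have h2 : (σ.erase a).card = (σ.erase b).card := by
        rw [Finset.card_erase_of_mem ha, Finset.card_erase_of_mem hb]
      rw [e2, e2, h1, h2]
      exact fadd_self _
    · intro c hc hcab
      rw [e2, if_neg]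
      intro h'
      exact hne (Finset.card_image_iff.1 h' (Finset.mem_coe.2 (Finset.mem_erase.2
        ⟨Ne.symm hcab.1, ha⟩)) (Finset.mem_coe.2 (Finset.mem_erase.2 ⟨Ne.symm hcab.2, hb⟩)) hab)

theorem fmap_fmap (f : V → W) (g : W → X) (c : FCh V) :
    fmap g (fmap f c) = fmap (fun x => g (f x)) c := by
  classical
  refine f1_congr ((fmap g).comp (fmap f)) (fmap (fun x => g (f x))) c fun σ _ => ?_
  rw [LinearMap.comp_apply]
  have e : ∀ {A B : Type} (k : A → B) (τ : Finset A), fmap k (Finsupp.single τ (1 : ZMod 2)) =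
      if (τ.image k).card = τ.card then Finsupp.single (τ.image k) (1 : ZMod 2) else 0 := by
    intro A B k τ
    rw [fmap_single]
  rw [e f, e (fun x => g (f x))]
  have h1 : σ.image (fun x => g (f x)) = (σ.image f).image g := by
    rw [Finset.image_image]; rfl
  by_cases h : (σ.image f).card = σ.card
  · rw [if_pos h, e g, h1, h]
  · rw [if_neg h, map_zero, h1, if_neg]
    intro h'
    have h2 : ((σ.image f).image g).card ≤ (σ.image f).card := Finset.card_image_le
    have h3 : (σ.image f).card ≤ σ.card := Finset.card_image_le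
    omega

theorem fmap_id (c : FCh V) : fmap (fun x => x) c = c := by
  classical
  refine f1_congr (fmap (fun x : V => x)) LinearMap.id c fun σ _ => ?_
  rw [fmap_single, LinearMap.id_apply, Finset.image_id', if_pos rfl]

theorem fbd_fcone (a : V) (c : FCh V) : fbd (fcone a c) = c + fcone a (fbd c) := by
  classical
  refine f1_congr ((fbd (V := V)).comp (fcone a)) (LinearMap.id + (fcone a).comp fbd) c
    fun σ _ => ?_
  rw [LinearMap.comp_apply, LinearMap.add_apply, LinearMap.comp_apply, LinearMap.id_apply]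
  have e1 : ∀ τ : Finset V, fbd (Finsupp.single τ (1 : ZMod 2)) =
      ∑ v ∈ τ, Finsupp.single (τ.erase v) (1 : ZMod 2) := by
    intro τ
    rw [fbd_single]
  have e2 : ∀ τ : Finset V, fcone a (Finsupp.single τ (1 : ZMod 2)) =
      if a ∈ τ then 0 else Finsupp.single (insert a τ) (1 : ZMod 2) := by
    intro τ
    rw [fcone_single]
  rw [e2, e1 σ, map_sum]
  by_cases h : a ∈ σ
  · rw [if_pos h, map_zero, Finset.sum_eq_single_of_mem a h]
    · rw [e2, if_neg (Finset.notMem_erase a σ), Finset.insert_erase h]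
      exact (fadd_self _).symm
    · intro v _ hv
      rw [e2, if_pos (Finset.mem_erase.2 ⟨Ne.symm hv, h⟩)]
  · rw [if_neg h, e1, Finset.sum_insert h, Finset.erase_insert h]
    congr 1
    refine Finset.sum_congr rfl fun v hv => ?_
    have h1 : a ∉ σ.erase v := fun h' => h (Finset.mem_of_mem_erase h')
    have h2 : v ≠ a := fun h' => h (h' ▸ hv)
    rw [e2, if_neg h1, Finset.erase_insert_of_ne (Ne.symm h2)]

private theorem f1_toF_fil (P : List V → Prop) (hP : ∀ l : List V, l.Nodup → P l) (c : Ch V) :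
    toF (fil P c) = toF c := by
  classical
  refine f1_congr ((toF (V := V)).comp (fil P)) toF c fun l _ => ?_
  rw [LinearMap.comp_apply]
  have e : fil P (Finsupp.single l (1 : ZMod 2)) =
      if P l then Finsupp.single l (1 : ZMod 2) else 0 := by
    rw [fil, Finsupp.linearCombination_single, one_smul]
  rw [e]
  by_cases h : P l
  · rw [if_pos h]
  · rw [if_neg h, map_zero, toF_single, if_neg fun h' => h (hP l h')]

theorem fbd_toF (c : Ch V) : fbd (toF c) = toF (D c) := by
  classical
  rw [D, LinearMap.comp_apply, f1_toF_fil nd fun l hl => List.Pairwise.isChain hl]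
  refine f1_congr ((fbd (V := V)).comp toF) ((toF (V := V)).comp bd) c fun l _ => ?_
  rw [LinearMap.comp_apply, LinearMap.comp_apply]
  have e0 : bd (Finsupp.single l (1 : ZMod 2)) =
      ∑ i ∈ Finset.range l.length, Finsupp.single (l.eraseIdx i) (1 : ZMod 2) := by
    rw [bd, Finsupp.linearCombination_single, one_smul]
  have e1 : ∀ τ : Finset V, fbd (Finsupp.single τ (1 : ZMod 2)) =
      ∑ v ∈ τ, Finsupp.single (τ.erase v) (1 : ZMod 2) := by
    intro τ
    rw [fbd_single]
  have e2 : ∀ s : List V, toF (Finsupp.single s (1 : ZMod 2)) =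
      if s.Nodup then Finsupp.single s.toFinset (1 : ZMod 2) else 0 := by
    intro s
    rw [toF_single]
  rw [e0, e2, map_sum]
  by_cases h : l.Nodup
  · rw [if_pos h, e1]
    symm
    refine Finset.sum_bij (fun i hi => l[i]'(Finset.mem_range.1 hi)) ?_ ?_ ?_ ?_
    · intro i hi
      exact List.mem_toFinset.2 (List.getElem_mem _)
    · intro i hi j hj hij
      exact (List.Nodup.getElem_inj_iff h).1 hij
    · intro v hv
      obtain ⟨i, hi, hiv⟩ := List.getElem_of_mem (List.mem_toFinset.1 hv)
      exact ⟨i, Finset.mem_range.2 hi, hiv⟩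
    · intro i hi
      have hi' := Finset.mem_range.1 hi
      have hp : (l[i] :: l.eraseIdx i).Perm l := List.getElem_cons_eraseIdx_perm hi'
      have hn : (l[i] :: l.eraseIdx i).Nodup := hp.nodup_iff.2 h
      obtain ⟨hn1, hn2⟩ := List.nodup_cons.1 hn
      rw [e2, if_pos hn2]
      congr 1
      ext x
      rw [Finset.mem_erase, List.mem_toFinset, List.mem_toFinset, ← hp.mem_iff, List.mem_cons]
      constructor
      · intro hx
        exact ⟨fun h' => hn1 (h' ▸ hx), Or.inr hx⟩
      · rintro ⟨hx1, hx2 | hx2⟩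
        · exact absurd hx2 hx1
        · exact hx2
  · rw [if_neg h, map_zero]
    rw [List.nodup_iff_injective_getElem, Function.Injective] at h
    push Not at h
    obtain ⟨i, j, hij, hne⟩ := h
    have hne' : i.1 ≠ j.1 := fun h' => hne (Fin.ext h')
    symm
    rw [Finset.sum_eq_add_of_mem i.1 j.1 (Finset.mem_range.2 i.2) (Finset.mem_range.2 j.2) hne']
    · have hp : (l.eraseIdx i.1).Perm (l.eraseIdx j.1) := by
        have h1 : (l[i.1] :: l.eraseIdx i.1).Perm l := List.getElem_cons_eraseIdx_perm i.2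
        have h2 : (l[j.1] :: l.eraseIdx j.1).Perm l := List.getElem_cons_eraseIdx_perm j.2
        have h3 : l[i.1] = l[j.1] := hij
        rw [h3] at h1
        exact List.Perm.cons_inv (h1.trans h2.symm)
      have h1 : (l.eraseIdx i.1).toFinset = (l.eraseIdx j.1).toFinset := by
        ext x
        rw [List.mem_toFinset, List.mem_toFinset, hp.mem_iff]
      have h2 : (l.eraseIdx i.1).Nodup ↔ (l.eraseIdx j.1).Nodup := hp.nodup_iff
      rw [e2, e2, h1]
      by_cases h3 : (l.eraseIdx j.1).Nodup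
      · rw [if_pos (h2.2 h3), if_pos h3]
        exact fadd_self _
      · rw [if_neg fun h4 => h3 (h2.1 h4), if_neg h3, add_zero]
    · intro k hk hkij
      have hk' := Finset.mem_range.1 hk
      rw [e2, if_neg]
      intro hn
      have hlen : (l.eraseIdx k).length = l.length - 1 := List.length_eraseIdx_of_lt hk'
      have hg : ∀ m : ℕ, ∀ hm : m < l.length, m ≠ k →
          ∃ m' : ℕ, ∃ hm' : m' < (l.eraseIdx k).length, (l.eraseIdx k)[m'] = l[m] ∧
            m' = if m < k then m else m - 1 := by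
        intro m hm hmk
        by_cases hlt : m < k
        · refine ⟨m, by omega, ?_, by rw [if_pos hlt]⟩
          rw [List.getElem_eraseIdx, dif_pos hlt]
        · refine ⟨m - 1, by omega, ?_, by rw [if_neg hlt]⟩
          rw [List.getElem_eraseIdx, dif_neg (by omega)]
          congr 1
          omega
      obtain ⟨i', hi', hi1, hi2⟩ := hg i.1 i.2 (Ne.symm hkij.1)
      obtain ⟨j', hj', hj1, hj2⟩ := hg j.1 j.2 (Ne.symm hkij.2)
      have h3 : l[i.1] = l[j.1] := hij
      have h4 : i' = j' := (List.Nodup.getElem_inj_iff hn).1 (by rw [hi1, hj1, h3])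
      rw [hi2, hj2] at h4
      have h5 := hkij.1
      have h6 := hkij.2
      split_ifs at h4 <;> omega

theorem fbd_on {P Q : Finset V → Prop} (h : ∀ σ τ, P σ → τ ⊆ σ → τ.card + 1 = σ.card → Q τ)
    {c : FCh V} (hc : c ∈ On P) : fbd c ∈ On Q := by
  classical
  refine map_on fbd (fun σ hσ => ?_) hc
  rw [fbd_single]
  refine Submodule.sum_mem _ fun v hv => single_on (h σ _ hσ (Finset.erase_subset _ _) ?_)
  exact Finset.card_erase_add_one hv

theorem fmap_on {P : Finset V → Prop} {Q : Finset W → Prop} (f : V → W)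
    (h : ∀ σ τ, P σ → τ.card = σ.card → (∀ y, y ∈ τ ↔ ∃ x ∈ σ, f x = y) → Q τ)
    {c : FCh V} (hc : c ∈ On P) : fmap f c ∈ On Q := by
  classical
  refine map_on (fmap f) (fun σ hσ => ?_) hc
  rw [fmap_single]
  split_ifs with h'
  · exact single_on (h σ _ hσ h' fun y => Finset.mem_image)
  · exact Submodule.zero_mem _

theorem fcone_on {P Q : Finset V → Prop} (a : V)
    (h : ∀ σ τ, P σ → τ.card = σ.card + 1 → (∀ y, y ∈ τ ↔ y = a ∨ y ∈ σ) → Q τ)
    {c : FCh V} (hc : c ∈ On P) : fcone a c ∈ On Q := by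
  classical
  refine map_on (fcone a) (fun σ hσ => ?_) hc
  rw [fcone_single]
  split_ifs with h'
  · exact Submodule.zero_mem _
  · exact single_on (h σ _ hσ (Finset.card_insert_of_notMem h') fun y => Finset.mem_insert)

theorem fmap_eq_zero {P : Finset V → Prop} (f : V → W)
    (h : ∀ σ, P σ → ¬ Set.InjOn f (σ : Set V)) {c : FCh V} (hc : c ∈ On P) : fmap f c = 0 := by
  classical
  refine eq_on (fmap f) 0 (fun σ hσ => ?_) hc
  rw [fmap_single, LinearMap.zero_apply, if_neg]
  exact fun h' => h σ hσ (Finset.card_image_iff.1 h')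

theorem toF_on {P : List V → Prop} {Q : Finset V → Prop}
    (h : ∀ (l : List V) (τ : Finset V), P l → l.Nodup → τ.card = l.length →
      (∀ y, y ∈ τ ↔ y ∈ l) → Q τ)
    {c : Ch V} (hc : ∀ l ∈ c.support, P l) : toF c ∈ On Q := by
  classical
  refine f1_mem toF _ c fun l hl => ?_
  rw [toF_single]
  split_ifs with h'
  · exact single_on (h l _ (hc l hl) h' (List.toFinset_card_of_nodup h')
      fun y => List.mem_toFinset)
  · exact Submodule.zero_mem _

end FC1

end Pool.Agent.VS
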