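import Pool.Agent.VS.Final
/-!
# Displacement sets are coarsely acyclic
-/
namespace Pool.Agent.VS
open Pool.Agent.SLX Pool.Agent.VN

variable {A G : Type} [Group G] {π : A → G}

theorem tau_of_conj (F : NF A G π) {w g : G} {L : ℕ} (h : Tau F (g⁻¹ * w * g) L) : Tau F w L := by
  intro B
  obtain ⟨k, hk⟩ := h (F.l g + F.l g⁻¹ + B)
  refine ⟨k, ?_⟩
  have e : w ^ (2 ^ k) = g * (g⁻¹ * w * g) ^ (2 ^ k) * g⁻¹ := by
    have h3 := conj_pow (i := 2 ^ k) (a := g⁻¹) (b := w)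
    rw [inv_inv] at h3
    rw [h3]
    group
  have h1 := F.l_mul (g * (g⁻¹ * w * g) ^ (2 ^ k)) g⁻¹
  have h2 := F.l_mul g ((g⁻¹ * w * g) ^ (2 ^ k))
  rw [← e] at h1
  omega

/-- The sets of points which are moved by at most `n` by `w` are coarsely acyclic mod 2, uniformly
in `w` and in `n`, as soon as `n` is at least the translation number of `w`. -/
theorem disp_fill (G : Type) [Group G] {D : ℕ} (hD : VNP.AsdimLE G D) (h : HasSystem G) :
    ∃ S : Set G, S.Finite ∧ Submonoid.closure S = ⊤ ∧ ∀ k R : ℕ, ∃ C : ℕ,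
      ∀ (w g : G) (m n : ℕ), 0 < m → IsShort S (m * n) (g⁻¹ * w ^ m * g) →
      ∀ c : FCh G, (∀ σ ∈ c.support, σ.card = k ∧ (∀ x ∈ σ, ∀ y ∈ σ, IsShort S R (x⁻¹ * y)) ∧
        ∀ x ∈ σ, IsShort S n (x⁻¹ * w * x)) → fbd c = 0 →
      ∃ e : FCh G, (∀ σ ∈ e.support, σ.card = k + 1 ∧
        (∀ x ∈ σ, ∀ y ∈ σ, IsShort S C (x⁻¹ * y)) ∧
        ∀ x ∈ σ, IsShort S (n + C) (x⁻¹ * w * x)) ∧ fbd e = c := by
  obtain ⟨A, hA, hlo, π, E, hE⟩ := h
  obtain ⟨F⟩ := exists_NF hE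
  refine ⟨Set.range π, Set.finite_range π, closure_eq_top F, fun k R => ?_⟩
  obtain ⟨R', C, hF⟩ := fil_all F (asd_of_asdim F hD) k R
  refine ⟨max R' (C + 1), fun w g m n hm hw c hc hc0 => ?_⟩
  have hτ : Tau F w (n + 1) := by
    refine tau_of_conj F (g := g) (tau_of_pow F hm ?_)
    rw [short_iff F] at hw
    have h3 := conj_pow (i := m) (a := g⁻¹) (b := w)
    rw [inv_inv] at h3
    rw [h3]
    exact hw
  obtain ⟨e, he, hec⟩ := hF w (n + 1) hτ c (by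
    rw [on_iff]
    intro σ hσ
    obtain ⟨h1, h2, h3⟩ := hc σ hσ
    refine ⟨h1, fun x hx y hy => (short_iff F _ _).1 (h2 x hx y hy), fun x hx => ?_⟩
    have h4 := (short_iff F _ _).1 (h3 x hx)
    show F.l (x⁻¹ * w * x) ≤ n + 1
    omega) hc0
  rw [on_iff] at he
  refine ⟨e, fun σ hσ => ?_, hec⟩
  obtain ⟨h1, h2, h3⟩ := he σ hσ
  refine ⟨h1, fun x hx y hy => (short_iff F _ _).2 ((h2 x hx y hy).trans (le_max_left _ _)),
    fun x hx => (short_iff F _ _).2 ?_⟩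
  have h4 : F.l (x⁻¹ * w * x) ≤ n + 1 + C := h3 x hx
  have := le_max_right R' (C + 1)
  omega

end Pool.Agent.VS
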