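import Pool.Agent.VS.NumLin
/-!
# Residually finite groups of finite asymptotic dimension, discrete linear groups, linear groups
over number fields
-/
namespace Pool.Agent.VS
open Pool.Agent.SLX Pool.Agent.VN Matrix

/-- The class of groups: residually finite groups of finite asymptotic dimension, groups
isomorphic to a discrete subgroup of `GL_n(ℝ)`, groups isomorphic to a subgroup of `GL_n(K)` for a
number field `K`. -/
theorem linall_solvable {G : Type} [Group G] (h : HasSystem G)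
    (hG : (Group.ResiduallyFinite G ∧ ∃ D : ℕ, VNP.AsdimLE G D) ∨
      (∃ (n : ℕ) (ρ : G →* GL (Fin n) ℝ), Function.Injective ρ ∧ DiscreteTopology ρ.range) ∨
      (∃ (K : Type) (_ : Field K) (_ : NumberField K) (n : ℕ) (ρ : G →* GL (Fin n) K),
        Function.Injective ρ))
    (P P0 : Subgroup G) (h0 : P0 ≤ P) (h0i : P0.relIndex P ≠ 0) (h0s : Group.IsSolvable P0) :
    (∃ H : Subgroup G, H ≤ P ∧ H.relIndex P ≠ 0 ∧ (∀ a ∈ H, ∀ b ∈ H, a * b = b * a)) ∧
      P.FG ∧ Undistorted P := by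
  have key : ResFin G → (∃ D : ℕ, VNP.AsdimLE G D) →
      (∃ H : Subgroup G, H ≤ P ∧ H.relIndex P ≠ 0 ∧ (∀ a ∈ H, ∀ b ∈ H, a * b = b * a)) ∧
      P.FG ∧ Undistorted P := by
    rintro hr ⟨D, hD⟩
    obtain ⟨l, κ, hone, hmul, hinv, hcl⟩ := data_of_system h hD
    exact rf_vsolvable l hone hmul hinv hcl hr
      (fun n φ hφ => rank_le_of_injective hD φ hφ) P P0 h0 h0i h0s
  rcases hG with ⟨hr, hD⟩ | ⟨n, ρ, hρ, hd⟩ | ⟨K, _, _, n, ρ, hρ⟩
  · refine key ?_ hD
    intro g hg
    obtain ⟨N, hN⟩ := Group.exists_finiteIndexNormalSubgroup_notMem g hg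
    exact ⟨N.toSubgroup, inferInstance, inferInstance, hN⟩
  · refine key (malcev (fg_of_system h) ρ hρ) ?_
    apply asdim_linear ρ
    intro B
    have h1 := disc_finite ρ.range B
    apply Set.Finite.of_injOn (f := fun g : G => (⟨ρ g, ⟨g, rfl⟩⟩ : ρ.range)) _ _ h1
    · intro g hg i j
      have h2 := hg i j
      refine ⟨h2.1, ?_⟩
      have h3 := h2.2
      rw [map_inv] at h3
      exact h3
    · intro g _ g' _ he
      exact hρ (congrArg Subtype.val he)
  · exact numlin_solvable h ρ hρ P P0 h0 h0i h0s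

end Pool.Agent.VS
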