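import Pool.Agent.VNP.AsRank
/-!
# Polycyclic groups have finite Pruefer rank
-/
namespace Pool.Agent.VS
open Pool.Agent.VNP
open scoped commutatorElement

/-- Every finitely generated subgroup is generated by at most `r` elements. -/
def RK (X : Type) [Group X] (r : ℕ) : Prop :=
  ∀ K : Subgroup X, K.FG → ∃ T : Finset X, T.card ≤ r ∧ Subgroup.closure (T : Set X) = K

theorem rk_mono {X : Type} [Group X] {r r' : ℕ} (h : r ≤ r') (hr : RK X r) : RK X r' := by
  intro K hK
  obtain ⟨T, hT, hT'⟩ := hr K hK
  exact ⟨T, hT.trans h, hT'⟩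

theorem rk_inj {X Y : Type} [Group X] [Group Y] {r : ℕ} (f : Y →* X)
    (hf : Function.Injective f) (h : RK X r) : RK Y r := by
  classical
  intro K hK
  have h1 : (K.map f).FG := by
    obtain ⟨T, hT⟩ := hK
    refine ⟨T.image f, ?_⟩
    rw [Finset.coe_image, ← MonoidHom.map_closure, hT]
  obtain ⟨S, hS, hS'⟩ := h (K.map f) h1
  have h2 : ∀ s ∈ S, ∃ y, f y = s := by
    intro s hs
    have : s ∈ K.map f := by
      rw [← hS']
      exact Subgroup.subset_closure hs
    obtain ⟨y, _, hy⟩ := this
    exact ⟨y, hy⟩
  choose! g hg using h2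
  refine ⟨S.image g, Finset.card_image_le.trans hS, ?_⟩
  apply Subgroup.map_injective hf
  rw [MonoidHom.map_closure, Finset.coe_image, Set.image_image, ← hS']
  congr 1
  ext x
  constructor
  · rintro ⟨s, hs, rfl⟩
    show f (g s) ∈ (S : Set X)
    rw [hg s hs]
    exact hs
  · intro hx
    exact ⟨x, hx, hg x hx⟩

/-- Extensions. -/
theorem rk_ext {X : Type} [Group X] (N : Subgroup X) [N.Normal] {a b : ℕ} (ha : RK N a)
    (hb : RK (X ⧸ N) b) : RK X (a + b) := by
  classical
  rintro K ⟨U, hU⟩
  set q : X →* X ⧸ N := QuotientGroup.mk' N with hq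
  obtain ⟨T, hT, hT'⟩ := hb (K.map q) ⟨U.image q, by
    rw [Finset.coe_image, ← MonoidHom.map_closure, hU]⟩
  have h1 : ∀ t ∈ T, ∃ k ∈ K, q k = t := by
    intro t ht
    have : t ∈ K.map q := by
      rw [← hT']
      exact Subgroup.subset_closure ht
    obtain ⟨k, hk, hk'⟩ := this
    exact ⟨k, hk, hk'⟩
  choose! s hsK hs using h1
  have hsT : Subgroup.closure ((T.image s : Finset X) : Set X) ≤ K := by
    rw [Subgroup.closure_le]
    intro x hx
    obtain ⟨t, ht, rfl⟩ := Finset.mem_image.1 (Finset.mem_coe.1 hx)
    exact hsK t ht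
  have h2 : ∀ u ∈ U, ∃ w ∈ Subgroup.closure ((T.image s : Finset X) : Set X), w⁻¹ * u ∈ N := by
    intro u hu
    have hu1 : q u ∈ Subgroup.closure (T : Set (X ⧸ N)) := by
      rw [hT']
      refine ⟨u, ?_, rfl⟩
      rw [← hU]
      exact Subgroup.subset_closure hu
    have hmap : Subgroup.closure (T : Set (X ⧸ N)) ≤
        (Subgroup.closure ((T.image s : Finset X) : Set X)).map q := by
      rw [Subgroup.closure_le]
      intro t ht
      refine ⟨s t, Subgroup.subset_closure ?_, hs t ht⟩
      rw [Finset.coe_image]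
      exact ⟨t, ht, rfl⟩
    obtain ⟨w, hw, hw'⟩ := hmap hu1
    refine ⟨w, hw, ?_⟩
    rw [← QuotientGroup.eq_one_iff]
    have : q (w⁻¹ * u) = 1 := by
      rw [map_mul, map_inv, hw', inv_mul_cancel]
    exact this
  choose! w hw hwN using h2
  -- the part in `N`
  set V : Finset N := (U.attach.image fun u : {x // x ∈ U} => (⟨(w u)⁻¹ * u, hwN u u.2⟩ : N)) with hV
  obtain ⟨P, hP, hP'⟩ := ha (Subgroup.closure (V : Set N)) ⟨V, rfl⟩
  refine ⟨(P.image (fun x : N => (x : X))) ∪ T.image s, ?_, ?_⟩
  · refine (Finset.card_union_le _ _).trans ?_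
    exact Nat.add_le_add (Finset.card_image_le.trans hP) (Finset.card_image_le.trans hT)
  have hPcl : Subgroup.closure ((P.image (fun x : N => (x : X)) : Finset X) : Set X) =
      (Subgroup.closure (V : Set N)).map N.subtype := by
    rw [← hP', MonoidHom.map_closure, Finset.coe_image]
    rfl
  apply le_antisymm
  · rw [Finset.coe_union, Subgroup.closure_union]
    apply sup_le _ hsT
    rw [hPcl, MonoidHom.map_closure, Subgroup.closure_le]
    rintro _ ⟨v, hv, rfl⟩
    obtain ⟨u, _, rfl⟩ := Finset.mem_image.1 (Finset.mem_coe.1 hv)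
    refine K.mul_mem (K.inv_mem (hsT (hw u u.2))) ?_
    rw [← hU]
    exact Subgroup.subset_closure u.2
  · rw [← hU, Subgroup.closure_le]
    intro u hu
    rw [Finset.coe_union, Subgroup.closure_union]
    have h3 : u = w u * ((w u)⁻¹ * u) := by group
    rw [h3]
    refine Subgroup.mul_mem _ (Subgroup.mem_sup_right (hw u hu)) (Subgroup.mem_sup_left ?_)
    rw [hPcl]
    refine ⟨⟨(w u)⁻¹ * u, hwN u hu⟩, Subgroup.subset_closure ?_, rfl⟩
    rw [hV, Finset.coe_image]
    exact ⟨⟨u, hu⟩, by simp, rfl⟩

theorem rk_zpowers {X : Type} [Group X] (a : X) : RK (Subgroup.zpowers a) 1 := by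
  classical
  intro K _
  obtain ⟨g, hg⟩ := (Subgroup.isCyclic_iff_exists_zpowers_eq_top K).1 inferInstance
  refine ⟨{g}, by simp, ?_⟩
  rw [Finset.coe_singleton, ← Subgroup.zpowers_eq_closure, hg]

/-- Groups generated by `n` commuting elements have Pruefer rank at most `n`. -/
theorem rk_comm : ∀ (n : ℕ) (Q : Type) [Group Q], (∀ a b : Q, a * b = b * a) →
    (∃ S : Finset Q, S.card ≤ n ∧ Subgroup.closure (S : Set Q) = ⊤) → RK Q n := by
  classical
  intro n
  induction n with
  | zero =>
    rintro Q _ _ ⟨S, hS, htop⟩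
    have hS0 : S = ∅ := Finset.card_eq_zero.1 (Nat.le_zero.1 hS)
    subst hS0
    intro K _
    refine ⟨∅, le_rfl, le_antisymm ?_ ?_⟩
    · rw [Finset.coe_empty, Subgroup.closure_empty]
      exact bot_le
    · rw [htop]
      exact le_top
  | succ n ih =>
    rintro Q _ hcomm ⟨S, hS, htop⟩
    rcases S.eq_empty_or_nonempty with hS0 | ⟨a, haS⟩
    · subst hS0
      intro K _
      refine ⟨∅, by simp, le_antisymm ?_ ?_⟩
      · rw [Finset.coe_empty, Subgroup.closure_empty]
        exact bot_le
      · rw [htop]
        exact le_top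
    · set N : Subgroup Q := Subgroup.zpowers a with hN
      have hNn : N.Normal := by
        constructor
        intro x hx g
        rw [hcomm g x, mul_assoc, mul_inv_cancel, mul_one]
        exact hx
      have h1 : RK N 1 := rk_zpowers a
      rw [add_comm n 1]
      refine rk_ext N h1 (ih (Q ⧸ N) ?_ ?_)
      · intro x y
        obtain ⟨x, rfl⟩ := QuotientGroup.mk'_surjective N x
        obtain ⟨y, rfl⟩ := QuotientGroup.mk'_surjective N y
        rw [← map_mul, ← map_mul, hcomm]
      · refine ⟨(S.erase a).image (QuotientGroup.mk' N), ?_, ?_⟩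
        · refine Finset.card_image_le.trans ?_
          rw [Finset.card_erase_of_mem haS]
          omega
        · rw [Finset.coe_image, ← MonoidHom.map_closure, eq_top_iff]
          rintro z -
          obtain ⟨z, rfl⟩ := QuotientGroup.mk'_surjective N z
          have hz : z ∈ Subgroup.closure (S : Set Q) := by rw [htop]; trivial
          induction hz using Subgroup.closure_induction with
          | mem z hz =>
            by_cases hza : z = a
            · have : QuotientGroup.mk' N z = 1 := by
                rw [QuotientGroup.mk'_apply, QuotientGroup.eq_one_iff, hza]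
                exact Subgroup.mem_zpowers a
              rw [this]
              exact Subgroup.one_mem _
            · exact ⟨z, Subgroup.subset_closure (by
                rw [Finset.coe_erase]; exact ⟨hz, hza⟩), rfl⟩
          | one => rw [map_one]; exact Subgroup.one_mem _
          | mul x y _ _ hx hy => rw [map_mul]; exact Subgroup.mul_mem _ hx hy
          | inv x _ hx => rw [map_inv]; exact Subgroup.inv_mem _ hx

/-- Solvable groups all of whose subgroups are finitely generated have finite Pruefer rank. -/
theorem rk_of_max {S : Type} [Group S] [hS : Group.IsSolvable S]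
    (hfg : ∀ H : Subgroup S, H.FG) : ∃ r, RK S r := by
  obtain ⟨n, hn⟩ := hS.solvable
  have key : ∀ m, m ≤ n → ∃ r, RK (derivedSeries S (n - m)) r := by
    intro m
    induction m with
    | zero =>
      intro _
      rw [Nat.sub_zero, hn]
      refine ⟨0, fun K _ => ⟨∅, le_rfl, ?_⟩⟩
      exact Subsingleton.elim _ _
    | succ m ih =>
      intro hm
      obtain ⟨D₁, h1⟩ := ih (by omega)
      set i := n - (m + 1) with hi
      have hi1 : n - m = i + 1 := by omega
      rw [hi1] at h1
      have hle : derivedSeries S (i + 1) ≤ derivedSeries S i := by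
        rw [derivedSeries_succ]
        exact Subgroup.commutator_le_left _ _
      let B := (derivedSeries S (i + 1)).subgroupOf (derivedSeries S i)
      have hBn : B.Normal := inferInstance
      have hB1 : RK B D₁ :=
        rk_inj (Subgroup.subgroupOfEquivOfLe hle).toMonoidHom
          (Subgroup.subgroupOfEquivOfLe hle).injective h1
      have hAfg : Group.FG (derivedSeries S i) := (Group.fg_iff_subgroup_fg _).2 (hfg _)
      let π : derivedSeries S i →* (derivedSeries S i) ⧸ B := QuotientGroup.mk' _
      have hsurj : Function.Surjective π := QuotientGroup.mk'_surjective _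
      have hQfg : Group.FG ((derivedSeries S i) ⧸ B) := Group.fg_of_surjective hsurj
      obtain ⟨T, hT⟩ := Group.fg_def.1 hQfg
      have h2 := rk_comm T.card ((derivedSeries S i) ⧸ B) (by
        intro x y
        obtain ⟨x, rfl⟩ := hsurj x
        obtain ⟨y, rfl⟩ := hsurj y
        rw [← map_mul, ← map_mul]
        refine QuotientGroup.eq.2 ?_
        show ((((x * y)⁻¹ * (y * x) : derivedSeries S i)) : S) ∈ derivedSeries S (i + 1)
        rw [derivedSeries_succ]
        have e : ((((x * y)⁻¹ * (y * x) : derivedSeries S i)) : S) =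
            ⁅((y : S))⁻¹, ((x : S))⁻¹⁆ := by
          rw [commutatorElement_def]
          push_cast
          group
        rw [e]
        exact Subgroup.commutator_mem_commutator (inv_mem y.2) (inv_mem x.2)) ⟨T, le_rfl, hT⟩
      exact ⟨_, rk_ext B hB1 h2⟩
  obtain ⟨D, hD⟩ := key n le_rfl
  rw [Nat.sub_self] at hD
  refine ⟨D, rk_inj (X := derivedSeries S 0)
    { toFun := fun x => ⟨x, by rw [derivedSeries_zero]; exact Subgroup.mem_top x⟩
      map_one' := rfl
      map_mul' := fun _ _ => rfl } ?_ hD⟩
  intro x y hxy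
  exact congrArg Subtype.val hxy

/-- The form used for subgroups of a group. -/
theorem rank_of_max {G : Type} [Group G] (S : Subgroup G) [Group.IsSolvable S]
    (hfg : ∀ H : Subgroup G, H ≤ S → H.FG) :
    ∃ r : ℕ, ∀ K : Subgroup G, K ≤ S → K.FG → ∃ T : Finset G, T.card ≤ r ∧
      Subgroup.closure (T : Set G) = K := by
  classical
  have h1 : ∀ K : Subgroup S, K.FG := by
    intro K
    have h2 : (K.map S.subtype).FG := hfg _ (Subgroup.map_subtype_le _)
    have h3 : Group.FG (K.map S.subtype) := (Group.fg_iff_subgroup_fg _).2 h2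
    have h4 : Group.FG K := Group.fg_of_surjective
      (f := (K.equivMapOfInjective S.subtype S.subtype_injective).symm.toMonoidHom)
      (K.equivMapOfInjective S.subtype S.subtype_injective).symm.surjective
    exact (Group.fg_iff_subgroup_fg _).1 h4
  obtain ⟨r, hr⟩ := rk_of_max h1
  refine ⟨r, fun K hK _ => ?_⟩
  obtain ⟨T, hT, hT'⟩ := hr (K.subgroupOf S) (h1 _)
  refine ⟨T.image (fun x : S => (x : G)), Finset.card_image_le.trans hT, ?_⟩
  have h2 : ((T.image (fun x : S => (x : G)) : Finset G) : Set G) = S.subtype '' (T : Set S) := by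
    rw [Finset.coe_image]
    rfl
  rw [h2, ← MonoidHom.map_closure, hT', Subgroup.map_subgroupOf_eq_of_le hK]

end Pool.Agent.VS
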