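import Pool.Agent.VS.FreeQuot
/-!
# Torsion free subgroups of finite index in normal abelian subgroups
-/
namespace Pool.Agent.VS
open Subgroup

theorem exists_tf {G : Type} [Group G] (A : Subgroup G) [hA : A.Normal] (hfg : A.FG)
    (hc : ∀ a ∈ A, ∀ b ∈ A, a * b = b * a) :
    ∃ A' : Subgroup G, A'.Normal ∧ A' ≤ A ∧ A'.relIndex A ≠ 0 ∧ A'.FG ∧
      ∀ a ∈ A', IsOfFinOrder a → a = 1 := by
  classical
  have hfg' : Group.FG A := (Group.fg_iff_subgroup_fg A).2 hfg
  have hcA : ∀ a b : A, a * b = b * a := fun a b => Subtype.ext (hc a a.2 b b.2)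
  obtain ⟨m, B, hB, ⟨f⟩⟩ := free_in_abelian A hcA hfg'
  have hBn : B.Normal := ⟨fun b hb g => by rw [hcA g b, mul_assoc, mul_inv_cancel, mul_one]; exact hb⟩
  have ht : B.index ≠ 0 := hB.index_ne_zero
  set t : ℕ := B.index with htdef
  let A' : Subgroup G :=
    { carrier := {g | ∃ a ∈ A, a ^ t = g}
      one_mem' := ⟨1, A.one_mem, one_pow t⟩
      mul_mem' := by
        rintro _ _ ⟨a, ha, rfl⟩ ⟨b, hb, rfl⟩
        exact ⟨a * b, A.mul_mem ha hb, (Commute.mul_pow (hc a ha b hb) t)⟩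
      inv_mem' := by
        rintro _ ⟨a, ha, rfl⟩
        exact ⟨a⁻¹, A.inv_mem ha, inv_pow a t⟩ }
  have hA'A : A' ≤ A := by
    rintro _ ⟨a, ha, rfl⟩
    exact A.pow_mem ha t
  have hfi : (A'.subgroupOf A).FiniteIndex := by
    let _ : CommGroup A := { (inferInstance : Group A) with mul_comm := hcA }
    have h1 : Group.FG (A ⧸ A'.subgroupOf A) := inferInstance
    have h2 : IsMulTorsion (A ⧸ A'.subgroupOf A) := by
      intro x
      obtain ⟨a, rfl⟩ := QuotientGroup.mk_surjective x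
      rw [isOfFinOrder_iff_pow_eq_one]
      refine ⟨t, Nat.pos_of_ne_zero ht, ?_⟩
      rw [← QuotientGroup.mk_pow, QuotientGroup.eq_one_iff]
      exact ⟨a, a.2, rfl⟩
    have h3 : Finite (A ⧸ A'.subgroupOf A) := CommGroup.finite_of_fg_isMulTorsion _ h2
    exact Subgroup.finiteIndex_of_finite_quotient
  refine ⟨A', ?_, hA'A, hfi.index_ne_zero, ?_, ?_⟩
  · refine ⟨?_⟩
    rintro _ ⟨a, ha, rfl⟩ g
    exact ⟨g * a * g⁻¹, hA.conj_mem a ha g, conj_pow⟩
  · have h1 : Group.FG (A'.subgroupOf A) := Subgroup.fg_of_index_ne_zero _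
    have h2 : (A'.subgroupOf A).FG := (Group.fg_iff_subgroup_fg _).1 h1
    have h3 : ((A'.subgroupOf A).map A.subtype).FG := by
      obtain ⟨T0, hT0⟩ := h2
      exact ⟨T0.image A.subtype, by rw [Finset.coe_image, ← MonoidHom.map_closure, hT0]⟩
    rwa [subgroupOf_map_subtype, inf_eq_left.2 hA'A] at h3
  · rintro _ ⟨a, ha, rfl⟩ hfin
    have h1 : (⟨a, ha⟩ : A) ^ t ∈ B := Subgroup.pow_index_mem B _
    have h2 : f ⟨_, h1⟩ = 1 := by
      have h3 : IsOfFinOrder (f ⟨_, h1⟩) := by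
        apply MonoidHom.isOfFinOrder f.toMonoidHom
        obtain ⟨n, hn, h4⟩ := isOfFinOrder_iff_pow_eq_one.1 hfin
        exact isOfFinOrder_iff_pow_eq_one.2 ⟨n, hn, Subtype.ext (Subtype.ext h4)⟩
      obtain ⟨n, hn, h4⟩ := isOfFinOrder_iff_pow_eq_one.1 h3
      funext i
      have h5 := congrFun h4 i
      have h6 : n • Multiplicative.toAdd ((f ⟨_, h1⟩) i) = 0 := congrArg Multiplicative.toAdd h5
      have h7 : Multiplicative.toAdd ((f ⟨_, h1⟩) i) = 0 := by
        rcases smul_eq_zero.1 h6 with h8 | h8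
        · omega
        · exact h8
      exact Multiplicative.toAdd.injective h7
    have h3 : (⟨_, h1⟩ : B) = 1 := f.injective (by rw [h2, map_one])
    have h4 := congrArg (fun b : B => ((b : A) : G)) h3
    exact h4

end Pool.Agent.VS
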