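import Pool.Agent.VN.ResFin
import Pool.Agent.VS.Q2
/-!
# Cyclic subgroups are undistorted or exponentially distorted

If for every `T` the elements of translation number at most `T` fall into finitely many conjugacy
classes, then every cyclic subgroup is undistorted (with one constant for the whole group) or its
elements have logarithmic length.
-/
namespace Pool.Agent.VS
open Pool.Agent.SLX Pool.Agent.VN

section abs
variable {G : Type} [Group G] (l : G → ℕ) (hone : l 1 = 0) (hmul : ∀ g h, l (g * h) ≤ l g + l h)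

include hone hmul in
/-- Division with remainder for the lengths of powers. -/
theorem cor_div (t : G) (m n k : ℕ) (hm : 0 < m) (hn : 0 < n) (h : m * l (t ^ n) ≤ n) :
    l (t ^ (m * k)) ≤ k + n * l t := by
  have h1 : m * k = n * (m * k / n) + m * k % n := (Nat.div_add_mod _ _).symm
  have h2 : l (t ^ (m * k)) ≤ (m * k / n) * l (t ^ n) + (m * k % n) * l t := by
    have h3 : t ^ (m * k) = (t ^ n) ^ (m * k / n) * t ^ (m * k % n) := by
      rw [← pow_mul, ← pow_add, ← h1]
    rw [h3]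
    have h4 := hmul ((t ^ n) ^ (m * k / n)) (t ^ (m * k % n))
    have h5 := l_pow_le l hone hmul (t ^ n) (m * k / n)
    have h6 := l_pow_le l hone hmul t (m * k % n)
    omega
  have h3 : m * k % n < n := Nat.mod_lt _ hn
  have h4 : (m * k % n) * l t ≤ n * l t := Nat.mul_le_mul_right _ h3.le
  have h5 : (m * k / n) * l (t ^ n) ≤ k := by
    have h6 : (m * k / n) * n ≤ m * k := Nat.div_mul_le_self _ _
    have h7 : m * ((m * k / n) * l (t ^ n)) ≤ m * k := by
      calc m * ((m * k / n) * l (t ^ n)) = (m * k / n) * (m * l (t ^ n)) := by ring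
        _ ≤ (m * k / n) * n := Nat.mul_le_mul_left _ h
        _ ≤ m * k := h6
    exact Nat.le_of_mul_le_mul_left h7 hm
  omega

include hmul in
theorem cor_conj_le (x w : G) : l (x⁻¹ * w * x) ≤ l x⁻¹ + l w + l x := by
  have h1 := hmul (x⁻¹ * w) x
  have h2 := hmul x⁻¹ w
  omega

theorem cor_conj_pow (x w : G) (n : ℕ) : (x⁻¹ * w * x) ^ n = x⁻¹ * w ^ n * x := by
  have := conj_pow (i := n) (a := x⁻¹) (b := w)
  rwa [inv_inv] at this

include hmul in
theorem cor_tau_conj {T : ℕ} {w : G} (x : G) (h : TauLe l T w) : TauLe l T (x⁻¹ * w * x) := by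
  obtain ⟨c, hc⟩ := h
  refine ⟨c + l x⁻¹ + l x, fun n => ?_⟩
  rw [cor_conj_pow]
  have h1 := cor_conj_le l hmul x (w ^ n)
  have h2 := hc n
  omega

/-- `N ≤ b ^ i / (c₁ i + c₂ a ^ i)` for large `i` if `a < b`. -/
theorem cor_growth (a b c₁ c₂ m : ℕ) (ha : 0 < a) (hab : a < b) :
    ∃ i : ℕ, m * (c₁ * i + c₂ * a ^ i) ≤ b ^ i := by
  have ha' : (0 : ℝ) < a := by exact_mod_cast ha
  have hb' : (a : ℝ) < b := by exact_mod_cast hab
  have hb0 : (0 : ℝ) < b := ha'.trans hb'
  have h1 : Filter.Tendsto (fun i : ℕ => (m : ℝ) * (c₁ * ((i : ℝ) * (1 / b) ^ i) +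
      c₂ * (a / b) ^ i)) Filter.atTop (nhds ((m : ℝ) * (c₁ * 0 + c₂ * 0))) := by
    refine Filter.Tendsto.const_mul _ (Filter.Tendsto.add ?_ ?_)
    · refine Filter.Tendsto.const_mul _ ?_
      apply tendsto_self_mul_const_pow_of_abs_lt_one
      rw [abs_of_pos (by positivity)]
      rw [div_lt_one hb0]
      have : (1 : ℝ) ≤ a := by exact_mod_cast ha
      linarith
    · refine Filter.Tendsto.const_mul _ ?_
      apply tendsto_pow_atTop_nhds_zero_of_lt_one (by positivity)
      rw [div_lt_one hb0]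
      exact hb'
  have h2 : (m : ℝ) * (c₁ * 0 + c₂ * 0) < 1 := by norm_num
  obtain ⟨i, hi⟩ := (h1.eventually_lt_const h2).exists
  refine ⟨i, ?_⟩
  have h3 : (m : ℝ) * (c₁ * i + c₂ * a ^ i) ≤ b ^ i := by
    have h4 : (0 : ℝ) < b ^ i := by positivity
    have h5 := mul_lt_mul_of_pos_right hi h4
    have h6 : (m : ℝ) * (c₁ * ((i : ℝ) * (1 / b) ^ i) + c₂ * (a / b) ^ i) * b ^ i =
        m * (c₁ * i + c₂ * a ^ i) := by
      rw [div_pow, div_pow, one_pow]
      field_simp
    rw [h6, one_mul] at h5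
    exact h5.le
  exact_mod_cast h3

include hone hmul in
/-- If two different positive powers are conjugate then all translation numbers vanish. -/
theorem cor_collapse (t x : G) (a b : ℕ) (ha : 0 < a) (hab : a < b)
    (h : x⁻¹ * t ^ b * x = t ^ a) (m : ℕ) (hm : 0 < m) : TauLe l 1 (t ^ m) := by
  have h1 : ∀ i : ℕ, l (t ^ b ^ i) ≤ (l x⁻¹ + l x) * i + l t * a ^ i := by
    have h2 : ∀ i : ℕ, ∀ e : ℕ, l (t ^ (e * b ^ i)) ≤ (l x⁻¹ + l x) * i + l (t ^ (e * a ^ i)) := by
      intro i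
      induction i with
      | zero => intro e; simp
      | succ i ih =>
        intro e
        have h3 := ih (e * b)
        have h4 : t ^ (e * b * a ^ i) = x * t ^ (e * a ^ (i + 1)) * x⁻¹ := by
          have h5 : t ^ (e * a ^ (i + 1)) = (t ^ a) ^ (e * a ^ i) := by
            rw [← pow_mul]
            congr 1
            ring
          rw [h5, ← h, cor_conj_pow, ← pow_mul]
          have h6 : b * (e * a ^ i) = e * b * a ^ i := by ring
          rw [h6]
          group
        rw [h4] at h3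
        have h7 := hmul (x * t ^ (e * a ^ (i + 1))) x⁻¹
        have h8 := hmul x (t ^ (e * a ^ (i + 1)))
        have h9 : e * b ^ (i + 1) = e * b * b ^ i := by ring
        rw [h9, Nat.mul_succ]
        omega
    intro i
    have h3 := h2 i 1
    rw [one_mul, one_mul] at h3
    have h4 := l_pow_le l hone hmul t (a ^ i)
    rw [mul_comm (l t)]
    omega
  obtain ⟨i, hi⟩ := cor_growth a b (l x⁻¹ + l x) (l t) m ha hab
  refine ⟨b ^ i * l t, fun n => ?_⟩
  rw [← pow_mul, one_mul]
  refine cor_div l hone hmul t m (b ^ i) n hm (pow_pos (ha.trans hab) _) ?_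
  exact (Nat.mul_le_mul_left m (h1 i)).trans hi

include hone hmul in
/-- The dichotomy. -/
theorem dichotomy_abs (hcl : ∀ T : ℕ, ∃ S : Set G, S.Finite ∧ ∀ w, TauLe l T w →
    ∃ x, x⁻¹ * w * x ∈ S) :
    ∃ κ K : ℕ, ∀ t : G, (∀ n : ℕ, n ≤ κ * l (t ^ n)) ∨
      ∃ C : ℕ, ∀ n : ℕ, l (t ^ n) ≤ K * Nat.log 2 n + C := by
  classical
  obtain ⟨S, hS, hcl1⟩ := hcl 1
  set N : ℕ := hS.toFinset.card + 1 with hN
  -- the good elements
  set P : G → Prop := fun t => ∀ m : ℕ, 0 < m → TauLe l 1 (t ^ m) with hP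
  have hPsq : ∀ s, P s → P (s ^ 2) := by
    intro s hs m hm
    rw [← pow_mul]
    exact hs (2 * m) (by omega)
  have hPconj : ∀ s x, P s → P (x⁻¹ * s * x) := by
    intro s x hs m hm
    rw [cor_conj_pow]
    exact cor_tau_conj l hmul x (hs m hm)
  have hex : ∀ s, P s → ∃ g, g⁻¹ * s ^ 2 * g ∈ S := fun s hs => hcl1 _ (hs 2 (by norm_num))
  have hex' : ∀ s, ∃ g, P s → g⁻¹ * s ^ 2 * g ∈ S := by
    intro s
    by_cases hs : P s
    · obtain ⟨g, hg⟩ := hex s hs
      exact ⟨g, fun _ => hg⟩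
    · exact ⟨1, fun h => absurd h hs⟩
  choose g hg using hex'
  set K : ℕ := hS.toFinset.sup (fun s => l s + l (g s) + l (g s)⁻¹) with hK
  have hKs : ∀ s ∈ S, l s + l (g s) + l (g s)⁻¹ ≤ K := by
    intro s hs
    exact Finset.le_sup (f := fun s => l s + l (g s) + l (g s)⁻¹) (hS.mem_toFinset.2 hs)
  have hlog : ∀ J : ℕ, ∀ s ∈ S, P s → ∀ m < 2 ^ J, l (s ^ m) ≤ J * K := by
    intro J
    induction J with
    | zero =>
      intro s hs hPs m hm
      have : m = 0 := by simpa using hm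
      rw [this, pow_zero, hone]
      exact Nat.zero_le _
    | succ J ih =>
      intro s hs hPs m hm
      have h1 : s ^ m = g s * ((g s)⁻¹ * s ^ 2 * g s) ^ (m / 2) * (g s)⁻¹ * s ^ (m % 2) := by
        rw [cor_conj_pow, ← pow_mul]
        have h2 : m = 2 * (m / 2) + m % 2 := (Nat.div_add_mod _ _).symm
        have h3 : s ^ m = s ^ (2 * (m / 2)) * s ^ (m % 2) := by rw [← pow_add, ← h2]
        rw [h3]
        group
      have h2 := ih _ (hg s hPs) (hPconj _ (g s) (hPsq s hPs)) (m / 2) (by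
        rw [pow_succ] at hm
        omega)
      have h3 : l (s ^ (m % 2)) ≤ l s := by
        rcases Nat.mod_two_eq_zero_or_one m with h4 | h4
        · rw [h4, pow_zero, hone]
          exact Nat.zero_le _
        · rw [h4, pow_one]
      have h4 := hKs s hs
      rw [h1]
      have h5 := hmul (g s * ((g s)⁻¹ * s ^ 2 * g s) ^ (m / 2) * (g s)⁻¹) (s ^ (m % 2))
      have h6 := hmul (g s * ((g s)⁻¹ * s ^ 2 * g s) ^ (m / 2)) (g s)⁻¹
      have h7 := hmul (g s) (((g s)⁻¹ * s ^ 2 * g s) ^ (m / 2))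
      rw [Nat.succ_mul]
      omega
  refine ⟨N, K, fun t => ?_⟩
  by_cases ht : P t
  · right
    obtain ⟨x, hx⟩ := hcl1 t (by
      have := ht 1 one_pos
      rwa [pow_one] at this)
    refine ⟨l x + l x⁻¹ + K, fun n => ?_⟩
    have h1 : t ^ n = x * (x⁻¹ * t * x) ^ n * x⁻¹ := by
      rw [cor_conj_pow]
      group
    have h2 := hlog (Nat.log 2 n + 1) _ hx (hPconj t x ht) n
      (Nat.lt_pow_succ_log_self (by norm_num) n)
    rw [h1]
    have h3 := hmul (x * (x⁻¹ * t * x) ^ n) x⁻¹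
    have h4 := hmul x ((x⁻¹ * t * x) ^ n)
    rw [Nat.succ_mul, mul_comm (Nat.log 2 n)] at h2
    omega
  · left
    -- some small power has large translation number
    have h1 : ∃ m, 0 < m ∧ m ≤ N ∧ ¬ TauLe l 1 (t ^ m) := by
      by_contra hcon
      push Not at hcon
      apply ht
      have h2 : ∀ m ∈ Finset.Icc 1 N, ∃ x, x⁻¹ * t ^ m * x ∈ hS.toFinset := by
        intro m hm
        rw [Finset.mem_Icc] at hm
        obtain ⟨x, hx⟩ := hcl1 _ (hcon m hm.1 hm.2)
        exact ⟨x, hS.mem_toFinset.2 hx⟩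
      choose! y hy using h2
      obtain ⟨a, ha, b, hb, hne, heq⟩ := Finset.exists_ne_map_eq_of_card_lt_of_maps_to
        (s := Finset.Icc 1 N) (t := hS.toFinset) (f := fun m => (y m)⁻¹ * t ^ m * y m)
        (by rw [Nat.card_Icc]; omega) (fun m hm => hy m hm)
      have key : ∀ a b : ℕ, 0 < a → a < b → (y a)⁻¹ * t ^ a * y a = (y b)⁻¹ * t ^ b * y b →
          P t := by
        intro a b ha hab he m hm
        refine cor_collapse l hone hmul t (y b * (y a)⁻¹) a b ha hab ?_ m hm
        have h3 : (y b * (y a)⁻¹)⁻¹ * t ^ b * (y b * (y a)⁻¹) =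
            y a * ((y b)⁻¹ * t ^ b * y b) * (y a)⁻¹ := by group
        rw [h3, ← he]
        group
      rw [Finset.mem_Icc] at ha hb
      rcases lt_or_gt_of_ne hne with h4 | h4
      · exact key a b ha.1 h4 heq
      · exact key b a hb.1 h4 heq.symm
    obtain ⟨m, hm0, hmN, hm⟩ := h1
    intro n
    by_contra hn
    push Not at hn
    apply hm
    have hn0 : 0 < n := by omega
    refine ⟨n * l t, fun k => ?_⟩
    rw [← pow_mul, one_mul]
    exact cor_div l hone hmul t m n k hm0 hn0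
      ((Nat.mul_le_mul_right _ hmN).trans hn.le)

end abs

variable {A G : Type} [Group G] {π : A → G}

/-- Every cyclic subgroup is undistorted, with one constant for the whole group, or its elements
have logarithmic length. -/
theorem dichotomy [Finite A] (F : NF A G π)
    (hB : ∃ C : ℕ, ∀ (w : G) (L : ℕ), Tau F w L → ∃ x : G, F.l (x⁻¹ * w * x) ≤ L + C) :
    ∃ κ K : ℕ, ∀ t : G, (∀ n : ℕ, n ≤ κ * F.l (t ^ n)) ∨
      ∃ C : ℕ, ∀ n : ℕ, F.l (t ^ n) ≤ K * Nat.log 2 n + C :=
  dichotomy_abs F.l F.l_one F.l_mul (fun T => classes_finite F hB T)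

end Pool.Agent.VS
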