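import Pool.Agent.VNP.AsLab
/-!
# Finite asymptotic dimension of discrete linear groups

The map sending a matrix `g` to the quadratic form `v ↦ |v g|^2` and repeated completion of the
square reduce the claim to the real line.
-/
namespace Pool.Agent.VS

/-! ## Colourings with bounded components -/

/-- For every `r` there is a colouring with colours in `C` whose `r`-components are bounded. -/
def ACol {X : Type} (N : ℕ → X → X → Prop) (C : Type) : Prop :=
  ∀ r : ℕ, ∃ R : ℕ, ∃ c : X → C, ∀ x y,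
    Relation.ReflTransGen (fun u v => c u = c v ∧ N r u v) x y → N R x y

theorem acol_fib {X Y Z CY CZ : Type} {NX : ℕ → X → X → Prop} {NY : ℕ → Y → Y → Prop}
    {NZ : ℕ → Z → Z → Prop} (hY : ACol NY CY) (hZ : ACol NZ CZ)
    (symmY : ∀ r x y, NY r x y → NY r y x) (f : X → Y) (h : Y → X → Z)
    (hf : ∀ r, ∃ r', ∀ x x', NX r x x' → NY r' (f x) (f x'))
    (h1 : ∀ R r, ∃ t, ∀ y x x', NY R y (f x) → NY R y (f x') → NX r x x' → NZ t (h y x) (h y x'))
    (h2 : ∀ R t, ∃ S, ∀ y x x', NY R y (f x) → NY R y (f x') → NZ t (h y x) (h y x') →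
      NX S x x') : ACol NX (CY × CZ) := by
  classical
  intro r
  obtain ⟨r', hr'⟩ := hf r
  obtain ⟨R, cY, hR⟩ := hY r'
  obtain ⟨r2, hr2⟩ := h1 R r
  obtain ⟨t, cZ, ht⟩ := hZ r2
  obtain ⟨S, hS⟩ := h2 R t
  let rel : Y → Y → Prop := fun u v => cY u = cY v ∧ NY r' u v
  have hsymm' : ∀ u v, Relation.ReflTransGen rel u v → Relation.ReflTransGen rel v u := by
    intro u v huv
    induction huv with
    | refl => exact Relation.ReflTransGen.refl
    | tail _ h2 ih => exact Relation.ReflTransGen.head ⟨h2.1.symm, symmY _ _ _ h2.2⟩ ih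
  let s : Setoid Y := ⟨Relation.ReflTransGen rel, fun _ => Relation.ReflTransGen.refl,
    fun {u v} huv => hsymm' u v huv, fun h1 h2 => h1.trans h2⟩
  let rep : Y → Y := fun y => (Quotient.mk s y).out
  have hrep : ∀ y, NY R (rep y) y := by
    intro y
    apply hR
    exact (show s (rep y) y from Quotient.exact (Quotient.out_eq (Quotient.mk s y)))
  have hrepc : ∀ u v, rel u v → rep u = rep v := by
    intro u v huv
    have h1 : Quotient.mk s u = Quotient.mk s v :=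
      Quotient.sound (show Relation.ReflTransGen rel u v from Relation.ReflTransGen.single huv)
    show (Quotient.mk s u).out = (Quotient.mk s v).out
    rw [h1]
  refine ⟨S, fun x => (cY (f x), cZ (h (rep (f x)) x)), ?_⟩
  intro x y hxy
  have key : rep (f x) = rep (f y) ∧ Relation.ReflTransGen
      (fun u v => cZ u = cZ v ∧ NZ r2 u v) (h (rep (f x)) x) (h (rep (f x)) y) := by
    induction hxy with
    | refl => exact ⟨rfl, Relation.ReflTransGen.refl⟩
    | @tail b c _ hbc ih =>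
      obtain ⟨ih1, ih2⟩ := ih
      obtain ⟨hc, hN⟩ := hbc
      have hc1 : cY (f b) = cY (f c) := congrArg Prod.fst hc
      have hc2 : cZ (h (rep (f b)) b) = cZ (h (rep (f c)) c) := congrArg Prod.snd hc
      have e1 : rep (f b) = rep (f c) := hrepc _ _ ⟨hc1, hr' _ _ hN⟩
      refine ⟨ih1.trans e1, ih2.tail ⟨?_, ?_⟩⟩
      · rw [ih1, hc2, e1]
      · apply hr2
        · rw [ih1]; exact hrep _
        · rw [ih1, e1]; exact hrep _
        · exact hN
  obtain ⟨k1, k2⟩ := key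
  apply hS (rep (f x)) x y (hrep _)
  · rw [k1]; exact hrep _
  · exact ht _ _ k2

theorem rtg_lift {α β : Type} {r : α → α → Prop} {p : β → β → Prop} (f : α → β)
    (h : ∀ a b, r a b → p (f a) (f b)) {a b : α} (hab : Relation.ReflTransGen r a b) :
    Relation.ReflTransGen p (f a) (f b) := by
  induction hab with
  | refl => exact Relation.ReflTransGen.refl
  | tail _ h2 ih => exact ih.tail (h _ _ h2)

theorem acol_prod {X Y CX CY : Type} {NX : ℕ → X → X → Prop} {NY : ℕ → Y → Y → Prop}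
    (hX : ACol NX CX) (hY : ACol NY CY)
    (mX : ∀ r r' x y, r ≤ r' → NX r x y → NX r' x y)
    (mY : ∀ r r' x y, r ≤ r' → NY r x y → NY r' x y) :
    ACol (fun r (p q : X × Y) => NX r p.1 q.1 ∧ NY r p.2 q.2) (CX × CY) := by
  intro r
  obtain ⟨R1, c1, h1⟩ := hX r
  obtain ⟨R2, c2, h2⟩ := hY r
  refine ⟨max R1 R2, fun p => (c1 p.1, c2 p.2), ?_⟩
  intro p q hpq
  constructor
  · apply mX R1 _ _ _ (le_max_left _ _)
    apply h1
    exact rtg_lift (p := fun u v => c1 u = c1 v ∧ NX r u v) Prod.fst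
      (fun a b hab => ⟨congrArg Prod.fst hab.1, hab.2.1⟩) hpq
  · apply mY R2 _ _ _ (le_max_right _ _)
    apply h2
    exact rtg_lift (p := fun u v => c2 u = c2 v ∧ NY r u v) Prod.snd
      (fun a b hab => ⟨congrArg Prod.snd hab.1, hab.2.2⟩) hpq

/-- Parity of the integer part. -/
theorem floor_step (L a b : ℝ) (hL : 0 < L) (hab : |a - b| < L)
    (hp : Even ⌊a / L⌋ ↔ Even ⌊b / L⌋) : ⌊a / L⌋ = ⌊b / L⌋ := by
  rw [abs_lt] at hab
  have h1 : a / L - b / L < 1 := by
    rw [← sub_div, div_lt_one hL]; linarith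
  have h2 : -1 < a / L - b / L := by
    rw [← sub_div, lt_div_iff₀ hL]; linarith
  have f1 := Int.floor_le (a / L)
  have f2 := Int.lt_floor_add_one (a / L)
  have g1 := Int.floor_le (b / L)
  have g2 := Int.lt_floor_add_one (b / L)
  have h3 : (⌊a / L⌋ : ℝ) - ⌊b / L⌋ < 2 := by linarith
  have h4 : -2 < (⌊a / L⌋ : ℝ) - ⌊b / L⌋ := by linarith
  have h5 : ⌊a / L⌋ - ⌊b / L⌋ < 2 := by exact_mod_cast h3
  have h6 : -2 < ⌊a / L⌋ - ⌊b / L⌋ := by exact_mod_cast h4
  rw [Int.even_iff, Int.even_iff] at hp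
  omega

/-- Closeness in `ℝ ^ n`. -/
def NZ (n : ℕ) (r : ℕ) (w w' : Fin n → ℝ) : Prop := ∀ i, |w i - w' i| ≤ r

open Classical in
theorem acol_real (n : ℕ) : ACol (NZ n) (Fin n → Bool) := by
  intro r
  have hL : (0 : ℝ) < (r : ℝ) + 1 := by positivity
  refine ⟨r + 1, fun w i => decide (Even ⌊w i / ((r : ℝ) + 1)⌋), ?_⟩
  intro x y hxy
  have key : ∀ i, ⌊x i / ((r : ℝ) + 1)⌋ = ⌊y i / ((r : ℝ) + 1)⌋ := by
    induction hxy with
    | refl => intro i; rfl
    | @tail b c _ hbc ih =>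
      intro i
      rw [ih i]
      apply floor_step _ _ _ hL
      · exact lt_of_le_of_lt (hbc.2 i) (by linarith)
      · have h1 := congrFun hbc.1 i
        simp only [decide_eq_decide] at h1
        exact h1
  intro i
  have h1 := key i
  have f1 := Int.floor_le (x i / ((r : ℝ) + 1))
  have f2 := Int.lt_floor_add_one (x i / ((r : ℝ) + 1))
  have g1 := Int.floor_le (y i / ((r : ℝ) + 1))
  have g2 := Int.lt_floor_add_one (y i / ((r : ℝ) + 1))
  rw [h1] at f1 f2
  have h3 : |x i / ((r : ℝ) + 1) - y i / ((r : ℝ) + 1)| ≤ 1 := by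
    rw [abs_le]; constructor <;> linarith
  rw [← sub_div, abs_div, abs_of_pos hL, div_le_one hL] at h3
  push_cast
  exact h3

/-! ## Positive definite forms in triangular coordinates -/

/-- Coordinates for positive definite quadratic forms in `n` variables. -/
def QX : ℕ → Type
  | 0 => Unit
  | n + 1 => (ℝ × (Fin n → ℝ)) × QX n

/-- The quadratic form. -/
noncomputable def qf : (n : ℕ) → QX n → (Fin n → ℝ) → ℝ
  | 0, _, _ => 0
  | n + 1, x, v =>
    Real.exp x.1.1 * (v 0 + ∑ i, x.1.2 i * v (Fin.succ i)) ^ 2 + qf n x.2 (fun i => v (Fin.succ i))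

/-- Two forms are comparable. -/
def NQ (n : ℕ) (r : ℕ) (x y : QX n) : Prop :=
  (∀ v, qf n y v ≤ Real.exp r * qf n x v) ∧ (∀ v, qf n x v ≤ Real.exp r * qf n y v)

theorem qf_nonneg : ∀ (n : ℕ) (x : QX n) (v : Fin n → ℝ), 0 ≤ qf n x v
  | 0, _, _ => le_rfl
  | n + 1, x, v => by
    have h1 := qf_nonneg n x.2 (fun i => v (Fin.succ i))
    have h2 := Real.exp_pos x.1.1
    show 0 ≤ Real.exp x.1.1 * (v 0 + ∑ i, x.1.2 i * v (Fin.succ i)) ^ 2 +
      qf n x.2 (fun i => v (Fin.succ i))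
    positivity

theorem qf_zero : ∀ (n : ℕ) (x : QX n), qf n x 0 = 0
  | 0, _ => rfl
  | n + 1, x => by
    have h1 := qf_zero n x.2
    show Real.exp x.1.1 * ((0 : Fin (n + 1) → ℝ) 0 + ∑ i, x.1.2 i * (0 : Fin (n + 1) → ℝ)
      (Fin.succ i)) ^ 2 + qf n x.2 (fun i => (0 : Fin (n + 1) → ℝ) (Fin.succ i)) = 0
    have e : (fun i : Fin n => (0 : Fin (n + 1) → ℝ) (Fin.succ i)) = 0 := rfl
    rw [e, h1]
    simp

theorem qf_cons (n : ℕ) (x : QX (n + 1)) (s : ℝ) (v : Fin n → ℝ) :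
    qf (n + 1) x (Fin.cons s v) =
      Real.exp x.1.1 * (s + ∑ i, x.1.2 i * v i) ^ 2 + qf n x.2 v := by
  show Real.exp x.1.1 * ((Fin.cons s v : Fin (n + 1) → ℝ) 0 + ∑ i, x.1.2 i *
    (Fin.cons s v : Fin (n + 1) → ℝ) (Fin.succ i)) ^ 2 +
      qf n x.2 (fun i => (Fin.cons s v : Fin (n + 1) → ℝ) (Fin.succ i)) = _
  simp only [Fin.cons_zero, Fin.cons_succ]

theorem NQ_symm (n r : ℕ) (x y : QX n) (h : NQ n r x y) : NQ n r y x := ⟨h.2, h.1⟩

theorem NQ_mono (n r r' : ℕ) (x y : QX n) (hr : r ≤ r') (h : NQ n r x y) : NQ n r' x y := by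
  have he : Real.exp r ≤ Real.exp r' := Real.exp_le_exp.2 (by exact_mod_cast hr)
  refine ⟨fun v => (h.1 v).trans ?_, fun v => (h.2 v).trans ?_⟩
  · exact mul_le_mul_of_nonneg_right he (qf_nonneg n x v)
  · exact mul_le_mul_of_nonneg_right he (qf_nonneg n y v)

/-- Half of comparability passes to the leading coefficient and to the minimum. -/
theorem half_fst (n : ℕ) (r : ℝ) (x y : QX (n + 1))
    (h : ∀ v, qf (n + 1) y v ≤ Real.exp r * qf (n + 1) x v) : y.1.1 ≤ r + x.1.1 := by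
  have h1 := h (Fin.cons 1 0)
  rw [qf_cons, qf_cons, qf_zero, qf_zero] at h1
  simp only [Pi.zero_apply, mul_zero, Finset.sum_const_zero, add_zero, one_pow, mul_one] at h1
  rw [← Real.exp_add, Real.exp_le_exp] at h1
  exact h1

theorem half_mid (n : ℕ) (r : ℝ) (x y : QX (n + 1))
    (h : ∀ v, qf (n + 1) y v ≤ Real.exp r * qf (n + 1) x v) (v : Fin n → ℝ) :
    Real.exp y.1.1 * (∑ i, (y.1.2 i - x.1.2 i) * v i) ^ 2 + qf n y.2 v ≤
      Real.exp r * qf n x.2 v := by
  have h1 := h (Fin.cons (-∑ i, x.1.2 i * v i) v)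
  rw [qf_cons, qf_cons] at h1
  have e1 : (-∑ i, x.1.2 i * v i) + ∑ i, x.1.2 i * v i = 0 := by ring
  have e2 : (-∑ i, x.1.2 i * v i) + ∑ i, y.1.2 i * v i = ∑ i, (y.1.2 i - x.1.2 i) * v i := by
    simp only [sub_mul, Finset.sum_sub_distrib]
    ring
  rw [e1, e2] at h1
  simpa using h1

theorem half_snd (n : ℕ) (r : ℝ) (x y : QX (n + 1))
    (h : ∀ v, qf (n + 1) y v ≤ Real.exp r * qf (n + 1) x v) (v : Fin n → ℝ) :
    qf n y.2 v ≤ Real.exp r * qf n x.2 v := by
  have h1 := half_mid n r x y h v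
  have h2 : 0 ≤ Real.exp y.1.1 * (∑ i, (y.1.2 i - x.1.2 i) * v i) ^ 2 := by positivity
  linarith

/-! ## Linear coordinates on a fibre -/

/-- Coordinates of a functional `u` adapted to the form `x`. -/
noncomputable def WW : (n : ℕ) → ℝ → QX n → (Fin n → ℝ) → (Fin n → ℝ)
  | 0, _, _, u => u
  | n + 1, b, x, u => Fin.cons (Real.exp ((b - x.1.1) / 2) * u 0)
      (WW n b x.2 (fun i => u (Fin.succ i) - u 0 * x.1.2 i))

theorem WW_sub : ∀ (n : ℕ) (b : ℝ) (x : QX n) (u u' : Fin n → ℝ) (i : Fin n),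
    WW n b x (fun j => u j - u' j) i = WW n b x u i - WW n b x u' i
  | 0, _, _, _, _, i => i.elim0
  | n + 1, b, x, u, u', i => by
    have h1 := WW_sub n b x.2 (fun i => u (Fin.succ i) - u 0 * x.1.2 i)
      (fun i => u' (Fin.succ i) - u' 0 * x.1.2 i)
    refine Fin.cases ?_ (fun j => ?_) i
    · show (Fin.cons (Real.exp ((b - x.1.1) / 2) * (u 0 - u' 0)) _ : Fin (n + 1) → ℝ) 0 =
        (Fin.cons (Real.exp ((b - x.1.1) / 2) * u 0) _ : Fin (n + 1) → ℝ) 0 -
        (Fin.cons (Real.exp ((b - x.1.1) / 2) * u' 0) _ : Fin (n + 1) → ℝ) 0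
      simp only [Fin.cons_zero]
      ring
    · show (Fin.cons _ (WW n b x.2 (fun i => u (Fin.succ i) - u' (Fin.succ i) -
          (u 0 - u' 0) * x.1.2 i)) : Fin (n + 1) → ℝ) (Fin.succ j) =
        (Fin.cons _ (WW n b x.2 (fun i => u (Fin.succ i) - u 0 * x.1.2 i)) :
          Fin (n + 1) → ℝ) (Fin.succ j) -
        (Fin.cons _ (WW n b x.2 (fun i => u' (Fin.succ i) - u' 0 * x.1.2 i)) :
          Fin (n + 1) → ℝ) (Fin.succ j)
      simp only [Fin.cons_succ]
      rw [← h1 j]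
      congr 1
      funext i
      ring

theorem exp_half_sq (a b u : ℝ) :
    (Real.exp ((b - a) / 2) * u) ^ 2 * Real.exp a = Real.exp b * u ^ 2 := by
  have h1 : Real.exp ((b - a) / 2) ^ 2 = Real.exp (b - a) := by
    rw [← Real.exp_nat_mul]
    congr 1
    push_cast
    ring
  rw [mul_pow, h1]
  have h2 : Real.exp (b - a) * Real.exp a = Real.exp b := by
    rw [← Real.exp_add]; congr 1; ring
  calc Real.exp (b - a) * u ^ 2 * Real.exp a = (Real.exp (b - a) * Real.exp a) * u ^ 2 := by ring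
    _ = Real.exp b * u ^ 2 := by rw [h2]

theorem WW_bdd : ∀ (n : ℕ) (b : ℝ) (x : QX n) (u : Fin n → ℝ) (t : ℝ),
    (∀ v : Fin n → ℝ, Real.exp b * (∑ i, u i * v i) ^ 2 ≤ t * qf n x v) →
      ∀ i, (WW n b x u i) ^ 2 ≤ t
  | 0, _, _, _, _, _, i => i.elim0
  | n + 1, b, x, u, t, h, i => by
    refine Fin.cases ?_ (fun j => ?_) i
    · have h1 := h (Fin.cons 1 0)
      rw [qf_cons, qf_zero, Fin.sum_univ_succ] at h1
      simp only [Fin.cons_zero, Fin.cons_succ, Pi.zero_apply, mul_zero, Finset.sum_const_zero,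
        add_zero, one_pow, mul_one] at h1
      show (Real.exp ((b - x.1.1) / 2) * u 0) ^ 2 ≤ t
      have h2 := exp_half_sq x.1.1 b (u 0)
      have h3 := Real.exp_pos x.1.1
      have h4 : (Real.exp ((b - x.1.1) / 2) * u 0) ^ 2 * Real.exp x.1.1 ≤ t * Real.exp x.1.1 := by
        rw [h2]; exact h1
      exact le_of_mul_le_mul_right h4 h3
    · show (WW n b x.2 (fun i => u (Fin.succ i) - u 0 * x.1.2 i) j) ^ 2 ≤ t
      apply WW_bdd
      intro v
      have h1 := h (Fin.cons (-∑ i, x.1.2 i * v i) v)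
      rw [qf_cons, Fin.sum_univ_succ] at h1
      simp only [Fin.cons_zero, Fin.cons_succ] at h1
      have e1 : (-∑ i, x.1.2 i * v i) + ∑ i, x.1.2 i * v i = 0 := by ring
      have e2 : u 0 * (-∑ i, x.1.2 i * v i) + ∑ i, u (Fin.succ i) * v i =
          ∑ i, (u (Fin.succ i) - u 0 * x.1.2 i) * v i := by
        simp only [sub_mul, Finset.sum_sub_distrib, mul_assoc, ← Finset.mul_sum]
        ring
      rw [e1, e2] at h1
      simpa using h1

theorem WW_bdd' : ∀ (n : ℕ) (b : ℝ) (x : QX n) (u : Fin n → ℝ) (t : ℝ),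
    0 ≤ t → (∀ i, (WW n b x u i) ^ 2 ≤ t) →
      ∀ v : Fin n → ℝ, Real.exp b * (∑ i, u i * v i) ^ 2 ≤ 2 ^ n * t * qf n x v
  | 0, b, x, u, t, _, _, v => by
    show Real.exp b * (∑ i, u i * v i) ^ 2 ≤ 2 ^ 0 * t * 0
    simp
  | n + 1, b, x, u, t, ht, h, v => by
    have ih := WW_bdd' n b x.2 (fun i => u (Fin.succ i) - u 0 * x.1.2 i) t ht
      (fun i => h (Fin.succ i)) (fun i => v (Fin.succ i))
    have h0 : (Real.exp ((b - x.1.1) / 2) * u 0) ^ 2 ≤ t := h 0
    have h2 := exp_half_sq x.1.1 b (u 0)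
    have h3 := Real.exp_pos x.1.1
    have h4 : Real.exp b * u 0 ^ 2 ≤ t * Real.exp x.1.1 := by
      rw [← h2]; exact mul_le_mul_of_nonneg_right h0 h3.le
    set s : ℝ := v 0 + ∑ i, x.1.2 i * v (Fin.succ i) with hs
    set d : ℝ := ∑ i, (u (Fin.succ i) - u 0 * x.1.2 i) * v (Fin.succ i) with hd
    have e1 : ∑ i, u i * v i = u 0 * s + d := by
      rw [Fin.sum_univ_succ, hs, hd]
      simp only [sub_mul, Finset.sum_sub_distrib, mul_assoc, ← Finset.mul_sum]
      ring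
    have e2 : qf (n + 1) x v = Real.exp x.1.1 * s ^ 2 + qf n x.2 (fun i => v (Fin.succ i)) := rfl
    rw [e1, e2]
    have hq := qf_nonneg n x.2 (fun i => v (Fin.succ i))
    have hb := Real.exp_pos b
    have h5 : (u 0 * s + d) ^ 2 ≤ 2 * (u 0 ^ 2 * s ^ 2) + 2 * d ^ 2 := by
      nlinarith [sq_nonneg (u 0 * s - d)]
    have h6 : Real.exp b * (u 0 * s + d) ^ 2 ≤
        2 * (Real.exp b * u 0 ^ 2) * s ^ 2 + 2 * (Real.exp b * d ^ 2) := by
      calc Real.exp b * (u 0 * s + d) ^ 2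
          ≤ Real.exp b * (2 * (u 0 ^ 2 * s ^ 2) + 2 * d ^ 2) :=
            mul_le_mul_of_nonneg_left h5 hb.le
        _ = _ := by ring
    have h7 : 2 * (Real.exp b * u 0 ^ 2) * s ^ 2 ≤ 2 * (t * Real.exp x.1.1) * s ^ 2 := by
      have := mul_le_mul_of_nonneg_right h4 (sq_nonneg s)
      linarith
    have h8 : (2 : ℝ) * (t * Real.exp x.1.1) * s ^ 2 ≤
        2 ^ (n + 1) * t * (Real.exp x.1.1 * s ^ 2) := by
      have h9 : (1 : ℝ) ≤ 2 ^ n := one_le_pow₀ (by norm_num)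
      have h10 : 0 ≤ t * Real.exp x.1.1 * s ^ 2 := by positivity
      have h11 := mul_le_mul_of_nonneg_right h9 h10
      calc (2 : ℝ) * (t * Real.exp x.1.1) * s ^ 2 = 2 * (1 * (t * Real.exp x.1.1 * s ^ 2)) := by
            ring
        _ ≤ 2 * (2 ^ n * (t * Real.exp x.1.1 * s ^ 2)) := by linarith
        _ = _ := by ring
    calc Real.exp b * (u 0 * s + d) ^ 2
        ≤ 2 * (Real.exp b * u 0 ^ 2) * s ^ 2 + 2 * (Real.exp b * d ^ 2) := h6
      _ ≤ 2 ^ (n + 1) * t * (Real.exp x.1.1 * s ^ 2) +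
          2 * (2 ^ n * t * qf n x.2 (fun i => v (Fin.succ i))) := by linarith
      _ = _ := by ring

/-! ## The colouring of the space of forms -/

theorem acol_step (n : ℕ) {C : Type} (hC : ACol (NQ n) C) :
    ACol (NQ (n + 1)) (((Fin 1 → Bool) × C) × (Fin n → Bool)) := by
  have hY := acol_prod (acol_real 1) hC
    (fun r r' x y hr h i => (h i).trans (by exact_mod_cast hr)) (NQ_mono n)
  refine acol_fib hY (acol_real n) ?_ (fun x : QX (n + 1) => ((fun _ => x.1.1 : Fin 1 → ℝ), x.2))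
    (fun y x => WW n (y.1 0) y.2 x.1.2) ?_ ?_ ?_
  · rintro r x y ⟨h1, h2⟩
    refine ⟨fun i => ?_, NQ_symm n r _ _ h2⟩
    rw [abs_sub_comm]
    exact h1 i
  · intro r
    refine ⟨r, fun x x' h => ⟨fun _ => ?_, fun v => half_snd n r x x' h.1 v,
      fun v => half_snd n r x' x h.2 v⟩⟩
    have h1 := half_fst n r x x' h.1
    have h2 := half_fst n r x' x h.2
    show |x.1.1 - x'.1.1| ≤ r
    rw [abs_le]
    constructor <;> linarith
  · intro R r
    refine ⟨⌈Real.exp (r + 2 * R)⌉₊, ?_⟩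
    rintro y x x' ⟨hy1, hy2⟩ ⟨hy3, hy4⟩ hN i
    have hE : 1 ≤ Real.exp ((r : ℝ) + 2 * R) := Real.one_le_exp (by positivity)
    have h1 : |y.1 0 - x.1.1| ≤ R := hy1 0
    have h3 : |y.1 0 - x'.1.1| ≤ R := hy3 0
    have key : ∀ v : Fin n → ℝ, Real.exp (y.1 0) *
        (∑ i, (fun j => x.1.2 j - x'.1.2 j) i * v i) ^ 2 ≤
        Real.exp (r + 2 * R) * qf n y.2 v := by
      intro v
      have h5 := half_mid n r x' x hN.2 v
      have h6 := qf_nonneg n x.2 v
      have h7 : Real.exp x.1.1 * (∑ i, (x.1.2 i - x'.1.2 i) * v i) ^ 2 ≤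
          Real.exp r * (Real.exp R * qf n y.2 v) := by
        have h8 := hy4.1 v
        have h9 := mul_le_mul_of_nonneg_left h8 (Real.exp_pos (r : ℝ)).le
        linarith
      have h10 : Real.exp (y.1 0) ≤ Real.exp R * Real.exp x.1.1 := by
        rw [← Real.exp_add, Real.exp_le_exp]
        have := (abs_le.1 h1).2
        linarith
      have h11 := mul_le_mul_of_nonneg_right h10
        (sq_nonneg (∑ i, (x.1.2 i - x'.1.2 i) * v i))
      have h12 := mul_le_mul_of_nonneg_left h7 (Real.exp_pos (R : ℝ)).le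
      have h13 : Real.exp ((r : ℝ) + 2 * R) = Real.exp R * (Real.exp r * Real.exp R) := by
        rw [← Real.exp_add, ← Real.exp_add]; congr 1; ring
      rw [h13]
      calc Real.exp (y.1 0) * (∑ i, (x.1.2 i - x'.1.2 i) * v i) ^ 2
          ≤ Real.exp R * Real.exp x.1.1 * (∑ i, (x.1.2 i - x'.1.2 i) * v i) ^ 2 := h11
        _ = Real.exp R * (Real.exp x.1.1 * (∑ i, (x.1.2 i - x'.1.2 i) * v i) ^ 2) := by ring
        _ ≤ Real.exp R * (Real.exp r * (Real.exp R * qf n y.2 v)) := h12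
        _ = _ := by ring
    have h14 := WW_bdd n (y.1 0) y.2 (fun j => x.1.2 j - x'.1.2 j) _ key i
    rw [WW_sub] at h14
    have h15 : |WW n (y.1 0) y.2 x.1.2 i - WW n (y.1 0) y.2 x'.1.2 i| ≤
        Real.exp (r + 2 * R) := by
      rw [abs_le]
      constructor <;> nlinarith
    exact h15.trans (Nat.le_ceil _)
  · intro R t
    obtain ⟨S, hS⟩ := exists_nat_ge (Real.log (Real.exp (2 * R) * (2 + 2 * (2 ^ n * (t : ℝ) ^ 2))))
    refine ⟨S, ?_⟩
    have main : ∀ (y : (Fin 1 → ℝ) × QX n) (x x' : QX (n + 1)),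
        |y.1 0 - x.1.1| ≤ R → NQ n R y.2 x.2 → |y.1 0 - x'.1.1| ≤ R → NQ n R y.2 x'.2 →
        NZ n t (WW n (y.1 0) y.2 x.1.2) (WW n (y.1 0) y.2 x'.1.2) →
        ∀ v, qf (n + 1) x' v ≤ Real.exp S * qf (n + 1) x v := by
      intro y x x' h1 hy2 h3 hy4 hZ v
      have hM : Real.exp (2 * R) * (2 + 2 * (2 ^ n * (t : ℝ) ^ 2)) ≤ Real.exp S := by
        have hpos : 0 < Real.exp (2 * R) * (2 + 2 * (2 ^ n * (t : ℝ) ^ 2)) := by positivity
        rw [← Real.exp_log hpos]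
        exact Real.exp_le_exp.2 hS
      refine le_trans ?_ (mul_le_mul_of_nonneg_right hM (qf_nonneg _ _ _))
      set w : Fin n → ℝ := fun i => v (Fin.succ i) with hw
      set s : ℝ := v 0 + ∑ i, x.1.2 i * w i with hs
      set d : ℝ := ∑ i, (x'.1.2 i - x.1.2 i) * w i with hd
      have e1 : qf (n + 1) x' v = Real.exp x'.1.1 * (s + d) ^ 2 + qf n x'.2 w := by
        show Real.exp x'.1.1 * (v 0 + ∑ i, x'.1.2 i * w i) ^ 2 + qf n x'.2 w = _
        have : v 0 + ∑ i, x'.1.2 i * w i = s + d := by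
          rw [hs, hd]
          simp only [sub_mul, Finset.sum_sub_distrib]
          ring
        rw [this]
      have e2 : qf (n + 1) x v = Real.exp x.1.1 * s ^ 2 + qf n x.2 w := rfl
      have h5 : ∀ i, (WW n (y.1 0) y.2 (fun j => x'.1.2 j - x.1.2 j) i) ^ 2 ≤ (t : ℝ) ^ 2 := by
        intro i
        rw [WW_sub]
        have h6 := hZ i
        rw [abs_sub_comm] at h6
        exact sq_le_sq' (abs_le.1 h6).1 (abs_le.1 h6).2
      have h7 := WW_bdd' n (y.1 0) y.2 (fun j => x'.1.2 j - x.1.2 j) _ (sq_nonneg _) h5 w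
      have h7' : Real.exp (y.1 0) * d ^ 2 ≤ 2 ^ n * (t : ℝ) ^ 2 * qf n y.2 w := h7
      have hER := Real.exp_pos (R : ℝ)
      have hq := qf_nonneg n x.2 w
      have h8 : Real.exp x'.1.1 ≤ Real.exp R * Real.exp (y.1 0) := by
        rw [← Real.exp_add, Real.exp_le_exp]
        have := (abs_le.1 h3).1
        linarith
      have h9 : Real.exp (y.1 0) ≤ Real.exp R * Real.exp x.1.1 := by
        rw [← Real.exp_add, Real.exp_le_exp]
        have := (abs_le.1 h1).2
        linarith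
      have h10 : qf n y.2 w ≤ Real.exp R * qf n x.2 w := hy2.2 w
      have h11 : qf n x'.2 w ≤ Real.exp R * qf n y.2 w := hy4.1 w
      have h12 : Real.exp (2 * (R : ℝ)) = Real.exp R * Real.exp R := by
        rw [← Real.exp_add]; congr 1; ring
      set E := Real.exp (R : ℝ) with hE
      have hT : 0 ≤ 2 ^ n * (t : ℝ) ^ 2 := by positivity
      -- first term
      have a1 : Real.exp x'.1.1 * (s + d) ^ 2 ≤
          2 * (E * E * Real.exp x.1.1) * s ^ 2 + 2 * (E * (Real.exp (y.1 0) * d ^ 2)) := by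
        have b1 : (s + d) ^ 2 ≤ 2 * s ^ 2 + 2 * d ^ 2 := by nlinarith [sq_nonneg (s - d)]
        have b2 : Real.exp x'.1.1 * (s + d) ^ 2 ≤
            (E * Real.exp (y.1 0)) * (2 * s ^ 2 + 2 * d ^ 2) := by
          apply mul_le_mul h8 b1 (sq_nonneg _)
          positivity
        have b3 : E * Real.exp (y.1 0) * s ^ 2 ≤ E * (E * Real.exp x.1.1) * s ^ 2 := by
          apply mul_le_mul_of_nonneg_right _ (sq_nonneg s)
          exact mul_le_mul_of_nonneg_left h9 hER.le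
        nlinarith
      have a2 : E * (Real.exp (y.1 0) * d ^ 2) ≤ E * (2 ^ n * (t : ℝ) ^ 2 * (E * qf n x.2 w)) := by
        apply mul_le_mul_of_nonneg_left _ hER.le
        exact h7'.trans (mul_le_mul_of_nonneg_left h10 hT)
      have a3 : qf n x'.2 w ≤ E * (E * qf n x.2 w) :=
        h11.trans (mul_le_mul_of_nonneg_left h10 hER.le)
      rw [e1, e2, h12]
      have hEE : 0 ≤ E * E * qf n x.2 w := by positivity
      have hEs : 0 ≤ E * E * (Real.exp x.1.1 * s ^ 2) * (2 ^ n * (t : ℝ) ^ 2) := by positivity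
      nlinarith
    rintro y x x' ⟨hy1, hy2⟩ ⟨hy3, hy4⟩ hZ
    refine ⟨main y x x' (hy1 0) hy2 (hy3 0) hy4 hZ, main y x' x (hy3 0) hy4 (hy1 0) hy2 ?_⟩
    intro i
    rw [abs_sub_comm]
    exact hZ i

theorem acol_forms : ∀ n : ℕ, ∃ C : Type, Finite C ∧ Nonempty C ∧ ACol (NQ n) C
  | 0 => ⟨Unit, inferInstance, inferInstance, fun _ => ⟨0, fun _ => (), fun x y _ =>
      ⟨fun v => by show (0 : ℝ) ≤ Real.exp (0 : ℕ) * 0; simp,
        fun v => by show (0 : ℝ) ≤ Real.exp (0 : ℕ) * 0; simp⟩⟩⟩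
  | n + 1 => by
    obtain ⟨C, h1, h2, h3⟩ := acol_forms n
    exact ⟨_, inferInstance, inferInstance, acol_step n h3⟩

/-! ## Triangular coordinates exist -/

theorem exists_qx : ∀ (n : ℕ) (S : Fin n → Fin n → ℝ), (∀ i j, S i j = S j i) →
    (∀ v : Fin n → ℝ, v ≠ 0 → 0 < ∑ i, ∑ j, S i j * v i * v j) →
      ∃ x : QX n, ∀ v, ∑ i, ∑ j, S i j * v i * v j = qf n x v
  | 0, _, _, _ => ⟨(), fun v => by simp [qf]⟩
  | n + 1, S, hS, hpos => by
    have hα : 0 < S 0 0 := by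
      have h1 := hpos (Fin.cons 1 0) (fun h => by
        have := congrFun h 0
        simp at this)
      simpa [Fin.sum_univ_succ] using h1
    set α := S 0 0 with hαd
    let u : Fin n → ℝ := fun j => S 0 (Fin.succ j) / α
    let S' : Fin n → Fin n → ℝ := fun i j =>
      S (Fin.succ i) (Fin.succ j) - S 0 (Fin.succ i) * S 0 (Fin.succ j) / α
    have hid : ∀ v : Fin (n + 1) → ℝ, ∑ i, ∑ j, S i j * v i * v j =
        α * (v 0 + ∑ i, u i * v (Fin.succ i)) ^ 2 +
          ∑ i, ∑ j, S' i j * v (Fin.succ i) * v (Fin.succ j) := by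
      intro v
      have e1 : ∑ i, u i * v (Fin.succ i) = (∑ i, S 0 (Fin.succ i) * v (Fin.succ i)) / α := by
        rw [Finset.sum_div]
        apply Finset.sum_congr rfl
        intro i _
        show S 0 (Fin.succ i) / α * v (Fin.succ i) = _
        ring
      have e2 : ∑ i, ∑ j, S' i j * v (Fin.succ i) * v (Fin.succ j) =
          ∑ i, ∑ j, S (Fin.succ i) (Fin.succ j) * v (Fin.succ i) * v (Fin.succ j) -
            (∑ i, S 0 (Fin.succ i) * v (Fin.succ i)) ^ 2 / α := by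
        rw [sq, Finset.sum_mul_sum, Finset.sum_div, ← Finset.sum_sub_distrib]
        apply Finset.sum_congr rfl
        intro i _
        rw [Finset.sum_div, ← Finset.sum_sub_distrib]
        apply Finset.sum_congr rfl
        intro j _
        show (S (Fin.succ i) (Fin.succ j) - S 0 (Fin.succ i) * S 0 (Fin.succ j) / α) *
          v (Fin.succ i) * v (Fin.succ j) = _
        ring
      have e3 : ∑ i, ∑ j, S i j * v i * v j = α * v 0 ^ 2 +
          2 * v 0 * (∑ i, S 0 (Fin.succ i) * v (Fin.succ i)) +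
          ∑ i, ∑ j, S (Fin.succ i) (Fin.succ j) * v (Fin.succ i) * v (Fin.succ j) := by
        rw [Fin.sum_univ_succ, Fin.sum_univ_succ]
        have e4 : ∑ i : Fin n, ∑ j, S (Fin.succ i) j * v (Fin.succ i) * v j =
            ∑ i : Fin n, (S 0 (Fin.succ i) * v (Fin.succ i) * v 0 +
              ∑ j : Fin n, S (Fin.succ i) (Fin.succ j) * v (Fin.succ i) * v (Fin.succ j)) := by
          apply Finset.sum_congr rfl
          intro i _
          rw [Fin.sum_univ_succ, hS (Fin.succ i) 0]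
        rw [e4, Finset.sum_add_distrib, ← Finset.sum_mul]
        have e5 : ∑ i : Fin n, S 0 (Fin.succ i) * v 0 * v (Fin.succ i) =
            v 0 * ∑ i : Fin n, S 0 (Fin.succ i) * v (Fin.succ i) := by
          rw [Finset.mul_sum]
          apply Finset.sum_congr rfl
          intro i _
          ring
        rw [e5]
        ring
      rw [e1, e2, e3]
      field_simp
      ring
    have hS' : ∀ i j, S' i j = S' j i := by
      intro i j
      show S (Fin.succ i) (Fin.succ j) - S 0 (Fin.succ i) * S 0 (Fin.succ j) / α =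
        S (Fin.succ j) (Fin.succ i) - S 0 (Fin.succ j) * S 0 (Fin.succ i) / α
      rw [hS (Fin.succ i) (Fin.succ j)]
      ring
    have hpos' : ∀ v : Fin n → ℝ, v ≠ 0 → 0 < ∑ i, ∑ j, S' i j * v i * v j := by
      intro v hv
      have h1 := hpos (Fin.cons (-∑ i, u i * v i) v) (fun h => hv (by
        funext i
        have := congrFun h (Fin.succ i)
        simpa using this))
      rw [hid] at h1
      simpa using h1
    obtain ⟨x', hx'⟩ := exists_qx n S' hS' hpos'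
    refine ⟨((Real.log α, u), x'), ?_⟩
    intro v
    rw [hid]
    show _ = Real.exp (Real.log α) * (v 0 + ∑ i, u i * v (Fin.succ i)) ^ 2 +
      qf n x' (fun i => v (Fin.succ i))
    rw [Real.exp_log hα, ← hx']

/-! ## Linear groups -/

open Matrix

/-- The squared norm of a row vector. -/
noncomputable def nsq {n : ℕ} (y : Fin n → ℝ) : ℝ := ∑ j, y j ^ 2

theorem nsq_nonneg {n : ℕ} (y : Fin n → ℝ) : 0 ≤ nsq y :=
  Finset.sum_nonneg fun _ _ => sq_nonneg _

theorem exists_coord {n : ℕ} (g : GL (Fin n) ℝ) :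
    ∃ x : QX n, ∀ v, qf n x v = nsq (v ᵥ* (g : Matrix (Fin n) (Fin n) ℝ)) := by
  set M : Matrix (Fin n) (Fin n) ℝ := (g : Matrix (Fin n) (Fin n) ℝ) with hM
  let S : Fin n → Fin n → ℝ := fun i j => ∑ k, M i k * M j k
  have hid : ∀ v : Fin n → ℝ, ∑ i, ∑ j, S i j * v i * v j = nsq (v ᵥ* M) := by
    intro v
    have e1 : nsq (v ᵥ* M) = ∑ k, (∑ i, v i * M i k) * (∑ j, v j * M j k) := by
      show ∑ k, (v ᵥ* M) k ^ 2 = _
      apply Finset.sum_congr rfl
      intro k _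
      rw [sq]
      rfl
    rw [e1]
    have e2 : ∀ k, (∑ i, v i * M i k) * (∑ j, v j * M j k) =
        ∑ i, ∑ j, (v i * M i k) * (v j * M j k) := fun k => Finset.sum_mul_sum _ _ _ _
    have e3 : ∑ k, (∑ i, v i * M i k) * (∑ j, v j * M j k) =
        ∑ i, ∑ j, ∑ k, (v i * M i k) * (v j * M j k) := by
      simp only [e2]
      rw [Finset.sum_comm]
      apply Finset.sum_congr rfl
      intro i _
      rw [Finset.sum_comm]
    rw [e3]
    apply Finset.sum_congr rfl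
    intro i _
    apply Finset.sum_congr rfl
    intro j _
    show (∑ k, M i k * M j k) * v i * v j = _
    rw [Finset.sum_mul, Finset.sum_mul]
    apply Finset.sum_congr rfl
    intro k _
    ring
  obtain ⟨x, hx⟩ := exists_qx n S (fun i j => by
    show ∑ k, M i k * M j k = ∑ k, M j k * M i k
    apply Finset.sum_congr rfl
    intro k _
    ring) (fun v hv => by
    rw [hid]
    rcases (nsq_nonneg (v ᵥ* M)).lt_or_eq with h | h
    · exact h
    · exfalso
      apply hv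
      have h1 : v ᵥ* M = 0 := by
        funext k
        have h2 : ∀ k ∈ Finset.univ, (v ᵥ* M) k ^ 2 = 0 :=
          (Finset.sum_eq_zero_iff_of_nonneg (fun _ _ => sq_nonneg _)).1 h.symm
        have h3 := h2 k (Finset.mem_univ k)
        exact pow_eq_zero_iff (two_ne_zero) |>.1 h3
      have h4 : v ᵥ* M ᵥ* ((g⁻¹ : GL (Fin n) ℝ) : Matrix (Fin n) (Fin n) ℝ) = v := by
        rw [Matrix.vecMul_vecMul, hM, Units.mul_inv, Matrix.vecMul_one]
      rw [h1, Matrix.zero_vecMul] at h4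
      exact h4.symm)
  exact ⟨x, fun v => by rw [← hx, hid]⟩

theorem nsq_vecMul_le {n : ℕ} (y : Fin n → ℝ) (b : Matrix (Fin n) (Fin n) ℝ) (B : ℝ)
    (hb : ∀ i j, |b i j| ≤ B) : nsq (y ᵥ* b) ≤ (n * (n * B ^ 2)) * nsq y := by
  have h1 : ∀ j, (y ᵥ* b) j ^ 2 ≤ nsq y * (n * B ^ 2) := by
    intro j
    have h2 : (y ᵥ* b) j = ∑ i, y i * b i j := rfl
    rw [h2]
    refine (Finset.sum_mul_sq_le_sq_mul_sq Finset.univ y (fun i => b i j)).trans ?_
    apply mul_le_mul_of_nonneg_left _ (nsq_nonneg y)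
    calc ∑ i, b i j ^ 2 ≤ ∑ _i : Fin n, B ^ 2 := by
          apply Finset.sum_le_sum
          intro i _
          have := hb i j
          exact sq_le_sq' (abs_le.1 this).1 (abs_le.1 this).2
      _ = n * B ^ 2 := by simp
  calc nsq (y ᵥ* b) = ∑ j, (y ᵥ* b) j ^ 2 := rfl
    _ ≤ ∑ _j : Fin n, nsq y * (n * B ^ 2) := Finset.sum_le_sum fun j _ => h1 j
    _ = _ := by simp; ring

/-- A group with a proper homomorphism to `GL_n(ℝ)` has finite asymptotic dimension. -/
theorem asdim_linear {G : Type} [Group G] {n : ℕ} (ρ : G →* GL (Fin n) ℝ)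
    (hρ : ∀ B : ℝ, {g : G | ∀ i j, |(ρ g : Matrix (Fin n) (Fin n) ℝ) i j| ≤ B ∧
      |(ρ g⁻¹ : Matrix (Fin n) (Fin n) ℝ) i j| ≤ B}.Finite) : ∃ D : ℕ, VNP.AsdimLE G D := by
  classical
  obtain ⟨C, hC1, hC2, hC⟩ := acol_forms n
  have hFt : Fintype C := Fintype.ofFinite C
  have hcard : 0 < Fintype.card C := Fintype.card_pos
  obtain ⟨D, hD⟩ : ∃ D, Fintype.card C = D + 1 := ⟨Fintype.card C - 1, by omega⟩
  have e : C ≃ Fin (D + 1) := Fintype.equivFinOfCardEq hD
  choose X hX using (fun g : GL (Fin n) ℝ => exists_coord g)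
  refine ⟨D, ?_⟩
  intro F hF
  -- bound for the steps
  obtain ⟨B, hB⟩ : ∃ B : ℝ, ∀ f ∈ F, ∀ i j, |(ρ f : Matrix (Fin n) (Fin n) ℝ) i j| ≤ B ∧
      |(ρ f⁻¹ : Matrix (Fin n) (Fin n) ℝ) i j| ≤ B := by
    have h1 : ∀ i j, ∃ B : ℝ, ∀ f ∈ F, |(ρ f : Matrix (Fin n) (Fin n) ℝ) i j| ≤ B ∧
        |(ρ f⁻¹ : Matrix (Fin n) (Fin n) ℝ) i j| ≤ B := by
      intro i j
      obtain ⟨B1, hB1⟩ := (hF.image (fun f => |(ρ f : Matrix (Fin n) (Fin n) ℝ) i j|)).bddAbove
      obtain ⟨B2, hB2⟩ := (hF.image (fun f => |(ρ f⁻¹ : Matrix (Fin n) (Fin n) ℝ) i j|)).bddAbove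
      exact ⟨max B1 B2, fun f hf => ⟨(hB1 ⟨f, hf, rfl⟩).trans (le_max_left _ _),
        (hB2 ⟨f, hf, rfl⟩).trans (le_max_right _ _)⟩⟩
    choose b hb using h1
    refine ⟨∑ i, ∑ j, |b i j|, fun f hf i j => ?_⟩
    have h2 : b i j ≤ ∑ i, ∑ j, |b i j| := by
      calc b i j ≤ |b i j| := le_abs_self _
        _ ≤ ∑ j, |b i j| := Finset.single_le_sum (f := fun j => |b i j|)
            (fun _ _ => abs_nonneg _) (Finset.mem_univ j)
        _ ≤ _ := Finset.single_le_sum (f := fun i => ∑ j, |b i j|)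
            (fun _ _ => Finset.sum_nonneg fun _ _ => abs_nonneg _) (Finset.mem_univ i)
    exact ⟨(hb i j f hf).1.trans h2, (hb i j f hf).2.trans h2⟩
  obtain ⟨r, hr⟩ := exists_nat_ge (Real.log (n * (n * B ^ 2) + 1))
  have hrE : (n * (n * B ^ 2)) ≤ Real.exp r := by
    have h1 : (0 : ℝ) < n * (n * B ^ 2) + 1 := by positivity
    have h2 : (n * (n * B ^ 2) + 1 : ℝ) ≤ Real.exp r := by
      rw [← Real.exp_log h1]; exact Real.exp_le_exp.2 hr
    linarith
  obtain ⟨R, c, hc⟩ := hC r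
  refine ⟨{g : G | ∀ i j, |(ρ g : Matrix (Fin n) (Fin n) ℝ) i j| ≤ Real.exp R ∧
      |(ρ g⁻¹ : Matrix (Fin n) (Fin n) ℝ) i j| ≤ Real.exp R}, hρ _,
      fun g => e (c (X (ρ g))), ?_⟩
  intro x y hxy
  -- one comparison
  have half1 : ∀ u v : G, (∀ i j, |(ρ (u⁻¹ * v) : Matrix (Fin n) (Fin n) ℝ) i j| ≤ B) →
      ∀ w, qf n (X (ρ v)) w ≤ Real.exp r * qf n (X (ρ u)) w := by
    intro u v huv w
    rw [hX, hX]
    have e1 : w ᵥ* (ρ v : Matrix (Fin n) (Fin n) ℝ) =
        (w ᵥ* (ρ u : Matrix (Fin n) (Fin n) ℝ)) ᵥ*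
          (ρ (u⁻¹ * v) : Matrix (Fin n) (Fin n) ℝ) := by
      rw [Matrix.vecMul_vecMul, ← Units.val_mul, ← map_mul, mul_inv_cancel_left]
    rw [e1]
    exact (nsq_vecMul_le _ _ B huv).trans
      (mul_le_mul_of_nonneg_right hrE (nsq_nonneg _))
  have half2 : ∀ u v : G, (∀ w, qf n (X (ρ v)) w ≤ Real.exp R * qf n (X (ρ u)) w) →
      ∀ i j, |(ρ (u⁻¹ * v) : Matrix (Fin n) (Fin n) ℝ) i j| ≤ Real.exp R := by
    intro u v huv i j
    have h1 := huv ((Pi.single i 1) ᵥ* (ρ u⁻¹ : Matrix (Fin n) (Fin n) ℝ))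
    rw [hX, hX, Matrix.vecMul_vecMul, Matrix.vecMul_vecMul, ← Units.val_mul, ← Units.val_mul,
      ← map_mul, ← map_mul, inv_mul_cancel, map_one, Units.val_one, Matrix.vecMul_one] at h1
    have h2 : nsq (Pi.single i 1 : Fin n → ℝ) = 1 := by
      unfold nsq
      rw [Finset.sum_eq_single i]
      · simp
      · intro k _ hk
        simp [hk]
      · intro h; exact absurd (Finset.mem_univ i) h
    rw [h2, mul_one] at h1
    have h3 : ((ρ (u⁻¹ * v) : Matrix (Fin n) (Fin n) ℝ) i j) ^ 2 ≤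
        nsq ((Pi.single i 1 : Fin n → ℝ) ᵥ* (ρ (u⁻¹ * v) : Matrix (Fin n) (Fin n) ℝ)) := by
      have h4 : ((Pi.single i 1 : Fin n → ℝ) ᵥ*
          (ρ (u⁻¹ * v) : Matrix (Fin n) (Fin n) ℝ)) j =
          (ρ (u⁻¹ * v) : Matrix (Fin n) (Fin n) ℝ) i j := by
        rw [Matrix.single_one_vecMul]
        rfl
      rw [← h4]
      exact Finset.single_le_sum
        (f := fun j => ((Pi.single i 1 : Fin n → ℝ) ᵥ*
          (ρ (u⁻¹ * v) : Matrix (Fin n) (Fin n) ℝ)) j ^ 2)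
        (fun _ _ => sq_nonneg _) (Finset.mem_univ j)
    have h5 : 1 ≤ Real.exp (R : ℝ) := Real.one_le_exp (by positivity)
    have h6 := h3.trans h1
    rw [abs_le]
    constructor <;> nlinarith
  have hchain : Relation.ReflTransGen (fun u v => c u = c v ∧ NQ n r u v) (X (ρ x)) (X (ρ y)) := by
    refine rtg_lift (fun g => X (ρ g)) ?_ hxy
    rintro u v ⟨h1, h2⟩
    refine ⟨e.injective h1, half1 u v (fun i j => (hB _ h2 i j).1), half1 v u (fun i j => ?_)⟩
    have h3 := (hB _ h2 i j).2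
    have e2 : (u⁻¹ * v)⁻¹ = v⁻¹ * u := by group
    rwa [e2] at h3
  have hN := hc _ _ hchain
  intro i j
  refine ⟨half2 x y hN.1 i j, ?_⟩
  have h3 := half2 y x hN.2 i j
  have e2 : (x⁻¹ * y)⁻¹ = y⁻¹ * x := by group
  rw [e2]
  exact h3

end Pool.Agent.VS
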