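import Pool.Agent.VS.Final
import Pool.Agent.VS.Cent
/-!
# Conjugate elements are joined by short chains of conjugations

In a group of finite asymptotic dimension with a finite complete ShortLex system, two conjugate
elements of length at most `n` are joined by a chain of conjugations by elements of bounded
length through elements of length at most `n + C`. So the conjugacy problem is solvable.
-/
namespace Pool.Agent.VS
open Pool.Agent.SLX Pool.Agent.VN

variable {A G : Type} [Group G] {π : A → G}

theorem conj_chain (F : NF A G π) (hF : ∃ R' C, Fil F 1 0 R' C) :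
    ∃ R C : ℕ, ∀ (n : ℕ) (u x : G), F.l u ≤ n → F.l (x⁻¹ * u * x) ≤ n →
      Relation.ReflTransGen (fun a b : G => F.l b ≤ n + C ∧ ∃ s, F.l s ≤ R ∧ b = s⁻¹ * a * s)
        u (x⁻¹ * u * x) := by
  obtain ⟨R', C, hFil⟩ := hF
  refine ⟨R', C + 1, ?_⟩
  intro n u x hu hx
  have hT : Tau F u (n + 1) := by
    have := cent_tau F u
    intro B
    obtain ⟨k, hk⟩ := this B
    exact ⟨k, hk.trans (Nat.mul_le_mul_left _ (by omega))⟩
  have h1 : InY F u (n + 1) 1 := by
    unfold InY
    rw [inv_one, one_mul, mul_one]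
    omega
  have h2 : InY F u (n + 1) x := by
    unfold InY
    omega
  have h3 := fil_conn F hFil u (n + 1) hT 1 x h1 h2
  have key : ∀ y, Relation.ReflTransGen (CStep F (InY F u (n + 1 + C)) R') 1 y →
      Relation.ReflTransGen (fun a b : G => F.l b ≤ n + (C + 1) ∧
        ∃ s, F.l s ≤ R' ∧ b = s⁻¹ * a * s) u (y⁻¹ * u * y) := by
    intro y hy
    induction hy with
    | refl =>
      rw [inv_one, one_mul, mul_one]
    | @tail a b _ hab ih =>
      refine ih.tail ⟨?_, a⁻¹ * b, ?_, by group⟩
      · have := hab.2.1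
        unfold InY at this
        omega
      · exact hab.2.2.1
  exact key x h3

/-- In a group of finite asymptotic dimension with a finite complete ShortLex system, conjugate
elements are joined by short chains of conjugations. -/
theorem conj_chain_main (G : Type) [Group G] {D : ℕ} (hD : VNP.AsdimLE G D) (h : HasSystem G) :
    ∃ S : Set G, S.Finite ∧ Submonoid.closure S = ⊤ ∧ ∃ R C : ℕ, ∀ (n : ℕ) (u v : G),
      IsShort S n u → IsShort S n v → IsConj u v →
      Relation.ReflTransGen (fun a b : G => IsShort S (n + C) b ∧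
        ∃ s, IsShort S R s ∧ b = s⁻¹ * a * s) u v := by
  obtain ⟨A, hA, hlo, π, E, hE⟩ := h
  obtain ⟨F⟩ := exists_NF hE
  obtain ⟨R', C', hFil⟩ := fil_all F (asd_of_asdim F hD) 1 0
  obtain ⟨R, C, hRC⟩ := conj_chain F ⟨R', C', hFil⟩
  refine ⟨Set.range π, Set.finite_range π, closure_eq_top F, R, C, ?_⟩
  intro n u v hu hv huv
  obtain ⟨x, hx⟩ := isConj_iff.1 huv
  rw [short_iff F] at hu hv
  have h1 : x⁻¹⁻¹ * u * x⁻¹ = v := by
    rw [inv_inv]
    exact hx
  have h2 := hRC n u x⁻¹ hu (by rw [h1]; exact hv)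
  rw [h1] at h2
  clear h1 hx huv hv hu
  induction h2 with
  | refl => exact Relation.ReflTransGen.refl
  | @tail a b _ hab ih =>
    refine ih.tail ⟨(short_iff F _ _).2 hab.1, ?_⟩
    obtain ⟨s, hs, hs'⟩ := hab.2
    exact ⟨s, (short_iff F _ _).2 hs, hs'⟩

end Pool.Agent.VS
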