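import Pool.Agent.VS.Final
import Pool.Agent.VS.Cent
/-!
# Short conjugates are joined by chains of short conjugates
-/
namespace Pool.Agent.VS
open Pool.Agent.SLX Pool.Agent.VN

variable {A G : Type} [Group G] {π : A → G}

theorem tau_of_inY (F : NF A G π) {w x : G} {L : ℕ} (hx : InY F w L x) : Tau F w (L + 1) := by
  intro B
  refine ⟨F.l x + F.l x⁻¹ + B, ?_⟩
  set k := F.l x + F.l x⁻¹ + B with hk
  have h1 : w ^ (2 ^ k) = x * (x⁻¹ * w * x) ^ (2 ^ k) * x⁻¹ := by
    have h2 : (x⁻¹ * w * x) ^ (2 ^ k) = x⁻¹ * w ^ (2 ^ k) * x := by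
      have h3 := conj_pow (i := 2 ^ k) (a := x⁻¹) (b := w)
      rw [inv_inv] at h3
      exact h3
    rw [h2]; group
  have h4 : F.l (w ^ (2 ^ k)) ≤ F.l x + 2 ^ k * L + F.l x⁻¹ := by
    rw [h1]
    have h5 := F.l_mul (x * (x⁻¹ * w * x) ^ (2 ^ k)) x⁻¹
    have h6 := F.l_mul x ((x⁻¹ * w * x) ^ (2 ^ k))
    have h7 : F.l ((x⁻¹ * w * x) ^ (2 ^ k)) ≤ 2 ^ k * L :=
      (l_pow_le F _ _).trans (Nat.mul_le_mul_left _ hx)
    omega
  have h8 : k < 2 ^ k := Nat.lt_two_pow_self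
  have h9 : 2 ^ k * (L + 1) = 2 ^ k * L + 2 ^ k := by ring
  omega

/-- In a group of finite asymptotic dimension with a finite complete ShortLex system two short
conjugates of `w` are joined by a chain of short conjugates, each obtained from the one before by
conjugating with a bounded element. -/
theorem conj_path (G : Type) [Group G] {D : ℕ} (hD : VNP.AsdimLE G D) (h : HasSystem G) :
    ∃ S : Set G, S.Finite ∧ Submonoid.closure S = ⊤ ∧ ∃ C : ℕ, ∀ (w x y : G) (n : ℕ),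
      IsShort S n (x⁻¹ * w * x) → IsShort S n (y⁻¹ * w * y) →
      Relation.ReflTransGen (fun u v => IsShort S C (u⁻¹ * v) ∧
        IsShort S (n + C) (v⁻¹ * w * v)) x y := by
  obtain ⟨A, hA, hlo, π, E, hE⟩ := h
  obtain ⟨F⟩ := exists_NF hE
  obtain ⟨R, C, hF⟩ := fil_all F (asd_of_asdim F hD) 1 0
  refine ⟨Set.range π, Set.finite_range π, closure_eq_top F, max R (C + 1), ?_⟩
  intro w x y n hx hy
  rw [short_iff F] at hx hy
  have h1 := fil_conn F hF w (n + 1) (tau_of_inY F hx) x y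
    (show F.l (x⁻¹ * w * x) ≤ n + 1 by omega) (show F.l (y⁻¹ * w * y) ≤ n + 1 by omega)
  refine Relation.ReflTransGen.mono ?_ _ _ h1
  rintro u v ⟨_, h2, h3, _⟩
  have h4 : F.l (v⁻¹ * w * v) ≤ n + 1 + C := h2
  refine ⟨(short_iff F _ _).2 (h3.trans (le_max_left _ _)), (short_iff F _ _).2 ?_⟩
  have := le_max_right R (C + 1)
  omega

end Pool.Agent.VS
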