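import Pool.Agent.VN.Defs
/-!
# Coarse Smith theory for finite complete ShortLex systems: shared definitions
-/
namespace Pool.Agent.VS
open Pool.Agent.SLX Pool.Agent.VN

/-! ## Mod 2 chains on finite sets -/

/-- Mod 2 chains on finite sets of points; the empty set has dimension `-1`. -/
abbrev FCh (V : Type) := Finset V →₀ ZMod 2

open Classical in
/-- The boundary: delete one point in all possible ways. -/
noncomputable def fbd {V : Type} : FCh V →ₗ[ZMod 2] FCh V :=
  Finsupp.linearCombination (ZMod 2)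
    (fun σ : Finset V => ∑ v ∈ σ, Finsupp.single (σ.erase v) (1 : ZMod 2))

open Classical in
/-- Push forward by a map (simplices which are not mapped injectively are sent to zero). -/
noncomputable def fmap {V W : Type} (f : V → W) : FCh V →ₗ[ZMod 2] FCh W :=
  Finsupp.linearCombination (ZMod 2)
    (fun σ : Finset V => if (σ.image f).card = σ.card then
      Finsupp.single (σ.image f) (1 : ZMod 2) else 0)

open Classical in
/-- The cone with apex `a`. -/
noncomputable def fcone {V : Type} (a : V) : FCh V →ₗ[ZMod 2] FCh V :=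
  Finsupp.linearCombination (ZMod 2)
    (fun σ : Finset V => if a ∈ σ then 0 else Finsupp.single (insert a σ) (1 : ZMod 2))

/-- Chains all of whose simplices have property `P`. -/
def On {V : Type} (P : Finset V → Prop) : Submodule (ZMod 2) (FCh V) :=
  Finsupp.supported (ZMod 2) (ZMod 2) {σ | P σ}

open Classical in
/-- From chains on lists to chains on finite sets. -/
noncomputable def toF {V : Type} : Ch V →ₗ[ZMod 2] FCh V :=
  Finsupp.linearCombination (ZMod 2)
    (fun l : List V => if l.Nodup then Finsupp.single l.toFinset (1 : ZMod 2) else 0)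

variable {A G : Type} [Group G] {π : A → G}

/-! ## Geometry -/

/-- A set of points at mutual distance at most `R`. -/
def Sm (F : NF A G π) (R : ℕ) (σ : Finset G) : Prop := ∀ x ∈ σ, ∀ y ∈ σ, F.l (x⁻¹ * y) ≤ R

/-- A set of pairs of points, small in both coordinates. -/
def Sm2 (F : NF A G π) (R : ℕ) (τ : Finset (G × G)) : Prop :=
  ∀ p ∈ τ, ∀ q ∈ τ, F.l (p.1⁻¹ * q.1) ≤ R ∧ F.l (p.2⁻¹ * q.2) ≤ R

/-- The points moved by at most `L` by `w`. -/
def InY (F : NF A G π) (w : G) (L : ℕ) (x : G) : Prop := F.l (x⁻¹ * w * x) ≤ L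

/-- The pairs `(x, y)` on a twisted loop of length at most `L`. -/
def InX (F : NF A G π) (w : G) (L : ℕ) (p : G × G) : Prop :=
  F.l (p.1⁻¹ * w * p.2) + F.l (p.2⁻¹ * w * p.1) ≤ L

/-- The interval from `a` to `b`, with slack. -/
def InI (F : NF A G π) (a b : G) (L : ℕ) (y : G) : Prop := F.l (a⁻¹ * y) + F.l (y⁻¹ * b) ≤ L

/-- `L` is larger than the translation number of `w`. -/
def Tau (F : NF A G π) (w : G) (L : ℕ) : Prop :=
  ∀ B : ℕ, ∃ k : ℕ, F.l (w ^ (2 ^ k)) + B ≤ 2 ^ k * L

/-- Filling of cycles with `k` points per simplex of displacement sets. -/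
def Fil (F : NF A G π) (k R R' C : ℕ) : Prop :=
  ∀ (w : G) (L : ℕ), Tau F w L →
    ∀ c ∈ On (fun σ : Finset G => σ.card = k ∧ Sm F R σ ∧ ∀ x ∈ σ, InY F w L x), fbd c = 0 →
      ∃ e ∈ On (fun σ : Finset G => σ.card = k + 1 ∧ Sm F R' σ ∧ ∀ x ∈ σ, InY F w (L + C) x),
        fbd e = c

/-- Finite asymptotic dimension: at every scale `R` there is a map `φ` of bounded displacement which
takes at most `D + 1` values on every set of diameter at most `R`. -/
def Asd (F : NF A G π) (D : ℕ) : Prop :=
  ∀ R : ℕ, ∃ (B : ℕ) (φ : G → G), (∀ x, F.l (x⁻¹ * φ x) ≤ B ∧ F.l ((φ x)⁻¹ * x) ≤ B) ∧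
    ∀ σ : Finset G, Sm F R σ → (φ '' (σ : Set G)).ncard ≤ D + 1

end Pool.Agent.VS
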