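import Pool.Agent.VN.ResFin
/-!
# Malcev's theorem: finitely generated linear groups are residually finite
-/
namespace Pool.Agent.VS
open Matrix

/-- The integers form a Jacobson ring. -/
theorem jacobson_int : IsJacobsonRing ℤ := by
  rw [isJacobsonRing_iff_prime_eq]
  intro P hP
  by_cases h : P = ⊥
  · rw [h, eq_bot_iff]
    intro x hx
    rw [Ideal.mem_bot]
    by_contra hne
    obtain ⟨p, hp1, hp2⟩ := Nat.exists_infinite_primes (x.natAbs + 1)
    have hmax : (Ideal.span {(p : ℤ)}).IsMaximal := by
      have hpr : Prime (p : ℤ) := Nat.prime_iff_prime_int.1 hp2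
      have h1 : (Ideal.span {(p : ℤ)}).IsPrime :=
        (Ideal.span_singleton_prime hpr.ne_zero).2 hpr
      have h2 : Ideal.span {(p : ℤ)} ≠ ⊥ := by
        rw [Ne, Ideal.span_singleton_eq_bot]
        exact hpr.ne_zero
      exact h1.isMaximal h2
    have h3 : x ∈ Ideal.span {(p : ℤ)} := by
      have h4 := Ideal.mem_sInf.1 hx
      exact h4 ⟨bot_le, hmax⟩
    rw [Ideal.mem_span_singleton] at h3
    have h5 := Int.natAbs_dvd_natAbs.2 h3
    rw [Int.natAbs_natCast] at h5
    have h6 := Nat.le_of_dvd (Int.natAbs_pos.2 hne) h5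
    omega
  · have := hP.isMaximal h
    exact Ideal.jacobson_eq_self_of_isMaximal

/-- A field which is finitely generated as a ring is finite. -/
theorem finite_field_of_finiteType' (K : Type) [Field K] [Algebra.FiniteType ℤ K] :
    Finite K := by
  have := jacobson_int
  have hfin : Module.Finite ℤ K := finite_of_finite_type_of_isJacobsonRing ℤ K
  have hint : Algebra.IsIntegral ℤ K := Algebra.IsIntegral.of_finite ℤ K
  have hninj : ¬ Function.Injective (algebraMap ℤ K) := by
    intro h
    exact Int.not_isField (isField_of_isIntegral_of_isField h (Field.toIsField K))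
  obtain ⟨m, hm0, hm⟩ : ∃ m : ℤ, m ≠ 0 ∧ (m : K) = 0 := by
    by_contra hcon
    push Not at hcon
    apply hninj
    rw [injective_iff_map_eq_zero]
    intro a ha
    by_contra hne
    exact hcon a hne (by simpa using ha)
  apply Module.finite_of_fg_torsion K
  intro x
  refine ⟨⟨m, mem_nonZeroDivisors_of_ne_zero hm0⟩, ?_⟩
  show m • x = 0
  rw [zsmul_eq_mul, hm, zero_mul]

theorem finite_field_of_finiteType (K : Type) [Field K] (i : Algebra ℤ K)
    (h : @Algebra.FiniteType ℤ K _ _ i) : Finite K := by
  have e : i = Ring.toIntAlgebra K := Subsingleton.elim _ _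
  subst e
  exact finite_field_of_finiteType' K

/-- In a domain which is finitely generated as a ring every nonzero element survives in some
finite residue field. -/
theorem exists_finite_residue (R : Type) [CommRing R] [IsDomain R] [Algebra.FiniteType ℤ R]
    (a : R) (ha : a ≠ 0) : ∃ M : Ideal R, Finite (R ⧸ M) ∧ a ∉ M := by
  have := jacobson_int
  have hJ : IsJacobsonRing R := isJacobsonRing_of_finiteType (A := ℤ)
  have h1 : (⊥ : Ideal R).jacobson = ⊥ :=
    isJacobsonRing_iff_prime_eq.1 hJ ⊥ Ideal.isPrime_bot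
  have h2 : a ∉ (⊥ : Ideal R).jacobson := by
    rw [h1, Ideal.mem_bot]
    exact ha
  obtain ⟨M, hM, haM⟩ : ∃ M : Ideal R, M.IsMaximal ∧ a ∉ M := by
    by_contra hcon
    push Not at hcon
    apply h2
    exact Ideal.mem_sInf.2 fun {I} hI => hcon I hI.2
  refine ⟨M, ?_, haM⟩
  have hq : Algebra.FiniteType ℤ (R ⧸ M) :=
    Algebra.FiniteType.of_surjective (Ideal.Quotient.mkₐ ℤ M) (Ideal.Quotient.mkₐ_surjective ℤ M)
  let _ : Field (R ⧸ M) := Ideal.Quotient.field M
  exact finite_field_of_finiteType (R ⧸ M) _ hq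

/-- Malcev's theorem. -/
theorem malcev {G : Type} [Group G] (hfg : Group.FG G) {F : Type} [Field F] {n : ℕ}
    (ρ : G →* GL (Fin n) F) (hρ : Function.Injective ρ) : VN.ResFin G := by
  classical
  obtain ⟨S, hS⟩ := (Group.fg_iff (G := G)).1 hfg
  obtain ⟨hS1, hS2⟩ := hS
  -- the ring generated by the entries
  let E : Set F := ⋃ s ∈ S, ⋃ i, ⋃ j, {(ρ s : Matrix (Fin n) (Fin n) F) i j,
    (ρ s⁻¹ : Matrix (Fin n) (Fin n) F) i j}
  have hE : E.Finite := hS2.biUnion fun s _ => Set.finite_iUnion fun i =>
    Set.finite_iUnion fun j => (Set.finite_singleton _).insert _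
  let R := Algebra.adjoin ℤ E
  have hft : Algebra.FiniteType ℤ R := by
    rw [← Subalgebra.fg_iff_finiteType]
    exact Subalgebra.fg_def.2 ⟨E, hE, rfl⟩
  have hmem : ∀ g : G, ∀ i j, (ρ g : Matrix (Fin n) (Fin n) F) i j ∈ R := by
    have hclos : ∀ g ∈ Subgroup.closure S, (∀ i j, (ρ g : Matrix (Fin n) (Fin n) F) i j ∈ R) ∧
        ∀ i j, (ρ g⁻¹ : Matrix (Fin n) (Fin n) F) i j ∈ R := by
      intro g hg
      induction hg using Subgroup.closure_induction with
      | mem x hx =>
        constructor
        · intro i j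
          apply Algebra.subset_adjoin
          exact Set.mem_biUnion hx (Set.mem_iUnion.2 ⟨i, Set.mem_iUnion.2 ⟨j, Or.inl rfl⟩⟩)
        · intro i j
          apply Algebra.subset_adjoin
          exact Set.mem_biUnion hx (Set.mem_iUnion.2 ⟨i, Set.mem_iUnion.2 ⟨j, Or.inr rfl⟩⟩)
      | one =>
        rw [inv_one, map_one, Units.val_one]
        have : ∀ i j, (1 : Matrix (Fin n) (Fin n) F) i j ∈ R := by
          intro i j
          by_cases h : i = j
          · rw [h, Matrix.one_apply_eq]; exact R.one_mem
          · rw [Matrix.one_apply_ne h]; exact R.zero_mem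
        exact ⟨this, this⟩
      | mul x y _ _ hx hy =>
        constructor
        · intro i j
          rw [map_mul, Units.val_mul, Matrix.mul_apply]
          exact R.sum_mem fun k _ => R.mul_mem (hx.1 i k) (hy.1 k j)
        · intro i j
          rw [_root_.mul_inv_rev, map_mul, Units.val_mul, Matrix.mul_apply]
          exact R.sum_mem fun k _ => R.mul_mem (hy.2 i k) (hx.2 k j)
      | inv x _ hx =>
        exact ⟨hx.2, by rw [inv_inv]; exact hx.1⟩
    intro g
    exact (hclos g (by rw [hS1]; exact Subgroup.mem_top g)).1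
  -- the homomorphism to matrices over `R`
  let σ : G →* Matrix (Fin n) (Fin n) R :=
    { toFun := fun g => Matrix.of fun i j => ⟨(ρ g : Matrix (Fin n) (Fin n) F) i j, hmem g i j⟩
      map_one' := by
        apply Matrix.ext
        intro i j
        apply Subtype.ext
        show (ρ 1 : Matrix (Fin n) (Fin n) F) i j = ((1 : Matrix (Fin n) (Fin n) R) i j : F)
        rw [map_one, Units.val_one]
        by_cases h : i = j
        · rw [h, Matrix.one_apply_eq, Matrix.one_apply_eq]; rfl
        · rw [Matrix.one_apply_ne h, Matrix.one_apply_ne h]; rfl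
      map_mul' := by
        intro x y
        apply Matrix.ext
        intro i j
        apply Subtype.ext
        show (ρ (x * y) : Matrix (Fin n) (Fin n) F) i j = _
        rw [map_mul, Units.val_mul, Matrix.mul_apply, Matrix.mul_apply]
        rw [AddSubmonoidClass.coe_finsetSum]
        rfl }
  intro g hg
  have h1 : (ρ g : Matrix (Fin n) (Fin n) F) ≠ 1 := by
    intro h
    apply hg
    apply hρ
    rw [map_one]
    exact Units.ext h
  have h1' : σ g ≠ 1 := by
    intro h
    apply h1
    apply Matrix.ext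
    intro i j
    have h2 := congrFun (congrFun h i) j
    have h3 := congrArg Subtype.val h2
    rw [show (ρ g : Matrix (Fin n) (Fin n) F) i j = (σ g i j : F) from rfl, h3]
    by_cases h : i = j
    · rw [h, Matrix.one_apply_eq, Matrix.one_apply_eq]; rfl
    · rw [Matrix.one_apply_ne h, Matrix.one_apply_ne h]; rfl
  obtain ⟨i, j, hij⟩ : ∃ i j, σ g i j ≠ (1 : Matrix (Fin n) (Fin n) R) i j := by
    by_contra hcon
    push Not at hcon
    exact h1' (Matrix.ext hcon)
  obtain ⟨M, hM, haM⟩ := exists_finite_residue R (σ g i j - (1 : Matrix (Fin n) (Fin n) R) i j)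
    (sub_ne_zero.2 hij)
  let τ : G →* Matrix (Fin n) (Fin n) (R ⧸ M) :=
    (RingHom.mapMatrix (m := Fin n) (Ideal.Quotient.mk M)).toMonoidHom.comp σ
  have hfinM : Finite (Matrix (Fin n) (Fin n) (R ⧸ M)) := inferInstance
  have hfinU : Finite (Matrix (Fin n) (Fin n) (R ⧸ M))ˣ := inferInstance
  refine ⟨τ.toHomUnits.ker, inferInstance, ?_, ?_⟩
  · have : Finite τ.toHomUnits.range := inferInstance
    exact Subgroup.finiteIndex_ker τ.toHomUnits
  · intro hk
    have h2 : τ.toHomUnits g = 1 := hk
    have h3 : τ g = 1 := by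
      have := congrArg Units.val h2
      rwa [MonoidHom.coe_toHomUnits, Units.val_one] at this
    apply haM
    rw [← Ideal.Quotient.eq_zero_iff_mem, map_sub, sub_eq_zero]
    have h4 := congrFun (congrFun h3 i) j
    have h5 : Ideal.Quotient.mk M (σ g i j) = (1 : Matrix (Fin n) (Fin n) (R ⧸ M)) i j := h4
    rw [h5]
    by_cases h : i = j
    · rw [h, Matrix.one_apply_eq, Matrix.one_apply_eq, map_one]
    · rw [Matrix.one_apply_ne h, Matrix.one_apply_ne h, map_zero]

end Pool.Agent.VS
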