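import Pool.Agent.VS.IntLin
import Pool.Agent.VS.Malcev
/-!
# Discrete subgroups of `GL_n(ℝ)` with a finite complete ShortLex system
-/
namespace Pool.Agent.VS
open Pool.Agent.SLX Pool.Agent.VN Matrix

/-- A discrete subgroup of `GL_n(ℝ)` has only finitely many elements with bounded entries and
bounded entries of the inverse. -/
theorem disc_finite {n : ℕ} (Γ : Subgroup (GL (Fin n) ℝ)) [DiscreteTopology Γ] (B : ℝ) :
    {g : Γ | ∀ i j, |((g : GL (Fin n) ℝ) : Matrix (Fin n) (Fin n) ℝ) i j| ≤ B ∧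
      |(((g⁻¹ : Γ) : GL (Fin n) ℝ) : Matrix (Fin n) (Fin n) ℝ) i j| ≤ B}.Finite := by
  set C : Set (Matrix (Fin n) (Fin n) ℝ) := {M | ∀ i j, M i j ∈ Set.Icc (-B) B} with hCd
  have hC : IsCompact C := by
    have h1 : IsCompact (Set.pi Set.univ (fun _ : Fin n => Set.pi Set.univ
        (fun _ : Fin n => Set.Icc (-B) B))) :=
      isCompact_univ_pi fun _ => isCompact_univ_pi fun _ => isCompact_Icc
    have h2 : C = Set.pi Set.univ (fun _ : Fin n => Set.pi Set.univ
        (fun _ : Fin n => Set.Icc (-B) B)) := by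
      ext M
      constructor
      · intro h i _ j _
        exact h i j
      · intro h i j
        exact h i (Set.mem_univ i) j (Set.mem_univ j)
    rw [h2]
    exact h1
  have hCop : IsCompact (MulOpposite.op '' C) := hC.image MulOpposite.continuous_op
  have hP : IsCompact (C ×ˢ (MulOpposite.op '' C)) := hC.prod hCop
  have hcl : IsClosed (Γ : Set (GL (Fin n) ℝ)) := Subgroup.isClosed_of_discrete
  have hemb := (Units.isClosedEmbedding_embedProduct (α := Matrix (Fin n) (Fin n) ℝ)).comp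
    hcl.isClosedEmbedding_subtypeVal
  have hK := hemb.isCompact_preimage hP
  have hfin := hK.finite_of_discrete
  apply hfin.subset
  intro g hg
  refine ⟨fun i j => ?_, ?_⟩
  · have := (hg i j).1
    exact abs_le.1 this
  · refine ⟨(((g⁻¹ : Γ) : GL (Fin n) ℝ) : Matrix (Fin n) (Fin n) ℝ), fun i j => ?_, rfl⟩
    exact abs_le.1 (hg i j).2

theorem disc_asdim {n : ℕ} (Γ : Subgroup (GL (Fin n) ℝ)) [DiscreteTopology Γ] :
    ∃ D : ℕ, VNP.AsdimLE Γ D :=
  asdim_linear Γ.subtype (disc_finite Γ)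

theorem fg_of_system {G : Type} [Group G] (h : HasSystem G) : Group.FG G := by
  obtain ⟨A, hA, hlin, π, E, hE⟩ := h
  rw [Group.fg_iff]
  refine ⟨Set.range π, ?_, Set.finite_range π⟩
  rw [eq_top_iff]
  intro g _
  obtain ⟨w, rfl⟩ := hE.surj g
  unfold val
  apply Subgroup.list_prod_mem
  intro x hx
  obtain ⟨a, _, rfl⟩ := List.mem_map.1 hx
  exact Subgroup.subset_closure ⟨a, rfl⟩

/-- Virtually solvable subgroups of a discrete subgroup of `GL_n(ℝ)` with a finite complete
ShortLex system are finitely generated, virtually abelian and undistorted. -/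
theorem disc_solvable {n : ℕ} (Γ : Subgroup (GL (Fin n) ℝ)) [DiscreteTopology Γ]
    (h : HasSystem Γ) (P P0 : Subgroup Γ) (h0 : P0 ≤ P) (h0i : P0.relIndex P ≠ 0)
    (h0s : Group.IsSolvable P0) :
    (∃ H : Subgroup Γ, H ≤ P ∧ H.relIndex P ≠ 0 ∧ (∀ a ∈ H, ∀ b ∈ H, a * b = b * a)) ∧
      P.FG ∧ Undistorted P := by
  obtain ⟨D, hD⟩ := disc_asdim Γ
  obtain ⟨l, κ, hone, hmul, hinv, hcl⟩ := data_of_system h hD
  exact rf_vsolvable l hone hmul hinv hcl (malcev (fg_of_system h) Γ.subtype Subtype.val_injective)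
    (fun n φ hφ => rank_le_of_injective hD φ hφ) P P0 h0 h0i h0s

end Pool.Agent.VS
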