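import Pool.Agent.VS.SLn
import Pool.Agent.VS.Asd
import Pool.Agent.VS.Main
import Pool.Agent.VS.Q2
import Pool.Agent.VN.ResAb
import Pool.Agent.VN.Rank
/-!
# Groups of integer matrices with a finite complete ShortLex system
-/
namespace Pool.Agent.VS
open Pool.Agent.SLX Pool.Agent.VN
open scoped commutatorElement

/-- The length and its properties. -/
theorem data_of_system {G : Type} [Group G] (h : HasSystem G) {D : ℕ} (hD : VNP.AsdimLE G D) :
    ∃ (l : G → ℕ) (κ : ℕ), l 1 = 0 ∧ (∀ g h, l (g * h) ≤ l g + l h) ∧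
      (∀ g, l g⁻¹ ≤ κ * l g) ∧
      (∀ T : ℕ, ∃ S : Set G, S.Finite ∧ ∀ w, TauLe l T w → ∃ x, x⁻¹ * w * x ∈ S) := by
  obtain ⟨A, hA, hlin, π, E, hE⟩ := h
  obtain ⟨F⟩ := exists_NF hE
  obtain ⟨κ, hκ⟩ := F.exists_inv
  exact ⟨F.l, κ, F.l_one, F.l_mul, hκ, fun T => classes_finite F (conj_short F
    (asd_of_asdim F hD)) T⟩

/-- Virtually solvable subgroups of a group of integer matrices with a finite complete ShortLex
system are finitely generated, virtually abelian and undistorted. -/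
theorem intlin_solvable {G : Type} [Group G] (h : HasSystem G) {n : ℕ} (ι : G →* GL (Fin n) ℤ)
    (hι : Function.Injective ι) (P P0 : Subgroup G) (h0 : P0 ≤ P) (h0i : P0.relIndex P ≠ 0)
    (h0s : Group.IsSolvable P0) :
    (∃ H : Subgroup G, H ≤ P ∧ H.relIndex P ≠ 0 ∧ (∀ a ∈ H, ∀ b ∈ H, a * b = b * a)) ∧
      P.FG ∧ Undistorted P := by
  obtain ⟨D, hD⟩ := intlin_asdim ι hι
  obtain ⟨l, κ, hone, hmul, hinv, hcl⟩ := data_of_system h hD
  exact rf_vsolvable l hone hmul hinv hcl (intlin_resfin ι hι)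
    (fun n φ hφ => rank_le_of_injective hD φ hφ) P P0 h0 h0i h0s

/-- No subgroup of finite index of `SL_n(ℤ)`, `n ≥ 3`, has a finite complete ShortLex system. -/
theorem sln_no_system {n : ℕ} (hn : 3 ≤ n) (H : Subgroup (Matrix.SpecialLinearGroup (Fin n) ℤ))
    [H.FiniteIndex] : ¬ HasSystem H := by
  intro h
  obtain ⟨ι, hι⟩ := sln_embed H
  obtain ⟨D, hD⟩ := intlin_asdim ι hι
  obtain ⟨l, κ, hone, hmul, hinv, hcl⟩ := data_of_system h hD
  obtain ⟨e, he, htr⟩ := rf_trans l hone hmul hcl (intlin_resfin ι hι)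
  obtain ⟨a, b, z, hz, ha, hb, hk⟩ := sln_heis hn H
  have hz' : ⁅a⁻¹, b⁻¹⁆ = z := by
    rw [commutatorElement_def, inv_inv, inv_inv, hz]
  have h1 : Commute z a := ha.symm
  have h2 : Commute z b := hb.symm
  have h3 := comm_torsion l hone hmul htr a⁻¹ b⁻¹ (by rw [hz']; exact h1.inv_right)
    (by rw [hz']; exact h2.inv_right)
  rw [hz'] at h3
  exact hk e he h3

end Pool.Agent.VS
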