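import Pool.Agent.VS.RankFin
/-!
# Normal solvable subgroups of finite rank
-/
namespace Pool.Agent.VS
open Subgroup Pool.Agent.SLX Pool.Agent.VN
open scoped commutatorElement

/-- **Normal solvable subgroups of finite rank: the algebraic end.** -/
theorem rank_normal (G : Type) [Group G] (S : Subgroup G) [S.Normal] [Group.IsSolvable S]
    (r : ℕ)
    (hr : ∀ K : Subgroup G, K ≤ S → K.FG → ∃ T : Finset G, T.card ≤ r ∧
      closure (T : Set G) = K)
    (hab1 : ∀ A : Subgroup G, A.Normal → A ≤ S → (∀ a ∈ A, ∀ b ∈ A, a * b = b * a) → A.FG)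
    (hab2 : ∀ A : Subgroup G, A.Normal → A.FG → (∀ a ∈ A, ∀ b ∈ A, a * b = b * a) →
      (centralizer (A : Set G)).FiniteIndex)
    (hcf : ∀ x y z : G, z = x * y * x⁻¹ * y⁻¹ → x * z = z * x → y * z = z * y →
      (Set.range (fun g : G => g⁻¹ * z * g)).Finite → IsOfFinOrder z) :
    ∃ A : Subgroup G, A.Normal ∧ A ≤ S ∧ (∀ a ∈ A, ∀ b ∈ A, a * b = b * a) ∧ A.FG ∧
      A.relIndex S ≠ 0 ∧ (centralizer (A : Set G)).FiniteIndex := by
  classical
  obtain ⟨A, hAn, hAS, hA, hmax⟩ := exists_max_ab_le S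
  have hAfg : A.FG := hab1 A hAn hAS hA
  set C : Subgroup G := centralizer (A : Set G) with hC
  have hCfi : C.FiniteIndex := hab2 A hAn hAfg hA
  refine ⟨A, hAn, hAS, hA, hAfg, ?_, hCfi⟩
  by_contra hAfi
  have hCn : C.Normal := by
    rw [hC]
    infer_instance
  have hCA : ∀ c ∈ C, ∀ a ∈ A, c * a = a * c := by
    intro c hc a ha
    exact (mem_centralizer_iff.1 hc a ha).symm
  have hAC : A ≤ C := by
    intro a ha
    rw [hC, mem_centralizer_iff]
    exact fun b hb => hA b hb a ha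
  set K : Subgroup G := S ⊓ C with hK
  have hKn : K.Normal := inferInstance
  have hKS : K ≤ S := inf_le_left
  have hAK : A ≤ K := le_inf hAS hAC
  have hKfi : K.relIndex S ≠ 0 := by
    rw [hK, inf_relIndex_left]
    intro h0
    have h1 := relIndex_dvd_index_of_normal C S
    rw [h0, zero_dvd_iff] at h1
    exact hCfi.index_ne_zero h1
  have hKsol : Group.IsSolvable K :=
    Group.isSolvable_of_isSolvable_injective (inclusion_injective hKS)
  set f : G →* G ⧸ A := QuotientGroup.mk' A with hf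
  have hfs : Function.Surjective f := QuotientGroup.mk'_surjective A
  have hker : ∀ g, f g = 1 ↔ g ∈ A := fun g => QuotientGroup.eq_one_iff g
  set Kb : Subgroup (G ⧸ A) := K.map f with hKb
  have hKbn : Kb.Normal := hKn.map f hfs
  have hKbsol : Group.IsSolvable Kb :=
    Group.isSolvable_of_surjective (f := f.subgroupMap K) (f.subgroupMap_surjective K)
  have hKbinf : ¬ (Kb : Set (G ⧸ A)).Finite := by
    intro hfin
    have h3 : Finite Kb := hfin.to_subtype
    have h4 : A.relIndex K ≠ 0 := by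
      have h5 : f.ker.relIndex K = Nat.card (K.map f) := relIndex_ker K f
      rw [hf, QuotientGroup.ker_mk'] at h5
      rw [h5]
      exact Nat.card_pos.ne'
    have h5 := relIndex_mul_relIndex A K S hAK hKS
    rw [hAfi] at h5
    rcases Nat.mul_eq_zero.1 h5 with h6 | h6
    · exact h4 h6
    · exact hKfi h6
  have hrQ : ∀ L : Subgroup (G ⧸ A), L ≤ Kb → L.FG → ∃ T : Finset (G ⧸ A), T.card ≤ r ∧
      closure (T : Set (G ⧸ A)) = L := by
    rintro L hL ⟨T0, hT0⟩
    have hlift : ∀ q ∈ T0, ∃ k ∈ K, f k = q := by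
      intro q hq
      have h1 : q ∈ L := by
        rw [← hT0]
        exact subset_closure hq
      exact hL h1
    choose! s hsK hs using hlift
    have h2 : closure ((T0.image s : Finset G) : Set G) ≤ S := by
      rw [closure_le, Finset.coe_image]
      rintro _ ⟨q, hq, rfl⟩
      exact hKS (hsK q hq)
    obtain ⟨T, hT, hTK⟩ := hr _ h2 ⟨_, rfl⟩
    refine ⟨T.image f, Finset.card_image_le.trans hT, ?_⟩
    rw [Finset.coe_image, ← MonoidHom.map_closure, hTK, MonoidHom.map_closure, Finset.coe_image,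
      Set.image_image, ← hT0]
    congr 1
    ext q
    constructor
    · rintro ⟨q', hq', rfl⟩
      show f (s q') ∈ (T0 : Set (G ⧸ A))
      rw [hs q' hq']
      exact hq'
    · intro hq
      exact ⟨q, hq, hs q hq⟩
  obtain ⟨Z, hZn, hZK, hZab, hZinf⟩ := exists_inf_ab_rank Kb hKbinf r hrQ
  set M : Subgroup G := Z.comap f with hM
  have hMn : M.Normal := hZn.comap f
  have hAM : A ≤ M := by
    intro a ha
    rw [hM, mem_comap, (hker a).2 ha]
    exact Z.one_mem
  have hMKA : ∀ m ∈ M, ∃ k ∈ K, ∃ a ∈ A, m = k * a := by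
    intro m hm
    rw [hM, mem_comap] at hm
    obtain ⟨k, hk, hkm⟩ := hZK hm
    have h1 : k⁻¹ * m ∈ A := by
      rw [← hker, map_mul, map_inv, hkm]
      group
    exact ⟨k, hk, _, h1, by group⟩
  have hMC : M ≤ C := by
    intro m hm
    obtain ⟨k, hk, a, ha, rfl⟩ := hMKA m hm
    exact C.mul_mem hk.2 (hAC ha)
  have hMS : M ≤ S := by
    intro m hm
    obtain ⟨k, hk, a, ha, rfl⟩ := hMKA m hm
    exact S.mul_mem hk.1 (hAS ha)
  have hMcomm : ∀ x y : M, ((⁅x, y⁆ : M) : G) ∈ A := by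
    intro x y
    rw [← hker]
    have h1 := hZab _ x.2 _ y.2
    have h2 : ((⁅x, y⁆ : M) : G) = (x : G) * y * (x : G)⁻¹ * (y : G)⁻¹ := rfl
    rw [h2, map_mul, map_mul, map_mul, map_inv, map_inv, h1]
    group
  have hcen : ∀ x : M, (x : G) ∈ A → x ∈ center M := by
    intro x hx
    rw [mem_center_iff]
    intro y
    exact Subtype.ext (hCA _ (hMC y.2) _ hx)
  have hfo : ∀ x y : M, IsOfFinOrder ((⁅x, y⁆ : M) : G) := by
    intro x y
    refine hcf x y _ rfl ?_ ?_ ?_
    · exact hCA _ (hMC x.2) _ (hMcomm x y)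
    · exact hCA _ (hMC y.2) _ (hMcomm x y)
    · exact VN.conj_finite_of_fi C _ (fun c hc => hCA c hc _ (hMcomm x y))
  -- a common exponent of the torsion of `A`
  obtain ⟨n, hn, hexp⟩ : ∃ n : ℕ, 0 < n ∧ ∀ a ∈ A, IsOfFinOrder a → a ^ n = 1 := by
    have hAfg' : Group.FG A := (Group.fg_iff_subgroup_fg A).2 hAfg
    let _ : CommGroup A := { (inferInstance : Group A) with
      mul_comm := fun a b => Subtype.ext (hA a a.2 b b.2) }
    have hfin : {b : A | IsOfFinOrder b}.Finite := VN.fg_ab_torsion_finite A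
    refine ⟨∏ b ∈ hfin.toFinset, orderOf b, ?_, ?_⟩
    · apply Finset.prod_pos
      intro b hb
      rw [Set.Finite.mem_toFinset] at hb
      exact hb.orderOf_pos
    · intro a ha hfa
      have h1 : IsOfFinOrder (⟨a, ha⟩ : A) := (VN.finOrder_coe A ⟨a, ha⟩).1 hfa
      have h2 : orderOf (⟨a, ha⟩ : A) ∣ ∏ b ∈ hfin.toFinset, orderOf b :=
        Finset.dvd_prod_of_mem _ (by rw [Set.Finite.mem_toFinset]; exact h1)
      have h3 := orderOf_dvd_iff_pow_eq_one.1 h2
      have h4 := congrArg (fun t : A => (t : G)) h3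
      simpa using h4
  have hfi : (center M).FiniteIndex := by
    apply centre_fi n r hn (fun x y => hcen _ (hMcomm x y)) _
      (rankLE_of_sub hr M hMS)
    intro x y
    apply Subtype.ext
    have := hexp _ (hMcomm x y) (hfo x y)
    simpa using this
  have hle : (center M).map M.subtype ≤ A := by
    apply hmax
    · infer_instance
    · exact (map_subtype_le _).trans hMS
    · rintro _ ⟨a, ha, rfl⟩ _ ⟨b, hb, rfl⟩
      exact congrArg Subtype.val (mem_center_iff.1 hb a)
    · intro a ha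
      exact ⟨⟨a, hAM ha⟩, hcen ⟨a, hAM ha⟩ ha, rfl⟩
  apply hZinf
  have hfq : Finite (M ⧸ center M) := inferInstance
  apply (Set.finite_range (fun q : M ⧸ center M => f ((q.out : M) : G))).subset
  intro z hz
  obtain ⟨g, rfl⟩ := hfs z
  have hg : g ∈ M := hz
  refine ⟨QuotientGroup.mk (⟨g, hg⟩ : M), ?_⟩
  set q : M ⧸ center M := QuotientGroup.mk (⟨g, hg⟩ : M) with hq
  have h1 : (q.out)⁻¹ * (⟨g, hg⟩ : M) ∈ center M := by
    rw [← QuotientGroup.eq, QuotientGroup.out_eq']
  have h2 : ((q.out : M) : G)⁻¹ * g ∈ A := hle ⟨_, h1, rfl⟩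
  rw [← hker, map_mul, map_inv] at h2
  show f ((q.out : M) : G) = f g
  exact (inv_mul_eq_one.1 h2)

/-- Normal solvable subgroups of finite rank of groups with a finite complete ShortLex system. -/
theorem normal_main {G : Type} [Group G] (h : HasSystem G) {D : ℕ} (hD : VNP.AsdimLE G D)
    (S : Subgroup G) [S.Normal] [Group.IsSolvable S] (r : ℕ)
    (hr : ∀ K : Subgroup G, K ≤ S → K.FG → ∃ T : Finset G, T.card ≤ r ∧
      Subgroup.closure (T : Set G) = K) :
    ∃ A : Subgroup G, A.Normal ∧ A ≤ S ∧ (∀ a ∈ A, ∀ b ∈ A, a * b = b * a) ∧ A.FG ∧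
      A.relIndex S ≠ 0 ∧ (centralizer (A : Set G)).FiniteIndex := by
  obtain ⟨A, hA, hlo, π, E, hE⟩ := h
  obtain ⟨F⟩ := exists_NF hE
  have hfg : Group.FG G := fg_of_nf F
  have hB := conj_short F (asd_of_asdim F hD)
  refine rank_normal G S r hr ?_ ?_ ?_
  · intro B hBn hBS hBc
    exact fg_of_rank F.l F.l_one F.l_mul (classes_finite F hB) B hBc r
      (fun K hK => hr K (hK.trans hBS))
  · intro B hBn hBfg hBc
    exact abel_normal F hB B hBfg hBc
  · intro x y z hz hx hy hfc
    refine isOfFinOrder_iff_pow_eq_one.2 (fc_torsion F hB x⁻¹ y⁻¹ z ?_ ?_ ?_ hfc)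
    · rw [hz, inv_inv, inv_inv]
    · exact ((show Commute x z from hx).inv_left).eq
    · exact ((show Commute y z from hy).inv_left).eq

end Pool.Agent.VS
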