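import Pool.Agent.VS.NormalSolv
/-!
# Normal virtually solvable subgroups of finite rank
-/
namespace Pool.Agent.VS
open Subgroup Pool.Agent.SLX Pool.Agent.VN

theorem gen_of_fi {G : Type} [Group G] (A K : Subgroup G) (hAK : A ≤ K)
    (hfi : A.relIndex K ≠ 0) (T : Finset G) (hT : closure (T : Set G) = A) :
    ∃ T' : Finset G, T'.card ≤ T.card + A.relIndex K ∧ closure (T' : Set G) = K := by
  classical
  have h1 : (A.subgroupOf K).FiniteIndex := ⟨hfi⟩
  have h2 : Finite (K ⧸ A.subgroupOf K) := inferInstance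
  have := Fintype.ofFinite (K ⧸ A.subgroupOf K)
  set R : Finset G := Finset.univ.image (fun q : K ⧸ A.subgroupOf K => ((q.out : K) : G)) with hR
  refine ⟨T ∪ R, ?_, ?_⟩
  · refine (Finset.card_union_le _ _).trans (Nat.add_le_add_left ?_ _)
    refine Finset.card_image_le.trans ?_
    rw [Finset.card_univ, ← Nat.card_eq_fintype_card]
    exact le_of_eq rfl
  · apply le_antisymm
    · rw [closure_le, Finset.coe_union, Set.union_subset_iff]
      constructor
      · intro x hx
        apply hAK
        rw [← hT]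
        exact subset_closure hx
      · intro x hx
        obtain ⟨q, _, rfl⟩ := Finset.mem_image.1 hx
        exact (q.out : K).2
    · intro x hx
      set q : K ⧸ A.subgroupOf K := QuotientGroup.mk (⟨x, hx⟩ : K) with hq
      have h3 : (q.out)⁻¹ * (⟨x, hx⟩ : K) ∈ A.subgroupOf K := by
        rw [← QuotientGroup.eq, QuotientGroup.out_eq']
      have h4 : ((q.out : K) : G)⁻¹ * x ∈ A := h3
      have h5 : x = ((q.out : K) : G) * (((q.out : K) : G)⁻¹ * x) := by group
      rw [h5]
      refine mul_mem (subset_closure ?_) ?_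
      · rw [Finset.coe_union]
        exact Or.inr (Finset.mem_coe.2 (Finset.mem_image.2 ⟨q, Finset.mem_univ _, rfl⟩))
      · have h6 : closure (T : Set G) ≤ closure ((T ∪ R : Finset G) : Set G) :=
          closure_mono (by rw [Finset.coe_union]; exact Set.subset_union_left)
        have h7 : A ≤ closure (T : Set G) := hT.ge
        exact h6 (h7 h4)

theorem solvable_sup {G : Type} [Group G] (R M : Subgroup G) [R.Normal] [M.Normal]
    (hR : Group.IsSolvable R) (hM : Group.IsSolvable M) : Group.IsSolvable (R ⊔ M : Subgroup G) := by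
  set f : G →* G ⧸ R := QuotientGroup.mk' R with hf
  have h1 : (R ⊔ M).map f = M.map f := by
    rw [Subgroup.map_sup]
    have : R.map f = ⊥ := by
      rw [Subgroup.map_eq_bot_iff, hf, QuotientGroup.ker_mk']
    rw [this, bot_sup_eq]
  have h2 : Group.IsSolvable ((R ⊔ M).map f) := by
    rw [h1]
    exact Group.isSolvable_of_surjective (f := f.subgroupMap M) (f.subgroupMap_surjective M)
  refine Group.isSolvable_of_ker_le_range (inclusion (le_sup_left : R ≤ R ⊔ M))
    (f.subgroupMap (R ⊔ M)) ?_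
  intro x hx
  rw [MonoidHom.mem_ker] at hx
  have h3 : f (x : G) = 1 := congrArg Subtype.val hx
  have h4 : (x : G) ∈ R := (QuotientGroup.eq_one_iff _).1 h3
  exact ⟨⟨x, h4⟩, Subtype.ext rfl⟩

/-- The solvable radical of a virtually solvable group. -/
theorem exists_radical (N : Type) [Group N] (S : Subgroup N) [S.FiniteIndex]
    (hS : Group.IsSolvable S) :
    ∃ R : Subgroup N, R.Characteristic ∧ R.FiniteIndex ∧ Group.IsSolvable R := by
  classical
  set P : ℕ → Prop := fun n => ∃ R : Subgroup N, R.Normal ∧ Group.IsSolvable R ∧ R.index = n ∧ n ≠ 0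
    with hP
  have hex : ∃ n, P n := by
    have h1 : S.normalCore.FiniteIndex := inferInstance
    refine ⟨S.normalCore.index, S.normalCore, inferInstance, ?_, rfl, h1.index_ne_zero⟩
    exact Group.isSolvable_of_isSolvable_injective (inclusion_injective S.normalCore_le)
  obtain ⟨R, hRn, hRs, hRi, hR0⟩ := Nat.find_spec hex
  have key : ∀ M : Subgroup N, M.Normal → Group.IsSolvable M → M ≤ R := by
    intro M hMn hMs
    have h1 := solvable_sup R M hRs hMs
    have h2 : (R ⊔ M).index ∣ R.index := index_dvd_of_le le_sup_left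
    have h3 : (R ⊔ M).index ≠ 0 := by
      intro h
      rw [h, zero_dvd_iff] at h2
      rw [h2] at hRi
      exact hR0 hRi.symm
    have h4 : Nat.find hex ≤ (R ⊔ M).index :=
      Nat.find_min' hex ⟨R ⊔ M, inferInstance, h1, rfl, h3⟩
    have h5 : (R ⊔ M).index = R.index := by
      apply le_antisymm
      · exact Nat.le_of_dvd (Nat.pos_of_ne_zero (by rw [hRi]; exact hR0)) h2
      · rw [hRi]
        exact h4
    have h6 := relIndex_mul_index (le_sup_left : R ≤ R ⊔ M)
    rw [h5] at h6
    have h7 : R.relIndex (R ⊔ M) = 1 := by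
      have h8 : 0 < R.index := Nat.pos_of_ne_zero (by rw [hRi]; exact hR0)
      exact Nat.eq_of_mul_eq_mul_right h8 (by rw [h6, one_mul])
    rw [relIndex_eq_one] at h7
    exact le_sup_right.trans h7
  refine ⟨R, ?_, ⟨by rw [hRi]; exact hR0⟩, hRs⟩
  rw [characteristic_iff_map_le]
  intro φ
  apply key
  · exact hRn.map φ.toMonoidHom φ.surjective
  · exact Group.isSolvable_of_surjective (f := φ.toMonoidHom.subgroupMap R)
      (φ.toMonoidHom.subgroupMap_surjective R)

/-- **Normal virtually solvable subgroups of finite rank.** -/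
theorem virt_normal_main {G : Type} [Group G] (h : HasSystem G) (N : Subgroup G) [N.Normal]
    {D : ℕ} (hQ : VNP.AsdimLE (G ⧸ N) D) (S : Subgroup G) (hSN : S ≤ N)
    (hSfi : S.relIndex N ≠ 0) [hSs : Group.IsSolvable S] (r : ℕ)
    (hr : ∀ K : Subgroup G, K ≤ S → K.FG → ∃ T : Finset G, T.card ≤ r ∧
      Subgroup.closure (T : Set G) = K) :
    N.FG ∧ ∃ A : Subgroup G, A.Normal ∧ A ≤ N ∧ A.relIndex N ≠ 0 ∧
      (∀ a ∈ A, ∀ b ∈ A, a * b = b * a) ∧ (centralizer (A : Set G)).FiniteIndex := by
  classical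
  have hS' : (S.subgroupOf N).FiniteIndex := ⟨hSfi⟩
  have hSs' : Group.IsSolvable (S.subgroupOf N) :=
    Group.isSolvable_of_isSolvable_injective
      (f := (subgroupOfEquivOfLe hSN).toMonoidHom) (subgroupOfEquivOfLe hSN).injective
  obtain ⟨R0, hRc, hRfi, hRs⟩ := exists_radical N (S.subgroupOf N) hSs'
  set R : Subgroup G := R0.map N.subtype with hR
  have hRn : R.Normal := inferInstance
  have hRN : R ≤ N := map_subtype_le R0
  have hRR : R.subgroupOf N = R0 := by
    rw [hR, subgroupOf, comap_map_eq_self_of_injective N.subtype_injective]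
  have hRs' : Group.IsSolvable R :=
    Group.isSolvable_of_surjective (f := N.subtype.subgroupMap R0)
      (N.subtype.subgroupMap_surjective R0)
  have hRfi' : R.relIndex N ≠ 0 := by
    have : R.relIndex N = R0.index := by
      rw [relIndex, hRR]
    rw [this]
    exact hRfi.index_ne_zero
  -- the rank of `R`
  have hrR : ∀ K : Subgroup G, K ≤ R → K.FG → ∃ T : Finset G, T.card ≤ r + S.relIndex N ∧
      Subgroup.closure (T : Set G) = K := by
    intro K hKR hKfg
    have hKN : K ≤ N := hKR.trans hRN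
    have h1 : (S ⊓ K).relIndex K ≠ 0 := by
      rw [inf_relIndex_right]
      exact fun h0 => hSfi (relIndex_eq_zero_of_le_right hKN h0)
    have h2 : (S ⊓ K).FG := by
      have h3 : Group.FG K := (Group.fg_iff_subgroup_fg K).2 hKfg
      have h4 : ((S ⊓ K).subgroupOf K).FiniteIndex := ⟨h1⟩
      have h5 : Group.FG ((S ⊓ K).subgroupOf K) := inferInstance
      have h6 : ((S ⊓ K).subgroupOf K).FG := (Group.fg_iff_subgroup_fg _).1 h5
      have h7 : (((S ⊓ K).subgroupOf K).map K.subtype).FG := by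
        obtain ⟨T0, hT0⟩ := h6
        exact ⟨T0.image K.subtype, by rw [Finset.coe_image, ← MonoidHom.map_closure, hT0]⟩
      rwa [subgroupOf_map_subtype, inf_assoc, inf_idem] at h7
    obtain ⟨T, hT, hTK⟩ := hr (S ⊓ K) inf_le_left h2
    obtain ⟨T', hT', hT'K⟩ := gen_of_fi (S ⊓ K) K inf_le_right h1 T hTK
    refine ⟨T', hT'.trans (Nat.add_le_add hT ?_), hT'K⟩
    rw [inf_relIndex_right]
    exact relIndex_le_of_le_right hKN hSfi
  -- asymptotic dimension
  obtain ⟨D1, hD1⟩ := VNP.asdimLE_solvRank _ (VNP.rank_subgroup R _ hrR)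
  have hD2 : VNP.AsdimLE (R.subgroupOf N) D1 :=
    VNP.asdimLE_of_injective (subgroupOfEquivOfLe hRN).toMonoidHom
      (subgroupOfEquivOfLe hRN).injective hD1
  have hRfi'' : (R.subgroupOf N).FiniteIndex := ⟨hRfi'⟩
  obtain ⟨D3, hD3⟩ := VNP.asdimLE_of_fi (R.subgroupOf N) hD2
  have hDG := VNP.asdimLE_ext N hD3 hQ
  obtain ⟨A, hAn, hAR, hAc, hAfg, hAfi, hAC⟩ := normal_main h hDG R _ hrR
  have hAN : A.relIndex N ≠ 0 := by
    rw [← relIndex_mul_relIndex A R N hAR hRN]
    exact mul_ne_zero hAfi hRfi'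
  refine ⟨?_, A, hAn, hAR.trans hRN, hAN, hAc, hAC⟩
  obtain ⟨T, hT⟩ := hAfg
  obtain ⟨T', _, hT'⟩ := gen_of_fi A N (hAR.trans hRN) hAN T hT
  exact ⟨T', hT'⟩

end Pool.Agent.VS
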