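import Pool.Agent.VS.RatLin
/-!
# Linear groups over number fields
-/
namespace Pool.Agent.VS
open Pool.Agent.SLX Pool.Agent.VN Matrix

/-- Restriction of scalars: a linear group over a number field is a group of rational matrices. -/
theorem restrict_scalars {G : Type} [Group G] {K : Type} [Field K] [NumberField K] {n : ℕ}
    (ρ : G →* GL (Fin n) K) (hρ : Function.Injective ρ) :
    ∃ (m : ℕ) (σ : G →* GL (Fin m) ℚ), Function.Injective σ := by
  classical
  let V := Fin n → K
  have hfin : Module.Finite ℚ V := inferInstance
  let b := Module.finBasis ℚ V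
  -- matrices over `K` as rational endomorphisms
  let f : Matrix (Fin n) (Fin n) K →* Module.End ℚ V :=
    { toFun := fun M => (Matrix.toLin' M).restrictScalars ℚ
      map_one' := by
        rw [Matrix.toLin'_one]
        rfl
      map_mul' := fun M N => by
        rw [Matrix.toLin'_mul]
        rfl }
  have hf : Function.Injective f := by
    intro M N h
    apply Matrix.toLin'.injective
    apply LinearMap.ext
    intro v
    exact congrArg (fun L : Module.End ℚ V => L v) h
  let g : Module.End ℚ V →* Matrix (Fin (Module.finrank ℚ V)) (Fin (Module.finrank ℚ V)) ℚ :=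
    (LinearMap.toMatrixAlgEquiv b).toAlgHom.toMonoidHom
  have hg : Function.Injective g := (LinearMap.toMatrixAlgEquiv b).injective
  refine ⟨Module.finrank ℚ V, (Units.map (g.comp f)).comp ρ, ?_⟩
  intro x y h
  apply hρ
  apply Units.ext
  apply hf
  apply hg
  exact congrArg Units.val h

/-- Virtually solvable subgroups of a linear group over a number field with a finite complete
ShortLex system are finitely generated, virtually abelian and undistorted. -/
theorem numlin_solvable {G : Type} [Group G] (h : HasSystem G) {K : Type} [Field K]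
    [NumberField K] {n : ℕ} (ρ : G →* GL (Fin n) K) (hρ : Function.Injective ρ)
    (P P0 : Subgroup G) (h0 : P0 ≤ P) (h0i : P0.relIndex P ≠ 0) (h0s : Group.IsSolvable P0) :
    (∃ H : Subgroup G, H ≤ P ∧ H.relIndex P ≠ 0 ∧ (∀ a ∈ H, ∀ b ∈ H, a * b = b * a)) ∧
      P.FG ∧ Undistorted P := by
  obtain ⟨m, σ, hσ⟩ := restrict_scalars ρ hρ
  obtain ⟨D, hD⟩ := ratlin_asdim (fg_of_system h) σ hσ
  obtain ⟨l, κ, hone, hmul, hinv, hcl⟩ := data_of_system h hD
  exact rf_vsolvable l hone hmul hinv hcl (malcev (fg_of_system h) σ hσ)
    (fun n φ hφ => rank_le_of_injective hD φ hφ) P P0 h0 h0i h0s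

end Pool.Agent.VS
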