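import Pool.Agent.VS.AsdLin
/-!
# `p`-adic norms in triangular coordinates
-/
namespace Pool.Agent.VS

/-- Coordinates for `p`-adic norms in `n` variables. -/
def PX : ℕ → Type
  | 0 => Unit
  | n + 1 => (ℤ × (Fin n → ℚ)) × PX n

/-- The norm. -/
noncomputable def pf (p : ℕ) : (n : ℕ) → PX n → (Fin n → ℚ) → ℚ
  | 0, _, _ => 0
  | n + 1, x, v =>
    max ((p : ℚ) ^ x.1.1 * padicNorm p (v 0 + ∑ i, x.1.2 i * v (Fin.succ i)))
      (pf p n x.2 (fun i => v (Fin.succ i)))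

/-- Two norms are comparable. -/
def NP (p n : ℕ) (r : ℕ) (x y : PX n) : Prop :=
  (∀ v, pf p n y v ≤ (p : ℚ) ^ r * pf p n x v) ∧ (∀ v, pf p n x v ≤ (p : ℚ) ^ r * pf p n y v)

section
variable (p : ℕ) [hp : Fact p.Prime]

theorem pp1 : (1 : ℚ) < p := by exact_mod_cast hp.1.one_lt

theorem pp0 : (0 : ℚ) < p := by exact_mod_cast hp.1.pos

theorem pf_nonneg : ∀ (n : ℕ) (x : PX n) (v : Fin n → ℚ), 0 ≤ pf p n x v
  | 0, _, _ => le_rfl
  | n + 1, x, v => le_max_of_le_right (pf_nonneg n x.2 _)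

theorem pf_cons (n : ℕ) (x : PX (n + 1)) (s : ℚ) (v : Fin n → ℚ) :
    pf p (n + 1) x (Fin.cons s v) =
      max ((p : ℚ) ^ x.1.1 * padicNorm p (s + ∑ i, x.1.2 i * v i)) (pf p n x.2 v) := by
  show max ((p : ℚ) ^ x.1.1 * padicNorm p ((Fin.cons s v : Fin (n + 1) → ℚ) 0 + ∑ i, x.1.2 i *
    (Fin.cons s v : Fin (n + 1) → ℚ) (Fin.succ i)))
      (pf p n x.2 (fun i => (Fin.cons s v : Fin (n + 1) → ℚ) (Fin.succ i))) = _
  simp only [Fin.cons_zero, Fin.cons_succ]

theorem pf_zero : ∀ (n : ℕ) (x : PX n), pf p n x 0 = 0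
  | 0, _ => rfl
  | n + 1, x => by
    have h1 := pf_zero n x.2
    have e : (0 : Fin (n + 1) → ℚ) = Fin.cons 0 0 := by
      funext i
      refine Fin.cases rfl (fun j => rfl) i
    rw [e, pf_cons, h1]
    simp

theorem NP_symm (n r : ℕ) (x y : PX n) (h : NP p n r x y) : NP p n r y x := ⟨h.2, h.1⟩

theorem NP_mono (n r r' : ℕ) (x y : PX n) (hr : r ≤ r') (h : NP p n r x y) : NP p n r' x y := by
  have he : (p : ℚ) ^ r ≤ (p : ℚ) ^ r' := pow_le_pow_right₀ (pp1 p).le hr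
  refine ⟨fun v => (h.1 v).trans ?_, fun v => (h.2 v).trans ?_⟩
  · exact mul_le_mul_of_nonneg_right he (pf_nonneg p n x v)
  · exact mul_le_mul_of_nonneg_right he (pf_nonneg p n y v)

theorem phalf_fst (n : ℕ) (r : ℕ) (x y : PX (n + 1))
    (h : ∀ v, pf p (n + 1) y v ≤ (p : ℚ) ^ r * pf p (n + 1) x v) : y.1.1 ≤ r + x.1.1 := by
  have h1 := h (Fin.cons 1 0)
  rw [pf_cons, pf_cons, pf_zero, pf_zero] at h1
  simp only [Pi.zero_apply, mul_zero, Finset.sum_const_zero, add_zero, padicNorm.one, mul_one]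
    at h1
  have h2 : (0 : ℚ) ≤ (p : ℚ) ^ x.1.1 := zpow_nonneg (pp0 p).le _
  have h3 : (0 : ℚ) ≤ (p : ℚ) ^ y.1.1 := zpow_nonneg (pp0 p).le _
  rw [max_eq_left h2, max_eq_left h3, ← zpow_natCast, ← zpow_add₀ (pp0 p).ne',
    zpow_le_zpow_iff_right₀ (pp1 p)] at h1
  exact h1

theorem phalf_mid (n : ℕ) (r : ℕ) (x y : PX (n + 1))
    (h : ∀ v, pf p (n + 1) y v ≤ (p : ℚ) ^ r * pf p (n + 1) x v) (v : Fin n → ℚ) :
    (p : ℚ) ^ y.1.1 * padicNorm p (∑ i, (y.1.2 i - x.1.2 i) * v i) ≤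
      (p : ℚ) ^ r * pf p n x.2 v ∧ pf p n y.2 v ≤ (p : ℚ) ^ r * pf p n x.2 v := by
  have h1 := h (Fin.cons (-∑ i, x.1.2 i * v i) v)
  rw [pf_cons, pf_cons] at h1
  have e1 : (-∑ i, x.1.2 i * v i) + ∑ i, x.1.2 i * v i = 0 := by ring
  have e2 : (-∑ i, x.1.2 i * v i) + ∑ i, y.1.2 i * v i = ∑ i, (y.1.2 i - x.1.2 i) * v i := by
    simp only [sub_mul, Finset.sum_sub_distrib]
    ring
  rw [e1, e2, padicNorm.zero, mul_zero, max_eq_right (pf_nonneg p n x.2 v)] at h1
  exact ⟨(le_max_left _ _).trans h1, (le_max_right _ _).trans h1⟩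

/-! ## Linear coordinates on a fibre -/

/-- Coordinates of a functional `u` adapted to the norm `x`. -/
noncomputable def WP (p : ℕ) : (n : ℕ) → ℤ → PX n → (Fin n → ℚ) → (Fin n → ℚ)
  | 0, _, _, u => u
  | n + 1, b, x, u => Fin.cons ((p : ℚ) ^ (x.1.1 - b) * u 0)
      (WP p n b x.2 (fun i => u (Fin.succ i) - u 0 * x.1.2 i))

omit hp in
theorem WP_sub : ∀ (n : ℕ) (b : ℤ) (x : PX n) (u u' : Fin n → ℚ) (i : Fin n),
    WP p n b x (fun j => u j - u' j) i = WP p n b x u i - WP p n b x u' i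
  | 0, _, _, _, _, i => i.elim0
  | n + 1, b, x, u, u', i => by
    have h1 := WP_sub n b x.2 (fun i => u (Fin.succ i) - u 0 * x.1.2 i)
      (fun i => u' (Fin.succ i) - u' 0 * x.1.2 i)
    refine Fin.cases ?_ (fun j => ?_) i
    · show (Fin.cons ((p : ℚ) ^ (x.1.1 - b) * (u 0 - u' 0)) _ : Fin (n + 1) → ℚ) 0 =
        (Fin.cons ((p : ℚ) ^ (x.1.1 - b) * u 0) _ : Fin (n + 1) → ℚ) 0 -
        (Fin.cons ((p : ℚ) ^ (x.1.1 - b) * u' 0) _ : Fin (n + 1) → ℚ) 0
      simp only [Fin.cons_zero]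
      ring
    · show (Fin.cons _ (WP p n b x.2 (fun i => u (Fin.succ i) - u' (Fin.succ i) -
          (u 0 - u' 0) * x.1.2 i)) : Fin (n + 1) → ℚ) (Fin.succ j) =
        (Fin.cons _ (WP p n b x.2 (fun i => u (Fin.succ i) - u 0 * x.1.2 i)) :
          Fin (n + 1) → ℚ) (Fin.succ j) -
        (Fin.cons _ (WP p n b x.2 (fun i => u' (Fin.succ i) - u' 0 * x.1.2 i)) :
          Fin (n + 1) → ℚ) (Fin.succ j)
      simp only [Fin.cons_succ]
      rw [← h1 j]
      congr 1
      funext i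
      ring

/-- The norm as a homomorphism. -/
noncomputable def padicHom : ℚ →*₀ ℚ where
  toFun := padicNorm p
  map_zero' := padicNorm.zero
  map_one' := padicNorm.one
  map_mul' := padicNorm.mul

theorem padic_zpow (k : ℤ) : padicNorm p ((p : ℚ) ^ k) = (p : ℚ) ^ (-k) := by
  have h1 := map_zpow₀ (padicHom p) (p : ℚ) k
  have h2 : padicHom p (p : ℚ) = (p : ℚ)⁻¹ := padicNorm.padicNorm_p_of_prime
  rw [h2, inv_zpow, ← zpow_neg] at h1
  exact h1

theorem WP_head (a b : ℤ) (u : ℚ) :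
    (p : ℚ) ^ a * padicNorm p ((p : ℚ) ^ (a - b) * u) = (p : ℚ) ^ b * padicNorm p u := by
  rw [padicNorm.mul, padic_zpow, ← mul_assoc, ← zpow_add₀ (pp0 p).ne']
  congr 2
  ring

theorem WP_bdd : ∀ (n : ℕ) (b : ℤ) (x : PX n) (u : Fin n → ℚ) (c : ℚ), 0 ≤ c →
    (∀ v : Fin n → ℚ, (p : ℚ) ^ b * padicNorm p (∑ i, u i * v i) ≤ c * pf p n x v) →
      ∀ i, padicNorm p (WP p n b x u i) ≤ c
  | 0, _, _, _, _, _, _, i => i.elim0
  | n + 1, b, x, u, c, hc, h, i => by
    refine Fin.cases ?_ (fun j => ?_) i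
    · have h1 := h (Fin.cons 1 0)
      have h3 : (0 : ℚ) < (p : ℚ) ^ x.1.1 := zpow_pos (pp0 p) _
      rw [pf_cons, pf_zero, Fin.sum_univ_succ] at h1
      simp only [Fin.cons_zero, Fin.cons_succ, Pi.zero_apply, mul_zero, Finset.sum_const_zero,
        add_zero, mul_one, padicNorm.one] at h1
      rw [max_eq_left h3.le, ← WP_head p x.1.1 b (u 0), mul_comm c] at h1
      exact le_of_mul_le_mul_left h1 h3
    · show padicNorm p (WP p n b x.2 (fun i => u (Fin.succ i) - u 0 * x.1.2 i) j) ≤ c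
      apply WP_bdd n b x.2 _ c hc
      intro v
      have h1 := h (Fin.cons (-∑ i, x.1.2 i * v i) v)
      rw [pf_cons, Fin.sum_univ_succ] at h1
      simp only [Fin.cons_zero, Fin.cons_succ] at h1
      have e1 : (-∑ i, x.1.2 i * v i) + ∑ i, x.1.2 i * v i = 0 := by ring
      have e2 : u 0 * (-∑ i, x.1.2 i * v i) + ∑ i, u (Fin.succ i) * v i =
          ∑ i, (u (Fin.succ i) - u 0 * x.1.2 i) * v i := by
        simp only [sub_mul, Finset.sum_sub_distrib, mul_assoc, ← Finset.mul_sum]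
        ring
      rw [e1, e2, padicNorm.zero, mul_zero, max_eq_right (pf_nonneg p n x.2 v)] at h1
      exact h1

theorem WP_bdd' : ∀ (n : ℕ) (b : ℤ) (x : PX n) (u : Fin n → ℚ) (c : ℚ), 0 ≤ c →
    (∀ i, padicNorm p (WP p n b x u i) ≤ c) →
      ∀ v : Fin n → ℚ, (p : ℚ) ^ b * padicNorm p (∑ i, u i * v i) ≤ c * pf p n x v
  | 0, b, x, u, c, _, _, v => by
    show (p : ℚ) ^ b * padicNorm p (∑ i, u i * v i) ≤ c * 0
    simp
  | n + 1, b, x, u, c, hc, h, v => by
    have ih := WP_bdd' n b x.2 (fun i => u (Fin.succ i) - u 0 * x.1.2 i) c hc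
      (fun i => h (Fin.succ i)) (fun i => v (Fin.succ i))
    have h0 : padicNorm p ((p : ℚ) ^ (x.1.1 - b) * u 0) ≤ c := h 0
    have h3 : (0 : ℚ) < (p : ℚ) ^ x.1.1 := zpow_pos (pp0 p) _
    have hb : (0 : ℚ) < (p : ℚ) ^ b := zpow_pos (pp0 p) _
    have h4 : (p : ℚ) ^ b * padicNorm p (u 0) ≤ (p : ℚ) ^ x.1.1 * c := by
      rw [← WP_head p x.1.1 b (u 0)]
      exact mul_le_mul_of_nonneg_left h0 h3.le
    set s : ℚ := v 0 + ∑ i, x.1.2 i * v (Fin.succ i) with hs
    set d : ℚ := ∑ i, (u (Fin.succ i) - u 0 * x.1.2 i) * v (Fin.succ i) with hd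
    have e1 : ∑ i, u i * v i = u 0 * s + d := by
      rw [Fin.sum_univ_succ, hs, hd]
      simp only [sub_mul, Finset.sum_sub_distrib, mul_assoc, ← Finset.mul_sum]
      ring
    have e2 : pf p (n + 1) x v = max ((p : ℚ) ^ x.1.1 * padicNorm p s)
        (pf p n x.2 (fun i => v (Fin.succ i))) := rfl
    rw [e1, e2]
    have h5 := padicNorm.nonarchimedean (p := p) (q := u 0 * s) (r := d)
    rw [padicNorm.mul] at h5
    rcases le_max_iff.1 h5 with h6 | h6
    · have h7 : (p : ℚ) ^ b * padicNorm p (u 0 * s + d) ≤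
          c * ((p : ℚ) ^ x.1.1 * padicNorm p s) := by
        calc (p : ℚ) ^ b * padicNorm p (u 0 * s + d)
            ≤ (p : ℚ) ^ b * (padicNorm p (u 0) * padicNorm p s) :=
              mul_le_mul_of_nonneg_left h6 hb.le
          _ = ((p : ℚ) ^ b * padicNorm p (u 0)) * padicNorm p s := by ring
          _ ≤ ((p : ℚ) ^ x.1.1 * c) * padicNorm p s :=
              mul_le_mul_of_nonneg_right h4 (padicNorm.nonneg _)
          _ = _ := by ring
      exact h7.trans (mul_le_mul_of_nonneg_left (le_max_left _ _) hc)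
    · have h7 : (p : ℚ) ^ b * padicNorm p (u 0 * s + d) ≤
          c * pf p n x.2 (fun i => v (Fin.succ i)) :=
        (mul_le_mul_of_nonneg_left h6 hb.le).trans ih
      exact h7.trans (mul_le_mul_of_nonneg_left (le_max_right _ _) hc)

/-! ## The colouring -/

/-- Closeness in `ℚ_p ^ n`. -/
def NZP (p n : ℕ) (r : ℕ) (w w' : Fin n → ℚ) : Prop :=
  ∀ i, padicNorm p (w i - w' i) ≤ (p : ℚ) ^ r

theorem acol_padic (n : ℕ) : ACol (NZP p n) Unit := by
  intro r
  refine ⟨r, fun _ => (), ?_⟩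
  intro x y hxy
  induction hxy with
  | refl =>
    intro i
    rw [sub_self, padicNorm.zero]
    exact pow_nonneg (pp0 p).le _
  | @tail b c _ hbc ih =>
    intro i
    have e : x i - c i = (x i - b i) + (b i - c i) := by ring
    rw [e]
    exact padicNorm.nonarchimedean.trans (max_le (ih i) (hbc.2 i))

omit hp in
theorem acol_int : ACol (fun (r : ℕ) (a b : ℤ) => |a - b| ≤ (r : ℤ)) (Fin 1 → Bool) := by
  intro r
  obtain ⟨R, c, hR⟩ := acol_real 1 r
  refine ⟨R, fun a => c (fun _ => (a : ℝ)), ?_⟩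
  intro x y hxy
  have h1 := hR _ _ (rtg_lift (p := fun u v => c u = c v ∧ NZ 1 r u v)
    (fun a : ℤ => (fun _ => (a : ℝ) : Fin 1 → ℝ)) (fun a b hab => ⟨hab.1, fun _ => by
      have := hab.2
      show |(a : ℝ) - b| ≤ r
      exact_mod_cast this⟩) hxy)
  have h2 : |(x : ℝ) - y| ≤ R := h1 0
  exact_mod_cast h2

theorem acol_pstep (n : ℕ) {C : Type} (hC : ACol (NP p n) C) :
    ACol (NP p (n + 1)) (((Fin 1 → Bool) × C) × Unit) := by
  have hY := acol_prod acol_int hC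
    (fun r r' x y hr h => h.trans (by exact_mod_cast hr)) (NP_mono p n)
  refine acol_fib hY (acol_padic p n) ?_ (fun x : PX (n + 1) => (x.1.1, x.2))
    (fun y x => WP p n y.1 y.2 x.1.2) ?_ ?_ ?_
  · rintro r x y ⟨h1, h2⟩
    refine ⟨?_, NP_symm p n r _ _ h2⟩
    rw [abs_sub_comm]
    exact h1
  · intro r
    refine ⟨r, fun x x' h => ⟨?_, fun v => (phalf_mid p n r x x' h.1 v).2,
      fun v => (phalf_mid p n r x' x h.2 v).2⟩⟩
    have h1 := phalf_fst p n r x x' h.1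
    have h2 := phalf_fst p n r x' x h.2
    show |x.1.1 - x'.1.1| ≤ (r : ℤ)
    rw [abs_le]
    constructor <;> linarith
  · intro R r
    refine ⟨r + 2 * R, ?_⟩
    rintro y x x' ⟨hy1, hy2⟩ ⟨hy3, hy4⟩ hN i
    have h1 : |y.1 - x.1.1| ≤ (R : ℤ) := hy1
    have h3 : |y.1 - x'.1.1| ≤ (R : ℤ) := hy3
    have hpp := pp0 p
    have key : ∀ v : Fin n → ℚ, (p : ℚ) ^ y.1 *
        padicNorm p (∑ i, (fun j => x.1.2 j - x'.1.2 j) i * v i) ≤
        (p : ℚ) ^ (r + 2 * R) * pf p n y.2 v := by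
      intro v
      have h5 := (phalf_mid p n r x' x hN.2 v).1
      have h8 := hy4.1 v
      have h10 : (p : ℚ) ^ y.1 ≤ (p : ℚ) ^ R * (p : ℚ) ^ x.1.1 := by
        rw [← zpow_natCast, ← zpow_add₀ hpp.ne']
        apply zpow_le_zpow_right₀ (pp1 p).le
        have := (abs_le.1 h1).2
        linarith
      have hn := padicNorm.nonneg (p := p) (∑ i, (x.1.2 i - x'.1.2 i) * v i)
      calc (p : ℚ) ^ y.1 * padicNorm p (∑ i, (x.1.2 i - x'.1.2 i) * v i)
          ≤ (p : ℚ) ^ R * (p : ℚ) ^ x.1.1 * padicNorm p (∑ i, (x.1.2 i - x'.1.2 i) * v i) :=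
            mul_le_mul_of_nonneg_right h10 hn
        _ = (p : ℚ) ^ R * ((p : ℚ) ^ x.1.1 * padicNorm p (∑ i, (x.1.2 i - x'.1.2 i) * v i)) := by
            ring
        _ ≤ (p : ℚ) ^ R * ((p : ℚ) ^ r * pf p n x'.2 v) :=
            mul_le_mul_of_nonneg_left h5 (by positivity)
        _ ≤ (p : ℚ) ^ R * ((p : ℚ) ^ r * ((p : ℚ) ^ R * pf p n y.2 v)) := by
            apply mul_le_mul_of_nonneg_left _ (by positivity)
            exact mul_le_mul_of_nonneg_left h8 (by positivity)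
        _ = _ := by ring
    have h14 := WP_bdd p n y.1 y.2 (fun j => x.1.2 j - x'.1.2 j) _ (by positivity) key i
    rw [WP_sub] at h14
    exact h14
  · intro R t
    refine ⟨2 * R + t, ?_⟩
    have hpp := pp0 p
    have main : ∀ (y : ℤ × PX n) (x x' : PX (n + 1)),
        |y.1 - x.1.1| ≤ (R : ℤ) → NP p n R y.2 x.2 → |y.1 - x'.1.1| ≤ (R : ℤ) →
        NP p n R y.2 x'.2 → NZP p n t (WP p n y.1 y.2 x.1.2) (WP p n y.1 y.2 x'.1.2) →
        ∀ v, pf p (n + 1) x' v ≤ (p : ℚ) ^ (2 * R + t) * pf p (n + 1) x v := by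
      intro y x x' h1 hy2 h3 hy4 hZ v
      set w : Fin n → ℚ := fun i => v (Fin.succ i) with hw
      set s : ℚ := v 0 + ∑ i, x.1.2 i * w i with hs
      set d : ℚ := ∑ i, (x'.1.2 i - x.1.2 i) * w i with hd
      have e1 : pf p (n + 1) x' v =
          max ((p : ℚ) ^ x'.1.1 * padicNorm p (s + d)) (pf p n x'.2 w) := by
        show max ((p : ℚ) ^ x'.1.1 * padicNorm p (v 0 + ∑ i, x'.1.2 i * w i)) (pf p n x'.2 w) = _
        have : v 0 + ∑ i, x'.1.2 i * w i = s + d := by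
          rw [hs, hd]
          simp only [sub_mul, Finset.sum_sub_distrib]
          ring
        rw [this]
      have e2 : pf p (n + 1) x v = max ((p : ℚ) ^ x.1.1 * padicNorm p s) (pf p n x.2 w) := rfl
      have h5 : ∀ i, padicNorm p (WP p n y.1 y.2 (fun j => x'.1.2 j - x.1.2 j) i) ≤
          (p : ℚ) ^ t := by
        intro i
        rw [WP_sub]
        have h6 := hZ i
        rw [← padicNorm.neg, neg_sub] at h6
        exact h6
      have h7 := WP_bdd' p n y.1 y.2 (fun j => x'.1.2 j - x.1.2 j) _ (by positivity) h5 w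
      have h7' : (p : ℚ) ^ y.1 * padicNorm p d ≤ (p : ℚ) ^ t * pf p n y.2 w := h7
      have hq := pf_nonneg p n x.2 w
      have h8 : (p : ℚ) ^ x'.1.1 ≤ (p : ℚ) ^ R * (p : ℚ) ^ y.1 := by
        rw [← zpow_natCast, ← zpow_add₀ hpp.ne']
        apply zpow_le_zpow_right₀ (pp1 p).le
        have := (abs_le.1 h3).1
        linarith
      have h9 : (p : ℚ) ^ y.1 ≤ (p : ℚ) ^ R * (p : ℚ) ^ x.1.1 := by
        rw [← zpow_natCast, ← zpow_add₀ hpp.ne']
        apply zpow_le_zpow_right₀ (pp1 p).le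
        have := (abs_le.1 h1).2
        linarith
      have h10 : pf p n y.2 w ≤ (p : ℚ) ^ R * pf p n x.2 w := hy2.2 w
      have h11 : pf p n x'.2 w ≤ (p : ℚ) ^ R * pf p n y.2 w := hy4.1 w
      have hRt : (p : ℚ) ^ (2 * R + t) = (p : ℚ) ^ R * (p : ℚ) ^ R * (p : ℚ) ^ t := by ring
      have ht1 : (1 : ℚ) ≤ (p : ℚ) ^ t := one_le_pow₀ (pp1 p).le
      have hR0 : (0 : ℚ) < (p : ℚ) ^ R := by positivity
      have ht0 : (0 : ℚ) < (p : ℚ) ^ t := by positivity
      have hns := padicNorm.nonneg (p := p) s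
      have hx0 : (0 : ℚ) < (p : ℚ) ^ x.1.1 := zpow_pos hpp _
      have hy0 : (0 : ℚ) < (p : ℚ) ^ y.1 := zpow_pos hpp _
      have hx'0 : (0 : ℚ) < (p : ℚ) ^ x'.1.1 := zpow_pos hpp _
      rw [e1, e2]
      apply max_le
      · rcases le_max_iff.1 (padicNorm.nonarchimedean (p := p) (q := s) (r := d)) with h12 | h12
        · calc (p : ℚ) ^ x'.1.1 * padicNorm p (s + d) ≤ (p : ℚ) ^ x'.1.1 * padicNorm p s :=
                mul_le_mul_of_nonneg_left h12 hx'0.le
            _ ≤ ((p : ℚ) ^ R * ((p : ℚ) ^ R * (p : ℚ) ^ x.1.1)) * padicNorm p s := by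
                apply mul_le_mul_of_nonneg_right _ hns
                exact h8.trans (mul_le_mul_of_nonneg_left h9 hR0.le)
            _ = ((p : ℚ) ^ R * (p : ℚ) ^ R) * 1 * ((p : ℚ) ^ x.1.1 * padicNorm p s) := by ring
            _ ≤ ((p : ℚ) ^ R * (p : ℚ) ^ R) * (p : ℚ) ^ t * ((p : ℚ) ^ x.1.1 * padicNorm p s) := by
                apply mul_le_mul_of_nonneg_right _ (by positivity)
                exact mul_le_mul_of_nonneg_left ht1 (by positivity)
            _ ≤ (p : ℚ) ^ (2 * R + t) * _ := by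
                rw [hRt]
                exact mul_le_mul_of_nonneg_left (le_max_left _ _) (by positivity)
        · calc (p : ℚ) ^ x'.1.1 * padicNorm p (s + d) ≤ (p : ℚ) ^ x'.1.1 * padicNorm p d :=
                mul_le_mul_of_nonneg_left h12 hx'0.le
            _ ≤ ((p : ℚ) ^ R * (p : ℚ) ^ y.1) * padicNorm p d :=
                mul_le_mul_of_nonneg_right h8 (padicNorm.nonneg _)
            _ = (p : ℚ) ^ R * ((p : ℚ) ^ y.1 * padicNorm p d) := by ring
            _ ≤ (p : ℚ) ^ R * ((p : ℚ) ^ t * ((p : ℚ) ^ R * pf p n x.2 w)) := by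
                apply mul_le_mul_of_nonneg_left _ hR0.le
                exact h7'.trans (mul_le_mul_of_nonneg_left h10 ht0.le)
            _ = (p : ℚ) ^ (2 * R + t) * pf p n x.2 w := by rw [hRt]; ring
            _ ≤ (p : ℚ) ^ (2 * R + t) * _ :=
                mul_le_mul_of_nonneg_left (le_max_right _ _) (by positivity)
      · calc pf p n x'.2 w ≤ (p : ℚ) ^ R * ((p : ℚ) ^ R * pf p n x.2 w) :=
              h11.trans (mul_le_mul_of_nonneg_left h10 hR0.le)
          _ = ((p : ℚ) ^ R * (p : ℚ) ^ R) * 1 * pf p n x.2 w := by ring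
          _ ≤ ((p : ℚ) ^ R * (p : ℚ) ^ R) * (p : ℚ) ^ t * pf p n x.2 w := by
              apply mul_le_mul_of_nonneg_right _ hq
              exact mul_le_mul_of_nonneg_left ht1 (by positivity)
          _ ≤ (p : ℚ) ^ (2 * R + t) * _ := by
              rw [hRt]
              exact mul_le_mul_of_nonneg_left (le_max_right _ _) (by positivity)
    rintro y x x' ⟨hy1, hy2⟩ ⟨hy3, hy4⟩ hZ
    refine ⟨main y x x' hy1 hy2 hy3 hy4 hZ, main y x' x hy3 hy4 hy1 hy2 ?_⟩
    intro i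
    rw [← padicNorm.neg, neg_sub]
    exact hZ i

theorem acol_pforms : ∀ n : ℕ, ∃ C : Type, Finite C ∧ Nonempty C ∧ ACol (NP p n) C
  | 0 => ⟨Unit, inferInstance, inferInstance, fun _ => ⟨0, fun _ => (), fun x y _ =>
      ⟨fun v => by show (0 : ℚ) ≤ (p : ℚ) ^ 0 * 0; simp,
        fun v => by show (0 : ℚ) ≤ (p : ℚ) ^ 0 * 0; simp⟩⟩⟩
  | n + 1 => by
    obtain ⟨C, h1, h2, h3⟩ := acol_pforms n
    exact ⟨_, inferInstance, inferInstance, acol_pstep p n h3⟩

/-! ## Triangular coordinates exist -/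

theorem exists_px : ∀ (n : ℕ) (K : Type) [Finite K] (m : K → Fin n → ℚ),
    (∀ v : Fin n → ℚ, v ≠ 0 → ∃ k, ∑ i, m k i * v i ≠ 0) →
      ∃ x : PX n, ∀ (v : Fin n → ℚ) (c : ℚ), 0 ≤ c →
        (pf p n x v ≤ c ↔ ∀ k, padicNorm p (∑ i, m k i * v i) ≤ c)
  | 0, K, _, m, _ => ⟨(), fun v c hc => by simp [pf, hc]⟩
  | n + 1, K, _, m, hpos => by
    obtain ⟨k1, hk1⟩ := hpos (Fin.cons 1 0) (fun h => by
      have := congrFun h 0
      simp at this)
    have hk1' : m k1 0 ≠ 0 := by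
      rw [Fin.sum_univ_succ] at hk1
      simpa using hk1
    have : Nonempty K := ⟨k1⟩
    obtain ⟨k0, hk0⟩ := Finite.exists_max (fun k => padicNorm p (m k 0))
    have hm0 : m k0 0 ≠ 0 := by
      intro h
      have h1 := hk0 k1
      simp only [h, padicNorm.zero] at h1
      exact padicNorm.nonzero hk1' (le_antisymm h1 (padicNorm.nonneg _))
    let u : Fin n → ℚ := fun j => m k0 (Fin.succ j) / m k0 0
    let c' : K → ℚ := fun k => m k 0 / m k0 0
    have hc' : ∀ k, padicNorm p (c' k) ≤ 1 := by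
      intro k
      show padicNorm p (m k 0 / m k0 0) ≤ 1
      rw [padicNorm.div, div_le_one (lt_of_le_of_ne (padicNorm.nonneg _)
        (padicNorm.nonzero hm0).symm)]
      exact hk0 k
    let m' : K → Fin n → ℚ := fun k j => m k (Fin.succ j) - c' k * m k0 (Fin.succ j)
    have hid : ∀ (v : Fin (n + 1) → ℚ) k, ∑ i, m k i * v i =
        c' k * (∑ i, m k0 i * v i) + ∑ i, m' k i * v (Fin.succ i) := by
      intro v k
      rw [Fin.sum_univ_succ, Fin.sum_univ_succ]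
      have e1 : ∑ i, m' k i * v (Fin.succ i) = ∑ i : Fin n, m k (Fin.succ i) * v (Fin.succ i) -
          c' k * ∑ i : Fin n, m k0 (Fin.succ i) * v (Fin.succ i) := by
        rw [Finset.mul_sum, ← Finset.sum_sub_distrib]
        apply Finset.sum_congr rfl
        intro i _
        show (m k (Fin.succ i) - c' k * m k0 (Fin.succ i)) * v (Fin.succ i) = _
        ring
      have e2 : c' k * (m k0 0 * v 0) = m k 0 * v 0 := by
        show m k 0 / m k0 0 * (m k0 0 * v 0) = m k 0 * v 0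
        field_simp
      rw [e1, mul_add, e2]
      ring
    have hhead : ∀ v : Fin (n + 1) → ℚ, ∑ i, m k0 i * v i =
        m k0 0 * (v 0 + ∑ i, u i * v (Fin.succ i)) := by
      intro v
      rw [Fin.sum_univ_succ, mul_add, Finset.mul_sum]
      congr 1
      apply Finset.sum_congr rfl
      intro i _
      show m k0 (Fin.succ i) * v (Fin.succ i) = m k0 0 * (m k0 (Fin.succ i) / m k0 0 * _)
      field_simp
    have hpos' : ∀ v : Fin n → ℚ, v ≠ 0 → ∃ k, ∑ i, m' k i * v i ≠ 0 := by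
      intro v hv
      obtain ⟨k, hk⟩ := hpos (Fin.cons (-∑ i, u i * v i) v) (fun h => hv (by
        funext i
        have := congrFun h (Fin.succ i)
        simpa using this))
      refine ⟨k, ?_⟩
      rw [hid, hhead] at hk
      simpa using hk
    obtain ⟨x', hx'⟩ := exists_px n K m' hpos'
    refine ⟨((-padicValRat p (m k0 0), u), x'), ?_⟩
    intro v c hc
    have hα : (p : ℚ) ^ (-padicValRat p (m k0 0)) = padicNorm p (m k0 0) :=
      (padicNorm.eq_zpow_of_nonzero hm0).symm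
    have e3 : pf p (n + 1) ((-padicValRat p (m k0 0), u), x') v =
        max (padicNorm p (∑ i, m k0 i * v i)) (pf p n x' (fun i => v (Fin.succ i))) := by
      show max ((p : ℚ) ^ (-padicValRat p (m k0 0)) * padicNorm p (v 0 + ∑ i, u i *
        v (Fin.succ i))) (pf p n x' (fun i => v (Fin.succ i))) = _
      rw [hα, ← padicNorm.mul, ← hhead]
    rw [e3, max_le_iff, hx' _ _ hc]
    constructor
    · rintro ⟨h1, h2⟩ k
      rw [hid]
      refine padicNorm.nonarchimedean.trans (max_le ?_ (h2 k))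
      rw [padicNorm.mul]
      exact (mul_le_mul (hc' k) h1 (padicNorm.nonneg _) zero_le_one).trans (by rw [one_mul])
    · intro h
      refine ⟨h k0, fun k => ?_⟩
      have e4 : ∑ i, m' k i * v (Fin.succ i) = ∑ i, m k i * v i -
          c' k * (∑ i, m k0 i * v i) := by
        rw [hid v k]
        ring
      show padicNorm p (∑ i, m' k i * v (Fin.succ i)) ≤ c
      rw [e4]
      refine padicNorm.sub.trans (max_le (h k) ?_)
      rw [padicNorm.mul]
      exact (mul_le_mul (hc' k) (h k0) (padicNorm.nonneg _) zero_le_one).trans (by rw [one_mul])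

end

end Pool.Agent.VS
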