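import Mathlib

/-!
Residually finite groups: if all positive powers of `w` have conjugates in a finite set,
then `w` has finite order.
-/

namespace VS

/-- Residual finiteness, elementary form. -/
def ResFin (G : Type*) [Group G] : Prop :=
  ∀ g : G, g ≠ 1 → ∃ N : Subgroup G, N.Normal ∧ N.FiniteIndex ∧ g ∉ N

section

variable {G : Type*} [Group G]

/-- The order of `w` modulo `N`. -/
noncomputable def ordMod (w : G) (N : Subgroup G) [N.Normal] : ℕ :=
  orderOf (QuotientGroup.mk (s := N) w)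

theorem ordMod_pos (w : G) (N : Subgroup G) [N.Normal] [N.FiniteIndex] : 0 < ordMod w N := by
  unfold ordMod
  exact orderOf_pos _

theorem pow_mem_iff (w : G) (N : Subgroup G) [N.Normal] (m : ℕ) :
    w ^ m ∈ N ↔ ordMod w N ∣ m := by
  unfold ordMod
  rw [orderOf_dvd_iff_pow_eq_one, ← QuotientGroup.mk_pow, QuotientGroup.eq_one_iff]

/-- Divisors of `ordMod w N` are separated by conjugacy classes of powers. -/
theorem conj_dvd (w : G) (N : Subgroup G) [N.Normal] (a b : ℕ) (s : G)
    (x y : G) (hx : x⁻¹ * w ^ a * x = s) (hy : y⁻¹ * w ^ b * y = s) (k : ℕ) :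
    w ^ (a * k) ∈ N ↔ w ^ (b * k) ∈ N := by
  have h1 : w ^ a = x * s * x⁻¹ := by rw [← hx]; group
  have h2 : w ^ b = y * s * y⁻¹ := by rw [← hy]; group
  have e1 : w ^ (a * k) = x * s ^ k * x⁻¹ := by rw [pow_mul, h1, conj_pow]
  have e2 : w ^ (b * k) = y * s ^ k * y⁻¹ := by rw [pow_mul, h2, conj_pow]
  have key : ∀ z : G, z * s ^ k * z⁻¹ ∈ N ↔ s ^ k ∈ N := by
    intro z
    constructor
    · intro h
      have := (inferInstance : N.Normal).conj_mem _ h z⁻¹
      have e : z⁻¹ * (z * s ^ k * z⁻¹) * z⁻¹⁻¹ = s ^ k := by group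
      rwa [e] at this
    · intro h
      exact (inferInstance : N.Normal).conj_mem _ h z
  rw [e1, e2, key, key]

theorem card_divisors_le (w : G) (N : Subgroup G) [N.Normal] [N.FiniteIndex]
    (S : Finset G) (h : ∀ m : ℕ, 1 ≤ m → ∃ x : G, x⁻¹ * w ^ m * x ∈ S) :
    (ordMod w N).divisors.card ≤ S.card := by
  classical
  choose! x hx using h
  have hn : 0 < ordMod w N := ordMod_pos w N
  apply Finset.card_le_card_of_injOn (fun m => (x m)⁻¹ * w ^ m * x m)
  · intro m hm
    have hm' := Nat.pos_of_mem_divisors hm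
    exact hx m hm'
  · intro a ha b hb hab
    have ha' := Nat.dvd_of_mem_divisors (by simpa using ha)
    have hb' := Nat.dvd_of_mem_divisors (by simpa using hb)
    have hc := conj_dvd w N a b _ (x a) (x b) rfl hab.symm
    simp only [pow_mem_iff] at hc
    obtain ⟨c, hc1⟩ := ha'
    obtain ⟨d, hd1⟩ := hb'
    have hcpos : 0 < c := by
      rcases Nat.eq_zero_or_pos c with h0 | h0
      · rw [h0] at hc1; omega
      · exact h0
    have hdpos : 0 < d := by
      rcases Nat.eq_zero_or_pos d with h0 | h0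
      · rw [h0] at hd1; omega
      · exact h0
    have h1 : ordMod w N ∣ b * c := (hc c).1 (by rw [← hc1])
    have h2 : ordMod w N ∣ a * d := (hc d).2 (by rw [← hd1])
    have hapos : 0 < a := by
      rcases Nat.eq_zero_or_pos a with h0 | h0
      · rw [h0] at hc1; omega
      · exact h0
    have hbpos : 0 < b := by
      rcases Nat.eq_zero_or_pos b with h0 | h0
      · rw [h0] at hd1; omega
      · exact h0
    have h3 : a ∣ b := by
      rw [hc1] at h1
      exact Nat.dvd_of_mul_dvd_mul_right hcpos h1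
    have h4 : b ∣ a := by
      rw [hd1] at h2
      exact Nat.dvd_of_mul_dvd_mul_right hdpos h2
    exact Nat.dvd_antisymm h3 h4

/-- If `G` is residually finite and all positive powers of `w` have a conjugate in the finite
set `S`, then `w` has finite order. -/
theorem rf_finite_order (hG : ResFin G) (w : G) (S : Finset G)
    (h : ∀ m : ℕ, 1 ≤ m → ∃ x : G, x⁻¹ * w ^ m * x ∈ S) : IsOfFinOrder w := by
  classical
  -- the set of orders in finite quotients
  let T : Set ℕ := {n | ∃ (N : Subgroup G) (_ : N.Normal), N.FiniteIndex ∧ ordMod w N = n}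
  have hdiv : ∀ n ∈ T, 0 < n ∧ n.divisors.card ≤ S.card := by
    rintro n ⟨N, hN, hF, rfl⟩
    exact ⟨ordMod_pos w N, card_divisors_le w N S h⟩
  have hlcm : ∀ F : Finset ℕ, (∀ n ∈ F, n ∈ T) → ∃ L ∈ T, ∀ n ∈ F, n ∣ L := by
    intro F
    induction F using Finset.induction_on with
    | empty =>
      intro _
      refine ⟨ordMod w (⊤ : Subgroup G), ⟨⊤, inferInstance, inferInstance, rfl⟩, by simp⟩
    | insert a F haF ih =>
      intro hF
      obtain ⟨L, ⟨N, hN, hNF, hL⟩, hLF⟩ := ih (fun n hn => hF n (Finset.mem_insert_of_mem hn))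
      obtain ⟨M, hM, hMF, hMa⟩ := hF a (Finset.mem_insert_self _ _)
      haveI : (N ⊓ M).Normal := inferInstance
      haveI : (N ⊓ M).FiniteIndex := inferInstance
      refine ⟨ordMod w (N ⊓ M), ⟨N ⊓ M, inferInstance, inferInstance, rfl⟩, ?_⟩
      have hmem : w ^ (ordMod w (N ⊓ M)) ∈ N ⊓ M := (pow_mem_iff w (N ⊓ M) _).2 dvd_rfl
      have h1 : L ∣ ordMod w (N ⊓ M) := by
        rw [← hL]; exact (pow_mem_iff w N _).1 hmem.1
      have h2 : a ∣ ordMod w (N ⊓ M) := by
        rw [← hMa]; exact (pow_mem_iff w M _).1 hmem.2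
      intro n hn
      rcases Finset.mem_insert.1 hn with rfl | hn
      · exact h2
      · exact (hLF n hn).trans h1
  have hcard : ∀ F : Finset ℕ, (∀ n ∈ F, n ∈ T) → F.card ≤ S.card := by
    intro F hF
    obtain ⟨L, hLT, hL⟩ := hlcm F hF
    have hsub : F ⊆ L.divisors := by
      intro n hn
      exact Nat.mem_divisors.2 ⟨hL n hn, (hdiv L hLT).1.ne'⟩
    exact (Finset.card_le_card hsub).trans (hdiv L hLT).2
  have hfin : T.Finite := by
    by_contra hinf
    obtain ⟨F, hF, hFc⟩ := (show T.Infinite from hinf).exists_subset_card_eq (S.card + 1)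
    have := hcard F (fun n hn => hF hn)
    omega
  obtain ⟨L, hLT, hL⟩ := hlcm hfin.toFinset (fun n hn => by simpa using hn)
  have hLpos := (hdiv L hLT).1
  rw [isOfFinOrder_iff_pow_eq_one]
  refine ⟨L, hLpos, ?_⟩
  by_contra hne
  obtain ⟨N, hN, hNF, hNw⟩ := hG _ hne
  apply hNw
  rw [pow_mem_iff]
  exact hL _ (by simpa using ⟨N, hN, hNF, rfl⟩)

end

end VS
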