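import Pool.Agent.VS.PForms
import Pool.Agent.VS.DiscLin
/-!
# Finitely generated groups of rational matrices have finite asymptotic dimension
-/
namespace Pool.Agent.VS
open Matrix

theorem acol_pi {ι : Type} [Finite ι] {X C : ι → Type} {N : ∀ i, ℕ → X i → X i → Prop}
    (h : ∀ i, ACol (N i) (C i)) (hm : ∀ i r r' x y, r ≤ r' → N i r x y → N i r' x y) :
    ACol (fun r (x y : ∀ i, X i) => ∀ i, N i r (x i) (y i)) (∀ i, C i) := by
  classical
  have : Fintype ι := Fintype.ofFinite ι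
  intro r
  choose R c hc using fun i => h i r
  refine ⟨∑ i, R i, fun x i => c i (x i), ?_⟩
  intro x y hxy i
  apply hm i (R i) _ _ _ (Finset.single_le_sum (f := R) (fun _ _ => Nat.zero_le _)
    (Finset.mem_univ i))
  apply hc i
  exact rtg_lift (p := fun u v => c i u = c i v ∧ N i r u v) (fun x : ∀ i, X i => x i)
    (fun a b hab => ⟨congrFun hab.1 i, hab.2 i⟩) hxy

/-! ## Integrality -/

/-- A rational number whose norms are all at most `1` is an integer. -/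
theorem den_eq_one {z : ℚ} (h : ∀ p : ℕ, p.Prime → padicNorm p z ≤ 1) : z.den = 1 := by
  by_contra hne
  obtain ⟨p, hp, hpd⟩ := Nat.exists_prime_and_dvd hne
  have : Fact p.Prime := ⟨hp⟩
  have h1 := h p hp
  have hz : z ≠ 0 := by
    rintro rfl
    exact hne rfl
  have hnum : ¬ (p : ℤ) ∣ z.num := by
    intro hd
    have h2 : p ∣ z.num.natAbs := Int.natCast_dvd.1 hd
    have h3 := Nat.dvd_gcd h2 hpd
    rw [z.reduced.gcd_eq_one] at h3
    exact hp.one_lt.ne' (Nat.dvd_one.1 h3)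
  have h4 : padicNorm p (z.num : ℚ) = 1 := (padicNorm.int_eq_one_iff z.num).2 hnum
  have h5 : padicNorm p (z.den : ℚ) < 1 := (padicNorm.nat_lt_one_iff z.den).2 hpd
  have h6 : padicNorm p (z.num : ℚ) = padicNorm p z * padicNorm p (z.den : ℚ) := by
    rw [← padicNorm.mul, Rat.mul_den_eq_num]
  rw [h4] at h6
  have h7 := padicNorm.nonneg (p := p) (z.den : ℚ)
  have h8 := padicNorm.nonneg (p := p) z
  nlinarith

/-- Rational numbers with bounded absolute value and bounded denominators are finite in number. -/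
theorem finite_rat (S : Finset ℕ) (R : ℕ) (B : ℝ) : {q : ℚ | |(q : ℝ)| ≤ B ∧
    (∀ p ∈ S, p.Prime → padicNorm p q ≤ (p : ℚ) ^ R) ∧
    (∀ p, p.Prime → p ∉ S → padicNorm p q ≤ 1)}.Finite := by
  classical
  set M : ℕ := ∏ p ∈ S.filter Nat.Prime, p ^ R with hM
  have hMpos : 0 < M := Finset.prod_pos fun p hp => pow_pos (Finset.mem_filter.1 hp).2.pos _
  have hMq : (M : ℚ) ≠ 0 := by exact_mod_cast hMpos.ne'
  apply Set.Finite.of_injOn (f := fun q : ℚ => (q * M).num)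
    (t := Set.Icc (-⌈B * M⌉) ⌈B * M⌉) _ _ (Set.finite_Icc _ _)
  · rintro q ⟨h1, h2, h3⟩
    have hden : (q * M).den = 1 := by
      apply den_eq_one
      intro p hp
      have : Fact p.Prime := ⟨hp⟩
      rw [padicNorm.mul]
      by_cases hpS : p ∈ S
      · have h4 := h2 p hpS hp
        have h5 : padicNorm p (M : ℚ) ≤ ((p : ℚ) ^ R)⁻¹ := by
          have hdv : p ^ R ∣ M := Finset.dvd_prod_of_mem (fun p => p ^ R)
            (Finset.mem_filter.2 ⟨hpS, hp⟩)
          obtain ⟨c, hc⟩ := hdv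
          rw [hc]
          push_cast
          rw [padicNorm.mul]
          have h6 : padicNorm p ((p : ℚ) ^ R) = ((p : ℚ) ^ R)⁻¹ := by
            have := padic_zpow p (R : ℤ)
            rw [_root_.zpow_neg, zpow_natCast] at this
            exact this
          rw [h6]
          have h7 := padicNorm.of_nat (p := p) c
          have h8 : (0 : ℚ) ≤ ((p : ℚ) ^ R)⁻¹ := by positivity
          exact mul_le_of_le_one_right h8 h7
        have hpp : (0 : ℚ) < (p : ℚ) ^ R := pow_pos (pp0 p) _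
        calc padicNorm p q * padicNorm p (M : ℚ) ≤ (p : ℚ) ^ R * ((p : ℚ) ^ R)⁻¹ :=
              mul_le_mul h4 h5 (padicNorm.nonneg _) hpp.le
          _ = 1 := mul_inv_cancel₀ hpp.ne'
      · exact mul_le_one₀ (h3 p hp hpS) (padicNorm.nonneg _) (padicNorm.of_nat _)
    have hnum : (((q * M).num : ℤ) : ℝ) = (q : ℝ) * M := by
      have h4 : ((q * M).num : ℚ) = q * M := Rat.coe_int_num_of_den_eq_one hden
      exact_mod_cast congrArg (fun z : ℚ => (z : ℝ)) h4
    have hMR : (0 : ℝ) < M := by exact_mod_cast hMpos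
    have h5 : |(((q * M).num : ℤ) : ℝ)| ≤ B * M := by
      rw [hnum, abs_mul, abs_of_pos hMR]
      exact mul_le_mul_of_nonneg_right h1 hMR.le
    rw [abs_le] at h5
    have h6 := Int.le_ceil (B * M)
    constructor
    · have : (-(⌈B * M⌉ : ℝ)) ≤ (((q * M).num : ℤ) : ℝ) := by linarith [h5.1]
      exact_mod_cast this
    · have : (((q * M).num : ℤ) : ℝ) ≤ (⌈B * M⌉ : ℝ) := by linarith [h5.2]
      exact_mod_cast this
  · rintro q ⟨h1, h2, h3⟩ q' ⟨h1', h2', h3'⟩ heq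
    have key : ∀ q : ℚ, (∀ p ∈ S, p.Prime → padicNorm p q ≤ (p : ℚ) ^ R) →
        (∀ p, p.Prime → p ∉ S → padicNorm p q ≤ 1) → ((q * M).num : ℚ) = q * M := by
      intro q h2 h3
      apply Rat.coe_int_num_of_den_eq_one
      apply den_eq_one
      intro p hp
      have : Fact p.Prime := ⟨hp⟩
      rw [padicNorm.mul]
      by_cases hpS : p ∈ S
      · have h4 := h2 p hpS hp
        have h5 : padicNorm p (M : ℚ) ≤ ((p : ℚ) ^ R)⁻¹ := by
          have hdv : p ^ R ∣ M := Finset.dvd_prod_of_mem (fun p => p ^ R)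
            (Finset.mem_filter.2 ⟨hpS, hp⟩)
          obtain ⟨c, hc⟩ := hdv
          rw [hc]
          push_cast
          rw [padicNorm.mul]
          have h6 : padicNorm p ((p : ℚ) ^ R) = ((p : ℚ) ^ R)⁻¹ := by
            have := padic_zpow p (R : ℤ)
            rw [_root_.zpow_neg, zpow_natCast] at this
            exact this
          rw [h6]
          have h7 := padicNorm.of_nat (p := p) c
          have h8 : (0 : ℚ) ≤ ((p : ℚ) ^ R)⁻¹ := by positivity
          exact mul_le_of_le_one_right h8 h7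
        have hpp : (0 : ℚ) < (p : ℚ) ^ R := pow_pos (pp0 p) _
        calc padicNorm p q * padicNorm p (M : ℚ) ≤ (p : ℚ) ^ R * ((p : ℚ) ^ R)⁻¹ :=
              mul_le_mul h4 h5 (padicNorm.nonneg _) hpp.le
          _ = 1 := mul_inv_cancel₀ hpp.ne'
      · exact mul_le_one₀ (h3 p hp hpS) (padicNorm.nonneg _) (padicNorm.of_nat _)
    have e1 := key q h2 h3
    have e2 := key q' h2' h3'
    have e3 : q * M = q' * M := by
      rw [← e1, ← e2]
      exact congrArg (fun z : ℤ => (z : ℚ)) heq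
    exact mul_right_cancel₀ hMq e3

/-! ## Rational matrices -/

section
variable {n : ℕ}

theorem exists_pcoord (p : ℕ) [hp : Fact p.Prime] (g : GL (Fin n) ℚ) :
    ∃ x : PX n, ∀ (v : Fin n → ℚ) (c : ℚ), 0 ≤ c →
      (pf p n x v ≤ c ↔ ∀ k, padicNorm p ((v ᵥ* (g : Matrix (Fin n) (Fin n) ℚ)) k) ≤ c) := by
  obtain ⟨x, hx⟩ := exists_px p n (Fin n) (fun k i => (g : Matrix (Fin n) (Fin n) ℚ) i k) (by
    intro v hv
    by_contra hcon
    push Not at hcon
    apply hv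
    have h1 : v ᵥ* (g : Matrix (Fin n) (Fin n) ℚ) = 0 := by
      funext k
      show ∑ i, v i * (g : Matrix (Fin n) (Fin n) ℚ) i k = 0
      rw [← hcon k]
      apply Finset.sum_congr rfl
      intro i _
      ring
    have h4 : v ᵥ* (g : Matrix (Fin n) (Fin n) ℚ) ᵥ*
        ((g⁻¹ : GL (Fin n) ℚ) : Matrix (Fin n) (Fin n) ℚ) = v := by
      rw [Matrix.vecMul_vecMul, Units.mul_inv, Matrix.vecMul_one]
    rw [h1, Matrix.zero_vecMul] at h4
    exact h4.symm)
  refine ⟨x, fun v c hc => ?_⟩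
  rw [hx v c hc]
  apply forall_congr'
  intro k
  have e : (v ᵥ* (g : Matrix (Fin n) (Fin n) ℚ)) k =
      ∑ i, (g : Matrix (Fin n) (Fin n) ℚ) i k * v i := by
    show ∑ i, v i * (g : Matrix (Fin n) (Fin n) ℚ) i k = _
    apply Finset.sum_congr rfl
    intro i _
    ring
  rw [e]

/-- The real matrix of a rational matrix. -/
noncomputable def toR : GL (Fin n) ℚ →* GL (Fin n) ℝ :=
  Matrix.GeneralLinearGroup.map (algebraMap ℚ ℝ)

theorem toR_apply (g : GL (Fin n) ℚ) (i j : Fin n) :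
    (toR g : Matrix (Fin n) (Fin n) ℝ) i j = (((g : Matrix (Fin n) (Fin n) ℚ) i j : ℚ) : ℝ) := rfl

end

/-- Finitely generated groups of rational matrices have finite asymptotic dimension. -/
theorem ratlin_asdim {G : Type} [Group G] (hfg : Group.FG G) {n : ℕ} (ρ : G →* GL (Fin n) ℚ)
    (hρ : Function.Injective ρ) : ∃ D : ℕ, VNP.AsdimLE G D := by
  classical
  -- primes in the denominators
  obtain ⟨T, hT1, hT2⟩ := (Group.fg_iff (G := G)).1 hfg
  obtain ⟨S, hS⟩ : ∃ S : Finset ℕ, ∀ g : G, ∀ p : ℕ, p.Prime → p ∉ S → ∀ i j,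
      padicNorm p ((ρ g : Matrix (Fin n) (Fin n) ℚ) i j) ≤ 1 := by
    let E : Set ℚ := ⋃ s ∈ T, ⋃ i, ⋃ j, {(ρ s : Matrix (Fin n) (Fin n) ℚ) i j,
      (ρ s⁻¹ : Matrix (Fin n) (Fin n) ℚ) i j}
    have hE : E.Finite := hT2.biUnion fun s _ => Set.finite_iUnion fun i =>
      Set.finite_iUnion fun j => (Set.finite_singleton _).insert _
    refine ⟨hE.toFinset.biUnion (fun q => q.den.primeFactors), ?_⟩
    intro g p hp hpS
    have : Fact p.Prime := ⟨hp⟩
    have hq : ∀ q ∈ E, padicNorm p q ≤ 1 := by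
      intro q hq
      have h1 : ¬ p ∣ q.den := by
        intro h
        apply hpS
        rw [Finset.mem_biUnion]
        exact ⟨q, hE.mem_toFinset.2 hq, Nat.mem_primeFactors.2 ⟨hp, h, q.den_nz⟩⟩
      have h2 : padicNorm p (q.den : ℚ) = 1 := (padicNorm.nat_eq_one_iff q.den).2 h1
      have h3 : padicNorm p (q.num : ℚ) = padicNorm p q * padicNorm p (q.den : ℚ) := by
        rw [← padicNorm.mul, Rat.mul_den_eq_num]
      rw [h2, mul_one] at h3
      rw [← h3]
      exact padicNorm.of_int q.num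
    have hclos : ∀ g ∈ Subgroup.closure T,
        (∀ i j, padicNorm p ((ρ g : Matrix (Fin n) (Fin n) ℚ) i j) ≤ 1) ∧
        ∀ i j, padicNorm p ((ρ g⁻¹ : Matrix (Fin n) (Fin n) ℚ) i j) ≤ 1 := by
      intro g hg
      induction hg using Subgroup.closure_induction with
      | mem x hx =>
        exact ⟨fun i j => hq _ (Set.mem_biUnion hx (Set.mem_iUnion.2 ⟨i, Set.mem_iUnion.2
          ⟨j, Or.inl rfl⟩⟩)), fun i j => hq _ (Set.mem_biUnion hx (Set.mem_iUnion.2 ⟨i,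
          Set.mem_iUnion.2 ⟨j, Or.inr rfl⟩⟩))⟩
      | one =>
        rw [inv_one, map_one, Units.val_one]
        have : ∀ i j, padicNorm p ((1 : Matrix (Fin n) (Fin n) ℚ) i j) ≤ 1 := by
          intro i j
          by_cases h : i = j
          · rw [h, Matrix.one_apply_eq, padicNorm.one]
          · rw [Matrix.one_apply_ne h, padicNorm.zero]; exact zero_le_one
        exact ⟨this, this⟩
      | mul x y _ _ hx hy =>
        constructor
        · intro i j
          rw [map_mul, Units.val_mul, Matrix.mul_apply]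
          apply padicNorm.sum_le' _ zero_le_one
          intro k _
          rw [padicNorm.mul]
          exact mul_le_one₀ (hx.1 i k) (padicNorm.nonneg _) (hy.1 k j)
        · intro i j
          rw [_root_.mul_inv_rev, map_mul, Units.val_mul, Matrix.mul_apply]
          apply padicNorm.sum_le' _ zero_le_one
          intro k _
          rw [padicNorm.mul]
          exact mul_le_one₀ (hy.2 i k) (padicNorm.nonneg _) (hx.2 k j)
      | inv x _ hx =>
        exact ⟨hx.2, by rw [inv_inv]; exact hx.1⟩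
    exact (hclos g (by rw [hT1]; exact Subgroup.mem_top g)).1
  -- the places
  let I := {p : ℕ // p ∈ S ∧ p.Prime}
  have hI : Finite I := Set.Finite.subset (s := (S : Set ℕ)) S.finite_toSet (fun p hp => hp.1)
  have hfact : ∀ i : I, Fact (i.1).Prime := fun i => ⟨i.2.2⟩
  choose C hC1 hC2 hC3 using fun i : I => (haveI := hfact i; acol_pforms i.1 n)
  obtain ⟨C0, hC01, hC02, hC03⟩ := acol_forms n
  have hpi := acol_pi (ι := I) (X := fun _ => PX n) (C := C) (N := fun i => NP i.1 n) hC3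
    (fun i => haveI := hfact i; NP_mono i.1 n)
  have hall := acol_prod hC03 hpi (NQ_mono n)
    (fun r r' x y hr h i => (haveI := hfact i; NP_mono i.1 n r r' _ _ hr (h i)))
  have hfinC : Finite (C0 × ∀ i, C i) := inferInstance
  have hneC : Nonempty (C0 × ∀ i, C i) := inferInstance
  have hFt : Fintype (C0 × ∀ i, C i) := Fintype.ofFinite _
  have hcard : 0 < Fintype.card (C0 × ∀ i, C i) := Fintype.card_pos
  obtain ⟨D, hD⟩ : ∃ D, Fintype.card (C0 × ∀ i, C i) = D + 1 :=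
    ⟨Fintype.card (C0 × ∀ i, C i) - 1, by omega⟩
  have e : (C0 × ∀ i, C i) ≃ Fin (D + 1) := Fintype.equivFinOfCardEq hD
  choose X hX using (fun g : GL (Fin n) ℝ => exists_coord g)
  choose Y hY using fun (i : I) (g : GL (Fin n) ℚ) => (haveI := hfact i; exists_pcoord i.1 g)
  refine ⟨D, ?_⟩
  intro F hF
  -- bounds for the steps
  obtain ⟨B, hB⟩ : ∃ B : ℝ, ∀ f ∈ F, ∀ i j, |(toR (ρ f) : Matrix (Fin n) (Fin n) ℝ) i j| ≤ B ∧
      |(toR (ρ f⁻¹) : Matrix (Fin n) (Fin n) ℝ) i j| ≤ B := by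
    have h1 : ∀ i j, ∃ B : ℝ, ∀ f ∈ F, |(toR (ρ f) : Matrix (Fin n) (Fin n) ℝ) i j| ≤ B ∧
        |(toR (ρ f⁻¹) : Matrix (Fin n) (Fin n) ℝ) i j| ≤ B := by
      intro i j
      obtain ⟨B1, hB1⟩ := (hF.image (fun f => |(toR (ρ f) : Matrix (Fin n) (Fin n) ℝ)
        i j|)).bddAbove
      obtain ⟨B2, hB2⟩ := (hF.image (fun f => |(toR (ρ f⁻¹) : Matrix (Fin n) (Fin n) ℝ)
        i j|)).bddAbove
      exact ⟨max B1 B2, fun f hf => ⟨(hB1 ⟨f, hf, rfl⟩).trans (le_max_left _ _),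
        (hB2 ⟨f, hf, rfl⟩).trans (le_max_right _ _)⟩⟩
    choose b hb using h1
    refine ⟨∑ i, ∑ j, |b i j|, fun f hf i j => ?_⟩
    have h2 : b i j ≤ ∑ i, ∑ j, |b i j| := by
      calc b i j ≤ |b i j| := le_abs_self _
        _ ≤ ∑ j, |b i j| := Finset.single_le_sum (f := fun j => |b i j|)
            (fun _ _ => abs_nonneg _) (Finset.mem_univ j)
        _ ≤ _ := Finset.single_le_sum (f := fun i => ∑ j, |b i j|)
            (fun _ _ => Finset.sum_nonneg fun _ _ => abs_nonneg _) (Finset.mem_univ i)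
    exact ⟨(hb i j f hf).1.trans h2, (hb i j f hf).2.trans h2⟩
  obtain ⟨r1, hr1⟩ := exists_nat_ge (Real.log (n * (n * B ^ 2) + 1))
  -- p-adic bounds
  obtain ⟨r2, hr2⟩ : ∃ r2 : ℕ, ∀ f ∈ F, ∀ p : I, ∀ i j,
      padicNorm p.1 ((ρ f : Matrix (Fin n) (Fin n) ℚ) i j) ≤ (p.1 : ℚ) ^ r2 ∧
      padicNorm p.1 ((ρ f⁻¹ : Matrix (Fin n) (Fin n) ℚ) i j) ≤ (p.1 : ℚ) ^ r2 := by
    have h1 : ∀ (q : ℚ) (p : I), ∃ r : ℕ, padicNorm p.1 q ≤ (p.1 : ℚ) ^ r := by
      intro q p
      have := hfact p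
      obtain ⟨r, hr⟩ := pow_unbounded_of_one_lt (padicNorm p.1 q) (pp1 p.1)
      exact ⟨r, hr.le⟩
    choose r hr using h1
    have hFt2 : Fintype I := Fintype.ofFinite I
    refine ⟨∑ f ∈ hF.toFinset, ∑ p : I, ∑ i, ∑ j, (r ((ρ f : Matrix (Fin n) (Fin n) ℚ) i j) p +
      r ((ρ f⁻¹ : Matrix (Fin n) (Fin n) ℚ) i j) p), ?_⟩
    intro f hf p i j
    have := hfact p
    have h2 : r ((ρ f : Matrix (Fin n) (Fin n) ℚ) i j) p +
        r ((ρ f⁻¹ : Matrix (Fin n) (Fin n) ℚ) i j) p ≤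
        ∑ f ∈ hF.toFinset, ∑ p : I, ∑ i, ∑ j, (r ((ρ f : Matrix (Fin n) (Fin n) ℚ) i j) p +
          r ((ρ f⁻¹ : Matrix (Fin n) (Fin n) ℚ) i j) p) := by
      refine le_trans ?_ (Finset.single_le_sum (f := fun f => ∑ p : I, ∑ i, ∑ j,
        (r ((ρ f : Matrix (Fin n) (Fin n) ℚ) i j) p +
          r ((ρ f⁻¹ : Matrix (Fin n) (Fin n) ℚ) i j) p)) (fun _ _ => Nat.zero_le _)
        (hF.mem_toFinset.2 hf))
      refine le_trans ?_ (Finset.single_le_sum (f := fun p : I => ∑ i, ∑ j,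
        (r ((ρ f : Matrix (Fin n) (Fin n) ℚ) i j) p +
          r ((ρ f⁻¹ : Matrix (Fin n) (Fin n) ℚ) i j) p)) (fun _ _ => Nat.zero_le _)
        (Finset.mem_univ p))
      refine le_trans ?_ (Finset.single_le_sum (f := fun i => ∑ j,
        (r ((ρ f : Matrix (Fin n) (Fin n) ℚ) i j) p +
          r ((ρ f⁻¹ : Matrix (Fin n) (Fin n) ℚ) i j) p)) (fun _ _ => Nat.zero_le _)
        (Finset.mem_univ i))
      exact Finset.single_le_sum (f := fun j =>
        (r ((ρ f : Matrix (Fin n) (Fin n) ℚ) i j) p +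
          r ((ρ f⁻¹ : Matrix (Fin n) (Fin n) ℚ) i j) p)) (fun _ _ => Nat.zero_le _)
        (Finset.mem_univ j)
    constructor
    · exact (hr _ p).trans (pow_le_pow_right₀ (pp1 p.1).le (by omega))
    · exact (hr _ p).trans (pow_le_pow_right₀ (pp1 p.1).le (by omega))
  set r := max r1 r2 with hrd
  have hrE : (n * (n * B ^ 2)) ≤ Real.exp r := by
    have h1 : (0 : ℝ) < n * (n * B ^ 2) + 1 := by positivity
    have h2 : (n * (n * B ^ 2) + 1 : ℝ) ≤ Real.exp r := by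
      rw [← Real.exp_log h1]
      apply Real.exp_le_exp.2 (hr1.trans _)
      exact_mod_cast le_max_left r1 r2
    linarith
  obtain ⟨R, c, hc⟩ := hall r
  let Z : G → QX n × (I → PX n) := fun g => (X (toR (ρ g)), fun i => Y i (ρ g))
  -- the bounded set
  let K : Set G := {g : G | (∀ i j, |(toR (ρ g) : Matrix (Fin n) (Fin n) ℝ) i j| ≤ Real.exp R) ∧
    ∀ p : I, ∀ i j, padicNorm p.1 ((ρ g : Matrix (Fin n) (Fin n) ℚ) i j) ≤ (p.1 : ℚ) ^ R}
  have hK : K.Finite := by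
    have hfq := finite_rat S R (Real.exp R)
    set Q := {q : ℚ | |(q : ℝ)| ≤ Real.exp R ∧
      (∀ p ∈ S, p.Prime → padicNorm p q ≤ (p : ℚ) ^ R) ∧
      (∀ p, p.Prime → p ∉ S → padicNorm p q ≤ 1)} with hQ
    have h1 : {M : Matrix (Fin n) (Fin n) ℚ | ∀ i j, M i j ∈ Q}.Finite := by
      have h2 : {M : Fin n → Fin n → ℚ | ∀ i, M i ∈ {r : Fin n → ℚ | ∀ j, r j ∈ Q}}.Finite :=
        Set.Finite.pi' (fun _ => Set.Finite.pi' (fun _ => hfq))
      exact h2
    apply Set.Finite.of_injOn (f := fun g : G => ((ρ g : GL (Fin n) ℚ) :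
      Matrix (Fin n) (Fin n) ℚ)) (t := {M : Matrix (Fin n) (Fin n) ℚ | ∀ i j, M i j ∈ Q}) _ _ h1
    · rintro g ⟨hg1, hg2⟩ i j
      refine ⟨?_, fun p hpS hp => hg2 ⟨p, hpS, hp⟩ i j, fun p hp hpS => hS g p hp hpS i j⟩
      have := hg1 i j
      rwa [toR_apply] at this
    · intro g _ g' _ h
      exact hρ (Units.ext h)
  refine ⟨K, hK, fun g => e (c (Z g)), ?_⟩
  intro x y hxy
  -- real comparison
  have half1 : ∀ u v : G, (∀ i j, |(toR (ρ (u⁻¹ * v)) : Matrix (Fin n) (Fin n) ℝ) i j| ≤ B) →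
      ∀ w, qf n (X (toR (ρ v))) w ≤ Real.exp r * qf n (X (toR (ρ u))) w := by
    intro u v huv w
    rw [hX, hX]
    have e1 : w ᵥ* (toR (ρ v) : Matrix (Fin n) (Fin n) ℝ) =
        (w ᵥ* (toR (ρ u) : Matrix (Fin n) (Fin n) ℝ)) ᵥ*
          (toR (ρ (u⁻¹ * v)) : Matrix (Fin n) (Fin n) ℝ) := by
      rw [Matrix.vecMul_vecMul, ← Units.val_mul, ← map_mul, ← map_mul, mul_inv_cancel_left]
    rw [e1]
    exact (nsq_vecMul_le _ _ B huv).trans
      (mul_le_mul_of_nonneg_right hrE (nsq_nonneg _))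
  have half2 : ∀ u v : G, (∀ w, qf n (X (toR (ρ v))) w ≤ Real.exp R * qf n (X (toR (ρ u))) w) →
      ∀ i j, |(toR (ρ (u⁻¹ * v)) : Matrix (Fin n) (Fin n) ℝ) i j| ≤ Real.exp R := by
    intro u v huv i j
    have h1 := huv ((Pi.single i 1) ᵥ* (toR (ρ u⁻¹) : Matrix (Fin n) (Fin n) ℝ))
    rw [hX, hX, Matrix.vecMul_vecMul, Matrix.vecMul_vecMul, ← Units.val_mul, ← Units.val_mul,
      ← map_mul, ← map_mul, ← map_mul, ← map_mul, inv_mul_cancel, map_one, map_one,
      Units.val_one, Matrix.vecMul_one] at h1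
    have h2 : nsq (Pi.single i 1 : Fin n → ℝ) = 1 := by
      unfold nsq
      rw [Finset.sum_eq_single i]
      · simp
      · intro k _ hk
        simp [hk]
      · intro h; exact absurd (Finset.mem_univ i) h
    rw [h2, mul_one] at h1
    have h3 : ((toR (ρ (u⁻¹ * v)) : Matrix (Fin n) (Fin n) ℝ) i j) ^ 2 ≤
        nsq ((Pi.single i 1 : Fin n → ℝ) ᵥ* (toR (ρ (u⁻¹ * v)) :
          Matrix (Fin n) (Fin n) ℝ)) := by
      have h4 : ((Pi.single i 1 : Fin n → ℝ) ᵥ*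
          (toR (ρ (u⁻¹ * v)) : Matrix (Fin n) (Fin n) ℝ)) j =
          (toR (ρ (u⁻¹ * v)) : Matrix (Fin n) (Fin n) ℝ) i j := by
        rw [Matrix.single_one_vecMul]
        rfl
      rw [← h4]
      exact Finset.single_le_sum
        (f := fun j => ((Pi.single i 1 : Fin n → ℝ) ᵥ*
          (toR (ρ (u⁻¹ * v)) : Matrix (Fin n) (Fin n) ℝ)) j ^ 2)
        (fun _ _ => sq_nonneg _) (Finset.mem_univ j)
    have h5 : 1 ≤ Real.exp (R : ℝ) := Real.one_le_exp (by positivity)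
    have h6 := h3.trans h1
    rw [abs_le]
    constructor <;> nlinarith
  -- p-adic comparison
  have phalf1 : ∀ (p : I) (u v : G),
      (∀ i j, padicNorm p.1 ((ρ (u⁻¹ * v) : Matrix (Fin n) (Fin n) ℚ) i j) ≤ (p.1 : ℚ) ^ r2) →
      ∀ w, pf p.1 n (Y p (ρ v)) w ≤ (p.1 : ℚ) ^ r * pf p.1 n (Y p (ρ u)) w := by
    intro p u v huv w
    have := hfact p
    have hnn := pf_nonneg p.1 n (Y p (ρ u)) w
    have hpr : (0 : ℚ) ≤ (p.1 : ℚ) ^ r := by positivity
    rw [hY p (ρ v) w _ (mul_nonneg hpr hnn)]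
    intro k
    have e1 : w ᵥ* (ρ v : Matrix (Fin n) (Fin n) ℚ) =
        (w ᵥ* (ρ u : Matrix (Fin n) (Fin n) ℚ)) ᵥ*
          (ρ (u⁻¹ * v) : Matrix (Fin n) (Fin n) ℚ) := by
      rw [Matrix.vecMul_vecMul, ← Units.val_mul, ← map_mul, mul_inv_cancel_left]
    rw [e1]
    have h1 := (hY p (ρ u) w _ hnn).1 le_rfl
    show padicNorm p.1 (∑ i, (w ᵥ* (ρ u : Matrix (Fin n) (Fin n) ℚ)) i *
      (ρ (u⁻¹ * v) : Matrix (Fin n) (Fin n) ℚ) i k) ≤ _
    apply padicNorm.sum_le' _ (mul_nonneg hpr hnn)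
    intro i _
    rw [padicNorm.mul, mul_comm]
    apply mul_le_mul _ (h1 i) (padicNorm.nonneg _) hpr
    exact (huv i k).trans (pow_le_pow_right₀ (pp1 p.1).le (le_max_right _ _))
  have phalf2 : ∀ (p : I) (u v : G),
      (∀ w, pf p.1 n (Y p (ρ v)) w ≤ (p.1 : ℚ) ^ R * pf p.1 n (Y p (ρ u)) w) →
      ∀ i j, padicNorm p.1 ((ρ (u⁻¹ * v) : Matrix (Fin n) (Fin n) ℚ) i j) ≤ (p.1 : ℚ) ^ R := by
    intro p u v huv i j
    have := hfact p
    set w : Fin n → ℚ := (Pi.single i 1) ᵥ* (ρ u⁻¹ : Matrix (Fin n) (Fin n) ℚ) with hw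
    have hpR : (0 : ℚ) ≤ (p.1 : ℚ) ^ R := by positivity
    have h1 : pf p.1 n (Y p (ρ u)) w ≤ 1 := by
      rw [hY p (ρ u) w 1 zero_le_one]
      intro k
      have e1 : w ᵥ* (ρ u : Matrix (Fin n) (Fin n) ℚ) = Pi.single i 1 := by
        rw [hw, Matrix.vecMul_vecMul, ← Units.val_mul, ← map_mul, inv_mul_cancel, map_one,
          Units.val_one, Matrix.vecMul_one]
      rw [e1]
      by_cases h : k = i
      · rw [h, Pi.single_eq_same, padicNorm.one]
      · rw [Pi.single_eq_of_ne h, padicNorm.zero]; exact zero_le_one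
    have h2 : pf p.1 n (Y p (ρ v)) w ≤ (p.1 : ℚ) ^ R :=
      (huv w).trans (mul_le_of_le_one_right hpR h1)
    have h3 := (hY p (ρ v) w _ hpR).1 h2 j
    have e2 : (w ᵥ* (ρ v : Matrix (Fin n) (Fin n) ℚ)) j =
        (ρ (u⁻¹ * v) : Matrix (Fin n) (Fin n) ℚ) i j := by
      rw [hw, Matrix.vecMul_vecMul, ← Units.val_mul, ← map_mul, Matrix.single_one_vecMul]
      rfl
    rwa [e2] at h3
  have hchain : Relation.ReflTransGen (fun u v => c u = c v ∧
      (NQ n r u.1 v.1 ∧ ∀ i : I, NP i.1 n r (u.2 i) (v.2 i))) (Z x) (Z y) := by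
    refine rtg_lift Z ?_ hxy
    rintro u v ⟨h1, h2⟩
    have e2 : (u⁻¹ * v)⁻¹ = v⁻¹ * u := by group
    refine ⟨e.injective h1, ⟨half1 u v (fun i j => (hB _ h2 i j).1),
      half1 v u (fun i j => ?_)⟩, fun p => ⟨phalf1 p u v (fun i j => (hr2 _ h2 p i j).1),
      phalf1 p v u (fun i j => ?_)⟩⟩
    · have h3 := (hB _ h2 i j).2
      rwa [e2] at h3
    · have h3 := (hr2 _ h2 p i j).2
      rwa [e2] at h3
  have hN := hc _ _ hchain
  exact ⟨half2 x y hN.1.1, fun p => phalf2 p x y (hN.2 p).1⟩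

end Pool.Agent.VS
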