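import Pool.Agent.VS.AsdLin
import Pool.Agent.VN.ResFin
/-!
# Groups of integer matrices

Subgroups of `GL_n(ℤ)` have finite asymptotic dimension and are residually finite. Every subgroup
of finite index of `SL_n(ℤ)`, `n ≥ 3`, contains a commutator of infinite order which commutes with
its two factors.
-/
namespace Pool.Agent.VS
open Matrix

/-- Groups which embed in `GL_n(ℤ)` have finite asymptotic dimension. -/
theorem intlin_asdim {G : Type} [Group G] {n : ℕ} (ι : G →* GL (Fin n) ℤ)
    (hι : Function.Injective ι) : ∃ D : ℕ, VNP.AsdimLE G D := by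
  refine asdim_linear ((Matrix.GeneralLinearGroup.map (Int.castRingHom ℝ)).comp ι) ?_
  intro B
  have h1 : {M : Matrix (Fin n) (Fin n) ℤ | ∀ i j, M i j ∈ Set.Icc (-⌈B⌉) ⌈B⌉}.Finite := by
    have h2 : {M : Fin n → Fin n → ℤ | ∀ i, M i ∈ {r : Fin n → ℤ | ∀ j, r j ∈
        Set.Icc (-⌈B⌉) ⌈B⌉}}.Finite :=
      Set.Finite.pi' (fun _ => Set.Finite.pi' (fun _ => Set.finite_Icc _ _))
    exact h2
  apply Set.Finite.of_injOn (f := fun g : G => ((ι g : GL (Fin n) ℤ) : Matrix (Fin n) (Fin n) ℤ))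
    (t := {M : Matrix (Fin n) (Fin n) ℤ | ∀ i j, M i j ∈ Set.Icc (-⌈B⌉) ⌈B⌉}) _ _ h1
  · intro g hg i j
    have h3 := (hg i j).1
    have h4 : |(((ι g : Matrix (Fin n) (Fin n) ℤ) i j : ℤ) : ℝ)| ≤ B := h3
    rw [abs_le] at h4
    constructor
    · have h5 : (-(⌈B⌉ : ℝ)) ≤ (((ι g : Matrix (Fin n) (Fin n) ℤ) i j : ℤ) : ℝ) := by
        have := Int.le_ceil B
        linarith [h4.1]
      exact_mod_cast h5
    · have h5 : (((ι g : Matrix (Fin n) (Fin n) ℤ) i j : ℤ) : ℝ) ≤ (⌈B⌉ : ℝ) := by
        have := Int.le_ceil B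
        linarith [h4.2]
      exact_mod_cast h5
  · intro g _ g' _ h
    exact hι (Units.ext h)

/-- Groups which embed in `GL_n(ℤ)` are residually finite. -/
theorem intlin_resfin {G : Type} [Group G] {n : ℕ} (ι : G →* GL (Fin n) ℤ)
    (hι : Function.Injective ι) : VN.ResFin G := by
  intro g hg
  have h1 : (ι g : Matrix (Fin n) (Fin n) ℤ) ≠ 1 := by
    intro h
    apply hg
    apply hι
    rw [map_one]
    exact Units.ext h
  obtain ⟨i, j, hij⟩ : ∃ i j, (ι g : Matrix (Fin n) (Fin n) ℤ) i j ≠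
      (1 : Matrix (Fin n) (Fin n) ℤ) i j := by
    by_contra hcon
    push Not at hcon
    exact h1 (Matrix.ext hcon)
  set m : ℕ := ((ι g : Matrix (Fin n) (Fin n) ℤ) i j -
    (1 : Matrix (Fin n) (Fin n) ℤ) i j).natAbs + 1 with hm
  have : NeZero m := ⟨by omega⟩
  let ψ : G →* GL (Fin n) (ZMod m) :=
    (Matrix.GeneralLinearGroup.map (Int.castRingHom (ZMod m))).comp ι
  have : Finite (GL (Fin n) (ZMod m)) := inferInstance
  refine ⟨ψ.ker, inferInstance, ?_, ?_⟩
  · have : Finite ψ.range := inferInstance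
    exact Subgroup.finiteIndex_ker ψ
  · intro hk
    have h2 : ψ g = 1 := hk
    have h3 : ((ψ g : GL (Fin n) (ZMod m)) : Matrix (Fin n) (Fin n) (ZMod m)) i j =
        (1 : Matrix (Fin n) (Fin n) (ZMod m)) i j := by
      rw [h2, Units.val_one]
    have h4 : (((ι g : Matrix (Fin n) (Fin n) ℤ) i j : ℤ) : ZMod m) =
        (((1 : Matrix (Fin n) (Fin n) ℤ) i j : ℤ) : ZMod m) := by
      have h5 : (((ι g : Matrix (Fin n) (Fin n) ℤ) i j : ℤ) : ZMod m) =
        (1 : Matrix (Fin n) (Fin n) (ZMod m)) i j := h3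
      rw [h5]
      by_cases h : i = j
      · rw [h, Matrix.one_apply_eq, Matrix.one_apply_eq, Int.cast_one]
      · rw [Matrix.one_apply_ne h, Matrix.one_apply_ne h, Int.cast_zero]
    have h6 : ((((ι g : Matrix (Fin n) (Fin n) ℤ) i j -
        (1 : Matrix (Fin n) (Fin n) ℤ) i j : ℤ)) : ZMod m) = 0 := by
      rw [Int.cast_sub, h4, sub_self]
    rw [ZMod.intCast_zmod_eq_zero_iff_dvd] at h6
    have h7 : (ι g : Matrix (Fin n) (Fin n) ℤ) i j - (1 : Matrix (Fin n) (Fin n) ℤ) i j = 0 := by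
      apply Int.eq_zero_of_abs_lt_dvd h6
      rw [Int.abs_eq_natAbs]
      exact_mod_cast Nat.lt_succ_self _
    exact hij (by linarith)

/-! ## Elementary matrices -/

section elem
variable {n : ℕ}

theorem transv_pow {i j : Fin n} (hij : i ≠ j) (b : ℤ) (k : ℕ) :
    (SpecialLinearGroup.transvection hij b) ^ k =
      SpecialLinearGroup.transvection hij ((k : ℤ) * b) := by
  induction k with
  | zero => simp
  | succ k ih =>
    rw [pow_succ, ih, ← SpecialLinearGroup.transvection_add]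
    congr 1
    push_cast
    ring

theorem transv_comm {i j k l : Fin n} (hij : i ≠ j) (hkl : k ≠ l) (hjk : j ≠ k) (hil : i ≠ l)
    (b c : ℤ) : SpecialLinearGroup.transvection hij b * SpecialLinearGroup.transvection hkl c =
      SpecialLinearGroup.transvection hkl c * SpecialLinearGroup.transvection hij b := by
  apply Subtype.ext
  show Matrix.transvection i j b * Matrix.transvection k l c =
    Matrix.transvection k l c * Matrix.transvection i j b
  simp only [Matrix.transvection, mul_add, add_mul, mul_one, one_mul]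
  rw [Matrix.single_mul_single_of_ne _ _ _ _ hjk, Matrix.single_mul_single_of_ne _ _ _ _ hil.symm]
  abel

theorem transv_commutator {i j k : Fin n} (hij : i ≠ j) (hjk : j ≠ k) (hik : i ≠ k) (b c : ℤ) :
    SpecialLinearGroup.transvection hij b * SpecialLinearGroup.transvection hjk c =
      SpecialLinearGroup.transvection hjk c * SpecialLinearGroup.transvection hij b *
        SpecialLinearGroup.transvection hik (b * c) := by
  apply Subtype.ext
  show Matrix.transvection i j b * Matrix.transvection j k c =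
    Matrix.transvection j k c * Matrix.transvection i j b * Matrix.transvection i k (b * c)
  simp only [Matrix.transvection, mul_add, add_mul, mul_one, one_mul]
  rw [Matrix.single_mul_single_same, Matrix.single_mul_single_of_ne _ _ _ _ hik.symm,
    Matrix.single_mul_single_of_ne _ _ _ _ hij.symm, Matrix.single_mul_single_of_ne _ _ _ _ hik.symm]
  simp
  abel

/-- A subgroup of finite index of `SL_n(ℤ)`, `n ≥ 3`, contains a commutator of infinite order
commuting with its two factors. -/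
theorem sln_heis (hn : 3 ≤ n) (H : Subgroup (SpecialLinearGroup (Fin n) ℤ)) [H.FiniteIndex] :
    ∃ a b z : H, z = a⁻¹ * b⁻¹ * a * b ∧ a * z = z * a ∧ b * z = z * b ∧
      ∀ k : ℕ, 0 < k → z ^ k ≠ 1 := by
  let i0 : Fin n := ⟨0, by omega⟩
  let i1 : Fin n := ⟨1, by omega⟩
  let i2 : Fin n := ⟨2, by omega⟩
  have h01 : i0 ≠ i1 := by intro h; simpa [i0, i1] using congrArg Fin.val h
  have h12 : i1 ≠ i2 := by intro h; simpa [i1, i2] using congrArg Fin.val h
  have h02 : i0 ≠ i2 := by intro h; simpa [i0, i2] using congrArg Fin.val h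
  obtain ⟨m, hm, ha⟩ : ∃ m : ℕ, 0 < m ∧ ∀ g : SpecialLinearGroup (Fin n) ℤ, g ^ m ∈ H := by
    have hH := H.normalCore.index_ne_zero_of_finite
    refine ⟨H.normalCore.index, Nat.pos_of_ne_zero hH, fun g => ?_⟩
    exact H.normalCore_le (Subgroup.pow_index_mem _ g)
  have ha1 := ha (SpecialLinearGroup.transvection h01 1)
  have hb1 := ha (SpecialLinearGroup.transvection h12 1)
  rw [transv_pow, mul_one] at ha1 hb1
  let a : H := ⟨_, ha1⟩
  let b : H := ⟨_, hb1⟩
  have hz : ((a⁻¹ * b⁻¹ * a * b : H) : SpecialLinearGroup (Fin n) ℤ) =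
      SpecialLinearGroup.transvection h02 ((m : ℤ) * m) := by
    show (SpecialLinearGroup.transvection h01 (m : ℤ))⁻¹ *
      (SpecialLinearGroup.transvection h12 (m : ℤ))⁻¹ *
      SpecialLinearGroup.transvection h01 (m : ℤ) * SpecialLinearGroup.transvection h12 (m : ℤ) = _
    rw [mul_assoc, transv_commutator h01 h12 h02]
    group
  refine ⟨a, b, a⁻¹ * b⁻¹ * a * b, rfl, ?_, ?_, ?_⟩
  · apply Subtype.ext
    show (a : SpecialLinearGroup (Fin n) ℤ) *
      ((a⁻¹ * b⁻¹ * a * b : H) : SpecialLinearGroup (Fin n) ℤ) =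
      ((a⁻¹ * b⁻¹ * a * b : H) : SpecialLinearGroup (Fin n) ℤ) * a
    rw [hz]
    exact transv_comm h01 h02 (fun h => h01 h.symm) h02 _ _
  · apply Subtype.ext
    show (b : SpecialLinearGroup (Fin n) ℤ) *
      ((a⁻¹ * b⁻¹ * a * b : H) : SpecialLinearGroup (Fin n) ℤ) =
      ((a⁻¹ * b⁻¹ * a * b : H) : SpecialLinearGroup (Fin n) ℤ) * b
    rw [hz]
    exact transv_comm h12 h02 (fun h => h02 h.symm) h12 _ _
  · intro k hk h
    have h1 := congrArg (Subtype.val) h
    rw [Subgroup.coe_pow, hz, transv_pow, Subgroup.coe_one] at h1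
    have h2 := congrArg (fun g : SpecialLinearGroup (Fin n) ℤ => (g : Matrix _ _ ℤ) i0 i2) h1
    simp only [SpecialLinearGroup.transvection_coe] at h2
    have h4 : ((1 : SpecialLinearGroup (Fin n) ℤ) : Matrix _ _ ℤ) i0 i2 = 0 :=
      Matrix.one_apply_ne h02
    rw [Matrix.add_apply, Matrix.one_apply_ne h02, Matrix.single_apply_same, zero_add, h4] at h2
    have h3 : (0 : ℤ) < (k : ℤ) * (m * m) := by positivity
    omega

end elem

/-- The inclusion of a subgroup of `SL_n(ℤ)`. -/
theorem sln_embed {n : ℕ} (H : Subgroup (SpecialLinearGroup (Fin n) ℤ)) :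
    ∃ ι : H →* GL (Fin n) ℤ, Function.Injective ι := by
  refine ⟨(SpecialLinearGroup.toGL (n := Fin n) (R := ℤ)).comp H.subtype, ?_⟩
  intro x y h
  apply Subtype.ext
  apply Subtype.ext
  exact congrArg (fun u : GL (Fin n) ℤ => (u : Matrix (Fin n) (Fin n) ℤ)) h

end Pool.Agent.VS
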